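import Pool.Agent.H.MP_aeb38e_lc.Inst
import Pool.Agent.H.MP_5be563_lc.PT.Main
import Pool.Agent.H.MP_5be563_lc.PT.Arith
import Pool.Agent.H.MP_5be563_lc.PT.Tree

/-!
The conditions on the output of an approximation scheme and of a gap test are decidable in
polynomial time.
-/

namespace Pool.Agent.H.JS

open Turing Pool.Agent.H.MP_5be563_lc.PT

namespace Acc

/-! ### Codes of schedules -/

/-- The code of a list, from the codes of its members. -/
theorem codeList_eq {α : Type} [Enc α] {c : α → List Bool} (hc : ∀ a, c a = (enc a).bits)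
    (l : List α) : codeList c l = (enc l).bits := by
  induction l with
  | nil => rfl
  | cons a l ih =>
    have h1 : codeList c (a :: l) = true :: (c a ++ codeList c l) := by
      simp [codeList]
    rw [h1, ih, hc a]
    rfl

theorem codeBool_eq (b : Bool) : codeBool b = (enc b).bits := by
  cases b <;> rfl

theorem codeSched_eq (s : List (List (List Bool))) : codeSched s = (enc s).bits :=
  codeList_eq (fun a => codeList_eq (fun a => codeList_eq codeBool_eq a) a) s

/-! ### Trees as lists -/

/-- A tree, read as a list of trees. -/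
def toL : D → List D
  | .nil => []
  | .cons a b => a :: toL b

theorem enc_toL (t : D) : enc (toL t) = enc t := by
  induction t with
  | nil => rfl
  | cons a b _ ih =>
    change D.cons (enc a) (enc (toL b)) = D.cons a b
    rw [ih]
    rfl

theorem toL_enc {α : Type} [Enc α] (l : List α) : toL (enc l) = l.map enc := by
  induction l with
  | nil => rfl
  | cons a l ih =>
    change enc a :: toL (enc l) = enc a :: l.map enc
    rw [ih]

theorem getD_toL {α : Type} [Enc α] (l : List α) (n : ℕ) (a : α) (h : enc a = D.nil) :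
    (toL (enc l)).getD n D.nil = enc (l.getD n a) := by
  rw [toL_enc, ← h]
  simp only [List.getD_eq_getElem?_getD, List.getElem?_map]
  cases l[n]? <;> rfl

/-- A tree, read as a bit. -/
def toB (t : D) : Bool := !((toL t).isEmpty)

theorem toB_enc (b : Bool) : toB (enc b) = b := by
  cases b <;> rfl

/-- The start time of operation `i` of job `j` in the schedule given by a tree. -/
def word (t : D) (j i : ℕ) : List Bool :=
  (toL ((toL ((toL t).getD j D.nil)).getD i D.nil)).map toB

theorem word_enc (s : List (List (List Bool))) (j i : ℕ) :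
    word (enc s) j i = (s.getD j []).getD i [] := by
  unfold word
  rw [getD_toL s j [] rfl, getD_toL _ i [] rfl, toL_enc, List.map_map]
  have h : toB ∘ enc = (fun b : Bool => b) := funext toB_enc
  rw [h, List.map_id']

section

variable {α : Type} [Enc α]

@[fun_prop]
theorem Poly.toL {t : α → D} (ht : Poly t) : Poly (fun a => toL (t a)) :=
  ht.congr_enc fun a => enc_toL (t a)

@[fun_prop]
theorem Poly.toB {t : α → D} (ht : Poly t) : Poly (fun a => toB (t a)) := by
  unfold Acc.toB
  fun_prop

@[fun_prop]
theorem Poly.word {t : α → D} {j i : α → ℕ} (ht : Poly t) (hj : Poly j) (hi : Poly i) :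
    Poly (fun a => word (t a) (j a) (i a)) := by
  unfold Acc.word
  fun_prop

end

/-! ### Binary numbers -/

theorem val_eq (l : List Bool) : val l = bval l := by
  induction l with
  | nil => rfl
  | cons b l ih =>
    have h : val (b :: l) = 2 * val l + b.toNat := rfl
    rw [h, ih, bval_cons, Nat.add_comm]

/-- A number in binary. -/
def bin (n : ℕ) : List Bool := bsum (List.replicate n [true])

theorem bval_bin (n : ℕ) : bval (bin n) = n := by
  unfold bin
  rw [bval_bsum]
  simp

section

variable {α : Type} [Enc α]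

@[fun_prop]
theorem Poly.bin {n : α → ℕ} (hn : Poly n) : Poly (fun a => bin (n a)) := by
  unfold Acc.bin
  fun_prop

end

/-! ### The test -/

/-- The operation number `i` of the job number `j`. -/
def op (I : Shop) (j i : ℕ) : ℕ × ℕ := (I.2.getD j []).getD i (0, 0)

/-- The test for one operation. -/
def one (t : D) (I : Shop) (e K j i : ℕ) : Bool :=
  ble (bmul (bin e) (badd (word t j i) (bin (op I j i).2))) (bin ((e + 1) * K))

/-- The test for all operations. -/
def chk (x : List Bool × Shop × ℕ × ℕ) : Bool :=
  (List.range x.2.1.2.length).all fun j =>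
    (List.range (x.2.1.2.getD j []).length).all fun i =>
      one (parseD x.1) x.2.1 x.2.2.1 x.2.2.2 j i

section

variable {α : Type} [Enc α]

@[fun_prop]
theorem Poly.op {I : α → Shop} {j i : α → ℕ} (hI : Poly I) (hj : Poly j) (hi : Poly i) :
    Poly (fun a => op (I a) (j a) (i a)) := by
  unfold Acc.op
  fun_prop

@[fun_prop]
theorem Poly.one {t : α → D} {I : α → Shop} {e K j i : α → ℕ} (ht : Poly t) (hI : Poly I)
    (he : Poly e) (hK : Poly K) (hj : Poly j) (hi : Poly i) :
    Poly (fun a => one (t a) (I a) (e a) (K a) (j a) (i a)) := by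
  unfold Acc.one
  fun_prop

end

theorem poly_chk : Poly chk := by
  unfold chk
  fun_prop

theorem one_iff (s : List (List (List Bool))) (I : Shop) (e K j i : ℕ) :
    one (enc s) I e K j i = true ↔ e * (startOf s j i + (op I j i).2) ≤ (e + 1) * K := by
  unfold one startOf
  rw [ble_iff, bval_bmul, bval_badd, bval_bin, bval_bin, bval_bin, word_enc, val_eq]

theorem isOp_iff (I : Shop) (j i m p : ℕ) :
    IsOp I j i m p ↔ j < I.2.length ∧ i < (I.2.getD j []).length ∧ op I j i = (m, p) := by
  unfold IsOp op
  constructor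
  · rintro ⟨job, h1, h2⟩
    have e1 : I.2.getD j [] = job := by
      rw [List.getD_eq_getElem?_getD, h1]
      rfl
    rw [e1]
    refine ⟨(List.getElem?_eq_some_iff.1 h1).1, (List.getElem?_eq_some_iff.1 h2).1, ?_⟩
    rw [List.getD_eq_getElem?_getD, h2]
    rfl
  · rintro ⟨h1, h2, h3⟩
    have e1 : I.2[j]? = some (I.2.getD j []) := by
      rw [List.getD_eq_getElem?_getD, List.getElem?_eq_getElem h1]
      rfl
    refine ⟨I.2.getD j [], e1, ?_⟩
    rw [← h3, List.getD_eq_getElem?_getD (l := I.2.getD j []), List.getElem?_eq_getElem h2]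
    rfl

theorem chk_iff (s : List (List (List Bool))) (I : Shop) (e K : ℕ) :
    chk (codeSched s, I, e, K) = true ↔
      ∀ j i m p, IsOp I j i m p → e * (startOf s j i + p) ≤ (e + 1) * K := by
  unfold chk
  simp only [List.all_eq_true, List.mem_range, codeSched_eq, parseD_bits, one_iff]
  constructor
  · intro h j i m p hop
    obtain ⟨h1, h2, h3⟩ := (isOp_iff I j i m p).1 hop
    have h4 := h j h1 i h2
    rw [h3] at h4
    exact h4
  · intro h j hj i hi
    exact h j i (op I j i).1 (op I j i).2 ((isOp_iff I j i _ _).2 ⟨hj, hi, rfl⟩)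

theorem exists_endsBy (I : Shop) (st : ℕ → ℕ → ℕ) : ∃ K, EndsBy I st K := by
  refine ⟨∑ j ∈ Finset.range I.2.length, ∑ i ∈ Finset.range (I.2.getD j []).length,
    (st j i + (op I j i).2), ?_⟩
  intro j i m p hop
  obtain ⟨h1, h2, h3⟩ := (isOp_iff I j i m p).1 hop
  have h4 : st j i + (op I j i).2 ≤ ∑ i ∈ Finset.range (I.2.getD j []).length,
      (st j i + (op I j i).2) :=
    Finset.single_le_sum (f := fun i => st j i + (op I j i).2) (fun _ _ => Nat.zero_le _)
      (Finset.mem_range.2 h2)
  have h5 := Finset.single_le_sum (f := fun j => ∑ i ∈ Finset.range (I.2.getD j []).length,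
      (st j i + (op I j i).2)) (fun _ _ => Nat.zero_le _) (Finset.mem_range.2 h1)
  rw [h3] at h4
  exact h4.trans h5

theorem exists_iff (I : Shop) (st : ℕ → ℕ → ℕ) (e K : ℕ) :
    (∀ j i m p, IsOp I j i m p → e * (st j i + p) ≤ (e + 1) * K) ↔
      ∃ K', EndsBy I st K' ∧ e * K' ≤ (e + 1) * K := by
  constructor
  · intro h
    classical
    obtain ⟨K0, hf, hmin⟩ : ∃ K0, EndsBy I st K0 ∧ ∀ m < K0, ¬ EndsBy I st m :=
      ⟨Nat.find (exists_endsBy I st), Nat.find_spec (exists_endsBy I st),
        fun m hm => Nat.find_min (exists_endsBy I st) hm⟩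
    refine ⟨K0, hf, ?_⟩
    rcases Nat.eq_zero_or_pos K0 with h0 | h0
    · rw [h0]
      simp
    · have hm := hmin (K0 - 1) (by omega)
      unfold EndsBy at hm
      push Not at hm
      obtain ⟨j, i, m, p, hop, hlt⟩ := hm
      have h1 := hf j i m p hop
      have h2 := h j i m p hop
      have h3 : st j i + p = K0 := by omega
      rw [h3] at h2
      exact h2
  · rintro ⟨K', h1, h2⟩ j i m p hop
    exact (Nat.mul_le_mul_left e (h1 j i m p hop)).trans h2

end Acc

theorem acc_scheme : ∃ acc : List Bool × Shop × ℕ × ℕ → Bool, Poly acc ∧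
    ∀ (s : List (List (List Bool))) (I : Shop) (e K : ℕ), acc (codeSched s, I, e, K) = true ↔
      ∃ K', EndsBy I (startOf s) K' ∧ e * K' ≤ (e + 1) * K :=
  ⟨Acc.chk, Acc.poly_chk, fun s I e K =>
    (Acc.chk_iff s I e K).trans (Acc.exists_iff I (startOf s) e K)⟩

theorem acc_test : ∃ acc : List Bool × Shop × ℕ × ℕ → Bool, Poly acc ∧
    ∀ (b : Bool) (I : Shop) (e K : ℕ), acc (codeBool b, I, e, K) = b :=
  ⟨fun x => x.1.headD false, by fun_prop, fun b I e K => by cases b <;> rfl⟩

end Pool.Agent.H.JS
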