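import Pool.Agent.H.MP_aeb38e_lc.PInst

/-!
The functions computed by the algorithm: the instance for the word `w` and its target makespan,
for a formula that is first replaced by copies of itself if it has few clauses.
-/

namespace Pool.Agent.H.JS

open Turing Pool.Agent.H.MP_5be563_lc.PT

/-- The parameters `m`, `k`, `E`, `M0`, `d0`. -/
abbrev Par := ℕ × ℕ × ℕ × ℕ × ℕ

/-- A formula with few clauses is replaced by `M0` copies of it. -/
def rep (M0 : ℕ) (φ : CNF) : CNF :=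
  if φ.2.length < M0 then (φ.1, (List.replicate M0 φ.2).flatten) else φ

/-- The number of levels. -/
def lev (k M0 d0 n : ℕ) : ℕ := ((d0 + 1) * n + M0 * M0) / k + 1

/-- The instance for the word `w`, with `m` machines. -/
def theInst (m k E M0 d0 : ℕ) (φ : CNF) (w : ℕ) : Shop :=
  (m, (instOf (rep M0 φ) k (lev k M0 d0 φ.1) E w).2)

/-- Its target makespan. -/
def theTarget (k E M0 d0 : ℕ) (φ : CNF) : ℕ :=
  target (lev k M0 d0 φ.1) (sOf (rep M0 φ).2.length) E

section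
variable {α : Type} [Enc α]

@[fun_prop]
theorem Poly.rep {M0 : α → ℕ} {φ : α → CNF} (hM : Poly M0) (hφ : Poly φ) :
    Poly (fun a => rep (M0 a) (φ a)) := by
  unfold JS.rep
  fun_prop

@[fun_prop]
theorem Poly.lev {k M0 d0 n : α → ℕ} (hk : Poly k) (hM : Poly M0) (hd : Poly d0) (hn : Poly n) :
    Poly (fun a => lev (k a) (M0 a) (d0 a) (n a)) := by
  unfold JS.lev
  fun_prop

end

/-- The instance, with the power `16 ^ (2 d)` replaced by its truncation. -/
def instC (p : Par) (φ : CNF) (W w : ℕ) : Shop :=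
  (p.1, (inst (rep p.2.2.2.1 φ) p.2.1 (lev p.2.1 p.2.2.2.1 p.2.2.2.2 φ.1)
    (sOf (rep p.2.2.2.1 φ).2.length)
    (capPow (lev p.2.1 p.2.2.2.1 p.2.2.2.2 φ.1) W * p.2.2.1) w).2)

/-- The target makespan, with the power `16 ^ (2 d)` replaced by its truncation. -/
def targetC (p : Par) (φ : CNF) (W : ℕ) : ℕ :=
  capPow (lev p.2.1 p.2.2.2.1 p.2.2.2.2 φ.1) W * (p.2.2.1 + 1) *
    len (sOf (rep p.2.2.2.1 φ).2.length)

theorem instC_eq {m k E M0 d0 : ℕ} {φ : CNF} {W w : ℕ} (h : 16 ^ (2 * lev k M0 d0 φ.1) ≤ W) :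
    instC (m, k, E, M0, d0) φ W w = theInst m k E M0 d0 φ w := by
  unfold instC theInst instOf blocks
  rw [capPow_eq h]

theorem targetC_eq {m k E M0 d0 : ℕ} {φ : CNF} {W : ℕ} (h : 16 ^ (2 * lev k M0 d0 φ.1) ≤ W) :
    targetC (m, k, E, M0, d0) φ W = theTarget k E M0 d0 φ := by
  unfold targetC theTarget target
  rw [capPow_eq h]

theorem poly_instC : Poly (fun x : Par × CNF × ℕ × ℕ => instC x.1 x.2.1 x.2.2.1 x.2.2.2) := by
  have h : Poly (fun x : Par × CNF × ℕ × ℕ => inst (rep x.1.2.2.2.1 x.2.1) x.1.2.1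
      (lev x.1.2.1 x.1.2.2.2.1 x.1.2.2.2.2 x.2.1.1) (sOf (rep x.1.2.2.2.1 x.2.1).2.length)
      (capPow (lev x.1.2.1 x.1.2.2.2.1 x.1.2.2.2.2 x.2.1.1) x.2.2.1 * x.1.2.2.1)
      x.2.2.2) := by
    fun_prop
  exact Poly.pair (by fun_prop) (Poly.comp (f := fun p : Shop => p.2) Poly.snd h)

theorem poly_targetC : Poly (fun x : Par × CNF × ℕ => targetC x.1 x.2.1 x.2.2) := by
  unfold targetC
  fun_prop

theorem alg {inp : Shop × ℕ × ℕ → List Bool} (hinp : Poly inp)
    {acc : List Bool × Shop × ℕ × ℕ → Bool} (hacc : Poly acc) :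
    ∃ (f : Par × CNF × ℕ × ℕ → List Bool) (g : Par × CNF × ℕ × ℕ × List Bool → Bool),
      Poly f ∧ Poly g ∧ ∀ (m k E M0 d0 : ℕ) (φ : CNF) (W w : ℕ),
        16 ^ (2 * lev k M0 d0 φ.1) ≤ W →
        f ((m, k, E, M0, d0), φ, W, w) =
          inp (theInst m k E M0 d0 φ w, E, theTarget k E M0 d0 φ) ∧
        ∀ y, g ((m, k, E, M0, d0), φ, W, w, y) =
          (φ.2.isEmpty || acc (y, theInst m k E M0 d0 φ w, E, theTarget k E M0 d0 φ)) := by
  have hf1 : Poly (fun x : Par × CNF × ℕ × ℕ =>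
      (instC x.1 x.2.1 x.2.2.1 x.2.2.2, x.1.2.2.1, targetC x.1 x.2.1 x.2.2.1)) := by
    refine Poly.pair poly_instC (Poly.pair (by fun_prop) ?_)
    exact Poly.comp (g := fun x : Par × CNF × ℕ × ℕ => (x.1, x.2.1, x.2.2.1)) poly_targetC
      (by fun_prop)
  have hg1 : Poly (fun x : Par × CNF × ℕ × ℕ × List Bool =>
      (x.2.2.2.2, instC x.1 x.2.1 x.2.2.1 x.2.2.2.1, x.1.2.2.1, targetC x.1 x.2.1 x.2.2.1)) := by
    refine Poly.pair (by fun_prop) ?_
    exact Poly.comp (g := fun x : Par × CNF × ℕ × ℕ × List Bool =>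
      (x.1, x.2.1, x.2.2.1, x.2.2.2.1)) hf1 (by fun_prop)
  refine ⟨fun x => inp (instC x.1 x.2.1 x.2.2.1 x.2.2.2, x.1.2.2.1, targetC x.1 x.2.1 x.2.2.1),
    fun x => x.2.1.2.isEmpty || acc (x.2.2.2.2, instC x.1 x.2.1 x.2.2.1 x.2.2.2.1, x.1.2.2.1,
      targetC x.1 x.2.1 x.2.2.1), Poly.comp hinp hf1, ?_, ?_⟩
  · exact Poly.or (by fun_prop) (Poly.comp hacc hg1)
  · intro m k E M0 d0 φ W w h
    refine ⟨?_, fun y => ?_⟩
    · show inp (instC (m, k, E, M0, d0) φ W w, E, targetC (m, k, E, M0, d0) φ W) = _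
      rw [instC_eq h, targetC_eq h]
    · show (φ.2.isEmpty || acc (y, instC (m, k, E, M0, d0) φ W w, E,
        targetC (m, k, E, M0, d0) φ W)) = _
      rw [instC_eq h, targetC_eq h]

theorem mem_rep {M0 : ℕ} {φ : CNF} {c : Clause} (h : c ∈ (rep M0 φ).2) : c ∈ φ.2 := by
  unfold rep at h
  split_ifs at h with h1
  · simp only [List.mem_flatten, List.mem_replicate] at h
    obtain ⟨l, ⟨-, rfl⟩, hc⟩ := h
    exact hc
  · exact h

theorem rep_fst {M0 : ℕ} {φ : CNF} : (rep M0 φ).1 = φ.1 := by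
  unfold rep
  split_ifs <;> rfl

theorem countP_copies (p : Clause → Bool) (l : List Clause) (n : ℕ) :
    (List.replicate n l).flatten.countP p = n * l.countP p := by
  induction n with
  | zero => simp
  | succ n ih =>
    rw [List.replicate_succ, List.flatten_cons, List.countP_append, ih]
    ring

theorem rep_spec {M0 d0 k : ℕ} {φ : CNF} (hk : 0 < k) (h : Sparse d0 φ) :
    (φ.2 ≠ [] → M0 ≤ (rep M0 φ).2.length) ∧
    (rep M0 φ).2.length ≤ d0 * φ.1 + M0 * M0 ∧
    (rep M0 φ).2.length ≤ k * lev k M0 d0 φ.1 ∧ (rep M0 φ).1 ≤ k * lev k M0 d0 φ.1 ∧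
    Vars (rep M0 φ) ∧ (Sat φ → Sat (rep M0 φ)) ∧ ∀ D, Far D φ → Far D (rep M0 φ) := by
  have hlen : (rep M0 φ).2.length ≤ d0 * φ.1 + M0 * M0 := by
    unfold rep
    split_ifs with h1
    · simp only [List.length_flatten, List.map_replicate, List.sum_replicate, smul_eq_mul]
      have := Nat.mul_le_mul_left M0 h1.le
      omega
    · have := h.1
      omega
  have hlev : (d0 + 1) * φ.1 + M0 * M0 ≤ k * lev k M0 d0 φ.1 := by
    unfold lev
    have h1 := Nat.div_add_mod ((d0 + 1) * φ.1 + M0 * M0) k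
    have h2 := Nat.mod_lt ((d0 + 1) * φ.1 + M0 * M0) hk
    rw [Nat.mul_add, Nat.mul_one]
    omega
  have e : (d0 + 1) * φ.1 = d0 * φ.1 + φ.1 := by ring
  refine ⟨fun hne => ?_, hlen, by omega, ?_, fun c hc => ?_, fun hs => ?_, fun D hD τ => ?_⟩
  · unfold rep
    split_ifs with h1
    · simp only [List.length_flatten, List.map_replicate, List.sum_replicate, smul_eq_mul]
      exact Nat.le_mul_of_pos_right _ (List.length_pos_iff.2 hne)
    · omega
  · rw [rep_fst]
    have : 0 ≤ M0 * M0 := Nat.zero_le _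
    omega
  · rw [rep_fst]
    exact h.2 c (mem_rep hc)
  · obtain ⟨τ, hτ⟩ := hs
    exact ⟨τ, fun c hc => hτ c (mem_rep hc)⟩
  · have h1 := hD τ
    unfold rep
    split_ifs with h2
    · simp only [List.length_flatten, List.map_replicate, List.sum_replicate, smul_eq_mul]
      rw [countP_copies]
      have h3 : 0 < M0 := by omega
      calc M0 * φ.2.length < M0 * (D * φ.2.countP fun c => !holds τ c) :=
            Nat.mul_lt_mul_of_pos_left h1 h3
        _ = _ := by ring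
    · exact h1

end Pool.Agent.H.JS
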