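import Pool.Agent.H.MP_aeb38e_lc.PInstB

/-!
The functions computed by the algorithm of the strong form: the instance for the word `w` and its
target makespan, for a formula that is first replaced by disjoint copies of itself if it has few
clauses.
-/

namespace Pool.Agent.H.JS

open Turing Pool.Agent.H.MP_5be563_lc.PT

/-- The parameters `tab`, `m`, `k`, `E`, `M0`, `B`. -/
abbrev Par2 := List (List ℕ) × ℕ × ℕ × ℕ × ℕ × ℕ

/-- The number of levels. -/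
def lev2 (k M0 B n : ℕ) : ℕ := ((B + 1) * n + 3 * (M0 * M0)) / k + 1

/-- The instance for the word `w`, with `m` machines. -/
def theInst2 (tab : List (List ℕ)) (m k E M0 B : ℕ) (φ : CNF) (w : ℕ) : Shop :=
  instB (rep2 M0 φ) m k (lev2 k M0 B φ.1) (lenB B (rep2 M0 φ).2.length k)
    (blocks (lev2 k M0 B φ.1) E) w tab

/-- Its target makespan. -/
def theTarget2 (k E M0 B : ℕ) (φ : CNF) : ℕ :=
  16 ^ (2 * lev2 k M0 B φ.1) * (E + 1) * lenB B (rep2 M0 φ).2.length k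

section
variable {α : Type} [Enc α]

@[fun_prop]
theorem Poly.lev2 {k M0 B n : α → ℕ} (hk : Poly k) (hM : Poly M0) (hB : Poly B) (hn : Poly n) :
    Poly (fun a => lev2 (k a) (M0 a) (B a) (n a)) := by
  unfold JS.lev2
  fun_prop

end

/-- The instance, with the power `16 ^ (2 d)` replaced by its truncation. -/
def instC2 (p : Par2) (φ : CNF) (W w : ℕ) : Shop :=
  instB (rep2 p.2.2.2.2.1 φ) p.2.1 p.2.2.1 (lev2 p.2.2.1 p.2.2.2.2.1 p.2.2.2.2.2 φ.1)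
    (lenB p.2.2.2.2.2 (rep2 p.2.2.2.2.1 φ).2.length p.2.2.1)
    (capPow (lev2 p.2.2.1 p.2.2.2.2.1 p.2.2.2.2.2 φ.1) W * p.2.2.2.1) w p.1

/-- The target makespan, with the power `16 ^ (2 d)` replaced by its truncation. -/
def targetC2 (p : Par2) (φ : CNF) (W : ℕ) : ℕ :=
  capPow (lev2 p.2.2.1 p.2.2.2.2.1 p.2.2.2.2.2 φ.1) W * (p.2.2.2.1 + 1) *
    lenB p.2.2.2.2.2 (rep2 p.2.2.2.2.1 φ).2.length p.2.2.1

theorem instC2_eq {m k E M0 B : ℕ} {tab : List (List ℕ)} {φ : CNF} {W w : ℕ}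
    (h : 16 ^ (2 * lev2 k M0 B φ.1) ≤ W) :
    instC2 (tab, m, k, E, M0, B) φ W w = theInst2 tab m k E M0 B φ w := by
  unfold instC2 theInst2 blocks
  rw [capPow_eq h]

theorem targetC2_eq {m k E M0 B : ℕ} {tab : List (List ℕ)} {φ : CNF} {W : ℕ}
    (h : 16 ^ (2 * lev2 k M0 B φ.1) ≤ W) :
    targetC2 (tab, m, k, E, M0, B) φ W = theTarget2 k E M0 B φ := by
  unfold targetC2 theTarget2
  rw [capPow_eq h]

theorem poly_instC2 :
    Poly (fun x : Par2 × CNF × ℕ × ℕ => instC2 x.1 x.2.1 x.2.2.1 x.2.2.2) := by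
  unfold instC2
  have h1 : Poly (fun x : Par2 × CNF × ℕ × ℕ => rep2 x.1.2.2.2.2.1 x.2.1) := by fun_prop
  have h2 : Poly (fun x : Par2 × CNF × ℕ × ℕ =>
      lev2 x.1.2.2.1 x.1.2.2.2.2.1 x.1.2.2.2.2.2 x.2.1.1) := by fun_prop
  have h3 : Poly (fun x : Par2 × CNF × ℕ × ℕ =>
      lenB x.1.2.2.2.2.2 (rep2 x.1.2.2.2.2.1 x.2.1).2.length x.1.2.2.1) := by fun_prop
  have h4 : Poly (fun x : Par2 × CNF × ℕ × ℕ =>
      capPow (lev2 x.1.2.2.1 x.1.2.2.2.2.1 x.1.2.2.2.2.2 x.2.1.1) x.2.2.1 * x.1.2.2.2.1) := by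
    fun_prop
  exact Poly.instB h1 (by fun_prop) (by fun_prop) h2 h3 h4 (by fun_prop) (by fun_prop)

theorem poly_targetC2 : Poly (fun x : Par2 × CNF × ℕ => targetC2 x.1 x.2.1 x.2.2) := by
  unfold targetC2
  fun_prop

theorem alg2 {inp : Shop × ℕ × ℕ → List Bool} (hinp : Poly inp)
    {acc : List Bool × Shop × ℕ × ℕ → Bool} (hacc : Poly acc) :
    ∃ (f : Par2 × CNF × ℕ × ℕ → List Bool) (g : Par2 × CNF × ℕ × ℕ × List Bool → Bool),
      Poly f ∧ Poly g ∧ ∀ (tab : List (List ℕ)) (m k E M0 B : ℕ) (φ : CNF) (W w : ℕ),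
        16 ^ (2 * lev2 k M0 B φ.1) ≤ W →
        f ((tab, m, k, E, M0, B), φ, W, w) =
          inp (theInst2 tab m k E M0 B φ w, E, theTarget2 k E M0 B φ) ∧
        ∀ y, g ((tab, m, k, E, M0, B), φ, W, w, y) =
          (φ.2.isEmpty || acc (y, theInst2 tab m k E M0 B φ w, E, theTarget2 k E M0 B φ)) := by
  have hf1 : Poly (fun x : Par2 × CNF × ℕ × ℕ =>
      (instC2 x.1 x.2.1 x.2.2.1 x.2.2.2, x.1.2.2.2.1, targetC2 x.1 x.2.1 x.2.2.1)) := by
    refine Poly.pair poly_instC2 (Poly.pair (by fun_prop) ?_)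
    exact Poly.comp (g := fun x : Par2 × CNF × ℕ × ℕ => (x.1, x.2.1, x.2.2.1)) poly_targetC2
      (by fun_prop)
  have hg1 : Poly (fun x : Par2 × CNF × ℕ × ℕ × List Bool =>
      (x.2.2.2.2, instC2 x.1 x.2.1 x.2.2.1 x.2.2.2.1, x.1.2.2.2.1,
        targetC2 x.1 x.2.1 x.2.2.1)) := by
    refine Poly.pair (by fun_prop) ?_
    exact Poly.comp (g := fun x : Par2 × CNF × ℕ × ℕ × List Bool =>
      (x.1, x.2.1, x.2.2.1, x.2.2.2.1)) hf1 (by fun_prop)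
  refine ⟨fun x => inp (instC2 x.1 x.2.1 x.2.2.1 x.2.2.2, x.1.2.2.2.1, targetC2 x.1 x.2.1 x.2.2.1),
    fun x => x.2.1.2.isEmpty || acc (x.2.2.2.2, instC2 x.1 x.2.1 x.2.2.1 x.2.2.2.1, x.1.2.2.2.1,
      targetC2 x.1 x.2.1 x.2.2.1), Poly.comp hinp hf1, ?_, ?_⟩
  · exact Poly.or (by fun_prop) (Poly.comp hacc hg1)
  · intro tab m k E M0 B φ W w h
    refine ⟨?_, fun y => ?_⟩
    · show inp (instC2 (tab, m, k, E, M0, B) φ W w, E, targetC2 (tab, m, k, E, M0, B) φ W) = _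
      rw [instC2_eq h, targetC2_eq h]
    · show (φ.2.isEmpty || acc (y, instC2 (tab, m, k, E, M0, B) φ W w, E,
        targetC2 (tab, m, k, E, M0, B) φ W)) = _
      rw [instC2_eq h, targetC2_eq h]

/-- The levels suffice. -/
theorem lev2_spec {M0 B k : ℕ} {φ : CNF} (hk : 0 < k) (h : Bdd B φ) :
    (rep2 M0 φ).2.length ≤ k * lev2 k M0 B φ.1 ∧ (rep2 M0 φ).1 ≤ k * lev2 k M0 B φ.1 := by
  have h1 := (rep2_spec (M0 := M0) h).2.1
  have h2 := h.length_le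
  have h3 := h.fst_le
  have h4 : (B + 1) * φ.1 + 3 * (M0 * M0) ≤ k * lev2 k M0 B φ.1 := by
    unfold lev2
    have h5 := Nat.div_add_mod ((B + 1) * φ.1 + 3 * (M0 * M0)) k
    have h6 := Nat.mod_lt ((B + 1) * φ.1 + 3 * (M0 * M0)) hk
    rw [Nat.mul_add k, Nat.mul_one]
    omega
  have h7 : (B + 1) * φ.1 = B * φ.1 + φ.1 := by ring
  have h8 : (rep2 M0 φ).1 ≤ φ.1 + 3 * (M0 * M0) := by
    unfold rep2
    split_ifs with h9
    · show M0 * φ.1 ≤ _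
      have h10 : M0 * φ.1 ≤ M0 * (3 * M0) := Nat.mul_le_mul_left _ (by omega)
      have h11 : M0 * (3 * M0) = 3 * (M0 * M0) := by ring
      omega
    · omega
  refine ⟨by omega, by omega⟩

end Pool.Agent.H.JS
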