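import Pool.Agent.H.MP_aeb38e_lc.Dyn2

/-! Alignment at an absolute rate: choice of the constants. -/

namespace Pool.Agent.H.JS2

open Finset
open Pool.Agent.H.JS (Exp)

theorem log_bound (C : ℕ) : ∃ L0, ∀ L, L0 ≤ L → C * (Nat.log 2 (11 * L ^ 2) + 1) ≤ L := by
  refine ⟨2 ^ (18 * C + 2), ?_⟩
  intro L hL
  have hLpos : 0 < L := lt_of_lt_of_le (by positivity) hL
  set k := Nat.log 2 L with hk
  have h1 : 18 * C + 2 ≤ k := by
    rw [hk]
    exact Nat.le_log_of_pow_le (by norm_num) hL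
  have h2 : 2 ^ k ≤ L := Nat.pow_log_le_self 2 hLpos.ne'
  have h3 : L < 2 ^ (k + 1) := Nat.lt_pow_succ_log_self (by norm_num) L
  have h4 : Nat.log 2 (11 * L ^ 2) < 4 + 2 * (k + 1) := by
    apply Nat.log_lt_of_lt_pow (by positivity)
    have h5 : L ^ 2 < (2 ^ (k + 1)) ^ 2 := Nat.pow_lt_pow_left h3 (by norm_num)
    calc 11 * L ^ 2 ≤ 16 * L ^ 2 := Nat.mul_le_mul_right _ (by norm_num)
      _ < 16 * (2 ^ (k + 1)) ^ 2 := Nat.mul_lt_mul_of_pos_left h5 (by norm_num)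
      _ = 2 ^ (4 + 2 * (k + 1)) := by
          rw [pow_add 2 4, mul_comm 2 (k + 1), pow_mul]
          norm_num
  obtain ⟨m, hm⟩ : ∃ m, k = 2 * m ∨ k = 2 * m + 1 := ⟨k / 2, by omega⟩
  have hm9 : 9 * C ≤ m := by omega
  have h5 : (m + 1) * (m + 1) ≤ 2 ^ k := by
    have h6 : m + 1 ≤ 2 ^ m := Nat.lt_two_pow_self
    calc (m + 1) * (m + 1) ≤ 2 ^ m * 2 ^ m := Nat.mul_le_mul h6 h6
      _ = 2 ^ (2 * m) := by rw [← pow_add]; congr 1; ring
      _ ≤ 2 ^ k := Nat.pow_le_pow_right (by norm_num) (by omega)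
  calc C * (Nat.log 2 (11 * L ^ 2) + 1) ≤ C * (2 * k + 6 + 1) :=
        Nat.mul_le_mul_left _ (by omega)
    _ ≤ C * (9 * (m + 1)) := Nat.mul_le_mul_left _ (by omega)
    _ = (9 * C) * (m + 1) := by ring
    _ ≤ (m + 1) * (m + 1) := Nat.mul_le_mul_right _ (by omega)
    _ ≤ 2 ^ k := h5
    _ ≤ L := h2

/-- Alignment at an absolute rate: for each `Γ` there are `e0` and `L0` such that for `L ≥ L0`
divisible by 3 there is a word `w` such that in every schedule (for any number `q` of jobs and any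
expander table) with delay at most `1/e0` of the length all but `q L / Γ` of the pairs
(unit, job) are aligned. -/
theorem align (Γ : ℕ) (hΓ : 0 < Γ) : ∃ e0 L0 : ℕ, 0 < e0 ∧ ∀ L, L0 ≤ L → 3 ∣ L →
    ∃ w < 11 ^ L, ∀ (q R1 e : ℕ) (sg st : ℕ → ℕ → ℕ), 0 < q → 0 < R1 → Exp q sg →
      e0 * e ≤ 3 * R1 * L →
      (∀ j < q, ∀ P P', P < P' → P' < 3 * R1 * L → st j P < st j P') →
      (∀ j < q, ∀ P < 3 * R1 * L, st j P < 3 * R1 * L + e) →
      (∀ i < q, ∀ j < q, i ≠ j → ∀ x < 3 * R1 * L, ∀ y < 3 * R1 * L, st i x = st j y →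
        x % 3 ≠ 2 → y % 3 ≠ 2 → sg (w / 11 ^ (x % L) % 11) i ≠ sg (w / 11 ^ (y % L) % 11) j) →
      ∃ (p t : ℕ → ℕ) (bad : Finset (ℕ × ℕ)), Γ * bad.card ≤ q * L ∧
        ∀ u < L, ∀ j < q, (u, j) ∉ bad →
          p j * L + u < 3 * R1 * L ∧ st j (p j * L + u) = t u := by
  set u := 396 * Γ with hu
  set l := 9 * (605 * u) with hl
  set c0 := Γ * (132 * l + 34) with hc0
  have hupos : 0 < u := by omega
  have hlpos : 0 < l := by omega
  have hc0pos : 34 ≤ c0 := by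
    calc 34 = 1 * (0 + 34) := by norm_num
      _ ≤ Γ * (132 * l + 34) := Nat.mul_le_mul hΓ (by omega)
  obtain ⟨L1, hL1⟩ := log_bound (132 * Γ * (u * l) + 2 * (u * l))
  refine ⟨24 * c0, L1 + 8 * c0 + 4 * Γ + 1, by omega, ?_⟩
  intro L hL h3L
  set g := Nat.log 2 (11 * L ^ 2) + 1 with hg
  have hgpos : 0 < g := Nat.succ_pos _
  have hLpos : 0 < L := by omega
  have hbig := hL1 L (by omega)
  rw [← hg] at hbig
  set h := u * g with hh
  have hhpos : 0 < h := Nat.mul_pos hupos hgpos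
  have hbig' : 132 * Γ * (h * l) + 2 * (h * l) ≤ L := by
    calc 132 * Γ * (h * l) + 2 * (h * l) = (132 * Γ * (u * l) + 2 * (u * l)) * g := by
          rw [hh]; ring
      _ ≤ L := hbig
  have hhl : h ≤ h * l := Nat.le_mul_of_pos_right h hlpos
  have hLh : h * l + h ≤ L := by
    have : 0 ≤ 132 * Γ * (h * l) := Nat.zero_le _
    omega
  have hnum : 11 * L ^ 2 ≤ 2 ^ h := by
    have h1 : 11 * L ^ 2 < 2 ^ g := Nat.lt_pow_succ_log_self (by norm_num) _
    have h2 : g ≤ h := by rw [hh]; exact Nat.le_mul_of_pos_left g hupos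
    exact h1.le.trans (Nat.pow_le_pow_right (by norm_num) h2)
  obtain ⟨w, hw, WP⟩ := exists_word L u g hupos hgpos hLpos h3L (show h * l ≤ L by omega) hnum
  refine ⟨w, hw, ?_⟩
  intro q R1 e sg st hq hR1 hE he hmono hH hconf
  set I := q * e / R1 + 1 with hI
  have hqL : L ≤ q * L := Nat.le_mul_of_pos_left L hq
  have hI1 : q * e ≤ R1 * I := by
    have h1 := Nat.div_add_mod (q * e) R1
    have h2 := Nat.mod_lt (q * e) hR1
    rw [hI, mul_add, mul_one]
    omega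
  have hI2 : (24 * c0) * (q * e / R1) ≤ 3 * (q * L) := by
    have h1 : R1 * (q * e / R1) ≤ q * e := Nat.mul_div_le _ _
    have h2 : R1 * ((24 * c0) * (q * e / R1)) ≤ R1 * (3 * (q * L)) := by
      calc R1 * ((24 * c0) * (q * e / R1)) = (24 * c0) * (R1 * (q * e / R1)) := by ring
        _ ≤ (24 * c0) * (q * e) := Nat.mul_le_mul_left _ h1
        _ = q * (24 * c0 * e) := by ring
        _ ≤ q * (3 * R1 * L) := Nat.mul_le_mul_left _ he
        _ = R1 * (3 * (q * L)) := by ring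
    exact Nat.le_of_mul_le_mul_left h2 hR1
  have hI3 : 8 * (c0 * (q * e / R1)) ≤ q * L := by
    have : (24 * c0) * (q * e / R1) = 3 * (8 * (c0 * (q * e / R1))) := by ring
    omega
  have hI4 : 272 * (q * e / R1) ≤ q * L := by
    have h1 : 34 * (q * e / R1) ≤ c0 * (q * e / R1) := Nat.mul_le_mul_right _ hc0pos
    omega
  have hIL : 2 * I + 1 < q * L := by omega
  obtain ⟨p, t, bad, hbad, hst⟩ := dynamic q R1 L l h g I e
    (fun P => w / 11 ^ (P % L) % 11) sg st hq hR1 hlpos hhpos hLh hE hmono hH hconf hI1 hIL WP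
  refine ⟨p, t, bad, ?_, hst⟩
  -- the count
  set X := g * l * (3 * L / (h * l)) with hX
  have hX1 : u * X ≤ 3 * L := by
    calc u * X = (h * l) * (3 * L / (h * l)) := by rw [hX, hh]; ring
      _ ≤ 3 * L := Nat.mul_div_le _ _
  have t1 : 4 * (33 * Γ * (q * (h * l))) ≤ q * L := by
    calc 4 * (33 * Γ * (q * (h * l))) = q * (132 * Γ * (h * l)) := by ring
      _ ≤ q * L := Nat.mul_le_mul_left _ (by omega)
  have t2 : 4 * (33 * Γ * (q * X)) ≤ q * L := by
    have h1 : 3 * (4 * (33 * Γ * (q * X))) ≤ 3 * (q * L) := by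
      calc 3 * (4 * (33 * Γ * (q * X))) = q * (396 * Γ * X) := by ring
        _ ≤ q * (3 * L) := Nat.mul_le_mul_left _ hX1
        _ = 3 * (q * L) := by ring
    omega
  have t3 : 4 * (c0 * I) ≤ q * L := by
    have h1 : c0 * I = c0 * (q * e / R1) + c0 := by rw [hI, mul_add, mul_one]
    rw [h1]
    omega
  have t4 : 4 * Γ ≤ q * L := by omega
  have hmain : Γ * (3 * (11 * (q * (h * l + X) + (4 * l + 1) * I)) + I + 1) =
      33 * Γ * (q * (h * l)) + 33 * Γ * (q * X) + c0 * I + Γ := by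
    rw [hc0]; ring
  calc Γ * bad.card ≤ Γ * (3 * (11 * (q * (h * l + X) + (4 * l + 1) * I)) + I + 1) :=
        Nat.mul_le_mul_left _ hbad
    _ = 33 * Γ * (q * (h * l)) + 33 * Γ * (q * X) + c0 * I + Γ := hmain
    _ ≤ q * L := by omega

end Pool.Agent.H.JS2
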