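import Pool.Agent.H.MP_aeb38e_lc.Defs

/-!
Formulas with a bounded number of occurrences of each variable.
-/

namespace Pool.Agent.H.JS

open Turing

/-- The variables of the literals of the formula, in their order: the literal number `r` of the
clause number `c` is at position `3 c + r`. -/
def varList (φ : CNF) : List ℕ := φ.2.flatMap fun c => [c.1.1, c.2.1.1, c.2.2.1]

/-- The variables of the literals are among `0, ..., n - 1`, and each of these numbers occurs at
least once and at most `B` times. -/
def Bdd (B : ℕ) (φ : CNF) : Prop :=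
  (∀ v ∈ varList φ, v < φ.1) ∧ ∀ v < φ.1, 1 ≤ (varList φ).count v ∧ (varList φ).count v ≤ B

/-- The gap exponential time hypothesis for formulas with a bounded number of occurrences. -/
def GapETHB : Prop :=
  ∃ B D H : ℕ, 0 < D ∧ 0 < H ∧
    ∀ (tm : FinTM2) (iA : tm.Γ tm.k₀ ≃ Bool) (oA : tm.Γ tm.k₁ ≃ Bool) (C : ℕ),
      ¬ ∀ φ : CNF, Bdd B φ → ∃ b : Bool,
        Outputs tm iA oA (codeCNF φ) (codeBool b) (C * 2 ^ (φ.1 / H)) ∧
        (Sat φ → b = true) ∧ (Far D φ → b = false)

end Pool.Agent.H.JS
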