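import Pool.Agent.H.MP_5be563_lc.PT.Main
import Pool.Agent.H.MP_5be563_lc.PT.Tree

/-!
The serialization of a tree is a polynomial-time function.
-/

namespace Pool.Agent.H.JS

open Pool.Agent.H.MP_5be563_lc.PT

theorem js_encLoop (m b c : List Bool) : ∀ (a l : List Bool),
    Run encLoop (mk4 ((enc l).bits ++ m) a b c) (mk4 ((enc (a.reverse ++ l)).bits ++ m) [] b c)
      (5 * a.length + 1) := by
  intro a
  induction a with
  | nil => intro l; exact Run.loop_e rfl
  | cons v a ih =>
    intro l
    have key := ih (v :: l)
    have : (v :: a).reverse ++ l = a.reverse ++ v :: l := by simp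
    rw [this]
    have h2 : 4 + (5 * a.length + 1) + 1 ≤ 5 * (v :: a).length + 1 := by simp; omega
    refine Run.mono ?_ h2
    cases v
    · refine Run.loop_f (l := a) rfl (n := 4) ?_ key
      rw [upd_A]
      have h1 := Run.push (k := .M) (b := false) (s := mk4 ((enc l).bits ++ m) a b c)
      have h2 := Run.push (k := .M) (b := true) (s := mk4 (false :: ((enc l).bits ++ m)) a b c)
      rw [mk4_M, upd_M] at h1 h2
      refine Run.mono (Run.seq h1 h2) (by omega)
    · refine Run.loop_t (l := a) rfl (n := 4) ?_ key
      rw [upd_A]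
      have h1 := Run.push (k := .M) (b := false) (s := mk4 ((enc l).bits ++ m) a b c)
      have h2 := Run.push (k := .M) (b := false) (s := mk4 (false :: ((enc l).bits ++ m)) a b c)
      have h3 := Run.push (k := .M) (b := true)
        (s := mk4 (false :: false :: ((enc l).bits ++ m)) a b c)
      have h4 := Run.push (k := .M) (b := true)
        (s := mk4 (true :: false :: false :: ((enc l).bits ++ m)) a b c)
      rw [mk4_M, upd_M] at h1 h2 h3 h4
      refine Run.mono (Run.seq h1 (Run.seq h2 (Run.seq h3 h4))) (by omega)

/-- The serialization of a tree, as a list of booleans. -/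
theorem poly_bitsD : Poly (fun d : D => d.bits) := by
  refine ⟨.seq (mv 1 true false) (.seq (.push .M false) encLoop),
    11 * Polynomial.X + 10, fun d m => ?_⟩
  have h1 := run_mv true false m [] [] [enc d]
  have h2 := Run.push (k := .M) (b := false)
    (s := mk4 m (cpre true (lbits [enc d]).reverse []) (cpre false (lbits [enc d]).reverse []) [])
  rw [mk4_M, upd_M] at h2
  have h3 := js_encLoop m [] [] (enc d).bits.reverse []
  have e0 : stk [enc d] m = mk4 (lbits [enc d] ++ m) [] [] [] := rfl
  have e1 : stk [enc d.bits] m =
      mk4 ((enc ((enc d).bits.reverse.reverse ++ [])).bits ++ m) [] [] [] := by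
    have : enc d = d := rfl
    rw [this]
    simp [stk]
  have e2 : mk4 (false :: m) (cpre true (lbits [enc d]).reverse [])
      (cpre false (lbits [enc d]).reverse []) [] =
      mk4 ((enc ([] : List Bool)).bits ++ m) (enc d).bits.reverse [] [] := by
    simp [cpre, D.bits]
  rw [← e2] at h3
  rw [e0, e1]
  refine Run.mono (Run.seq h1 (Run.seq h2 h3)) ?_
  simp [D.bits_length, sz]
  omega


theorem poly_bits {α β : Type} [Enc α] [Enc β] {f : α → β} (hf : Poly f) :
    Poly (fun a => (enc (f a)).bits) :=
  Poly.comp (f := fun d : D => d.bits) poly_bitsD (Poly.encD hf)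

end Pool.Agent.H.JS
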