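import Pool.Agent.H.MP_aeb38e_lc.Call

/-!
Calling an arbitrary machine inside a stack program.
-/

namespace Pool.Agent.H.MP_aeb38e_lc

open Function Turing Pool.Agent.H.MP_84f0af_lc

attribute [local instance] FinTM2.ΛFin FinTM2.σFin FinTM2.kFin FinTM2.Γk₀Fin

/-- symbols pushed by a statement -/
def pushSet {K : Type} {Γ : K → Type} {Λ σ : Type} : TM2.Stmt Γ Λ σ → Set (Σ k, Γ k)
  | .push k f s => Set.range (fun v => ⟨k, f v⟩) ∪ pushSet s
  | .peek _ _ s => pushSet s
  | .pop _ _ s => pushSet s
  | .load _ s => pushSet s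
  | .branch _ s t => pushSet s ∪ pushSet t
  | .goto _ => ∅
  | .halt => ∅

theorem pushSet_finite {K : Type} {Γ : K → Type} {Λ σ : Type} [Finite σ] :
    ∀ s : TM2.Stmt Γ Λ σ, (pushSet s).Finite := by
  intro s
  induction s with
  | push k f s ih => exact (Set.finite_range _).union ih
  | peek k f s ih => exact ih
  | pop k f s ih => exact ih
  | load a s ih => exact ih
  | branch p s t ih1 ih2 => exact ih1.union ih2
  | goto _ => exact Set.finite_empty
  | halt => exact Set.finite_empty

theorem goodStmt_of_sub {K : Type} {Γ : K → Type} {Λ σ : Type} {X : Set (Σ k, Γ k)} :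
    ∀ s : TM2.Stmt Γ Λ σ, pushSet s ⊆ X → GoodStmt (fun k => {g | ⟨k, g⟩ ∈ X}) s := by
  intro s
  induction s with
  | push k f s ih =>
    intro h
    exact ⟨fun v => h (Set.mem_union_left _ ⟨v, rfl⟩),
      ih (Set.subset_union_right.trans h)⟩
  | peek k f s ih => exact ih
  | pop k f s ih => exact ih
  | load a s ih => exact ih
  | branch p s t ih1 ih2 =>
    intro h
    exact ⟨ih1 (Set.subset_union_left.trans h), ih2 (Set.subset_union_right.trans h)⟩
  | goto _ => exact fun _ => trivial
  | halt => exact fun _ => trivial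

/-- all symbols in use -/
def symSet (M : FinTM2) : Set (Σ k, M.Γ k) :=
  Set.range (fun g => ⟨M.k₀, g⟩) ∪ ⋃ l, pushSet (M.m l)

theorem symSet_finite (M : FinTM2) : (symSet M).Finite :=
  (Set.finite_range _).union (Set.finite_iUnion fun l => pushSet_finite _)

/-- symbols for the simulation of a machine -/
abbrev MS (M : FinTM2) : Type := ↥(symSet M) ⊕ (Option M.Λ × M.σ)

/-- the alphabet of the programs which call the machine -/
abbrev BA (M : FinTM2) : Type := Bool ⊕ MS M

noncomputable instance (M : FinTM2) : Fintype (BA M) :=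
  haveI : Finite ↥(symSet M) := (symSet_finite M)
  Fintype.ofFinite _

noncomputable instance (M : FinTM2) : DecidableEq (BA M) := Classical.decEq _

open Classical in
/-- data of the simulation, with registers from `11` on -/
noncomputable def emb (M : FinTM2) : Emb M (BA M) where
  rg k := 12 + (Fintype.equivFin M.K k).1
  rg_inj k k' h := by
    have : (Fintype.equivFin M.K k).1 = (Fintype.equivFin M.K k').1 := by
      have h' : 12 + (Fintype.equivFin M.K k).1 = 12 + (Fintype.equivFin M.K k').1 := h
      omega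
    exact (Fintype.equivFin M.K).injective (Fin.ext this)
  q := 11
  hq k := by omega
  enc k g := if h : (⟨k, g⟩ : Σ k, M.Γ k) ∈ symSet M then .inr (.inl ⟨⟨k, g⟩, h⟩) else .inl false
  dec k x := match x with
    | .inr (.inl s) => if h : s.1.1 = k then some (h ▸ s.1.2) else none
    | _ => none
  good k := {g | (⟨k, g⟩ : Σ k, M.Γ k) ∈ symSet M}
  dec_enc k g h := by
    have h' : (⟨k, g⟩ : Σ k, M.Γ k) ∈ symSet M := h
    simp only [dif_pos h']
    rfl
  st x := .inr (.inr x)
  st_inj x y h := by simpa using h

theorem emb_good (M : FinTM2) (l : M.Λ) : GoodStmt (emb M).good (M.m l) :=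
  goodStmt_of_sub _ ((Set.subset_iUnion (fun l => pushSet (M.m l)) l).trans
    Set.subset_union_right)

/-- translation of a bit to an input symbol of the machine -/
noncomputable def toM (M : FinTM2) (iM : M.Γ M.k₀ ≃ Bool) : BA M → BA M
  | .inl y => (emb M).enc M.k₀ (iM.symm y)
  | x => x

/-- translation of an output symbol of the machine to a bit -/
noncomputable def frM (M : FinTM2) (oM : M.Γ M.k₁ ≃ Bool) : BA M → BA M := fun x =>
  match (emb M).dec M.k₁ x with
  | some g => .inl (oM g)
  | none => x

/-- the input word in register `10` (reversed) is given to the machine; its output is written to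
register `10` (reversed) -/
noncomputable def callA (M : FinTM2) (iM : M.Γ M.k₀ ≃ Bool) (oM : M.Γ M.k₁ ≃ Bool) :
    Cmd (BA M) :=
  .seq (trans (toM M iM) 10 ((emb M).rg M.k₀)) (.seq (callM (emb M))
    (trans (frM M oM) ((emb M).rg M.k₁) 10))

/-- constant for the time of a call -/
noncomputable def cA (M : FinTM2) : ℕ :=
  20 * (Fintype.card (BA M) + 3) * (stepCost M + 1)

theorem callA_run (M : FinTM2) (iM : M.Γ M.k₀ ≃ Bool) (oM : M.Γ M.k₁ ≃ Bool) {x y : List Bool}
    {t : ℕ} (h : Nonempty (TM2OutputsInTime M (x.map iM.invFun) (some (y.map oM.invFun)) t))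
    {S : Sto (BA M)} (h1 : S 10 = (x.map Sum.inl).reverse) (hemp : ∀ r, 11 ≤ r → S r = []) :
    y.length ≤ cA M * (x.length + t + 1) ∧
    ∃ n ≤ cA M * (x.length + t + 1), Run (callA M iM oM) S n
      (update S 10 (y.map Sum.inl).reverse) := by
  set E := emb M with hE
  have hrg : ∀ k, 11 < E.rg k := fun k => by
    show 11 < 12 + _
    omega
  have hEq : E.q = 11 := rfl
  have r1ne : (10 : ℕ) ≠ E.rg M.k₀ := by have := hrg M.k₀; omega
  obtain ⟨n1, hn1, r1⟩ := run_trans (toM M iM) r1ne (S 10) S rfl
  have e1 : ((S 10).map (toM M iM)).reverse ++ S (E.rg M.k₀) =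
      (x.map iM.invFun).map (E.enc M.k₀) := by
    rw [hemp _ (hrg _).le, List.append_nil, h1, List.map_reverse, List.reverse_reverse,
      List.map_map, List.map_map]
    rfl
  rw [e1] at r1
  set S1 := update (update S 10 []) (E.rg M.k₀) ((x.map iM.invFun).map (E.enc M.k₀))
    with hS1
  have hS1k : ∀ k, k ≠ M.k₀ → S1 (E.rg k) = [] := by
    intro k hk
    rw [hS1, update_of_ne (fun h => hk (E.rg_inj h)), update_of_ne (by have := hrg k; omega)]
    exact hemp _ (hrg k).le
  have hS1q : S1 E.q = [] := by
    rw [hS1, update_of_ne (E.hq _).symm, update_of_ne (by rw [hEq]; omega)]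
    exact hemp _ (by rw [hEq])
  obtain ⟨n2, hn2, S2, r2, h2a, h2b, h2c, h2d, h2e⟩ := callM_run E (emb_good M) h
    (by
      intro g _
      exact Set.mem_union_left _ ⟨g, rfl⟩) (S := S1) (by rw [hS1, update_self]) hS1k hS1q
  have r3ne : E.rg M.k₁ ≠ 10 := by have := hrg M.k₁; omega
  obtain ⟨n3, hn3, r3⟩ := run_trans (frM M oM) r3ne (S2 (E.rg M.k₁)) S2 rfl
  have e3 : ((S2 (E.rg M.k₁)).map (frM M oM)).reverse =
      (y.map fun z => (Sum.inl z : BA M)).reverse := by
    rw [h2a, List.map_map, List.map_map]
    congr 1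
    apply List.map_congr_left
    intro z hz
    have hz' := h2e (oM.symm z) (List.mem_map_of_mem hz)
    have h4 := E.dec_enc M.k₁ _ hz'
    show frM M oM (E.enc M.k₁ (oM.symm z)) = _
    unfold frM
    rw [← hE, h4]
    simp
  rw [e3] at r3
  have hl0 : (S 10).length = x.length := by rw [h1]; simp
  have hl2 : (S2 (E.rg M.k₁)).length ≤ x.length + 2 * n2 := by
    refine (Run.len_le r2 (E.rg M.k₁)).trans (Nat.add_le_add_right ?_ _)
    by_cases hk : M.k₁ = M.k₀
    · rw [hk, hS1, update_self, List.length_map, List.length_map]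
    · rw [hS1k _ hk]
      exact Nat.zero_le _
  have hly : y.length ≤ x.length + 2 * n2 := by
    rw [h2a] at hl2
    simpa using hl2
  rw [hl0] at hn1
  have hn3' : n3 ≤ (Fintype.card (BA M) + 3) * (x.length + 2 * n2) + 1 :=
    hn3.trans (Nat.add_le_add_right (Nat.mul_le_mul_left _ hl2) 1)
  have htime : y.length + n1 + (n2 + n3) ≤ cA M * (x.length + t + 1) := by
    unfold cA
    generalize Fintype.card (BA M) = c at *
    generalize stepCost M = p at *
    clear_value S1
    clear r1 r2 r3 h2a h2b h2c h2d h2e e1 e3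
    calc y.length + n1 + (n2 + n3) ≤ (x.length + 2 * n2) + ((c + 3) * x.length + 1) +
          (n2 + ((c + 3) * (x.length + 2 * n2) + 1)) := by
          omega
      _ = (2 * c + 7) * x.length + 2 + (2 * c + 9) * n2 := by ring
      _ ≤ (2 * c + 7) * x.length + 2 + (2 * c + 9) * (t * p + 3) :=
        Nat.add_le_add_left (Nat.mul_le_mul_left _ hn2) _
      _ ≤ 20 * (c + 3) * (p + 1) * (x.length + t + 1) := by
        generalize x.length = X
        have e : 20 * (c + 3) * (p + 1) * (X + t + 1) = (2 * c + 7) * X + 2 +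
          (2 * c + 9) * (t * p + 3) + ((18 * c + 53) * X + 20 * (c + 3) * (p * X + p + t) +
            (18 * c + 51) * (p * t) + (14 * c + 31)) := by ring
        rw [e]
        exact Nat.le_add_right _ _
  refine ⟨by omega, n1 + (n2 + n3), by omega, (Run.seq r1 (Run.seq r2 r3)).congr ?_⟩
  funext r
  have hsame : ∀ r, r < 11 → S2 r = S1 r := fun r hr =>
    h2d r (fun k h => by have := hrg k; omega) (by rw [hEq]; omega)
  have hS1' : ∀ r, r < 11 → S1 r = update S 10 [] r := fun r hr => by
    rw [hS1, update_of_ne (by have := hrg M.k₀; omega)]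
  by_cases h10 : r = 10
  · subst h10
    rw [update_self, update_self, hsame 10 (by omega), hS1' 10 (by omega), update_self,
      List.append_nil]
  · rw [update_of_ne h10, update_of_ne h10]
    by_cases hr : r < 11
    · rw [update_of_ne (by have := hrg M.k₁; omega), hsame r hr, hS1' r hr, update_of_ne h10]
    · rw [hemp r (by omega)]
      by_cases hk : r = E.rg M.k₁
      · rw [hk, update_self]
      · rw [update_of_ne hk]
        by_cases hq : r = E.q
        · rw [hq]; exact h2c
        · by_cases hex : ∃ k, E.rg k = r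
          · obtain ⟨k, rfl⟩ := hex
            exact h2b k (fun h => hk (by rw [h]))
          · rw [h2d r (fun k h => hex ⟨k, h⟩) hq, hS1,
              update_of_ne (fun h => hex ⟨_, h.symm⟩), update_of_ne (by omega)]
            exact hemp r (by omega)

end Pool.Agent.H.MP_aeb38e_lc
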