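import Pool.Agent.H.MP_aeb38e_lc.St
import Pool.Agent.H.MP_aeb38e_lc.Emb

/-!
The body of the loop over all words.
-/

namespace Pool.Agent.H.MP_aeb38e_lc

open Function Turing Pool.Agent.H.MP_84f0af_lc
open Pool.Agent.H.MP_5be563_lc.PT (Enc enc sz mk4 stk Prog)

/-- one pass: `pf` computes the input word from the state in register `8`, the machine is called,
`pg` tests its output, `ps` computes the next state -/
noncomputable def lbody (pf pg ps : Prog) (M : FinTM2) (iM : M.Γ M.k₀ ≃ Bool)
    (oM : M.Γ M.k₁ ≃ Bool) : Cmd (BA M) :=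
  .seq (.pop 6) (.seq (moveAll 8 10) (.seq (dupAll 10 8 2) (.seq (tr (MS M) pf)
  (.seq (tr (MS M) MP_5be563_lc.PT.ofEnc) (.seq (moveAll 2 10) (.seq (callA M iM oM)
  (.seq (moveAll 10 2) (.seq (tr (MS M) MP_5be563_lc.PT.toEnc) (.seq (moveAll 8 10)
  (.seq (dupAll 10 8 2) (.seq (.push 2 mk) (.seq (tr (MS M) pg)
  (.seq (.ite 2 isT (.seq (.pop 2) (.seq (.pop 2) (.pop 2))) (.seq (.pop 2) (.push 9 mk)))
  (.seq (moveAll 8 10) (.seq (moveAll 10 2) (.seq (tr (MS M) ps) (.seq (moveAll 2 10)
  (moveAll 10 8))))))))))))))))))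

/-- the time of the body -/
def tBody (c Z F P1 P2 P3 W : ℕ) : ℕ :=
  8 * Z + 4 * P1 + 4 * (32 * F + 2) + 2 * F + 40 * c * (F + W + 1) + 8 * Z +
    4 * P2 + 8 * Z + 4 * P3 + 100

theorem run_body {pf pg ps : Prog} (M : FinTM2) (iM : M.Γ M.k₀ ≃ Bool)
    (oM : M.Γ M.k₁ ≃ Bool) {X X' f y : List Bool} {r : Bool} {Z F P1 P2 P3 W : ℕ}
    (h1 : MP_5be563_lc.PT.Run pf (mk4 X [] [] []) (stk [enc f] []) P1)
    (hM : Nonempty (TM2OutputsInTime M (f.map iM.invFun) (some (y.map oM.invFun)) W))
    (h2 : MP_5be563_lc.PT.Run pg (mk4 (true :: (X ++ (enc y).bits)) [] [] [])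
      (mk4 (enc r).bits [] [] []) P2)
    (h3 : MP_5be563_lc.PT.Run ps (mk4 X [] [] []) (mk4 X' [] [] []) P3)
    (hX : X.length ≤ Z) (hX' : X'.length ≤ Z) (hf : f.length ≤ F) (k j : ℕ) :
    ∃ n ≤ tBody (cA M) Z F P1 P2 P3 W, Run (lbody pf pg ps M iM oM)
      (st [] [] [] (List.replicate (k + 1) mk) [] (il X) (List.replicate j mk) []) n
      (st [] [] [] (List.replicate k mk) [] (il X')
        (List.replicate (if r = true then j else j + 1) mk) []) := by
  have q1 := Run.pop 6 (st [] [] [] (List.replicate (k + 1) (mk : BA M)) [] (il X)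
    (List.replicate j mk) [])
  rw [st_6, up_6, List.replicate_succ, List.tail_cons] at q1
  rw [List.replicate_succ]
  generalize List.replicate k (mk : BA M) = w at q1 ⊢
  have q2 := run_moveAll (r := 8) (s := 10) (by omega) (il X)
    (st [] [] [] w [] (il X) (List.replicate j (mk : BA M)) []) rfl
  have q3 := run_dupAll (r := 10) (s := 8) (t := 2) (by omega) (by omega) (by omega)
    (il X).reverse (st [] [] [] w [] [] (List.replicate j (mk : BA M)) (il X).reverse) rfl
  simp only [up_8, up_10, up_2, st_2, st_8, st_10, List.append_nil, List.reverse_reverse,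
    List.length_reverse, List.length_map] at q2 q3
  have e1 : stk [enc f] [] = mk4 (enc f).bits [] [] [] := by simp [stk]
  have h1' := h1
  rw [e1] at h1'
  obtain ⟨n4, hn4, q4⟩ := run_tr h1' [] [] w [] (il X) (List.replicate j (mk : BA M)) []
  have h5 := MP_5be563_lc.PT.run_ofEnc f
  rw [e1] at h5
  obtain ⟨n5, hn5, q5⟩ := run_tr h5 [] [] w [] (il X) (List.replicate j (mk : BA M)) []
  have q6 := run_moveAll (r := 2) (s := 10) (by omega) (il f)
    (st [] [] (il f) w [] (il X) (List.replicate j (mk : BA M)) []) rfl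
  simp only [up_2, up_10, st_10, List.append_nil, List.length_map] at q6
  obtain ⟨hy, n7, hn7, q7⟩ := callA_run M iM oM hM
    (S := st [] [] [] w [] (il X) (List.replicate j (mk : BA M)) (il f).reverse) rfl
    (fun r hr => st_big _ _ _ _ _ _ _ _ hr)
  rw [up_10] at q7
  have q8 := run_moveAll (r := 10) (s := 2) (by omega) (il y).reverse
    (st [] [] [] w [] (il X) (List.replicate j (mk : BA M)) (il y).reverse) rfl
  simp only [up_2, up_10, st_2, List.append_nil, List.length_map, List.reverse_reverse,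
    List.length_reverse] at q8
  have h9 := MP_5be563_lc.PT.run_toEnc y
  have e9 : stk [enc y] [] = mk4 (enc y).bits [] [] [] := by simp [stk]
  rw [e9] at h9
  obtain ⟨n9, hn9, q9⟩ := run_tr h9 [] [] w [] (il X) (List.replicate j (mk : BA M)) []
  have q10 := run_moveAll (r := 8) (s := 10) (by omega) (il X)
    (st [] [] (il (enc y).bits) w [] (il X) (List.replicate j (mk : BA M)) []) rfl
  have q11 := run_dupAll (r := 10) (s := 8) (t := 2) (by omega) (by omega) (by omega)
    (il X).reverse (st [] [] (il (enc y).bits) w [] [] (List.replicate j (mk : BA M))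
      (il X).reverse) rfl
  have q12 := Run.push 2 (mk : BA M) (st [] [] (il X ++ il (enc y).bits) w [] (il X)
    (List.replicate j (mk : BA M)) [])
  simp only [up_8, up_10, up_2, st_2, st_8, st_10, List.append_nil, List.reverse_reverse,
    List.length_reverse, List.length_map] at q10 q11 q12
  have e12 : ((mk : BA M) :: (il X ++ il (enc y).bits)) = il (true :: (X ++ (enc y).bits)) := by
    simp [mk]
  rw [e12] at q12
  obtain ⟨n13, hn13, q13⟩ := run_tr h2 [] [] w [] (il X) (List.replicate j (mk : BA M)) []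
  have q14 : ∃ n14 ≤ 4, Run (.ite 2 isT (.seq (.pop 2) (.seq (.pop 2) (.pop 2)))
      (.seq (.pop 2) (.push 9 mk)))
      (st [] [] (il (enc r).bits) w [] (il X) (List.replicate j (mk : BA M)) []) n14
      (st [] [] [] w [] (il X) (List.replicate (if r = true then j else j + 1) mk) []) := by
    cases r with
    | true =>
      refine ⟨1 + (1 + (1 + 1)), le_rfl, Run.ite_true rfl ((Run.seq (Run.pop _ _)
        (Run.seq (Run.pop _ _) (Run.pop _ _))).congr ?_)⟩
      simp only [st_2, up_2, if_true]
      rfl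
    | false =>
      refine ⟨1 + (1 + 1), by omega, Run.ite_false rfl ((Run.seq (Run.pop _ _)
        (Run.push _ _ _)).congr ?_)⟩
      simp only [st_2, up_2, st_9, up_9]
      rfl
  obtain ⟨n14, hn14, q14⟩ := q14
  generalize List.replicate (if r = true then j else j + 1) (mk : BA M) = g at q14 ⊢
  have q15 := run_moveAll (r := 8) (s := 10) (by omega) (il X)
    (st [] [] [] w [] (il X) g []) rfl
  have q16 := run_moveAll (r := 10) (s := 2) (by omega) (il X).reverse
    (st [] [] [] w [] [] g (il X).reverse) rfl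
  obtain ⟨n17, hn17, q17⟩ := run_tr h3 [] [] w [] [] g []
  have q18 := run_moveAll (r := 2) (s := 10) (by omega) (il X')
    (st [] [] (il X') w [] [] g []) rfl
  have q19 := run_moveAll (r := 10) (s := 8) (by omega) (il X').reverse
    (st [] [] [] w [] [] g (il X').reverse) rfl
  simp only [up_8, up_10, up_2, st_2, st_8, st_10, List.append_nil, List.reverse_reverse,
    List.length_reverse, List.length_map] at q15 q16 q18 q19
  have hc : cA M * (f.length + W + 1) ≤ cA M * (F + W + 1) := Nat.mul_le_mul_left _ (by omega)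
  have hc1 : 1 ≤ cA M * (F + W + 1) := by
    refine Nat.mul_pos ?_ (by omega)
    unfold cA
    positivity
  have e : 40 * cA M * (F + W + 1) = 40 * (cA M * (F + W + 1)) := by ring
  have hall := Run.seq q1 (Run.seq q2 (Run.seq q3 (Run.seq q4 (Run.seq q5 (Run.seq q6
    (Run.seq q7 (Run.seq q8 (Run.seq q9 (Run.seq q10 (Run.seq q11 (Run.seq q12 (Run.seq q13
    (Run.seq q14 (Run.seq q15 (Run.seq q16 (Run.seq q17 (Run.seq q18 q19)))))))))))))))))
  refine ⟨_, ?_, hall⟩
  clear hall q1 q2 q3 q4 q5 q6 q7 q8 q9 q10 q11 q12 q13 q14 q15 q16 q17 q18 q19 h1 h1' h2 h3 hM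
  unfold tBody
  rw [e]
  generalize cA M * (F + W + 1) = z at *
  generalize cA M * (f.length + W + 1) = z' at *
  generalize X.length = lX at *
  generalize X'.length = lX' at *
  generalize f.length = lf at *
  generalize y.length = ly at *
  clear e
  linarith

end Pool.Agent.H.MP_aeb38e_lc
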