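import Pool.Agent.H.MP_aeb38e_lc.Sw

/-!
Simulation of an arbitrary machine of Mathlib (`FinTM2`) by a program of the stack language.
-/

namespace Pool.Agent.H.MP_aeb38e_lc

open Function Turing Pool.Agent.H.MP_84f0af_lc

attribute [local instance] FinTM2.ΛFin FinTM2.σFin

variable {A : Type}

/-- data for the simulation of the machine `M`: a register for each stack, a register `q` for the
state, codes of the stack symbols and of the states -/
structure Emb (M : FinTM2) (A : Type) where
  rg : M.K → ℕ
  rg_inj : Injective rg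
  q : ℕ
  hq : ∀ k, rg k ≠ q
  enc : ∀ k, M.Γ k → A
  dec : ∀ k, A → Option (M.Γ k)
  good : ∀ k, Set (M.Γ k)
  dec_enc : ∀ k, ∀ g ∈ good k, dec k (enc k g) = some g
  st : Option M.Λ × M.σ → A
  st_inj : Injective st

/-- all symbols pushed by a statement are good -/
def GoodStmt {K : Type} {Γ : K → Type} {Λ σ : Type} (good : ∀ k, Set (Γ k)) :
    TM2.Stmt Γ Λ σ → Prop
  | .push k f s => (∀ v, f v ∈ good k) ∧ GoodStmt good s
  | .peek _ _ s => GoodStmt good s
  | .pop _ _ s => GoodStmt good s
  | .load _ s => GoodStmt good s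
  | .branch _ s t => GoodStmt good s ∧ GoodStmt good t
  | .goto _ => True
  | .halt => True

variable {M : FinTM2} (E : Emb M A)

open Classical in
/-- the program for a statement, when the internal state is `v` -/
noncomputable def sc (E : Emb M A) : TM2.Stmt M.Γ M.Λ M.σ → M.σ → Cmd A
  | .push k f s, v => .seq (.push (E.rg k) (E.enc k (f v))) (sc E s v)
  | .peek k f s, v => sw (E.rg k) (fun v' o => decide (f v (o.bind (E.dec k)) = v'))
      (fun v' => sc E s v') (Finset.univ : Finset M.σ).toList
  | .pop k f s, v => sw (E.rg k) (fun v' o => decide (f v (o.bind (E.dec k)) = v'))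
      (fun v' => .seq (.pop (E.rg k)) (sc E s v')) (Finset.univ : Finset M.σ).toList
  | .load a s, v => sc E s (a v)
  | .branch p s t, v => cond (p v) (sc E s v) (sc E t v)
  | .goto l, v => .push E.q (E.st (some (l v), v))
  | .halt, v => .push E.q (E.st (none, v))

/-- the cost of a statement -/
def cost (N : ℕ) {K : Type} {Γ : K → Type} {Λ σ : Type} : TM2.Stmt Γ Λ σ → ℕ
  | .push _ _ s => 1 + cost N s
  | .peek _ _ s => cost N s + N
  | .pop _ _ s => 1 + cost N s + N
  | .load _ s => cost N s
  | .branch _ s t => cost N s + cost N t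
  | .goto _ => 1
  | .halt => 1

/-- the store `S` represents the stacks `T` -/
structure Rep (E : Emb M A) (S : Sto A) (T : ∀ k, List (M.Γ k)) : Prop where
  eq : ∀ k, S (E.rg k) = (T k).map (E.enc k)
  good : ∀ k, ∀ g ∈ T k, g ∈ E.good k

/-- the stores `S` and `S'` agree outside of the registers of the simulation -/
def Same (E : Emb M A) (S S' : Sto A) : Prop := ∀ r, (∀ k, E.rg k ≠ r) → r ≠ E.q → S' r = S r

theorem Same.trans {S S' S'' : Sto A} (h : Same E S S') (h' : Same E S' S'') : Same E S S'' :=
  fun r h1 h2 => (h' r h1 h2).trans (h r h1 h2)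

theorem Rep.head {S : Sto A} {T : ∀ k, List (M.Γ k)} (h : Rep E S T) (k : M.K) :
    ((S (E.rg k)).head?).bind (E.dec k) = (T k).head? := by
  rw [h.eq k]
  cases hT : T k with
  | nil => rfl
  | cons g l =>
    simp only [List.map_cons, List.head?_cons, Option.bind_some]
    rw [E.dec_enc k g (h.good k g (by rw [hT]; simp))]

theorem Rep.update {S : Sto A} {T : ∀ k, List (M.Γ k)} (h : Rep E S T) (k : M.K)
    (l : List (M.Γ k)) (hl : ∀ g ∈ l, g ∈ E.good k) :
    Rep E (update S (E.rg k) (l.map (E.enc k))) (update T k l) := by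
  refine ⟨fun k' => ?_, fun k' g hg => ?_⟩
  · by_cases h1 : k' = k
    · subst h1; rw [update_self, update_self]
    · rw [update_of_ne (fun h2 => h1 (E.rg_inj h2)), update_of_ne h1]
      exact h.eq k'
  · by_cases h1 : k' = k
    · subst h1; rw [update_self] at hg; exact hl g hg
    · rw [update_of_ne h1] at hg; exact h.good k' g hg

open Classical in
theorem sc_run : ∀ (s : TM2.Stmt M.Γ M.Λ M.σ) (_ : GoodStmt E.good s) (v : M.σ)
    (T : ∀ k, List (M.Γ k)) (S : Sto A), Rep E S T →
    ∃ n ≤ cost (Fintype.card M.σ) s, ∃ S', Run (sc E s v) S n S' ∧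
      Rep E S' (TM2.stepAux s v T).stk ∧
      S' E.q = E.st ((TM2.stepAux s v T).l,
        (TM2.stepAux s v T).var) :: S E.q ∧
      Same E S S' := by
  intro s
  induction s with
  | push k f s ih =>
    intro hg v T S hS
    have h1 := hS.update E k (f v :: T k) (by
      intro g hg'
      rcases List.mem_cons.1 hg' with rfl | h
      · exact hg.1 v
      · exact hS.good k g h)
    obtain ⟨n, hn, S', hr, h2, h3, h4⟩ := ih hg.2 v _ _ h1
    refine ⟨1 + n, by simp only [cost]; omega, S', ?_, h2, ?_, ?_⟩
    · refine Run.seq (Run.push _ _ _) ?_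
      rw [hS.eq k]
      exact hr
    · rw [h3, update_of_ne (E.hq k).symm]; rfl
    · intro r hr1 hr2
      rw [h4 r hr1 hr2, update_of_ne (hr1 k).symm]
  | peek k f s ih =>
    intro hg v T S hS
    obtain ⟨n, hn, S', hr, h2, h3, h4⟩ := ih hg (f v (T k).head?) T S hS
    obtain ⟨n', hn', hr'⟩ := run_sw (r := E.rg k)
      (p := fun v' o => decide (f v (o.bind (E.dec k)) = v')) (c := fun v' => sc E s v')
      (i := f v (T k).head?) (by rw [hS.head]; simp)
      (by intro j hj; rw [hS.head] at hj; exact (by simpa using hj : _ = j).symm) hr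
      Finset.univ.toList (by simp)
    refine ⟨n', ?_, S', hr', h2, h3, h4⟩
    rw [Finset.length_toList, Finset.card_univ] at hn'
    simp only [cost]
    omega
  | pop k f s ih =>
    intro hg v T S hS
    have h1 := hS.update E k (T k).tail (fun g hg' => hS.good k g (List.mem_of_mem_tail hg'))
    obtain ⟨n, hn, S', hr, h2, h3, h4⟩ := ih hg (f v (T k).head?) _ _ h1
    have hr0 : Run (.seq (.pop (E.rg k)) (sc E s (f v (T k).head?))) S (1 + n) S' := by
      refine Run.seq (Run.pop _ _) ?_
      rw [hS.eq k, ← List.map_tail]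
      exact hr
    obtain ⟨n', hn', hr'⟩ := run_sw (r := E.rg k)
      (p := fun v' o => decide (f v (o.bind (E.dec k)) = v'))
      (c := fun v' => .seq (.pop (E.rg k)) (sc E s v'))
      (i := f v (T k).head?) (by rw [hS.head]; simp)
      (by intro j hj; rw [hS.head] at hj; exact (by simpa using hj : _ = j).symm) hr0
      Finset.univ.toList (by simp)
    refine ⟨n', ?_, S', hr', h2, ?_, ?_⟩
    · rw [Finset.length_toList, Finset.card_univ] at hn'
      simp only [cost]
      omega
    · rw [h3, update_of_ne (E.hq k).symm]; rfl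
    · intro r hr1 hr2
      rw [h4 r hr1 hr2, update_of_ne (hr1 k).symm]
  | load a s ih =>
    intro hg v T S hS
    exact ih hg (a v) T S hS
  | branch p s t ih1 ih2 =>
    intro hg v T S hS
    cases hp : p v with
    | true =>
      obtain ⟨n, hn, S', hr, h2, h3, h4⟩ := ih1 hg.1 v T S hS
      refine ⟨n, by simp only [cost]; omega, S', ?_, ?_, ?_, h4⟩
      · simp only [sc, hp]; exact hr
      · simp only [TM2.stepAux, hp]; exact h2
      · simp only [TM2.stepAux, hp]; exact h3
    | false =>
      obtain ⟨n, hn, S', hr, h2, h3, h4⟩ := ih2 hg.2 v T S hS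
      refine ⟨n, by simp only [cost]; omega, S', ?_, ?_, ?_, h4⟩
      · simp only [sc, hp]; exact hr
      · simp only [TM2.stepAux, hp]; exact h2
      · simp only [TM2.stepAux, hp]; exact h3
  | goto l =>
    intro hg v T S hS
    refine ⟨1, le_rfl, _, Run.push _ _ _, ⟨fun k => ?_, hS.good⟩, ?_, ?_⟩
    · rw [update_of_ne (E.hq k)]; exact hS.eq k
    · rw [update_self]; rfl
    · intro r _ hr2
      rw [update_of_ne hr2]
  | halt =>
    intro hg v T S hS
    refine ⟨1, le_rfl, _, Run.push _ _ _, ⟨fun k => ?_, hS.good⟩, ?_, ?_⟩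
    · rw [update_of_ne (E.hq k)]; exact hS.eq k
    · rw [update_self]; rfl
    · intro r _ hr2
      rw [update_of_ne hr2]

open Classical in
/-- one step of the machine -/
noncomputable def body (E : Emb M A) : Cmd A :=
  sw E.q (fun (x : M.Λ × M.σ) o => decide (o = some (E.st (some x.1, x.2))))
    (fun x => .seq (.pop E.q) (sc E (M.m x.1) x.2))
    (Finset.univ : Finset (M.Λ × M.σ)).toList

open Classical in
/-- the machine -/
noncomputable def loopM (E : Emb M A) : Cmd A :=
  .loop E.q (fun o => decide (∃ x : M.Λ × M.σ, o = some (E.st (some x.1, x.2)))) (body E)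

/-- a bound for the cost of the simulation of a step -/
noncomputable def stepCost (M : FinTM2) : ℕ :=
  (∑ l, cost (Fintype.card M.σ) (M.m l)) + Fintype.card (M.Λ × M.σ) + 2

open Classical in
theorem loopM_run (hg : ∀ l, GoodStmt E.good (M.m l)) (L : List A) :
    ∀ (n : ℕ) (c c' : M.Cfg), c'.l = none → (flip bind M.step)^[n] (some c) = some c' →
    ∀ S : Sto A, Rep E S c.stk → S E.q = E.st (c.l, c.var) :: L →
    ∃ t ≤ n * stepCost M + 1, ∃ S', Run (loopM E) S t S' ∧ Rep E S' c'.stk ∧
      S' E.q = E.st (c'.l, c'.var) :: L ∧ Same E S S' := by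
  intro n
  induction n with
  | zero =>
    intro c c' hc' hcc S hS hq
    have e : c = c' := by simpa using hcc
    subst e
    refine ⟨1, by omega, S, Run.loop_false ?_, hS, hq, fun _ _ _ => rfl⟩
    rw [hq]
    simp only [List.head?_cons, decide_eq_false_iff_not, not_exists]
    intro x hx
    have := E.st_inj (Option.some.inj hx)
    rw [hc'] at this
    simp at this
  | succ n ih =>
    intro c c' hc' hcc S hS hq
    rw [iterate_succ_apply] at hcc
    obtain ⟨l, v, T⟩ := c
    cases l with
    | none =>
      exfalso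
      have h1 : (flip bind M.step) (some ⟨none, v, T⟩) = none := rfl
      rw [h1] at hcc
      have h2 : ∀ n, (flip bind M.step)^[n] (none : Option M.Cfg) = none := by
        intro n
        induction n with
        | zero => rfl
        | succ n ih => rw [iterate_succ_apply]; exact ih
      rw [h2] at hcc
      simp at hcc
    | some l =>
      have h1 : (flip bind M.step) (some ⟨some l, v, T⟩) = some (TM2.stepAux (M.m l) v T) := rfl
      rw [h1] at hcc
      have hS1 : Rep E (update S E.q L) T := by
        refine ⟨fun k => ?_, hS.good⟩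
        rw [update_of_ne (E.hq k)]; exact hS.eq k
      obtain ⟨n1, hn1, S1, hr1, h2, h3, h4⟩ := sc_run E (M.m l) (hg l) v T _ hS1
      have hr0 : Run (.seq (.pop E.q) (sc E (M.m l) v)) S (1 + n1) S1 := by
        refine Run.seq (Run.pop _ _) ?_
        rw [hq]
        exact hr1
      obtain ⟨n2, hn2, hr2⟩ := run_sw (r := E.q)
        (p := fun (x : M.Λ × M.σ) o => decide (o = some (E.st (some x.1, x.2))))
        (c := fun x => .seq (.pop E.q) (sc E (M.m x.1) x.2)) (i := (l, v))
        (by rw [hq]; simp) (by
          intro j hj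
          rw [hq] at hj
          have := E.st_inj (Option.some.inj (by simpa using hj : some _ = some _))
          simp only [Prod.mk.injEq, Option.some.injEq] at this
          exact Prod.ext this.1.symm this.2.symm) hr0
        Finset.univ.toList (by simp)
      obtain ⟨n3, hn3, S', hr3, h5, h6, h7⟩ := ih _ _ hc' hcc S1 h2 (by
        rw [h3, update_self])
      refine ⟨1 + (n2 + n3), ?_, S', Run.loop_true ?_ hr2 hr3, h5, h6, ?_⟩
      · rw [Finset.length_toList, Finset.card_univ] at hn2
        have h8 : cost (Fintype.card M.σ) (M.m l) ≤ ∑ l, cost (Fintype.card M.σ) (M.m l) :=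
          Finset.single_le_sum (f := fun l => cost (Fintype.card M.σ) (M.m l))
            (fun _ _ => Nat.zero_le _) (Finset.mem_univ l)
        have h9 : stepCost M = (∑ l, cost (Fintype.card M.σ) (M.m l)) +
          Fintype.card (M.Λ × M.σ) + 2 := rfl
        have h10 : (n + 1) * stepCost M = n * stepCost M + stepCost M := by ring
        omega
      · rw [hq]
        simp only [List.head?_cons, decide_eq_true_eq]
        exact ⟨(l, v), rfl⟩
      · intro r hr hr'
        rw [h7 r hr hr', h4 r hr hr', update_of_ne hr']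

/-- the call of the machine -/
noncomputable def callM (E : Emb M A) : Cmd A :=
  .seq (.push E.q (E.st (some M.main, M.initialState))) (.seq (loopM E) (.pop E.q))

theorem initList_stk (M : FinTM2) (l : List (M.Γ M.k₀)) :
    (initList M l).stk = update (fun _ => []) M.k₀ l := by
  funext k
  by_cases h : k = M.k₀
  · subst h
    rw [update_self]
    simp [initList]
  · rw [update_of_ne h]
    simp [initList, h]

theorem haltList_stk (M : FinTM2) (l : List (M.Γ M.k₁)) :
    (haltList M l).stk = update (fun _ => []) M.k₁ l := by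
  funext k
  by_cases h : k = M.k₁
  · subst h
    rw [update_self]
    simp [haltList]
  · rw [update_of_ne h]
    simp [haltList, h]

/-- Calling the machine: the input is in the register of the input stack, the other registers of
the machine are empty; after the call the output is in the register of the output stack. -/
theorem callM_run (hg : ∀ l, GoodStmt E.good (M.m l)) {x : List (M.Γ M.k₀)}
    {y : List (M.Γ M.k₁)} {n : ℕ} (h : Nonempty (TM2OutputsInTime M x (some y) n))
    (hx : ∀ g ∈ x, g ∈ E.good M.k₀) {S : Sto A}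
    (h0 : S (E.rg M.k₀) = x.map (E.enc M.k₀)) (h1 : ∀ k, k ≠ M.k₀ → S (E.rg k) = [])
    (hq : S E.q = []) :
    ∃ t ≤ n * stepCost M + 3, ∃ S', Run (callM E) S t S' ∧
      S' (E.rg M.k₁) = y.map (E.enc M.k₁) ∧ (∀ k, k ≠ M.k₁ → S' (E.rg k) = []) ∧ S' E.q = [] ∧
      Same E S S' ∧ ∀ g ∈ y, g ∈ E.good M.k₁ := by
  obtain ⟨⟨⟨s, hs⟩, hsn⟩⟩ := h
  have hsn : s ≤ n := hsn
  have hrep : Rep E (update S E.q [E.st (some M.main, M.initialState)]) (initList M x).stk := by
    rw [initList_stk]
    refine ⟨fun k => ?_, fun k g hgk => ?_⟩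
    · rw [update_of_ne (E.hq k)]
      by_cases h2 : k = M.k₀
      · subst h2; rw [update_self]; exact h0
      · rw [update_of_ne h2]; exact h1 k h2
    · by_cases h2 : k = M.k₀
      · subst h2; rw [update_self] at hgk; exact hx g hgk
      · rw [update_of_ne h2] at hgk; simp at hgk
  obtain ⟨t, ht, S', hr, hS', hq', hsame⟩ := loopM_run E hg [] s (initList M x) (haltList M y) rfl
    hs (update S E.q [E.st (some M.main, M.initialState)]) hrep (by rw [update_self]; rfl)
  have hr1 := Run.seq (Run.push E.q (E.st (some M.main, M.initialState)) S)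
    (Run.seq (by rw [hq]; exact hr) (Run.pop E.q S'))
  refine ⟨_, ?_, _, hr1, ?_, fun k hk => ?_, ?_, fun r hr hr' => ?_, fun g hgy => ?_⟩
  · have : s * stepCost M ≤ n * stepCost M := Nat.mul_le_mul_right _ hsn
    omega
  · rw [update_of_ne (E.hq _), hS'.eq, haltList_stk, update_self]
  · rw [update_of_ne (E.hq _), hS'.eq, haltList_stk, update_of_ne hk]; rfl
  · rw [update_self, hq']; rfl
  · rw [update_of_ne hr', hsame r hr hr', update_of_ne hr']
  · have := hS'.good M.k₁ g
    rw [haltList_stk, update_self] at this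
    exact this hgy

end Pool.Agent.H.MP_aeb38e_lc
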