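import Pool.Agent.H.MP_aeb38e_lc.LoopP
import Pool.Agent.H.MP_5be563_lc.PT.Arith

/-!
The machine which calls another machine for all words.
-/

namespace Pool.Agent.H.MP_aeb38e_lc

open Function Turing Pool.Agent.H.MP_84f0af_lc
open Pool.Agent.H.MP_5be563_lc.PT (Enc enc sz mk4 stk Prog Poly PBdd poly_mono)

theorem tBody_mono {c c' Z Z' F F' P1 P1' P2 P2' P3 P3' W W' : ℕ} (h1 : c ≤ c') (h2 : Z ≤ Z')
    (h3 : F ≤ F') (h4 : P1 ≤ P1') (h5 : P2 ≤ P2') (h6 : P3 ≤ P3') (h7 : W ≤ W') :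
    tBody c Z F P1 P2 P3 W ≤ tBody c' Z' F' P1' P2' P3' W' := by
  unfold tBody
  have : 40 * c * (F + W + 1) ≤ 40 * c' * (F' + W' + 1) :=
    Nat.mul_le_mul (by omega) (by omega)
  omega

theorem eval_mul_le (P : Polynomial ℕ) {u : ℕ} (hu : 1 ≤ u) (v : ℕ) :
    P.eval (u * v) ≤ u ^ P.natDegree * P.eval v := by
  rw [Polynomial.eval_eq_sum_range, Polynomial.eval_eq_sum_range, Finset.mul_sum]
  refine Finset.sum_le_sum fun i hi => ?_
  have hi' : i ≤ P.natDegree := by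
    have := Finset.mem_range.1 hi
    omega
  rw [mul_pow]
  calc P.coeff i * (u ^ i * v ^ i) = u ^ i * (P.coeff i * v ^ i) := by ring
    _ ≤ u ^ P.natDegree * (P.coeff i * v ^ i) :=
      Nat.mul_le_mul_right _ (Nat.pow_le_pow_right hu hi')

/-- the total time -/
noncomputable def totT (PS Qf Pf PG Ps : Polynomial ℕ) (m : ℕ) : ℕ :=
  (8 * m + 4 * PS.eval (2 * m + 1) + m * (6 * m + 6) + 8 * m + 30) +
  (m * (1 + tBody m (5 * m + 5) (Qf.eval (5 * m + 5)) (Pf.eval (5 * m + 5))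
    (PG.eval (5 * m + 5 + 4 * (m * (Qf.eval (5 * m + 5) + m + 1)) + 2))
    (Ps.eval (5 * m + 5)) m) + 1) + (2 * (5 * m + 5) + 2 * m + 10) + m + 5

theorem pbdd_totT (PS Qf Pf PG Ps : Polynomial ℕ) : PBdd (totT PS Qf Pf PG Ps) := by
  have hm : PBdd (fun m : ℕ => m) := PBdd.sz_self.mono fun m => by
    rw [MP_5be563_lc.PT.sz_nat]; omega
  have hc : ∀ k : ℕ, PBdd (fun _ : ℕ => k) := fun k => PBdd.const k
  have hz : PBdd (fun m : ℕ => 5 * m + 5) := ((hc 5).mul hm).add (hc 5)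
  have hF : PBdd (fun m : ℕ => Qf.eval (5 * m + 5)) := hz.eval Qf
  have hG : PBdd (fun m : ℕ => PG.eval (5 * m + 5 + 4 * (m * (Qf.eval (5 * m + 5) + m + 1)) + 2)) :=
    ((hz.add ((hc 4).mul (hm.mul ((hF.add hm).add (hc 1))))).add (hc 2)).eval PG
  have hB : PBdd (fun m : ℕ => tBody m (5 * m + 5) (Qf.eval (5 * m + 5)) (Pf.eval (5 * m + 5))
      (PG.eval (5 * m + 5 + 4 * (m * (Qf.eval (5 * m + 5) + m + 1)) + 2))
      (Ps.eval (5 * m + 5)) m) := by
    unfold tBody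
    exact (((((((((hc 8).mul hz).add ((hc 4).mul (hz.eval Pf))).add
      ((hc 4).mul (((hc 32).mul hF).add (hc 2)))).add ((hc 2).mul hF)).add
      (((hc 40).mul hm).mul ((hF.add hm).add (hc 1)))).add ((hc 8).mul hz)).add
      ((hc 4).mul hG)).add ((hc 8).mul hz)).add ((hc 4).mul (hz.eval Ps)) |>.add (hc 100)
  exact ((((((((hc 8).mul hm).add ((hc 4).mul ((((hc 2).mul hm).add (hc 1)).eval PS))).add
    (hm.mul (((hc 6).mul hm).add (hc 6)))).add ((hc 8).mul hm)).add (hc 30)).add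
    ((hm.mul ((hc 1).add hB)).add (hc 1))).add
    ((((hc 2).mul hz).add ((hc 2).mul hm)).add (hc 10))).add hm |>.add (hc 5)

theorem loop_machine' {α β : Type} [Enc α] [Enc β]
    {f : β × α × ℕ × ℕ → List Bool} (hf : Poly f)
    {g : β × α × ℕ × ℕ × List Bool → Bool} (hg : Poly g)
    {S : β × α → ℕ} (hS : Poly S) (v : Bool) :
    ∃ Q : Polynomial ℕ, ∀ (b : β) (M : FinTM2) (iM : M.Γ M.k₀ ≃ Bool) (oM : M.Γ M.k₁ ≃ Bool),
      ∃ (A : ℕ) (tm : FinTM2) (iA : tm.Γ tm.k₀ ≃ Bool) (oA : tm.Γ tm.k₁ ≃ Bool),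
        ∀ (a : α) (y : ℕ → List Bool),
          (∀ w < 2 ^ S (b, a), JS.Outputs M iM oM (f (b, a, 2 ^ S (b, a), w)) (y w)
            (2 ^ S (b, a))) →
          JS.Outputs tm iA oA (enc a).bits
            (enc (xor (decide (∀ w < 2 ^ S (b, a), g (b, a, 2 ^ S (b, a), w, y w) = true))
              v)).bits
            (A * Q.eval (2 ^ S (b, a) + sz a + sz b)) := by
  have hG : Poly (fun p : (β × α × ℕ × ℕ) × List Bool =>
      g (p.1.1, p.1.2.1, p.1.2.2.1, p.1.2.2.2, p.2)) := by fun_prop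
  have hs : Poly (fun X : β × α × ℕ × ℕ => (X.1, X.2.1, X.2.2.1, X.2.2.2 + 1)) := by fun_prop
  obtain ⟨Qf, hQf⟩ := hf.sz_le
  obtain ⟨pf, Pf, hpf⟩ := hf
  obtain ⟨pg, PG, hpg⟩ := hG
  obtain ⟨ps, Ps, hps⟩ := hs
  obtain ⟨pS, PS, hpS⟩ := hS
  obtain ⟨P, hP⟩ := pbdd_totT PS Qf Pf PG Ps
  refine ⟨P.comp (Polynomial.X + 1), fun b M iM oM => ?_⟩
  obtain ⟨tm, iA, oA, htm⟩ := exists_machine (A := BA M) (Sum.inl false) Sum.inl
    (fun x => match x with
      | .inl u => u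
      | _ => false) Sum.inl (fun _ => rfl)
    (.seq (setup (MS M) pS (enc b).bits) (.seq (loopP pf pg ps M iM oM) (finish (MS M) v)))
  refine ⟨(2 * cA M + 2) ^ P.natDegree, tm, iA, oA, fun a y hy => ?_⟩
  have estk : ∀ d : MP_5be563_lc.PT.D, stk [d] [] = mk4 d.bits [] [] [] := by
    intro d; simp [stk]
  set n := S (b, a) with hn
  set W := 2 ^ n with hW
  have hnW : n + 1 ≤ W := Nat.lt_two_pow_self
  -- first part
  have h1 := hpS (b, a) []
  rw [estk, estk] at h1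
  have e1 : (enc (b, a)).bits = true :: ((enc b).bits ++ (enc a).bits) := rfl
  rw [e1] at h1
  obtain ⟨t1, ht1, r1⟩ := run_setup (B := MS M) h1
  -- loop
  set X : ℕ → List Bool := fun w => (enc (b, a, W, w)).bits with hX
  have eX0 : (true :: ((enc b).bits ++ (true :: ((enc a).bits ++
      (true :: ((enc W).bits ++ (enc 0).bits)))))) = X 0 := rfl
  rw [eX0] at r1
  have hXl : ∀ w, (X w).length = sz b + sz a + (2 * W + 1) + (2 * w + 1) + 3 := by
    intro w
    show (enc (b, a, W, w)).bits.length = _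
    rw [MP_5be563_lc.PT.D.bits_length]
    show sz (b, a, W, w) = _
    rw [MP_5be563_lc.PT.sz_pair, MP_5be563_lc.PT.sz_pair, MP_5be563_lc.PT.sz_pair,
      MP_5be563_lc.PT.sz_nat, MP_5be563_lc.PT.sz_nat]
    omega
  have hXs : ∀ w, sz (b, a, W, w) = (X w).length := by
    intro w
    show _ = (enc (b, a, W, w)).bits.length
    rw [MP_5be563_lc.PT.D.bits_length]
    rfl
  set Z := sz b + sz a + 4 * W + 5 with hZ
  have hXZ : ∀ w ≤ W, (X w).length ≤ Z := by
    intro w hw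
    rw [hXl]
    omega
  set F := Qf.eval Z with hF
  have hfF : ∀ w < W, (f (b, a, W, w)).length ≤ F := by
    intro w hw
    have h2 := MP_5be563_lc.PT.length_lt_sz (f (b, a, W, w))
    have h3 := hQf (b, a, W, w)
    have h4 : Qf.eval (sz (b, a, W, w)) ≤ Qf.eval Z := by
      refine poly_mono _ ?_
      rw [hXs]
      exact hXZ w hw.le
    beta_reduce at h3
    omega
  have hyY : ∀ w < W, (y w).length ≤ cA M * (F + W + 1) := by
    intro w hw
    have h2 := (callA_run M iM oM (hy w hw)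
      (S := st [] [] [] [] [] [] [] (il (f (b, a, W, w))).reverse) rfl
      (fun r hr => st_big _ _ _ _ _ _ _ _ hr)).1
    refine h2.trans (Nat.mul_le_mul_left _ ?_)
    have := hfF w hw
    omega
  obtain ⟨t2, ht2, j', hj', hiff, r2⟩ := run_loopP M iM oM (pf := pf) (pg := pg) (ps := ps)
    (X := X) (f := fun w => f (b, a, W, w)) (y := y)
    (r := fun w => g (b, a, W, w, y w)) (Z := Z) (F := F) (P1 := Pf.eval Z)
    (P2 := PG.eval (Z + 4 * (cA M * (F + W + 1)) + 2)) (P3 := Ps.eval Z) (W := W) (T := W)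
    (by
      intro w hw
      have h2 := hpf (b, a, W, w) []
      rw [estk (enc (b, a, W, w))] at h2
      refine h2.mono (poly_mono _ ?_)
      rw [hXs]
      exact hXZ w hw.le)
    hy
    (by
      intro w hw
      have h2 := hpg ((b, a, W, w), y w) []
      rw [estk, estk] at h2
      refine h2.mono (poly_mono _ ?_)
      rw [MP_5be563_lc.PT.sz_pair, hXs]
      have h3 := hXZ w hw.le
      have h4 := MP_5be563_lc.PT.sz_lbool_le (y w)
      have h5 := hyY w hw
      omega)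
    (by
      intro w hw
      have h2 := hps (b, a, W, w) []
      rw [estk, estk] at h2
      refine h2.mono (poly_mono _ ?_)
      rw [hXs]
      exact hXZ w hw.le)
    hXZ hfF W 0 0 (by omega)
  obtain ⟨t3, ht3, r3⟩ := run_finish (B := MS M) v (X W) j'
  have e3 : decide (j' = 0) = decide (∀ w < W, g (b, a, W, w, y w) = true) := by
    apply decide_eq_decide.2
    rw [hiff]
    exact ⟨fun h w hw => h.2 w (Nat.zero_le _) hw, fun h => ⟨rfl, fun i _ hi => h i hi⟩⟩
  rw [e3] at r3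
  have hall := Run.seq r1 (Run.seq r2 r3)
  refine htm _ _ _ hall _ ?_
  -- time
  set m := cA M + (W + sz a + sz b) with hm
  have hlen : (enc a).bits.length = sz a := MP_5be563_lc.PT.D.bits_length _
  have hlenb : (enc b).bits.length = sz b := MP_5be563_lc.PT.D.bits_length _
  have hy3 := enc_bool_length (xor (decide (∀ w < W, g (b, a, W, w, y w) = true)) v)
  have hXW := hXZ W le_rfl
  have b1 : 4 * PS.eval (sz (b, a)) ≤ 4 * PS.eval (2 * m + 1) := by
    refine Nat.mul_le_mul_left _ (poly_mono _ ?_)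
    rw [MP_5be563_lc.PT.sz_pair]
    omega
  have b2 : n * (6 * W + 6) ≤ m * (6 * m + 6) := Nat.mul_le_mul (by omega) (by omega)
  have hF' : F ≤ Qf.eval (5 * m + 5) := poly_mono _ (by omega)
  have b3 : W * (1 + tBody (cA M) Z F (Pf.eval Z) (PG.eval (Z + 4 * (cA M * (F + W + 1)) + 2))
      (Ps.eval Z) W) ≤ m * (1 + tBody m (5 * m + 5) (Qf.eval (5 * m + 5)) (Pf.eval (5 * m + 5))
    (PG.eval (5 * m + 5 + 4 * (m * (Qf.eval (5 * m + 5) + m + 1)) + 2))
    (Ps.eval (5 * m + 5)) m) := by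
    refine Nat.mul_le_mul (by omega) (Nat.add_le_add_left (tBody_mono (by omega) (by omega) hF'
      (poly_mono _ (by omega)) (poly_mono _ ?_) (poly_mono _ (by omega)) (by omega)) _)
    have : cA M * (F + W + 1) ≤ m * (Qf.eval (5 * m + 5) + m + 1) :=
      Nat.mul_le_mul (by omega) (by omega)
    omega
  have htot : t1 + (t2 + t3) + (enc a).bits.length + (enc (xor (decide (∀ w < W,
      g (b, a, W, w, y w) = true)) v)).bits.length + 2 ≤ totT PS Qf Pf PG Ps m := by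
    unfold totT
    rw [hlen, hlenb, ← hW, ← hn] at ht1
    rw [hlen]
    clear_value X Z F W n m
    clear r1 r2 r3 hall htm hP hpf hpg hps hpS hQf hiff
    omega
  refine htot.trans ((hP m).trans ?_)
  rw [MP_5be563_lc.PT.sz_nat, Polynomial.eval_comp, Polynomial.eval_add, Polynomial.eval_X,
    Polynomial.eval_one]
  refine le_trans (poly_mono P ?_) (eval_mul_le P (by omega) _)
  have e : (2 * cA M + 2) * (W + sz a + sz b + 1) = 2 * (cA M + (W + sz a + sz b)) + 1 +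
    (2 * cA M * (W + sz a + sz b) + 1) := by ring
  rw [hm, e]
  exact Nat.le_add_right _ _

end Pool.Agent.H.MP_aeb38e_lc

namespace Pool.Agent.H.JS

open Turing Pool.Agent.H.MP_5be563_lc.PT

theorem loop_machine {α β : Type} [Enc α] [Enc β]
    {f : β × α × ℕ × ℕ → List Bool} (hf : Poly f)
    {g : β × α × ℕ × ℕ × List Bool → Bool} (hg : Poly g)
    {S : β × α → ℕ} (hS : Poly S) :
    ∃ Q : Polynomial ℕ, ∀ (b : β) (M : FinTM2) (iM : M.Γ M.k₀ ≃ Bool) (oM : M.Γ M.k₁ ≃ Bool),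
      ∃ (A : ℕ) (tm : FinTM2) (iA : tm.Γ tm.k₀ ≃ Bool) (oA : tm.Γ tm.k₁ ≃ Bool),
        ∀ (a : α) (y : ℕ → List Bool),
          (∀ w < 2 ^ S (b, a), Outputs M iM oM (f (b, a, 2 ^ S (b, a), w)) (y w)
            (2 ^ S (b, a))) →
          Outputs tm iA oA (enc a).bits
            (enc (decide (∀ w < 2 ^ S (b, a), g (b, a, 2 ^ S (b, a), w, y w) = true))).bits
            (A * Q.eval (2 ^ S (b, a) + sz a + sz b)) := by
  obtain ⟨Q, hQ⟩ := MP_aeb38e_lc.loop_machine' hf hg hS false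
  refine ⟨Q, fun b M iM oM => ?_⟩
  obtain ⟨A, tm, iA, oA, h⟩ := hQ b M iM oM
  refine ⟨A, tm, iA, oA, fun a y hy => ?_⟩
  have h1 := h a y hy
  rw [Bool.xor_false] at h1
  exact h1

/-- The same with an existential quantifier. -/
theorem loop_machine_ex {α β : Type} [Enc α] [Enc β]
    {f : β × α × ℕ × ℕ → List Bool} (hf : Poly f)
    {g : β × α × ℕ × ℕ × List Bool → Bool} (hg : Poly g)
    {S : β × α → ℕ} (hS : Poly S) :
    ∃ Q : Polynomial ℕ, ∀ (b : β) (M : FinTM2) (iM : M.Γ M.k₀ ≃ Bool) (oM : M.Γ M.k₁ ≃ Bool),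
      ∃ (A : ℕ) (tm : FinTM2) (iA : tm.Γ tm.k₀ ≃ Bool) (oA : tm.Γ tm.k₁ ≃ Bool),
        ∀ (a : α) (y : ℕ → List Bool),
          (∀ w < 2 ^ S (b, a), Outputs M iM oM (f (b, a, 2 ^ S (b, a), w)) (y w)
            (2 ^ S (b, a))) →
          Outputs tm iA oA (enc a).bits
            (enc (decide (∃ w < 2 ^ S (b, a), g (b, a, 2 ^ S (b, a), w, y w) = true))).bits
            (A * Q.eval (2 ^ S (b, a) + sz a + sz b)) := by
  have hg' : Poly (fun p => !g p) := by fun_prop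
  obtain ⟨Q, hQ⟩ := MP_aeb38e_lc.loop_machine' hf hg' hS true
  refine ⟨Q, fun b M iM oM => ?_⟩
  obtain ⟨A, tm, iA, oA, h⟩ := hQ b M iM oM
  refine ⟨A, tm, iA, oA, fun a y hy => ?_⟩
  have h1 := h a y hy
  have e : xor (decide (∀ w < 2 ^ S (b, a), (!g (b, a, 2 ^ S (b, a), w, y w)) = true)) true =
      decide (∃ w < 2 ^ S (b, a), g (b, a, 2 ^ S (b, a), w, y w) = true) := by
    rw [Bool.xor_true, ← decide_not]
    apply decide_eq_decide.2
    constructor
    · intro h2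
      by_contra hc
      refine h2 fun w hw => ?_
      cases hgw : g (b, a, 2 ^ S (b, a), w, y w) with
      | true => exact absurd ⟨w, hw, hgw⟩ hc
      | false => rfl
    · rintro ⟨w, hw, hgw⟩ h2
      have h3 := h2 w hw
      rw [hgw] at h3
      exact absurd h3 (by simp)
  rw [e] at h1
  exact h1

end Pool.Agent.H.JS
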