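import Mathlib

/-! Three elementary growth inequalities (helper57). -/

namespace Pool.Agent.H.JS

/-- A polynomial with natural coefficients is at most a constant times the power of its degree. -/
theorem poly_le (Q : Polynomial ℕ) : ∃ A, ∀ x, 1 ≤ x → Q.eval x ≤ A * x ^ Q.natDegree := by
  refine ⟨∑ i ∈ Finset.range (Q.natDegree + 1), Q.coeff i, fun x hx => ?_⟩
  rw [Polynomial.eval_eq_sum_range, Finset.sum_mul]
  refine Finset.sum_le_sum fun i hi => ?_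
  exact Nat.mul_le_mul_left _ (Nat.pow_le_pow_right hx (Nat.lt_succ_iff.1 (Finset.mem_range.1 hi)))

theorem two_pow_ge (n : ℕ) : n + 1 ≤ 2 ^ n := Nat.lt_two_pow_self

/-- `(n + 1) ^ j` is at most a constant times `2 ^ (n / h)`. -/
theorem pow_le_two_pow (h : ℕ) (hh : 0 < h) (j : ℕ) :
    ∃ c, ∀ n : ℕ, (n + 1) ^ j ≤ 2 ^ (n / h + c) := by
  -- `n + 1 ≤ g * (n / g + 1) ≤ g * 2 ^ (n / g)` with `g = h * (j + 1)`
  obtain ⟨g, hg⟩ : ∃ g, g = (j + 1) * h := ⟨_, rfl⟩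
  have hg0 : 0 < g := by rw [hg]; positivity
  refine ⟨g * j, fun n => ?_⟩
  have h1 : n + 1 ≤ g * (n / g + 1) := by
    have := Nat.lt_mul_div_succ n hg0
    omega
  have h2 : n + 1 ≤ 2 ^ g * 2 ^ (n / g) :=
    h1.trans (Nat.mul_le_mul ((Nat.le_succ _).trans (two_pow_ge g)) (two_pow_ge _))
  have h3 : j * (n / g) ≤ n / h := by
    have : n / g = n / h / (j + 1) := by rw [Nat.div_div_eq_div_mul, hg, Nat.mul_comm]
    rw [this]
    calc j * (n / h / (j + 1)) ≤ (j + 1) * (n / h / (j + 1)) :=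
          Nat.mul_le_mul_right _ (Nat.le_succ _)
      _ ≤ n / h := Nat.mul_div_le _ _
  calc (n + 1) ^ j ≤ (2 ^ g * 2 ^ (n / g)) ^ j := Nat.pow_le_pow_left h2 _
    _ = 2 ^ (j * (n / g) + g * j) := by
        rw [← pow_add, ← pow_mul]; congr 1; ring
    _ ≤ 2 ^ (n / h + g * j) := Nat.pow_le_pow_right (by norm_num) (by omega)

theorem num1 (Q : Polynomial ℕ) (H : ℕ) (hH : 0 < H) : ∃ h, 0 < h ∧ ∀ c0 B : ℕ, ∃ C, ∀ n : ℕ,
    Q.eval (2 ^ (n / h + c0) + B * (n + 1) ^ 2 + B) ≤ C * 2 ^ (n / H) := by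
  obtain ⟨A, hA⟩ := poly_le Q
  obtain ⟨D, hD⟩ : ∃ D, D = Q.natDegree := ⟨_, rfl⟩
  rw [← hD] at hA
  obtain ⟨h, hh⟩ : ∃ h, h = (D + 1) * H := ⟨_, rfl⟩
  have hh0 : 0 < h := by rw [hh]; positivity
  refine ⟨h, hh0, fun c0 B => ?_⟩
  obtain ⟨c, hc⟩ := pow_le_two_pow h hh0 2
  refine ⟨A * (2 ^ c0 + B * 2 ^ c + B) ^ D, fun n => ?_⟩
  have h1 : 2 ^ (n / h + c0) + B * (n + 1) ^ 2 + B ≤ (2 ^ c0 + B * 2 ^ c + B) * 2 ^ (n / h) := by
    have e1 : 2 ^ (n / h + c0) = 2 ^ c0 * 2 ^ (n / h) := by rw [pow_add, Nat.mul_comm]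
    have e2 : B * (n + 1) ^ 2 ≤ B * 2 ^ c * 2 ^ (n / h) := by
      rw [Nat.mul_assoc, ← pow_add, Nat.add_comm c]
      exact Nat.mul_le_mul_left _ (hc n)
    have e3 : B ≤ B * 2 ^ (n / h) := Nat.le_mul_of_pos_right _ (by positivity)
    rw [add_mul, add_mul]
    omega
  have h2 : D * (n / h) ≤ n / H := by
    have : n / h = n / H / (D + 1) := by rw [Nat.div_div_eq_div_mul, hh, Nat.mul_comm]
    rw [this]
    calc D * (n / H / (D + 1)) ≤ (D + 1) * (n / H / (D + 1)) :=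
          Nat.mul_le_mul_right _ (Nat.le_succ _)
      _ ≤ n / H := Nat.mul_div_le _ _
  have h0 : 1 ≤ 2 ^ (n / h + c0) + B * (n + 1) ^ 2 + B := by
    have : 0 < 2 ^ (n / h + c0) := by positivity
    omega
  calc Q.eval (2 ^ (n / h + c0) + B * (n + 1) ^ 2 + B)
      ≤ A * (2 ^ (n / h + c0) + B * (n + 1) ^ 2 + B) ^ D := hA _ h0
    _ ≤ A * ((2 ^ c0 + B * 2 ^ c + B) * 2 ^ (n / h)) ^ D :=
        Nat.mul_le_mul_left _ (Nat.pow_le_pow_left h1 _)
    _ = A * (2 ^ c0 + B * 2 ^ c + B) ^ D * 2 ^ (D * (n / h)) := by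
        rw [mul_pow, ← pow_mul, Nat.mul_comm (n / h) D, Nat.mul_assoc]
    _ ≤ A * (2 ^ c0 + B * 2 ^ c + B) ^ D * 2 ^ (n / H) :=
        Nat.mul_le_mul_left _ (Nat.pow_le_pow_right (by norm_num) h2)

theorem num2 (d h : ℕ) (hh : 0 < h) : ∃ b, ∀ c k, b * (c + 1) ≤ k → 0 < k → ∀ B : ℕ,
    ∃ c0, ∀ n : ℕ,
      B * (16 ^ (2 * ((d * n + B) / k + 1)) * (n + 1)) ^ (c + 1) + B ≤ 2 ^ (n / h + c0) := by
  refine ⟨16 * ((d + 1) * h), fun c k hk hk0 B => ?_⟩
  obtain ⟨g, hg⟩ : ∃ g, g = (d + 1) * h := ⟨_, rfl⟩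
  have hg0 : 0 < g := by rw [hg]; positivity
  rw [← hg] at hk
  obtain ⟨c1, hc1⟩ := pow_le_two_pow (2 * h) (by positivity) (c + 1)
  refine ⟨8 * B + 8 * (c + 1) + c1 + 2 * B + 1, fun n => ?_⟩
  -- the exponent
  have h1 : (d * n + B) / k * (c + 1) ≤ (d * n + B) / (16 * g) := by
    have : (d * n + B) / k ≤ (d * n + B) / (16 * g * (c + 1)) :=
      Nat.div_le_div_left hk (by positivity)
    calc (d * n + B) / k * (c + 1) ≤ (d * n + B) / (16 * g * (c + 1)) * (c + 1) :=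
          Nat.mul_le_mul_right _ this
      _ = (d * n + B) / (16 * g) / (c + 1) * (c + 1) := by rw [Nat.div_div_eq_div_mul]
      _ ≤ (d * n + B) / (16 * g) := Nat.div_mul_le_self _ _
  have h2 : 8 * ((d * n + B) / (16 * g)) ≤ n / (2 * h) + 8 * B := by
    have e1 : 8 * ((d * n + B) / (16 * g)) ≤ (d * n + B) / (2 * g) := by
      rw [show 16 * g = 2 * g * 8 by ring, ← Nat.div_div_eq_div_mul, Nat.mul_comm]
      exact Nat.div_mul_le_self _ _
    refine e1.trans ?_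
    have e2 : d * n + B ≤ (n / (2 * h) + 8 * B + 1) * (2 * g) - 1 := by
      have f1 : n + 1 ≤ (n / (2 * h) + 1) * (2 * h) := by
        have := Nat.lt_mul_div_succ n (show 0 < 2 * h by positivity)
        rw [Nat.mul_comm]
        omega
      have f2 : (d + 1) * (n + 1) ≤ (n / (2 * h) + 1) * (2 * g) := by
        calc (d + 1) * (n + 1) ≤ (d + 1) * ((n / (2 * h) + 1) * (2 * h)) :=
              Nat.mul_le_mul_left _ f1
          _ = (n / (2 * h) + 1) * (2 * g) := by rw [hg]; ring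
      have f3 : B ≤ 8 * B * (2 * g) := by nlinarith
      have f4 : (n / (2 * h) + 8 * B + 1) * (2 * g)
          = (n / (2 * h) + 1) * (2 * g) + 8 * B * (2 * g) := by ring
      have f5 : (d + 1) * (n + 1) = d * n + d + n + 1 := by ring
      omega
    have e3 : (d * n + B) / (2 * g) < n / (2 * h) + 8 * B + 1 := by
      rw [Nat.div_lt_iff_lt_mul (by positivity)]
      have : 0 < (n / (2 * h) + 8 * B + 1) * (2 * g) := by positivity
      omega
    omega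
  have h3 : 8 * ((d * n + B) / k + 1) * (c + 1) ≤ n / (2 * h) + 8 * B + 8 * (c + 1) := by
    calc 8 * ((d * n + B) / k + 1) * (c + 1)
        = 8 * ((d * n + B) / k * (c + 1)) + 8 * (c + 1) := by ring
      _ ≤ 8 * ((d * n + B) / (16 * g)) + 8 * (c + 1) := by omega
      _ ≤ n / (2 * h) + 8 * B + 8 * (c + 1) := by omega
  have h4 : n / (2 * h) + n / (2 * h) ≤ n / h := by
    have e : n / (2 * h) = n / h / 2 := by rw [Nat.div_div_eq_div_mul, Nat.mul_comm h]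
    rw [e]; omega
  have h5 : (16 ^ (2 * ((d * n + B) / k + 1)) * (n + 1)) ^ (c + 1)
      ≤ 2 ^ (n / h + (8 * B + 8 * (c + 1) + c1)) := by
    rw [mul_pow]
    have e1 : (16 ^ (2 * ((d * n + B) / k + 1))) ^ (c + 1)
        = 2 ^ (8 * ((d * n + B) / k + 1) * (c + 1)) := by
      rw [show (16 : ℕ) = 2 ^ 4 by norm_num, ← pow_mul, ← pow_mul]
      congr 1; ring
    rw [e1]
    calc 2 ^ (8 * ((d * n + B) / k + 1) * (c + 1)) * (n + 1) ^ (c + 1)
        ≤ 2 ^ (n / (2 * h) + 8 * B + 8 * (c + 1)) * 2 ^ (n / (2 * h) + c1) :=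
          Nat.mul_le_mul (Nat.pow_le_pow_right (by norm_num) h3) (hc1 n)
      _ = 2 ^ (n / (2 * h) + 8 * B + 8 * (c + 1) + (n / (2 * h) + c1)) := (pow_add _ _ _).symm
      _ ≤ 2 ^ (n / h + (8 * B + 8 * (c + 1) + c1)) :=
          Nat.pow_le_pow_right (by norm_num) (by omega)
  -- the factor and the summand
  obtain ⟨X, hX⟩ : ∃ X, X = n / h + (8 * B + 8 * (c + 1) + c1) := ⟨_, rfl⟩
  rw [← hX] at h5
  have h6 : B ≤ 2 ^ B := (Nat.le_succ _).trans (two_pow_ge B)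
  have h7 : B * (16 ^ (2 * ((d * n + B) / k + 1)) * (n + 1)) ^ (c + 1) ≤ 2 ^ B * 2 ^ X :=
    Nat.mul_le_mul h6 h5
  have h8 : 2 ^ B * 2 ^ X ≤ 2 ^ (X + 2 * B) := by
    rw [← pow_add]; exact Nat.pow_le_pow_right (by norm_num) (by omega)
  have h9 : B ≤ 2 ^ (X + 2 * B) := h6.trans (Nat.pow_le_pow_right (by norm_num) (by omega))
  calc B * (16 ^ (2 * ((d * n + B) / k + 1)) * (n + 1)) ^ (c + 1) + B
      ≤ 2 ^ (X + 2 * B) + 2 ^ (X + 2 * B) := Nat.add_le_add (h7.trans h8) h9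
    _ = 2 ^ (X + 2 * B + 1) := by rw [pow_succ]; ring
    _ = 2 ^ (n / h + (8 * B + 8 * (c + 1) + c1 + 2 * B + 1)) := by rw [hX]; congr 1; ring

theorem num3 (q B d h : ℕ) (hh : 0 < h) : ∃ c0, ∀ n : ℕ,
    q ^ (B * Nat.sqrt (d * n + B) + B) ≤ 2 ^ (n / h + c0) := by
  obtain ⟨g, hg⟩ : ∃ g, g = (d + 1) * h := ⟨_, rfl⟩
  have hg0 : 0 < g := by rw [hg]; positivity
  refine ⟨B + q * B * (q * B * g) + q * B, fun n => ?_⟩
  have h1 : q ^ (B * Nat.sqrt (d * n + B) + B) ≤ 2 ^ (q * (B * Nat.sqrt (d * n + B) + B)) := by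
    rw [pow_mul]
    exact Nat.pow_le_pow_left ((Nat.le_succ _).trans (two_pow_ge q)) _
  refine h1.trans (Nat.pow_le_pow_right (by norm_num) ?_)
  obtain ⟨s, hs⟩ : ∃ s, s = Nat.sqrt (d * n + B) := ⟨_, rfl⟩
  have hs2 : s * s ≤ d * n + B := by rw [hs]; exact Nat.sqrt_le _
  rw [← hs]
  have h2 : q * B * s ≤ (d * n + B) / g + q * B * (q * B * g) := by
    rcases Nat.lt_or_ge s (q * B * g) with hlt | hge
    · exact (Nat.mul_le_mul_left _ hlt.le).trans (Nat.le_add_left _ _)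
    · refine le_trans ?_ (Nat.le_add_right _ _)
      rw [Nat.le_div_iff_mul_le hg0]
      calc q * B * s * g = q * B * g * s := by ring
        _ ≤ s * s := Nat.mul_le_mul_right _ hge
        _ ≤ d * n + B := hs2
  have h3 : (d * n + B) / g ≤ n / h + B := by
    have e3 : (d * n + B) / g < n / h + B + 1 := by
      rw [Nat.div_lt_iff_lt_mul hg0]
      have f1 : n + 1 ≤ (n / h + 1) * h := by
        have := Nat.lt_mul_div_succ n hh
        rw [Nat.mul_comm]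
        omega
      have f2 : (d + 1) * (n + 1) ≤ (n / h + 1) * g := by
        calc (d + 1) * (n + 1) ≤ (d + 1) * ((n / h + 1) * h) := Nat.mul_le_mul_left _ f1
          _ = (n / h + 1) * g := by rw [hg]; ring
      have f3 : B ≤ B * g := Nat.le_mul_of_pos_right _ hg0
      have f4 : (n / h + B + 1) * g = (n / h + 1) * g + B * g := by ring
      have f5 : (d + 1) * (n + 1) = d * n + d + n + 1 := by ring
      omega
    omega
  calc q * (B * s + B) = q * B * s + q * B := by ring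
    _ ≤ n / h + (B + q * B * (q * B * g) + q * B) := by omega

end Pool.Agent.H.JS
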