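import Pool.Agent.H.MP_aeb38e_lc.Inst

/-!
The YES side: if `φ` is satisfiable, the jobs can be run with offsets (in blocks) whose base 16
digits encode the assignment and the true literals; the makespan is at most
`(16 ^ (2 d) + R) * len s`.
-/

set_option autoImplicit false

namespace Pool.Agent.H.JS

namespace Y

/-! ### Operations of the instance -/

theorem isOp_inst (φ : CNF) (k d s R w j P m p : ℕ) :
    IsOp (inst φ k d s R w) j P m p ↔
      j < 2 * k + 1 ∧ P < R * len s ∧ m = mach φ k d s w j P ∧ p = 1 := by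
  unfold IsOp inst
  simp only [List.getElem?_map]
  constructor
  · rintro ⟨job, h1, h2⟩
    have hj : j < 2 * k + 1 := by
      by_contra hj
      rw [List.getElem?_eq_none (by simpa using hj)] at h1
      simp at h1
    rw [List.getElem?_range hj] at h1
    simp only [Option.map_some, Option.some.injEq] at h1
    subst h1
    rw [List.getElem?_map] at h2
    have hP : P < R * len s := by
      by_contra hP
      rw [List.getElem?_eq_none (by simpa using hP)] at h2
      simp at h2
    rw [List.getElem?_range hP] at h2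
    simp only [Option.map_some, Option.some.injEq, Prod.mk.injEq] at h2
    exact ⟨hj, hP, h2.1.symm, h2.2.symm⟩
  · rintro ⟨hj, hP, rfl, rfl⟩
    rw [List.getElem?_range hj]
    refine ⟨_, rfl, ?_⟩
    rw [List.getElem?_map, List.getElem?_range hP]
    rfl

theorem mach_lt (φ : CNF) (k d s w j P : ℕ) (hj : j < 2 * k + 1) :
    mach φ k d s w j P < 2 * k + 2 := by
  unfold mach
  split
  · cases special φ k d (P % len s / 3) j (P / len s)
    · simp only [cond_false]; omega
    · simp
  · have := Nat.mod_lt (shift k s w P + j) (show 0 < 2 * k + 1 by omega)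
    omega

theorem simple_inst (φ : CNF) (k d s R w : ℕ) : Simple (inst φ k d s R w) := by
  constructor
  · simp [inst]
  · intro j i m p h
    rw [isOp_inst] at h
    obtain ⟨h1, h2, rfl, rfl⟩ := h
    exact ⟨mach_lt φ k d s w j i h1, rfl⟩

/-! ### Digits -/

theorem digit_eq (q c u : ℕ) : digit q c u = c / q ^ u % q := by
  unfold digit
  congr 1
  induction u generalizing c with
  | zero => simp
  | succ n ih =>
    rw [Function.iterate_succ_apply, ih, Nat.div_div_eq_div_mul, pow_succ']

theorem dig_lt (l p : ℕ) : digit 16 p l < 16 := Nat.mod_lt _ (by norm_num)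

/-- Digit of a sum with the carry. -/
theorem dig_add (l p z : ℕ) :
    ∃ e : ℕ, (e = 0 ∨ e = 1) ∧
      digit 16 (p + z) l % 16 = (digit 16 p l + digit 16 z l + e) % 16 := by
  have hpos : 0 < 16 ^ l := by positivity
  have h1 := Nat.div_add_mod p (16 ^ l)
  have h2 := Nat.div_add_mod z (16 ^ l)
  have m1 := Nat.mod_lt p hpos
  have m2 := Nat.mod_lt z hpos
  refine ⟨(p % 16 ^ l + z % 16 ^ l) / 16 ^ l, ?_, ?_⟩
  · have : (p % 16 ^ l + z % 16 ^ l) / 16 ^ l < 2 := by
      rw [Nat.div_lt_iff_lt_mul hpos]; omega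
    generalize (p % 16 ^ l + z % 16 ^ l) / 16 ^ l = e at this
    omega
  · simp only [digit_eq]
    have h3 : p + z = 16 ^ l * (p / 16 ^ l + z / 16 ^ l) + (p % 16 ^ l + z % 16 ^ l) := by
      rw [mul_add]; omega
    have h4 : (p + z) / 16 ^ l =
        p / 16 ^ l + z / 16 ^ l + (p % 16 ^ l + z % 16 ^ l) / 16 ^ l := by
      rw [h3, Nat.mul_add_div hpos]
    rw [h4]
    omega

/-- If `16 ^ (l+1)` divides `z`, the digit `l` does not change. -/
theorem dig_add_of_dvd (l p z : ℕ) (h : 16 ^ (l + 1) ∣ z) :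
    digit 16 (p + z) l = digit 16 p l := by
  obtain ⟨w, rfl⟩ := h
  have hpos : 0 < 16 ^ l := by positivity
  simp only [digit_eq]
  have : p + 16 ^ (l + 1) * w = p + 16 ^ l * (16 * w) := by rw [pow_succ]; ring
  rw [this, Nat.add_mul_div_left _ _ hpos]
  omega

/-- The number with the digits `a l`, `l < n`. -/
def off (a : ℕ → ℕ) (n : ℕ) : ℕ := ∑ l ∈ Finset.range n, a l * 16 ^ l

theorem off_succ (a : ℕ → ℕ) (n : ℕ) : off a (n + 1) = off a n + a n * 16 ^ n :=
  Finset.sum_range_succ _ _

theorem off_lt (a : ℕ → ℕ) (n : ℕ) (h : ∀ l < n, a l < 16) : off a n < 16 ^ n := by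
  induction n with
  | zero => simp [off]
  | succ n ih =>
    rw [off_succ, pow_succ]
    have h1 := ih fun l hl => h l (by omega)
    have h2 : a n * 16 ^ n ≤ 15 * 16 ^ n :=
      Nat.mul_le_mul_right _ (by have := h n (by omega); omega)
    omega

theorem dig_off (a : ℕ → ℕ) (n l : ℕ) (h : ∀ l < n, a l < 16) (hl : l < n) :
    digit 16 (off a n) l = a l := by
  induction n with
  | zero => omega
  | succ n ih =>
    rw [off_succ]
    rcases Nat.lt_or_ge l n with h1 | h1
    · rw [dig_add_of_dvd]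
      · exact ih (fun l hl => h l (by omega)) h1
      · exact Dvd.dvd.mul_left (pow_dvd_pow 16 (by omega)) _
    · have : l = n := by omega
      subst this
      rw [digit_eq, Nat.add_mul_div_right _ _ (by positivity),
        Nat.div_eq_of_lt (off_lt a l fun i hi => h i (by omega)), zero_add]
      exact Nat.mod_eq_of_lt (h l hl)

theorem dig_off_ge (a : ℕ → ℕ) (n l : ℕ) (h : ∀ l < n, a l < 16) (hl : n ≤ l) :
    digit 16 (off a n) l = 0 := by
  rw [digit_eq, Nat.div_eq_of_lt ((off_lt a n h).trans_le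
    (Nat.pow_le_pow_right (by norm_num) hl))]

/-- If the first digits vanish, the number is divisible by the power. -/
theorem dvd_off (a : ℕ → ℕ) (n d : ℕ) (h : ∀ l < d, a l = 0) : 16 ^ d ∣ off a n := by
  refine Finset.dvd_sum fun l _ => ?_
  rcases Nat.lt_or_ge l d with h1 | h1
  · rw [h l h1]; simp
  · exact Dvd.dvd.mul_left (pow_dvd_pow 16 h1) _

/-! ### Offsets -/

/-- Digits of the offset of clause job `i`. -/
def aX (k : ℕ) (u : ℕ → ℕ) (i l : ℕ) : ℕ := 4 * u (l * k + i)

/-- Digits of the offset of variable job `i`. -/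
def aY (k d : ℕ) (τ : ℕ → Bool) (i l : ℕ) : ℕ :=
  if l < d then 0 else 4 * (τ ((l - d) * k + i)).toNat

/-- The offset of job `j`, in blocks. -/
def ofs (k d : ℕ) (τ : ℕ → Bool) (u : ℕ → ℕ) (j : ℕ) : ℕ :=
  if j = 0 then 0 else if j ≤ k then off (aX k u (j - 1)) d
  else off (aY k d τ (j - 1 - k)) (2 * d)

theorem aX_lt (k : ℕ) (u : ℕ → ℕ) (hu : ∀ c, u c ≤ 2) (i l : ℕ) : aX k u i l < 16 := by
  have := hu (l * k + i)
  unfold aX; omega

theorem aY_lt (k d : ℕ) (τ : ℕ → Bool) (i l : ℕ) : aY k d τ i l < 16 := by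
  unfold aY
  split
  · norm_num
  · cases τ ((l - d) * k + i) <;> simp

theorem ofs_lt (k d : ℕ) (τ : ℕ → Bool) (u : ℕ → ℕ) (hu : ∀ c, u c ≤ 2) (j : ℕ) :
    ofs k d τ u j < 16 ^ (2 * d) := by
  unfold ofs
  split
  · positivity
  · split
    · exact (off_lt _ _ fun l _ => aX_lt k u hu _ l).trans_le
        (Nat.pow_le_pow_right (by norm_num) (by omega))
    · exact off_lt _ _ fun l _ => aY_lt k d τ _ l

theorem ofs_X (k d : ℕ) (τ : ℕ → Bool) (u : ℕ → ℕ) (c : ℕ) (hk : 0 < k) :
    ofs k d τ u (1 + c % k) = off (aX k u (c % k)) d := by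
  have := Nat.mod_lt c hk
  unfold ofs
  rw [if_neg (by omega), if_pos (by omega)]
  congr 2
  omega

theorem ofs_Y (k d : ℕ) (τ : ℕ → Bool) (u : ℕ → ℕ) (v : ℕ) (hk : 0 < k) :
    ofs k d τ u (1 + k + v % k) = off (aY k d τ (v % k)) (2 * d) := by
  have := Nat.mod_lt v hk
  unfold ofs
  rw [if_neg (by omega), if_neg (by omega)]
  congr 2
  omega

theorem aX_val (k : ℕ) (u : ℕ → ℕ) (c : ℕ) : aX k u (c % k) (c / k) = 4 * u c := by
  unfold aX
  rw [Nat.div_add_mod']

theorem aY_val (k d : ℕ) (τ : ℕ → Bool) (v : ℕ) :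
    aY k d τ (v % k) (d + v / k) = 4 * (τ v).toNat := by
  unfold aY
  rw [if_neg (Nat.not_lt.2 (Nat.le_add_right _ _)), Nat.add_sub_cancel_left, Nat.div_add_mod']

/-! ### The digit differences are allowed -/

/-- Facts about the digit of `p + x` if the digits of `x` are known. -/
theorem dig_diff (l p x : ℕ) :
    ∃ e : ℕ, (e = 0 ∨ e = 1) ∧
      (digit 16 (p + x) l + 16 - digit 16 p l) % 16 = (digit 16 x l + e) % 16 := by
  obtain ⟨e, h1, h3⟩ := dig_add l p x
  refine ⟨e, h1, ?_⟩
  have a1 := dig_lt l (p + x)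
  have a2 := dig_lt l p
  have a3 := dig_lt l x
  omega

/-- The pair of digit differences seen by a test is allowed. -/
theorem allowed_of (φ : CNF) (k d : ℕ) (τ : ℕ → Bool) (u : ℕ → ℕ) (hk : 0 < k)
    (hM : φ.2.length ≤ k * d) (hN : φ.1 ≤ k * d) (hv : Vars φ) (hu : ∀ c, u c ≤ 2)
    (c : ℕ) (cl : Clause) (hc : φ.2[c]? = some cl)
    (ht : τ (litOf cl (u c)).1 = (litOf cl (u c)).2)
    (t r p p' : ℕ) (ht3 : t < 3)
    (h : p + ofs k d τ u (fstJob k t (litOf cl r).1) =
      p' + ofs k d τ u (sndJob k t c (litOf cl r).1)) :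
    allowed t r (litOf cl r).2
      ((digit 16 p (c / k) + 16 - digit 16 p' (c / k)) % 16)
      ((digit 16 p (d + (litOf cl r).1 / k) + 16 - digit 16 p' (d + (litOf cl r).1 / k)) % 16)
      = true := by
  have hcM : c < φ.2.length := by
    by_contra hcM
    rw [List.getElem?_eq_none (by simpa using hcM)] at hc
    simp at hc
  have hl : c / k < d := by
    rw [Nat.div_lt_iff_lt_mul hk]
    calc c < φ.2.length := hcM
      _ ≤ d * k := by rw [mul_comm]; exact hM
  have hmem : cl ∈ φ.2 := List.mem_of_getElem? hc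
  have hvr : (litOf cl r).1 < φ.1 := by
    have := hv cl hmem
    unfold litOf
    split
    · exact this.1
    · split
      · exact this.2.1
      · exact this.2.2
  generalize hvv : (litOf cl r).1 = v at *
  have hl' : d + v / k < 2 * d := by
    have : v / k < d := by
      rw [Nat.div_lt_iff_lt_mul hk]
      calc v < φ.1 := hvr
        _ ≤ d * k := by rw [mul_comm]; exact hN
    omega
  generalize hL : c / k = l at *
  generalize hL' : d + v / k = l' at *
  have hX : digit 16 (off (aX k u (c % k)) d) l = 4 * u c := by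
    rw [dig_off _ _ _ (fun l _ => aX_lt k u hu _ l) hl, ← hL, aX_val]
  have hX' : digit 16 (off (aX k u (c % k)) d) l' = 0 :=
    dig_off_ge _ _ _ (fun l _ => aX_lt k u hu _ l) (by rw [← hL']; exact Nat.le_add_right _ _)
  have hY' : digit 16 (off (aY k d τ (v % k)) (2 * d)) l' = 4 * (τ v).toNat := by
    rw [dig_off _ _ _ (fun l _ => aY_lt k d τ _ l) hl', ← hL', aY_val]
  have hYd : ∀ y, digit 16 (y + off (aY k d τ (v % k)) (2 * d)) l = digit 16 y l := by
    intro y
    apply dig_add_of_dvd
    refine (pow_dvd_pow 16 (show l + 1 ≤ d by omega)).trans (dvd_off _ _ _ fun i hi => ?_)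
    unfold aY
    rw [if_pos hi]
  have huc := hu c
  rcases (show t = 0 ∨ t = 1 ∨ t = 2 by omega) with rfl | rfl | rfl
  · -- clock and clause job
    simp only [fstJob, sndJob, OfNat.zero_ne_ofNat, if_false, zero_ne_one] at h
    rw [ofs_X k d τ u c hk] at h
    rw [show ofs k d τ u 0 = 0 from rfl, add_zero] at h
    subst h
    obtain ⟨e, he, h1⟩ := dig_diff l p' (off (aX k u (c % k)) d)
    obtain ⟨e', he', h2⟩ := dig_diff l' p' (off (aX k u (c % k)) d)
    rw [h1, h2, hX, hX']
    unfold allowed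
    simp only [if_true, Bool.and_eq_true, decide_eq_true_eq]
    omega
  · -- clock and variable job
    simp only [fstJob, sndJob, OfNat.one_ne_ofNat, if_false, if_true] at h
    rw [ofs_Y k d τ u v hk] at h
    rw [show ofs k d τ u 0 = 0 from rfl, add_zero] at h
    subst h
    obtain ⟨e', he', h2⟩ := dig_diff l' p' (off (aY k d τ (v % k)) (2 * d))
    rw [h2, hY', hYd]
    unfold allowed
    have a1 := dig_lt l p'
    rcases Bool.eq_false_or_eq_true (τ v) with hb | hb <;> rw [hb] <;>
    simp only [one_ne_zero, if_false, if_true, Bool.and_eq_true, decide_eq_true_eq,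
      Bool.toNat_true, Bool.toNat_false] <;>
    omega
  · -- variable job and clause job
    simp only [fstJob, sndJob, if_true, OfNat.ofNat_ne_one, if_false] at h
    rw [ofs_X k d τ u c hk, ofs_Y k d τ u v hk] at h
    obtain ⟨e, he, h1⟩ := dig_diff l p' (off (aX k u (c % k)) d)
    obtain ⟨e1, he1, h2⟩ := dig_diff l' p' (off (aX k u (c % k)) d)
    obtain ⟨e2, he2, h3⟩ := dig_diff l' p (off (aY k d τ (v % k)) (2 * d))
    rw [← h, hYd, hX] at h1
    rw [← h, hX'] at h2
    rw [hY'] at h3
    rw [h1]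
    have b1 := dig_lt l' p
    have b2 := dig_lt l' p'
    have b3 := dig_lt l' (p + off (aY k d τ (v % k)) (2 * d))
    generalize digit 16 p l' = y1 at *
    generalize digit 16 p' l' = y2 at *
    generalize digit 16 (p + off (aY k d τ (v % k)) (2 * d)) l' = y3 at *
    have hxr : (4 * u c + e) % 16 / 4 = r → τ v = (litOf cl r).2 := by
      intro hr
      have : u c = r := by omega
      rw [← hvv, ← this]
      exact ht
    unfold allowed
    simp only [OfNat.ofNat_ne_zero, OfNat.ofNat_ne_one, if_false, Bool.and_eq_true,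
      Bool.or_eq_true, decide_eq_true_eq, Bool.not_eq_true', decide_eq_false_iff_not]
    refine ⟨by omega, by omega, ?_⟩
    rcases Bool.eq_false_or_eq_true (τ v) with hb | hb
    · right
      rw [hb] at h3 hxr
      simp only [Bool.toNat_true] at h3
      refine ⟨by omega, ?_⟩
      by_cases hr : (4 * u c + e) % 16 / 4 = r
      · right; exact (hxr hr).symm
      · left; exact hr
    · left
      rw [hb] at h3 hxr
      simp only [Bool.toNat_false] at h3
      refine ⟨by omega, ?_⟩
      by_cases hr : (4 * u c + e) % 16 / 4 = r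
      · right; exact (hxr hr).symm
      · left; exact hr

/-! ### No conflicts -/

theorem yes_fst_ne_snd (k t c v : ℕ) (hk : 0 < k) : fstJob k t v ≠ sndJob k t c v := by
  have h1 := Nat.mod_lt c hk
  unfold fstJob sndJob
  split <;> split <;> omega

/-- Two different jobs which are `z` and `z'` blocks late are never both on the common machine. -/
theorem not_both (φ : CNF) (k d : ℕ) (τ : ℕ → Bool) (u : ℕ → ℕ) (hk : 0 < k)
    (hM : φ.2.length ≤ k * d) (hN : φ.1 ≤ k * d) (hv : Vars φ) (hu : ∀ c, u c ≤ 2)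
    (ht : ∀ c cl, φ.2[c]? = some cl → τ (litOf cl (u c)).1 = (litOf cl (u c)).2)
    (i j j' p p' : ℕ) (hne : j ≠ j') (h : ofs k d τ u j + p = ofs k d τ u j' + p')
    (h1 : special φ k d i j p = true) (h2 : special φ k d i j' p' = true) : False := by
  unfold special at h1 h2
  cases hc : φ.2[i / 589824]? with
  | none => rw [hc] at h1; simp at h1
  | some cl =>
    rw [hc] at h1 h2
    simp only [Bool.and_eq_true, Bool.or_eq_true, decide_eq_true_eq, Bool.not_eq_true'] at h1 h2
    have key := fun (x x' : ℕ) hx => allowed_of φ k d τ u hk hM hN hv hu (i / 589824) cl hc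
      (ht _ _ hc) (i / 65536 % 3) (i / 196608 % 3) x x' (Nat.mod_lt _ (by norm_num)) hx
    generalize hr : i / 196608 % 3 = r at *
    generalize htt : i / 65536 % 3 = t at *
    obtain ⟨hna, h1⟩ := h1
    obtain ⟨-, h2⟩ := h2
    rcases h1 with ⟨e1, e2, e3⟩ | ⟨e1, e2, e3⟩ <;> rcases h2 with ⟨f1, f2, f3⟩ | ⟨f1, f2, f3⟩
    · exact hne (e1.trans f1.symm)
    · have := key p p' (by rw [← e1, ← f1]; omega)
      rw [e2, e3, f2, f3, hna] at this
      simp at this
    · have := key p' p (by rw [← e1, ← f1]; omega)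
      rw [e2, e3, f2, f3, hna] at this
      simp at this
    · exact hne (e1.trans f1.symm)

theorem yes_three_dvd_len (s : ℕ) : 3 ∣ len s := ⟨s * (3 * s + 1), by unfold len; ring⟩

/-- If two positions are congruent modulo the length of a block and the offsets of two different
jobs fit, the jobs are on different machines. -/
theorem mach_ne (φ : CNF) (k d s w : ℕ) (τ : ℕ → Bool) (u : ℕ → ℕ) (hk : 0 < k)
    (hM : φ.2.length ≤ k * d) (hN : φ.1 ≤ k * d) (hv : Vars φ) (hu : ∀ c, u c ≤ 2)
    (ht : ∀ c cl, φ.2[c]? = some cl → τ (litOf cl (u c)).1 = (litOf cl (u c)).2)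
    (j j' P P' : ℕ) (hj : j < 2 * k + 1) (hj' : j' < 2 * k + 1) (hne : j ≠ j')
    (h : ofs k d τ u j + P / len s = ofs k d τ u j' + P' / len s)
    (hm : P % len s = P' % len s) :
    mach φ k d s w j P ≠ mach φ k d s w j' P' := by
  have hmod : ∀ n, n ∣ len s → P % n = P' % n := by
    intro n hn
    rw [← Nat.mod_mod_of_dvd P hn, hm, Nat.mod_mod_of_dvd P' hn]
  have h3 : P % 3 = P' % 3 := hmod 3 (yes_three_dvd_len s)
  unfold mach
  rw [← h3, ← hm]
  by_cases h2 : P % 3 = 2
  · rw [if_pos h2, if_pos h2]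
    have hnb := not_both φ k d τ u hk hM hN hv hu ht (P % len s / 3) j j' (P / len s)
      (P' / len s) hne h
    cases hb : special φ k d (P % len s / 3) j (P / len s) <;>
      cases hb' : special φ k d (P % len s / 3) j' (P' / len s)
    · simpa using hne
    · simp only [cond_false, cond_true]; omega
    · simp only [cond_false, cond_true]; omega
    · exact (hnb hb hb').elim
  · rw [if_neg h2, if_neg h2]
    have hs : shift k s w P = shift k s w P' := by
      unfold shift
      rw [hmod (3 * s) ⟨3 * s + 1, rfl⟩, hmod (3 * s + 1) ⟨3 * s, by unfold len; ring⟩]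
    rw [hs]
    intro hh
    apply hne
    have h4 : (shift k s w P' + j) ≡ (shift k s w P' + j') [MOD (2 * k + 1)] := hh
    have h5 := Nat.ModEq.add_left_cancel' _ h4
    rw [Nat.ModEq, Nat.mod_eq_of_lt hj, Nat.mod_eq_of_lt hj'] at h5
    exact h5

/-- The choice of a true literal in each clause. -/
theorem exists_lit (φ : CNF) (τ : ℕ → Bool) (h : ∀ c ∈ φ.2, holds τ c = true) :
    ∃ u : ℕ → ℕ, (∀ c, u c ≤ 2) ∧
      ∀ c cl, φ.2[c]? = some cl → τ (litOf cl (u c)).1 = (litOf cl (u c)).2 := by
  have h0 : ∀ c : ℕ, ∃ r : ℕ, r ≤ 2 ∧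
      ∀ cl, φ.2[c]? = some cl → τ (litOf cl r).1 = (litOf cl r).2 := by
    intro c
    cases hc : φ.2[c]? with
    | none => exact ⟨0, by omega, by simp⟩
    | some cl =>
      have h1 := h cl (List.mem_of_getElem? hc)
      unfold holds at h1
      simp only [Bool.or_eq_true, beq_iff_eq] at h1
      rcases h1 with (h1 | h1) | h1
      · exact ⟨0, by omega, fun cl' h' => by
          obtain rfl : cl = cl' := by simpa using h'
          simpa [litOf] using h1⟩
      · exact ⟨1, by omega, fun cl' h' => by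
          obtain rfl : cl = cl' := by simpa using h'
          simpa [litOf] using h1⟩
      · exact ⟨2, by omega, fun cl' h' => by
          obtain rfl : cl = cl' := by simpa using h'
          simpa [litOf] using h1⟩
  choose u hu1 hu2 using h0
  exact ⟨u, hu1, hu2⟩

/-- **YES side**: the minimum makespan for a satisfiable formula. -/
theorem yes0 (φ : CNF) (k d s R w : ℕ) (hk : 0 < k) (hM : φ.2.length ≤ k * d)
    (hN : φ.1 ≤ k * d) (hv : Vars φ) (hsat : Sat φ) :
    OPT (inst φ k d s R w) ≤ (16 ^ (2 * d) + R) * len s := by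
  obtain ⟨τ, hτ⟩ := hsat
  obtain ⟨u, hu, ht⟩ := exists_lit φ τ hτ
  rcases Nat.eq_zero_or_pos s with rfl | hs
  · refine (Nat.sInf_le ?_).trans (Nat.zero_le _)
    refine ⟨fun _ _ => 0, ⟨?_, ?_⟩, ?_⟩ <;> simp only [isOp_inst, EndsBy, len] <;> intros <;> simp_all
  have hL : 0 < len s := by unfold len; positivity
  refine Nat.sInf_le ⟨fun j P => ofs k d τ u j * len s + P, ⟨?_, ?_⟩, ?_⟩
  · intro j i m p m' p' h1 _
    rw [isOp_inst] at h1
    obtain ⟨-, -, -, rfl⟩ := h1
    show ofs k d τ u j * len s + i + 1 ≤ ofs k d τ u j * len s + (i + 1)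
    omega
  · intro j i j' i' m p p' h1 h2 hne
    rw [isOp_inst] at h1 h2
    obtain ⟨hj, hi, hm, rfl⟩ := h1
    obtain ⟨hj', hi', hm', rfl⟩ := h2
    by_contra hcon
    simp only [] at hcon
    have heq : ofs k d τ u j * len s + i = ofs k d τ u j' * len s + i' := by omega
    have hjj : j ≠ j' := by
      rintro rfl
      apply hne
      rw [Nat.add_left_cancel heq]
    refine mach_ne φ k d s w τ u hk hM hN hv hu ht j j' i i' hj hj' hjj ?_ ?_
      (hm.symm.trans hm')
    · have := congrArg (· / len s) heq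
      simpa [Nat.mul_add_div hL, mul_comm _ (len s)] using this
    · have := congrArg (· % len s) heq
      simpa [mul_comm _ (len s), Nat.mul_add_mod] using this
  · intro j i m p h1
    rw [isOp_inst] at h1
    obtain ⟨-, hi, -, rfl⟩ := h1
    have h2 := ofs_lt k d τ u hu j
    have h3 : ofs k d τ u j * len s ≤ 16 ^ (2 * d) * len s := Nat.mul_le_mul_right _ h2.le
    rw [add_mul]
    show ofs k d τ u j * len s + i + 1 ≤ _
    omega

end Y

/-- The instances are in `Simple`. -/
theorem simple_inst (φ : CNF) (k d s R w : ℕ) : Simple (inst φ k d s R w) :=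
  Y.simple_inst φ k d s R w

/-- The YES side in terms of `instOf` and `target`. -/
theorem yes {φ : CNF} {k d E : ℕ} (hk : 0 < k) (hM : φ.2.length ≤ k * d) (hn : φ.1 ≤ k * d)
    (hv : Vars φ) (hsat : Sat φ) (w : ℕ) :
    OPT (instOf φ k d E w) ≤ target d (sOf φ.2.length) E := by
  refine (Y.yes0 φ k d _ _ w hk hM hn hv hsat).trans (le_of_eq ?_)
  unfold blocks target
  ring

end Pool.Agent.H.JS
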