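import Pool.Agent.H.MP_aeb38e_lc.No
import Pool.Agent.H.MP_aeb38e_lc.Yes
import Pool.Agent.H.MP_aeb38e_lc.Alg
import Pool.Agent.H.MP_aeb38e_lc.Num
import Pool.Agent.H.MP_aeb38e_lc.Loop

/-!
The main theorem.
-/

namespace Pool.Agent.H.JS

open Turing Pool.Agent.H.MP_5be563_lc.PT

/-- The machine `tm`, together with the functions `inp` and `acc`, solves the gap problem. -/
def Solves (inp : Shop × ℕ × ℕ → List Bool) (acc : List Bool × Shop × ℕ × ℕ → Bool) (m e : ℕ)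
    (t : ℕ → ℕ) (tm : FinTM2) (iA : tm.Γ tm.k₀ ≃ Bool) (oA : tm.Γ tm.k₁ ≃ Bool) : Prop :=
  ∀ (I : Shop) (K : ℕ), Simple I → I.1 = m → ∃ y : List Bool,
    Outputs tm iA oA (inp (I, e, K)) y (t (inp (I, e, K)).length) ∧
    (OPT I ≤ K → acc (y, I, e, K) = true) ∧ ((e + 1) * K < e * OPT I → acc (y, I, e, K) = false)

theorem Outputs.mono {tm : FinTM2} {iA : tm.Γ tm.k₀ ≃ Bool} {oA : tm.Γ tm.k₁ ≃ Bool}
    {x y : List Bool} {n n' : ℕ} (h : Outputs tm iA oA x y n) (hn : n ≤ n') :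
    Outputs tm iA oA x y n' := by
  obtain ⟨h⟩ := h
  exact ⟨⟨h.toEvalsTo, h.steps_le_m.trans hn⟩⟩

theorem simple_theInst {m k : ℕ} (hm : 2 * k + 2 ≤ m) (E M0 d0 : ℕ) (φ : CNF) (w : ℕ) :
    Simple (theInst m k E M0 d0 φ w) := by
  refine ⟨by simp [theInst, instOf, inst]; omega, ?_⟩
  rintro j i m' p ⟨job, hj, hi⟩
  simp only [theInst, instOf, inst, List.getElem?_map, Option.map_eq_some_iff] at hj
  obtain ⟨j', hj', rfl⟩ := hj
  simp only [List.getElem?_map, Option.map_eq_some_iff] at hi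
  obtain ⟨P, hP, he⟩ := hi
  simp only [Prod.mk.injEq] at he
  obtain ⟨he1, he2⟩ := he
  refine ⟨?_, he2.symm⟩
  have hj2 : j' < 2 * k + 1 := by
    have := List.getElem?_eq_some_iff.1 hj'
    obtain ⟨h1, h2⟩ := this
    simp at h1 h2
    omega
  show m' < m
  rw [← he1]
  unfold mach
  split_ifs
  · cases special _ _ _ _ _ _ <;> simp <;> omega
  · have := Nat.mod_lt (shift k (sOf (rep M0 φ).2.length) w P + j') (show 0 < 2 * k + 1 by omega)
    omega

theorem core_len_le0 (x : ℕ) : len (Nat.sqrt x + 1) ≤ 24 * (x + 1) := by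
  have h := Nat.sqrt_le' x
  set a := Nat.sqrt x
  unfold len
  nlinarith [sq_nonneg ((a : ℤ) - 1)]

/-- The constant in the length of a block. -/
theorem core_len_le {M d0 n M0 : ℕ} (h : M ≤ d0 * n + M0 * M0) :
    len (sOf M) ≤ 24 * (196608 * (d0 + M0 * M0) + 1) * (n + 1) := by
  have h1 := core_len_le0 (196608 * M)
  have h2 : 196608 * M + 1 ≤ (196608 * (d0 + M0 * M0) + 1) * (n + 1) := by nlinarith
  calc len (sOf M) ≤ 24 * (196608 * M + 1) := h1
    _ ≤ 24 * ((196608 * (d0 + M0 * M0) + 1) * (n + 1)) := Nat.mul_le_mul_left _ h2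
    _ = _ := by ring

theorem sz_theInst_le {m k E M0 d0 : ℕ} {φ : CNF} {w C : ℕ}
    (hL : len (sOf (rep M0 φ).2.length) ≤ C * (φ.1 + 1)) :
    sz (theInst m k E M0 d0 φ w) + sz E + sz (theTarget k E M0 d0 φ) + 2 ≤
      (2 * m + 100 * (k + 1) ^ 2 * (E * C + 1) + 2 * E + 2 * (E + 1) * C + 10) *
        (16 ^ (2 * lev k M0 d0 φ.1) * (φ.1 + 1)) := by
  set X := 16 ^ (2 * lev k M0 d0 φ.1) * (φ.1 + 1) with hX
  have hX1 : 1 ≤ X := by
    have : 0 < X := by positivity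
    exact this
  set L := len (sOf (rep M0 φ).2.length) with hLd
  have h16 : 16 ^ (2 * lev k M0 d0 φ.1) * L ≤ C * X := by
    calc 16 ^ (2 * lev k M0 d0 φ.1) * L ≤ 16 ^ (2 * lev k M0 d0 φ.1) * (C * (φ.1 + 1)) :=
          Nat.mul_le_mul_left _ hL
      _ = C * X := by rw [hX]; ring
  have h1 : sz (theInst m k E M0 d0 φ w) ≤ 2 * m + 2 + 100 * (k + 1) ^ 2 *
      (16 ^ (2 * lev k M0 d0 φ.1) * E * L + 1) := by
    have h2 := sz_inst_le (rep M0 φ) k (lev k M0 d0 φ.1) (sOf (rep M0 φ).2.length)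
      (blocks (lev k M0 d0 φ.1) E) w
    have h3 : sz (theInst m k E M0 d0 φ w) = sz m +
      sz (inst (rep M0 φ) k (lev k M0 d0 φ.1) (sOf (rep M0 φ).2.length)
        (blocks (lev k M0 d0 φ.1) E) w).2 + 1 := sz_pair _ _
    have h4 := sz_prod (inst (rep M0 φ) k (lev k M0 d0 φ.1) (sOf (rep M0 φ).2.length)
        (blocks (lev k M0 d0 φ.1) E) w)
    rw [sz_nat] at h3
    have h5 : blocks (lev k M0 d0 φ.1) E * len (sOf (rep M0 φ).2.length) =
      16 ^ (2 * lev k M0 d0 φ.1) * E * L := rfl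
    rw [h5] at h2
    omega
  have h5 : 16 ^ (2 * lev k M0 d0 φ.1) * E * L ≤ E * C * X := by
    calc 16 ^ (2 * lev k M0 d0 φ.1) * E * L = E * (16 ^ (2 * lev k M0 d0 φ.1) * L) := by ring
      _ ≤ E * (C * X) := Nat.mul_le_mul_left _ h16
      _ = E * C * X := by ring
  have h6 : theTarget k E M0 d0 φ ≤ (E + 1) * C * X := by
    calc theTarget k E M0 d0 φ = (E + 1) * (16 ^ (2 * lev k M0 d0 φ.1) * L) := by
          unfold theTarget target; ring
      _ ≤ (E + 1) * (C * X) := Nat.mul_le_mul_left _ h16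
      _ = (E + 1) * C * X := by ring
  have h7 : 100 * (k + 1) ^ 2 * (16 ^ (2 * lev k M0 d0 φ.1) * E * L + 1) ≤
      100 * (k + 1) ^ 2 * ((E * C + 1) * X) := by
    apply Nat.mul_le_mul_left
    calc 16 ^ (2 * lev k M0 d0 φ.1) * E * L + 1 ≤ E * C * X + X := by omega
      _ = _ := by ring
  rw [sz_nat, sz_nat]
  have h8 : (2 * m + 100 * (k + 1) ^ 2 * (E * C + 1) + 2 * E + 2 * (E + 1) * C + 10) * X =
      2 * m * X + 100 * (k + 1) ^ 2 * ((E * C + 1) * X) + 2 * E * X + 2 * ((E + 1) * C * X) +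
        10 * X := by ring
  rw [h8]
  have h9 : 2 * m ≤ 2 * m * X := Nat.le_mul_of_pos_right _ hX1
  have h10 : 2 * E ≤ 2 * E * X := Nat.le_mul_of_pos_right _ hX1
  omega

theorem words_le {M d n M0 : ℕ} (h : M ≤ d * n + M0 * M0) :
    6 * sOf M + 1 ≤ (196608 * (M0 * M0) + 13) *
      Nat.sqrt (196608 * d * n + (196608 * (M0 * M0) + 13)) + (196608 * (M0 * M0) + 13) := by
  have h0 : 196608 * M ≤ 196608 * d * n + (196608 * (M0 * M0) + 13) := by
    have : 196608 * M ≤ 196608 * (d * n + M0 * M0) := Nat.mul_le_mul_left _ h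
    rw [Nat.mul_add, ← Nat.mul_assoc] at this
    omega
  have h1 : Nat.sqrt (196608 * M) ≤ Nat.sqrt (196608 * d * n + (196608 * (M0 * M0) + 13)) :=
    Nat.sqrt_le_sqrt h0
  unfold sOf
  generalize Nat.sqrt (196608 * M) = a at h1
  generalize Nat.sqrt (196608 * d * n + (196608 * (M0 * M0) + 13)) = b at h1
  generalize 196608 * (M0 * M0) = x
  have h2 : 13 * b ≤ (x + 13) * b := Nat.mul_le_mul_right _ (by omega)
  omega

theorem core {d D H : ℕ} (hD : 0 < D) (hH : 0 < H)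
    (hGE : ∀ (tm : FinTM2) (iA : tm.Γ tm.k₀ ≃ Bool) (oA : tm.Γ tm.k₁ ≃ Bool) (C : ℕ),
      ¬ ∀ φ : CNF, Sparse d φ → ∃ b : Bool,
        Outputs tm iA oA (codeCNF φ) (codeBool b) (C * 2 ^ (φ.1 / H)) ∧
        (Sat φ → b = true) ∧ (Far D φ → b = false))
    {inp : Shop × ℕ × ℕ → List Bool} (hinp : Poly inp)
    (hlen : ∀ I e K, (inp (I, e, K)).length ≤ sz I + sz e + sz K + 2)
    {acc : List Bool × Shop × ℕ × ℕ → Bool} (hacc : Poly acc) :
    ∃ b, ∀ c k, b * (c + 1) ≤ k → ∀ (hk : 0 < k) (m : ℕ), 2 * k + 2 ≤ m →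
      ∀ (tm : FinTM2) (iA : tm.Γ tm.k₀ ≃ Bool) (oA : tm.Γ tm.k₁ ≃ Bool) (C : ℕ),
        ¬ Solves inp acc m (Classical.choose (no D k hD hk)) (fun n => C * (n ^ c + 1))
          tm iA oA := by
  obtain ⟨f, g, hf, hg, hfg⟩ := alg hinp hacc
  have hf' : Poly (fun x : (Par × ℕ × ℕ) × CNF × ℕ × ℕ => f (x.1.1, x.2)) :=
    hf.comp (g := fun x : (Par × ℕ × ℕ) × CNF × ℕ × ℕ => (x.1.1, x.2)) (by fun_prop)
  have hg' : Poly (fun x : (Par × ℕ × ℕ) × CNF × ℕ × ℕ × List Bool => g (x.1.1, x.2)) :=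
    hg.comp (g := fun x : (Par × ℕ × ℕ) × CNF × ℕ × ℕ × List Bool => (x.1.1, x.2)) (by fun_prop)
  have hS : Poly (fun x : (Par × ℕ × ℕ) × CNF => x.2.1 / x.1.2.1 + x.1.2.2) := by
    have h1 : Poly (fun x : (Par × ℕ × ℕ) × CNF => x.2.1) := by fun_prop
    have h2 : Poly (fun x : (Par × ℕ × ℕ) × CNF => x.1.2.1) := by fun_prop
    have h3 : Poly (fun x : (Par × ℕ × ℕ) × CNF => x.1.2.2) := by fun_prop
    exact (Poly.div h1 h2).add h3
  obtain ⟨Q, hQ⟩ := loop_machine hf' hg' hS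
  obtain ⟨h, hh, hnum1⟩ := num1 Q H hH
  obtain ⟨b, hb⟩ := num2 (d + 1) h hh
  refine ⟨b, fun c k hck hk m hm tm iA oA C hsol => ?_⟩
  obtain ⟨M0, hE, hno⟩ := Classical.choose_spec (no D k hD hk)
  set E := Classical.choose (no D k hD hk) with hEdef
  -- constants
  set CL := 24 * (196608 * (d + M0 * M0) + 1) with hCL
  set CI := 2 * m + 100 * (k + 1) ^ 2 * (E * CL + 1) + 2 * E + 2 * (E + 1) * CL + 10 with hCI
  set B := C * (CI ^ c + 1) + M0 * M0 + 1 with hB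
  obtain ⟨c1, hc1⟩ := hb c k hck hk B
  obtain ⟨c2, hc2⟩ := num3 (2 * k + 1) (196608 * (M0 * M0) + 13) (196608 * d) h hh
  set c0 := c1 + c2 with hc0
  obtain ⟨A, tm', iA', oA', hrun⟩ := hQ ((m, k, E, M0, d), h, c0) tm iA oA
  obtain ⟨C', hC'⟩ := hnum1 c0 (30 * (d + 1) + sz (((m, k, E, M0, d), h, c0) : Par × ℕ × ℕ))
  refine hGE tm' iA' oA' (A * C') fun φ hφ => ?_
  obtain ⟨r1, r2, r3, r4, r5, r6, r7⟩ := rep_spec (M0 := M0) hk hφ
  set W := 2 ^ (φ.1 / h + c0) with hW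
  set X := 16 ^ (2 * lev k M0 d φ.1) * (φ.1 + 1) with hX
  have hX0 : 0 < X := by positivity
  -- the size bounds
  have hlev : lev k M0 d φ.1 ≤ ((d + 1) * φ.1 + B) / k + 1 := by
    unfold lev
    have : ((d + 1) * φ.1 + M0 * M0) / k ≤ ((d + 1) * φ.1 + B) / k :=
      Nat.div_le_div_right (by omega)
    omega
  have hXle : X ≤ 16 ^ (2 * (((d + 1) * φ.1 + B) / k + 1)) * (φ.1 + 1) := by
    rw [hX]
    exact Nat.mul_le_mul_right _ (Nat.pow_le_pow_right (by norm_num) (by omega))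
  have hc1W : 2 ^ (φ.1 / h + c1) ≤ W := Nat.pow_le_pow_right (by norm_num) (by omega)
  have hc2W : 2 ^ (φ.1 / h + c2) ≤ W := Nat.pow_le_pow_right (by norm_num) (by omega)
  have hBX : B * X ^ (c + 1) + B ≤ W := by
    refine le_trans ?_ ((hc1 φ.1).trans hc1W)
    exact Nat.add_le_add_right (Nat.mul_le_mul_left _ (Nat.pow_le_pow_left hXle _)) _
  have hXp : X ≤ X ^ (c + 1) := Nat.le_self_pow (by omega) X
  have h16 : 16 ^ (2 * lev k M0 d φ.1) ≤ W := by
    have h1 : 16 ^ (2 * lev k M0 d φ.1) ≤ X := by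
      rw [hX]; exact Nat.le_mul_of_pos_right _ (by omega)
    have h2 : X ^ (c + 1) ≤ B * X ^ (c + 1) := Nat.le_mul_of_pos_left _ (by omega)
    omega
  have htime : ∀ w, C * ((inp (theInst m k E M0 d φ w, E, theTarget k E M0 d φ)).length ^ c + 1)
      ≤ W := by
    intro w
    have h1 := hlen (theInst m k E M0 d φ w) E (theTarget k E M0 d φ)
    have h2 := sz_theInst_le (m := m) (k := k) (E := E) (M0 := M0) (d0 := d) (φ := φ) (w := w)
      (core_len_le r2)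
    have h3 := h1.trans h2
    have h4 : (inp (theInst m k E M0 d φ w, E, theTarget k E M0 d φ)).length ^ c ≤
        CI ^ c * X ^ c := by
      rw [← mul_pow]; exact Nat.pow_le_pow_left h3 c
    have h5 : X ^ c ≤ X ^ (c + 1) := Nat.pow_le_pow_right hX0 (by omega)
    have h6 : C * ((inp (theInst m k E M0 d φ w, E, theTarget k E M0 d φ)).length ^ c + 1) ≤
        C * (CI ^ c * X ^ (c + 1) + X ^ (c + 1)) := by
      apply Nat.mul_le_mul_left
      have h7 : 1 ≤ X ^ (c + 1) := Nat.one_le_pow _ _ hX0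
      have h8 := Nat.mul_le_mul_left (CI ^ c) h5
      omega
    have h9 : C * (CI ^ c * X ^ (c + 1) + X ^ (c + 1)) = C * (CI ^ c + 1) * X ^ (c + 1) := by ring
    have h10 : C * (CI ^ c + 1) * X ^ (c + 1) ≤ B * X ^ (c + 1) :=
      Nat.mul_le_mul_right _ (by omega)
    omega
  -- run
  have hy : ∀ w, ∃ y : List Bool,
      Outputs tm iA oA (inp (theInst m k E M0 d φ w, E, theTarget k E M0 d φ)) y W ∧
      (OPT (theInst m k E M0 d φ w) ≤ theTarget k E M0 d φ →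
        acc (y, theInst m k E M0 d φ w, E, theTarget k E M0 d φ) = true) ∧
      ((E + 1) * theTarget k E M0 d φ < E * OPT (theInst m k E M0 d φ w) →
        acc (y, theInst m k E M0 d φ w, E, theTarget k E M0 d φ) = false) := by
    intro w
    obtain ⟨y, hy1, hy2, hy3⟩ := hsol (theInst m k E M0 d φ w) (theTarget k E M0 d φ)
      (simple_theInst hm E M0 d φ w) rfl
    exact ⟨y, hy1.mono (htime w), hy2, hy3⟩
  choose y hy1 hy2 hy3 using hy
  have hfW : ∀ w, f ((m, k, E, M0, d), φ, W, w) =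
      inp (theInst m k E M0 d φ w, E, theTarget k E M0 d φ) :=
    fun w => (hfg m k E M0 d φ W w h16).1
  have hgW : ∀ w y, g ((m, k, E, M0, d), φ, W, w, y) =
      (φ.2.isEmpty || acc (y, theInst m k E M0 d φ w, E, theTarget k E M0 d φ)) :=
    fun w => (hfg m k E M0 d φ W w h16).2
  have hrun' := hrun φ y (fun w _ => by
    show Outputs tm iA oA (f ((m, k, E, M0, d), φ, W, w)) (y w) W
    rw [hfW]
    exact hy1 w)
  refine ⟨decide (∀ w < W, g ((m, k, E, M0, d), φ, W, w, y w) = true), ?_, ?_, ?_⟩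
  · rw [← bits_cnf, ← bits_bool]
    refine Outputs.mono hrun' ?_
    rw [mul_assoc]
    refine Nat.mul_le_mul_left _ (le_trans (poly_mono Q ?_) (hC' φ.1))
    have h1 := sz_cnf_le hφ
    have h2 : 30 * (d + 1) * (φ.1 + 1) ^ 2 ≤
      (30 * (d + 1) + sz (((m, k, E, M0, d), h, c0) : Par × ℕ × ℕ)) * (φ.1 + 1) ^ 2 :=
      Nat.mul_le_mul_right _ (Nat.le_add_right _ _)
    show 2 ^ (φ.1 / h + c0) + sz φ + sz (((m, k, E, M0, d), h, c0) : Par × ℕ × ℕ) ≤ _
    omega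
  · intro hsat
    rw [decide_eq_true_eq]
    intro w _
    rw [hgW, hy2 w, Bool.or_true]
    exact yes hk r3 r4 r5 (r6 hsat) w
  · intro hfar
    rw [decide_eq_false_iff_not]
    intro hall
    have hne : φ.2 ≠ [] := by
      intro h0
      have := hfar (fun _ => true)
      rw [h0] at this
      simp at this
    obtain ⟨w, hw, hlt⟩ := hno (rep M0 φ) (lev k M0 d φ.1) (r1 hne) r3 r4 r5 (r7 D hfar)
    have hwW : w < W := by
      refine lt_of_lt_of_le hw (le_trans ?_ ((hc2 φ.1).trans hc2W))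
      apply Nat.pow_le_pow_right (by omega)
      exact words_le r2
    have := hall w hwW
    rw [hgW, hy3 w hlt] at this
    simp at this
    exact hne this

end Pool.Agent.H.JS
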