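import Pool.Agent.H.MP_aeb38e_lc.InstB
import Pool.Agent.H.MP_aeb38e_lc.Num

/-! The number of words of the strong form is subexponential (helper57). -/

namespace Pool.Agent.H.JS

theorem numB (B h : ℕ) (hh : 0 < h) : ∃ b, ∀ k, b ≤ k → 0 < k → ∀ N, ∃ c0, ∀ n M : ℕ,
    3 * M ≤ B * n + N → 11 ^ lenB B M k ≤ 2 ^ (n / h + c0) := by
  obtain ⟨A, hA⟩ : ∃ A, A = 25165824 * B := ⟨_, rfl⟩
  refine ⟨A * B * h, fun k hk hk0 N => ⟨A * N + A + 1, fun n M hM => ?_⟩⟩
  have h1 : 4 * lenB B M k = A * (M / k + 1) := by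
    unfold lenB degB
    rw [hA]; ring
  have h2 : 11 ^ lenB B M k ≤ 2 ^ (4 * lenB B M k) := by
    rw [pow_mul]
    exact Nat.pow_le_pow_left (by norm_num) _
  refine h2.trans (Nat.pow_le_pow_right (by norm_num) ?_)
  rw [h1]
  have h3 : A * (M / k) ≤ A * M / k := Nat.mul_div_le_mul_div_assoc A M k
  have h4 : A * M / k ≤ (A * B * n + A * N) / k := by
    apply Nat.div_le_div_right
    have : A * M ≤ A * (B * n + N) := Nat.mul_le_mul_left _ (by omega)
    calc A * M ≤ A * (B * n + N) := this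
      _ = A * B * n + A * N := by ring
  have h5 : (A * B * n + A * N) / k ≤ A * B * n / k + A * N / k + 1 := by
    have e1 := Nat.div_add_mod (A * B * n) k
    have e2 := Nat.div_add_mod (A * N) k
    have e3 := Nat.mod_lt (A * B * n) hk0
    have e4 := Nat.mod_lt (A * N) hk0
    apply Nat.le_of_lt_succ
    rw [Nat.div_lt_iff_lt_mul hk0]
    nlinarith
  have h6 : A * B * n / k ≤ n / h := by
    rcases Nat.eq_zero_or_pos (A * B) with h0 | h0
    · rw [h0]; simp
    · calc A * B * n / k ≤ A * B * n / (A * B * h) :=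
            Nat.div_le_div_left hk (Nat.mul_pos h0 hh)
        _ = n / h := Nat.mul_div_mul_left _ _ h0
  have h7 : A * N / k ≤ A * N := Nat.div_le_self _ _
  have h8 : A * (M / k + 1) = A * (M / k) + A := by ring
  rw [h8]
  omega

end Pool.Agent.H.JS
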