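import Pool.Agent.H.MP_aeb38e_lc.Occ2
import Pool.Agent.H.MP_aeb38e_lc.Loop
import Pool.Agent.H.MP_aeb38e_lc.Num

/-!
The gap exponential time hypothesis implies its form for formulas in which each variable has a
bounded number of occurrences.
-/

namespace Pool.Agent.H.JS

open Turing Pool.Agent.H.MP_5be563_lc.PT

theorem outputs_le {tm : FinTM2} {iA : tm.Γ tm.k₀ ≃ Bool} {oA : tm.Γ tm.k₁ ≃ Bool}
    {x y : List Bool} {n m : ℕ} (h : Outputs tm iA oA x y n) (hnm : n ≤ m) :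
    Outputs tm iA oA x y m := by
  obtain ⟨h⟩ := h
  exact ⟨⟨h.toEvalsTo, h.steps_le_m.trans hnm⟩⟩

theorem gapETHB_of_gapETH (h : GapETH) : GapETHB := by
  obtain ⟨d, D, H, hD, hH, hG⟩ := h
  have hf : Poly (fun x : (ℕ × ℕ × ℕ) × CNF × ℕ × ℕ =>
      (enc (branch x.1.1 x.2.1 x.2.2.2)).bits) := by fun_prop
  have hg : Poly (fun x : (ℕ × ℕ × ℕ) × CNF × ℕ × ℕ × List Bool =>
      !dead x.1.1 x.2.1 x.2.2.2.1 && (x.2.2.2.2 == [true, false, false])) := by fun_prop
  have hS : Poly (fun x : (ℕ × ℕ × ℕ) × CNF => x.2.1 / x.1.2.1 + x.1.2.2) := by fun_prop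
  obtain ⟨Q, hQ⟩ := loop_machine_ex hf hg hS
  obtain ⟨h, hh, hnum⟩ := num1 Q H hH
  refine ⟨3 * (3 * d * h), D, h, hD, hh, fun tm iA oA C hall => ?_⟩
  obtain ⟨A, tm', iA', oA', htm'⟩ := hQ (3 * d * h, h, C) tm iA oA
  obtain ⟨C', hC'⟩ := hnum C (30 * (d + 1) + sz ((3 * d * h, h, C) : ℕ × ℕ × ℕ))
  refine hG tm' iA' oA' (A * C') fun φ hφ => ?_
  have hb : ∀ w, ∃ b : Bool, Outputs tm iA oA (codeCNF (branch (3 * d * h) φ w)) (codeBool b)
      (C * 2 ^ ((branch (3 * d * h) φ w).1 / h)) ∧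
      (Sat (branch (3 * d * h) φ w) → b = true) ∧ (Far D (branch (3 * d * h) φ w) → b = false) :=
    fun w => hall _ (bdd_branch hφ w)
  choose b hb1 hb2 hb3 using hb
  have key := htm' φ (fun w => codeBool (b w)) (by
    intro w hw
    have h1 := hb1 w
    rw [← bits_cnf] at h1
    refine outputs_le h1 ?_
    show C * 2 ^ ((branch (3 * d * h) φ w).1 / h) ≤ 2 ^ (φ.1 / h + C)
    rw [pow_add, mul_comm]
    exact Nat.mul_le_mul (Nat.pow_le_pow_right (by omega) (Nat.div_le_div_right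
      (branch_fst_le _ _ _))) Nat.lt_two_pow_self.le)
  refine ⟨decide (∃ w < 2 ^ (φ.1 / h + C), (!dead (3 * d * h) φ w &&
    (codeBool (b w) == [true, false, false])) = true), ?_, ?_, ?_⟩
  · rw [bits_cnf, bits_bool] at key
    refine outputs_le key ?_
    rw [mul_assoc A C']
    refine Nat.mul_le_mul_left A (le_trans (poly_mono Q ?_) (hC' φ.1))
    have h1 := sz_cnf_le hφ
    show 2 ^ (φ.1 / h + C) + sz φ + _ ≤ _
    have h2 : 30 * (d + 1) * (φ.1 + 1) ^ 2 ≤
        (30 * (d + 1) + sz ((3 * d * h, h, C) : ℕ × ℕ × ℕ)) * (φ.1 + 1) ^ 2 :=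
      Nat.mul_le_mul_right _ (Nat.le_add_right _ _)
    omega
  · intro hs
    obtain ⟨w, hw, hd, hsb⟩ := sat_branch (B := 3 * d * h) hφ hs
    refine decide_eq_true ⟨w, lt_of_lt_of_le hw (Nat.pow_le_pow_right (by omega) ?_), ?_⟩
    · have h1 := hix_mul_le (3 * d * h) φ φ.1
      have h2 := hφ.1
      have h3 : hix (3 * d * h) φ φ.1 * (3 * d * h + 1) ≤ 3 * (d * φ.1) := by omega
      refine le_trans ?_ (Nat.le_add_right _ _)
      rw [Nat.le_div_iff_mul_le hh]
      generalize hix (3 * d * h) φ φ.1 = t at h3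
      rcases Nat.eq_zero_or_pos d with h0 | h0
      · subst h0
        have : t = 0 := by simpa using h3
        rw [this]
        omega
      · have h4 : 3 * d * (t * h) ≤ 3 * d * φ.1 := by nlinarith
        exact Nat.le_of_mul_le_mul_left h4 (by omega)
    · rw [hd, hb2 w hsb]
      rfl
  · intro hfar
    refine decide_eq_false ?_
    rintro ⟨w, hw, h1⟩
    rw [Bool.and_eq_true] at h1
    have hd : dead (3 * d * h) φ w = false := by simpa using h1.1
    rw [hb3 w (far_branch hfar hd)] at h1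
    exact absurd h1.2 (by decide)

end Pool.Agent.H.JS
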