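import Mathlib

/-!
# Ten permutations whose union is an expander (existence by counting)
-/

namespace Pool.Agent.H.JS

open Finset

/-- The permutations which send `A` into `S`. -/
def permInto {q : ℕ} (A S : Finset (Fin q)) : Finset (Equiv.Perm (Fin q)) :=
  univ.filter fun σ => ∀ a ∈ A, σ a ∈ S

theorem mem_permInto {q : ℕ} {A S : Finset (Fin q)} {σ : Equiv.Perm (Fin q)} :
    σ ∈ permInto A S ↔ ∀ a ∈ A, σ a ∈ S := by
  simp [permInto]

theorem card_permInto_swap {q : ℕ} (A S : Finset (Fin q)) {x z : Fin q} (hx : x ∉ A)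
    (hz : z ∉ A) : (permInto (insert z A) S).card = (permInto (insert x A) S).card := by
  refine Finset.card_bij' (fun σ _ => σ * Equiv.swap x z) (fun σ _ => σ * Equiv.swap x z)
    ?_ ?_ ?_ ?_
  · intro σ hσ
    rw [mem_permInto] at hσ ⊢
    intro a ha
    rcases mem_insert.1 ha with rfl | ha
    · simpa using hσ z (mem_insert_self _ _)
    · have h1 : a ≠ x := fun h => hx (h ▸ ha)
      have h2 : a ≠ z := fun h => hz (h ▸ ha)
      simpa [Equiv.swap_apply_of_ne_of_ne h1 h2] using hσ a (mem_insert_of_mem ha)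
  · intro σ hσ
    rw [mem_permInto] at hσ ⊢
    intro a ha
    rcases mem_insert.1 ha with rfl | ha
    · simpa using hσ x (mem_insert_self _ _)
    · have h1 : a ≠ x := fun h => hx (h ▸ ha)
      have h2 : a ≠ z := fun h => hz (h ▸ ha)
      simpa [Equiv.swap_apply_of_ne_of_ne h1 h2] using hσ a (mem_insert_of_mem ha)
  · intro σ _
    simp [mul_assoc]
  · intro σ _
    simp [mul_assoc]

theorem card_permInto_insert {q : ℕ} (A S : Finset (Fin q)) {x : Fin q} (hx : x ∉ A) :
    (permInto (insert x A) S).card * (q - A.card) =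
      (permInto A S).card * (S.card - A.card) := by
  have h1 : ∑ z ∈ Aᶜ, ((permInto A S).filter fun σ => σ z ∈ S).card =
      ∑ σ ∈ permInto A S, ((Aᶜ).filter fun z => σ z ∈ S).card := by
    simp only [card_filter]
    exact sum_comm
  have h2 : ∀ z ∈ Aᶜ, ((permInto A S).filter fun σ => σ z ∈ S).card =
      (permInto (insert x A) S).card := by
    intro z hz
    rw [← card_permInto_swap A S hx (mem_compl.1 hz)]
    congr 1
    ext σ
    simp only [mem_filter, mem_permInto, mem_insert, forall_eq_or_imp]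
    tauto
  have h3 : ∀ σ ∈ permInto A S, ((Aᶜ).filter fun z => σ z ∈ S).card = S.card - A.card := by
    intro σ hσ
    rw [mem_permInto] at hσ
    have h4 : (Aᶜ).filter (fun z => σ z ∈ S) = (S.map σ.symm.toEmbedding) \ A := by
      ext z
      simp only [mem_filter, mem_compl, mem_sdiff, mem_map_equiv, Equiv.symm_symm]
      tauto
    rw [h4, card_sdiff_of_subset, card_map]
    intro a ha
    rw [mem_map_equiv, Equiv.symm_symm]
    exact hσ a ha
  rw [sum_congr rfl h2, sum_congr rfl h3, sum_const, sum_const, card_compl,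
    Fintype.card_fin, smul_eq_mul, smul_eq_mul] at h1
  rw [mul_comm, h1]

theorem card_permInto_le {q : ℕ} (A S : Finset (Fin q)) :
    (permInto A S).card * q ^ A.card ≤ q.factorial * S.card ^ A.card := by
  induction A using Finset.induction_on with
  | empty =>
    have : (permInto ∅ S).card ≤ Fintype.card (Equiv.Perm (Fin q)) := card_le_univ _
    rw [Fintype.card_perm, Fintype.card_fin] at this
    simpa using this
  | insert x A hx ih =>
    have hS : S.card ≤ q := by simpa using card_le_univ S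
    have hA : A.card < q := by
      have := card_le_univ (insert x A)
      rw [card_insert_of_notMem hx, Fintype.card_fin] at this
      omega
    have h1 := card_permInto_insert A S hx
    have h2 : (permInto (insert x A) S).card * q ≤ (permInto A S).card * S.card := by
      have h3 : (S.card - A.card) * q ≤ S.card * (q - A.card) := by
        rcases le_total A.card S.card with h | h
        · obtain ⟨u, hu⟩ := Nat.exists_eq_add_of_le h
          obtain ⟨v, hv⟩ := Nat.exists_eq_add_of_le hS
          obtain ⟨w, hw⟩ := Nat.exists_eq_add_of_le hA.le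
          rw [hu, Nat.add_sub_cancel_left]
          have : q - A.card = w := by omega
          rw [this]
          have h5 : u ≤ w := by omega
          calc u * q = u * (A.card + w) := by rw [← hw]
            _ ≤ (A.card + u) * w := by nlinarith [Nat.mul_le_mul_left A.card h5]
        · rw [Nat.sub_eq_zero_of_le h, Nat.zero_mul]
          exact Nat.zero_le _
      have h4 : 0 < q - A.card := by omega
      refine Nat.le_of_mul_le_mul_right ?_ h4
      calc (permInto (insert x A) S).card * q * (q - A.card)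
          = ((permInto (insert x A) S).card * (q - A.card)) * q := by ring
        _ = (permInto A S).card * ((S.card - A.card) * q) := by rw [h1]; ring
        _ ≤ (permInto A S).card * (S.card * (q - A.card)) := Nat.mul_le_mul_left _ h3
        _ = (permInto A S).card * S.card * (q - A.card) := by ring
    rw [card_insert_of_notMem hx, pow_succ, pow_succ]
    calc (permInto (insert x A) S).card * (q ^ A.card * q)
        = ((permInto (insert x A) S).card * q) * q ^ A.card := by ring
      _ ≤ ((permInto A S).card * S.card) * q ^ A.card := Nat.mul_le_mul_right _ h2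
      _ = ((permInto A S).card * q ^ A.card) * S.card := by ring
      _ ≤ (q.factorial * S.card ^ A.card) * S.card := Nat.mul_le_mul_right _ ih
      _ = q.factorial * (S.card ^ A.card * S.card) := by ring

/-- The tuples of ten permutations with `σ s i ∈ S` for all `(s, i) ∈ X`. -/
def tupInto {q : ℕ} (X : Finset (Fin 10 × Fin q)) (S : Finset (Fin q)) :
    Finset (Fin 10 → Equiv.Perm (Fin q)) :=
  Fintype.piFinset fun s => permInto (univ.filter fun i => (s, i) ∈ X) S

theorem card_tupInto_le {q : ℕ} (X : Finset (Fin 10 × Fin q)) (S : Finset (Fin q)) :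
    (tupInto X S).card * q ^ X.card ≤ q.factorial ^ 10 * S.card ^ X.card := by
  have h1 : X.card = ∑ s : Fin 10, (univ.filter fun i => (s, i) ∈ X).card := by
    have h2 : X = (univ : Finset (Fin 10 × Fin q)).filter (· ∈ X) := by ext; simp
    conv_lhs => rw [h2]
    rw [card_filter, ← univ_product_univ, sum_product]
    exact sum_congr rfl fun s _ => by rw [card_filter]
  rw [tupInto, Fintype.card_piFinset, h1, ← prod_pow_eq_pow_sum, ← prod_pow_eq_pow_sum,
    ← prod_mul_distrib]
  calc ∏ s : Fin 10, ((permInto (univ.filter fun i => (s, i) ∈ X) S).card *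
        q ^ (univ.filter fun i => (s, i) ∈ X).card)
      ≤ ∏ s : Fin 10, (q.factorial * S.card ^ (univ.filter fun i => (s, i) ∈ X).card) :=
        prod_le_prod' fun s _ => card_permInto_le _ _
    _ = _ := by rw [prod_mul_distrib]; simp

/-- The tuples of ten permutations which do not expand the set `S`. -/
def tupBad {q : ℕ} (S : Finset (Fin q)) : Finset (Fin 10 → Equiv.Perm (Fin q)) :=
  univ.filter fun σ => ((univ ×ˢ S).filter fun p => σ p.1 p.2 ∉ S).card < S.card

theorem card_tupBad_le {q : ℕ} (S : Finset (Fin q)) :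
    (tupBad S).card * q ^ (9 * S.card) ≤
      (10 * S.card).choose S.card * (q.factorial ^ 10 * S.card ^ (9 * S.card)) := by
  have h1 : tupBad S ⊆ ((univ ×ˢ S : Finset (Fin 10 × Fin q)).powersetCard
      (9 * S.card)).biUnion fun X => tupInto X S := by
    intro σ hσ
    rw [tupBad, mem_filter] at hσ
    have h2 := card_filter_add_card_filter_not (s := (univ ×ˢ S : Finset (Fin 10 × Fin q)))
      (fun p => σ p.1 p.2 ∉ S)
    rw [card_product, card_univ, Fintype.card_fin] at h2
    have h3 : 9 * S.card ≤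
        ((univ ×ˢ S : Finset (Fin 10 × Fin q)).filter fun p => ¬ σ p.1 p.2 ∉ S).card := by
      omega
    obtain ⟨X, hX, hX'⟩ := exists_subset_card_eq h3
    rw [mem_biUnion]
    refine ⟨X, mem_powersetCard.2 ⟨hX.trans (filter_subset _ _), hX'⟩, ?_⟩
    rw [tupInto, Fintype.mem_piFinset]
    intro s
    rw [mem_permInto]
    intro a ha
    have := hX (mem_filter.1 ha).2
    rw [mem_filter, not_not] at this
    exact this.2
  have h4 := (card_le_card h1).trans card_biUnion_le
  calc (tupBad S).card * q ^ (9 * S.card)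
      ≤ (∑ X ∈ (univ ×ˢ S : Finset (Fin 10 × Fin q)).powersetCard (9 * S.card),
          (tupInto X S).card) * q ^ (9 * S.card) := Nat.mul_le_mul_right _ h4
    _ = ∑ X ∈ (univ ×ˢ S : Finset (Fin 10 × Fin q)).powersetCard (9 * S.card),
          (tupInto X S).card * q ^ (9 * S.card) := by rw [sum_mul]
    _ ≤ ∑ X ∈ (univ ×ˢ S : Finset (Fin 10 × Fin q)).powersetCard (9 * S.card),
          q.factorial ^ 10 * S.card ^ (9 * S.card) := by
        refine sum_le_sum fun X hX => ?_
        have h5 := (mem_powersetCard.1 hX).2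
        have h6 := card_tupInto_le X S
        rwa [h5] at h6
    _ = _ := by
        rw [sum_const, card_powersetCard, card_product, card_univ, Fintype.card_fin,
          smul_eq_mul]
        congr 1
        have : 10 * S.card = 9 * S.card + S.card := by ring
        rw [this, Nat.choose_symm_add]

theorem pow_self_le (t : ℕ) : t ^ t ≤ 3 ^ t * t.factorial := by
  induction t with
  | zero => simp
  | succ t ih =>
    rcases Nat.eq_zero_or_pos t with rfl | ht
    · norm_num
    have h1 : (t + 1) ^ t ≤ 3 * t ^ t := by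
      have h2 : (0 : ℝ) < t := by exact_mod_cast ht
      have h3 : (1 + 1 / (t : ℝ)) ^ t ≤ 3 := by
        have h4 : 1 + 1 / (t : ℝ) ≤ Real.exp (1 / t) := by
          linarith [Real.add_one_le_exp (1 / (t : ℝ))]
        calc (1 + 1 / (t : ℝ)) ^ t ≤ Real.exp (1 / t) ^ t :=
              pow_le_pow_left₀ (by positivity) h4 t
          _ = Real.exp 1 := by
              rw [← Real.exp_nat_mul]
              congr 1
              field_simp
          _ ≤ 3 := by linarith [Real.exp_one_lt_d9]
      have h5 : ((t : ℝ) + 1) ^ t = (1 + 1 / (t : ℝ)) ^ t * (t : ℝ) ^ t := by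
        rw [← mul_pow]
        congr 1
        field_simp
      have h6 : ((t : ℝ) + 1) ^ t ≤ 3 * (t : ℝ) ^ t := by
        rw [h5]
        exact mul_le_mul_of_nonneg_right h3 (by positivity)
      exact_mod_cast h6
    calc (t + 1) ^ (t + 1) = (t + 1) ^ t * (t + 1) := pow_succ _ _
      _ ≤ 3 * t ^ t * (t + 1) := Nat.mul_le_mul_right _ h1
      _ ≤ 3 * (3 ^ t * t.factorial) * (t + 1) :=
          Nat.mul_le_mul_right _ (Nat.mul_le_mul_left _ ih)
      _ = 3 ^ (t + 1) * (t + 1).factorial := by rw [Nat.factorial_succ]; ring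

theorem choose_mul_pow_le (n t : ℕ) : n.choose t * t ^ t ≤ (3 * n) ^ t := by
  calc n.choose t * t ^ t ≤ n.choose t * (3 ^ t * t.factorial) :=
        Nat.mul_le_mul_left _ (pow_self_le t)
    _ = 3 ^ t * (t.factorial * n.choose t) := by ring
    _ = 3 ^ t * n.descFactorial t := by rw [Nat.descFactorial_eq_factorial_mul_choose]
    _ ≤ 3 ^ t * n ^ t := Nat.mul_le_mul_left _ (Nat.descFactorial_le_pow n t)
    _ = (3 * n) ^ t := by rw [mul_pow]

theorem card_bad_size {q t : ℕ} (ht : 0 < t) (htq : 2 * t ≤ q) :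
    ((∑ S ∈ (univ : Finset (Fin q)).powersetCard t, (tupBad S).card : ℕ) : ℝ) ≤
      (q.factorial : ℝ) ^ 10 * (90 / 256) ^ t := by
  have hq : (0 : ℝ) < q := by
    have : 0 < q := by omega
    exact_mod_cast this
  have ht' : (0 : ℝ) < t := by exact_mod_cast ht
  have h1 : (∑ S ∈ (univ : Finset (Fin q)).powersetCard t, (tupBad S).card) * q ^ (9 * t) ≤
      q.choose t * ((10 * t).choose t * (q.factorial ^ 10 * t ^ (9 * t))) := by
    rw [sum_mul]
    calc _ ≤ ∑ S ∈ (univ : Finset (Fin q)).powersetCard t,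
          (10 * t).choose t * (q.factorial ^ 10 * t ^ (9 * t)) := by
          refine sum_le_sum fun S hS => ?_
          have h2 := (mem_powersetCard.1 hS).2
          have h3 := card_tupBad_le S
          rwa [h2] at h3
      _ = _ := by
          rw [sum_const, card_powersetCard, card_univ, Fintype.card_fin, smul_eq_mul]
  have h2 : (q.choose t : ℝ) * (t : ℝ) ^ t ≤ (3 * q) ^ t := by
    exact_mod_cast choose_mul_pow_le q t
  have h3 : ((10 * t).choose t : ℝ) ≤ 30 ^ t := by
    have h4 : ((10 * t).choose t : ℝ) * (t : ℝ) ^ t ≤ (3 * (10 * t)) ^ t := by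
      exact_mod_cast choose_mul_pow_le (10 * t) t
    have h5 : (3 * (10 * (t : ℝ))) ^ t = 30 ^ t * (t : ℝ) ^ t := by
      rw [← mul_pow]
      congr 1
      ring
    rw [h5] at h4
    exact le_of_mul_le_mul_right h4 (by positivity)
  have h6 : ((∑ S ∈ (univ : Finset (Fin q)).powersetCard t, (tupBad S).card : ℕ) : ℝ) *
      (q : ℝ) ^ (9 * t) ≤
      (q.choose t : ℝ) * ((10 * t).choose t * ((q.factorial : ℝ) ^ 10 * (t : ℝ) ^ (9 * t))) := by
    exact_mod_cast h1
  have h7 : (256 : ℝ) ^ t * (t : ℝ) ^ (8 * t) ≤ (q : ℝ) ^ (8 * t) := by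
    have h8 : (256 : ℝ) * (t : ℝ) ^ 8 ≤ (q : ℝ) ^ 8 := by
      have h9 : (2 * (t : ℝ)) ≤ q := by exact_mod_cast htq
      calc (256 : ℝ) * (t : ℝ) ^ 8 = (2 * (t : ℝ)) ^ 8 := by ring
        _ ≤ (q : ℝ) ^ 8 := pow_le_pow_left₀ (by positivity) h9 8
    calc (256 : ℝ) ^ t * (t : ℝ) ^ (8 * t) = ((256 : ℝ) * (t : ℝ) ^ 8) ^ t := by
          rw [mul_pow, ← pow_mul]
      _ ≤ ((q : ℝ) ^ 8) ^ t := pow_le_pow_left₀ (by positivity) h8 t
      _ = (q : ℝ) ^ (8 * t) := by rw [← pow_mul]
  have hpos : (0 : ℝ) < (q : ℝ) ^ (9 * t) * 256 ^ t := by positivity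
  refine le_of_mul_le_mul_right ?_ hpos
  have h10 : (t : ℝ) ^ (9 * t) = (t : ℝ) ^ t * (t : ℝ) ^ (8 * t) := by
    rw [← pow_add]
    congr 1
    ring
  calc ((∑ S ∈ (univ : Finset (Fin q)).powersetCard t, (tupBad S).card : ℕ) : ℝ) *
        ((q : ℝ) ^ (9 * t) * 256 ^ t)
      = (((∑ S ∈ (univ : Finset (Fin q)).powersetCard t, (tupBad S).card : ℕ) : ℝ) *
        (q : ℝ) ^ (9 * t)) * 256 ^ t := by ring
    _ ≤ ((q.choose t : ℝ) * ((10 * t).choose t *
        ((q.factorial : ℝ) ^ 10 * (t : ℝ) ^ (9 * t)))) * 256 ^ t :=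
        mul_le_mul_of_nonneg_right h6 (by positivity)
    _ = ((q.choose t : ℝ) * (t : ℝ) ^ t) * ((10 * t).choose t : ℝ) *
        (q.factorial : ℝ) ^ 10 * (256 ^ t * (t : ℝ) ^ (8 * t)) := by
        rw [h10]
        ring
    _ ≤ (3 * q) ^ t * 30 ^ t * (q.factorial : ℝ) ^ 10 * (q : ℝ) ^ (8 * t) := by
        gcongr
    _ = (q.factorial : ℝ) ^ 10 * 90 ^ t * (q : ℝ) ^ (9 * t) := by
        have h11 : (q : ℝ) ^ (9 * t) = (q : ℝ) ^ t * (q : ℝ) ^ (8 * t) := by
          rw [← pow_add]
          congr 1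
          ring
        have h12 : (90 : ℝ) ^ t = 3 ^ t * 30 ^ t := by
          rw [← mul_pow]
          norm_num
        rw [h11, h12, mul_pow]
        ring
    _ = (q.factorial : ℝ) ^ 10 * (90 / 256) ^ t * ((q : ℝ) ^ (9 * t) * 256 ^ t) := by
        rw [div_pow]
        field_simp

/-- There are ten permutations of `q` points such that each set with at most half of the points
has at least as many outgoing edges as points. -/
theorem expander (q : ℕ) : ∃ σ : Fin 10 → Equiv.Perm (Fin q), ∀ S : Finset (Fin q),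
    2 * S.card ≤ q → S.card ≤ ((univ ×ˢ S).filter fun p => σ p.1 p.2 ∉ S).card := by
  by_contra hcon
  push Not at hcon
  have h1 : (univ : Finset (Fin 10 → Equiv.Perm (Fin q))) ⊆
      (Finset.Icc 1 (q / 2)).biUnion fun t =>
        ((univ : Finset (Fin q)).powersetCard t).biUnion fun S => tupBad S := by
    intro σ _
    obtain ⟨S, hS, hS'⟩ := hcon σ
    rw [mem_biUnion]
    refine ⟨S.card, Finset.mem_Icc.2 ⟨by omega, by omega⟩, ?_⟩
    rw [mem_biUnion]
    exact ⟨S, mem_powersetCard.2 ⟨subset_univ _, rfl⟩, mem_filter.2 ⟨mem_univ _, hS'⟩⟩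
  have h2 : (univ : Finset (Fin 10 → Equiv.Perm (Fin q))).card ≤
      ∑ t ∈ Finset.Icc 1 (q / 2), ∑ S ∈ (univ : Finset (Fin q)).powersetCard t,
        (tupBad S).card :=
    (card_le_card h1).trans (card_biUnion_le.trans (sum_le_sum fun t _ => card_biUnion_le))
  rw [card_univ, Fintype.card_fun, Fintype.card_perm, Fintype.card_fin, Fintype.card_fin] at h2
  have h3 : ((q.factorial : ℝ) ^ 10) ≤ ∑ t ∈ Finset.Icc 1 (q / 2),
      (q.factorial : ℝ) ^ 10 * (90 / 256) ^ t := by
    calc ((q.factorial : ℝ) ^ 10) ≤ ((∑ t ∈ Finset.Icc 1 (q / 2),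
          ∑ S ∈ (univ : Finset (Fin q)).powersetCard t, (tupBad S).card : ℕ) : ℝ) := by
          exact_mod_cast h2
      _ = ∑ t ∈ Finset.Icc 1 (q / 2),
          ((∑ S ∈ (univ : Finset (Fin q)).powersetCard t, (tupBad S).card : ℕ) : ℝ) := by
          push_cast
          rfl
      _ ≤ _ := by
          refine sum_le_sum fun t ht => ?_
          rw [Finset.mem_Icc] at ht
          exact card_bad_size (by omega) (by omega)
  rw [← mul_sum] at h3
  have h4 : ∑ t ∈ Finset.Icc 1 (q / 2), ((90 : ℝ) / 256) ^ t < 1 := by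
    have h5 : ∀ n : ℕ, ∑ t ∈ Finset.Icc 1 n, ((90 : ℝ) / 256) ^ t =
        90 / 166 * (1 - (90 / 256) ^ n) := by
      intro n
      induction n with
      | zero => simp
      | succ n ih =>
        rw [Finset.sum_Icc_succ_top (by omega), ih, pow_succ]
        ring
    rw [h5]
    have h6 : (0 : ℝ) < (90 / 256) ^ (q / 2) := by positivity
    nlinarith
  have h7 : (0 : ℝ) < (q.factorial : ℝ) ^ 10 := by positivity
  nlinarith

theorem expander' (q : ℕ) : ∃ σ : Fin 10 → Equiv.Perm (Fin q), ∀ S : Finset (Fin q),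
    2 * S.card ≤ q → S.card ≤
      (univ.filter fun p : Fin 10 × Fin q => p.2 ∈ S ∧ σ p.1 p.2 ∉ S).card := by
  obtain ⟨σ, h⟩ := expander q
  refine ⟨σ, fun S hS => (h S hS).trans (card_le_card ?_)⟩
  intro p hp
  simp only [mem_filter, mem_product, mem_univ, true_and] at hp ⊢
  exact hp

/-- The same as a table with eleven rows; row `0` is the identity. -/
theorem expander_table (q : ℕ) : ∃ tab : List (List ℕ), tab.length = 11 ∧
    (∀ r ∈ tab, r.length = q ∧ r.Nodup ∧ ∀ x ∈ r, x < q) ∧
    (∀ j < q, (tab.getD 0 []).getD j 0 = j) ∧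
    (∀ s < 11, ∀ j < q, (tab.getD s []).getD j 0 < q) ∧
    (∀ s < 11, ∀ i < q, ∀ j < q,
      (tab.getD s []).getD i 0 = (tab.getD s []).getD j 0 → i = j) ∧
    ∀ S : Finset ℕ, S ⊆ range q → 2 * S.card ≤ q →
      S.card ≤ ((range 11 ×ˢ S).filter fun p => (tab.getD p.1 []).getD p.2 0 ∉ S).card := by
  obtain ⟨σ, hσ⟩ := expander q
  set τ : Fin 11 → Equiv.Perm (Fin q) := Fin.cons (Equiv.refl _) σ with hτ
  set tab : List (List ℕ) := List.ofFn fun s => List.ofFn fun i => ((τ s i : Fin q) : ℕ) with htab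
  have hval : ∀ (s : ℕ) (hs : s < 11) (j : ℕ) (hj : j < q),
      (tab.getD s []).getD j 0 = ((τ ⟨s, hs⟩ ⟨j, hj⟩ : Fin q) : ℕ) := by
    intro s hs j hj
    rw [htab, List.getD_eq_getElem?_getD, List.getD_eq_getElem?_getD, List.getElem?_ofFn,
      dif_pos hs, Option.getD_some, List.getElem?_ofFn, dif_pos hj, Option.getD_some]
  refine ⟨tab, by simp [htab], ?_, ?_, ?_, ?_, ?_⟩
  · intro r hr
    rw [htab, List.mem_ofFn] at hr
    obtain ⟨s, rfl⟩ := hr
    refine ⟨by simp, ?_, ?_⟩
    · rw [List.nodup_ofFn]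
      intro i j hij
      exact (τ s).injective (Fin.ext hij)
    · intro x hx
      rw [List.mem_ofFn] at hx
      obtain ⟨i, rfl⟩ := hx
      exact (τ s i).2
  · intro j hj
    rw [hval 0 (by omega) j hj]
    rfl
  · intro s hs j hj
    rw [hval s hs j hj]
    exact (τ _ _).2
  · intro s hs i hi j hj h
    rw [hval s hs i hi, hval s hs j hj] at h
    have := (τ ⟨s, hs⟩).injective (Fin.ext h)
    exact congrArg Fin.val this
  · intro S hS hc
    set S' : Finset (Fin q) := univ.filter fun i => (i : ℕ) ∈ S with hS'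
    have hmap : S'.map Fin.valEmbedding = S := by
      ext x
      simp only [hS', mem_map, mem_filter, mem_univ, true_and, Fin.valEmbedding_apply]
      constructor
      · rintro ⟨i, hi, rfl⟩
        exact hi
      · intro hx
        exact ⟨⟨x, mem_range.1 (hS hx)⟩, hx, rfl⟩
    have hcard : S'.card = S.card := by rw [← hmap, card_map]
    have h1 := hσ S' (by rw [hcard]; exact hc)
    rw [hcard] at h1
    refine h1.trans ?_
    refine card_le_card_of_injOn (fun p => ((p.1 : ℕ) + 1, (p.2 : ℕ))) ?_ ?_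
    · intro p hp
      rw [mem_coe, mem_filter, mem_product] at hp
      rw [mem_coe, mem_filter, mem_product]
      have hp2 : ((p.2 : Fin q) : ℕ) ∈ S := (mem_filter.1 hp.1.2).2
      have h0 : (p.1 : ℕ) + 1 < 11 := by have := p.1.2; omega
      refine ⟨⟨mem_range.2 h0, hp2⟩, ?_⟩
      have h2 := hval ((p.1 : ℕ) + 1) h0 (p.2 : ℕ) p.2.2
      intro h3
      apply hp.2
      rw [hS', mem_filter]
      refine ⟨mem_univ _, ?_⟩
      change (tab.getD ((p.1 : ℕ) + 1) []).getD (p.2 : ℕ) 0 ∈ S at h3
      rw [h2] at h3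
      exact h3
    · intro p _ r _ h
      have h2 := congrArg Prod.fst h
      have h3 := congrArg Prod.snd h
      simp only [Nat.add_right_cancel_iff] at h2 h3
      exact Prod.ext (Fin.ext h2) (Fin.ext h3)

/-- The expander table: `sg s` for `s < 11` are permutations of `{0, ..., q - 1}`, `sg 0` is the
identity, and every set of at most half of the points is left by at least as many arrows as it
has elements. -/
structure Exp (q : ℕ) (sg : ℕ → ℕ → ℕ) : Prop where
  lt : ∀ s < 11, ∀ j < q, sg s j < q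
  inj : ∀ s < 11, ∀ i < q, ∀ j < q, sg s i = sg s j → i = j
  zero : ∀ j < q, sg 0 j = j
  exp : ∀ S ⊆ range q, 2 * S.card ≤ q →
    S.card ≤ ((range 11 ×ˢ S).filter (fun x => sg x.1 x.2 ∉ S)).card

theorem exists_exp_table (q : ℕ) : ∃ tab : List (List ℕ), tab.length = 11 ∧
    (∀ r ∈ tab, r.length = q ∧ r.Nodup ∧ ∀ x ∈ r, x < q) ∧
    Exp q fun s j => (tab.getD s []).getD j 0 := by
  obtain ⟨tab, h1, h2, h3, h4, h5, h6⟩ := expander_table q
  exact ⟨tab, h1, h2, ⟨h4, h5, h3, h6⟩⟩

theorem exists_exp (q : ℕ) (_hq : 0 < q) : ∃ sg, Exp q sg := by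
  obtain ⟨tab, -, -, h⟩ := exists_exp_table q
  exact ⟨_, h⟩

end Pool.Agent.H.JS
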