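import Pool.Agent.H.MP_aeb38e_lc.InstB
import Pool.Agent.H.MP_aeb38e_lc.Yes
import Pool.Agent.H.MP_aeb38e_lc.Expander

/-!
The YES side of the strong form: if `φ` is satisfiable, the jobs can be run with offsets (in
blocks) whose base 16 digits encode the assignment and the true literals.
-/

set_option autoImplicit false

namespace Pool.Agent.H.JS

namespace YB

open Y

/-! ### Operations of the instance -/

theorem isOp_instB (φ : CNF) (m k d L R w : ℕ) (tab : List (List ℕ)) (j P m' p : ℕ) :
    IsOp (instB φ m k d L R w tab) j P m' p ↔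
      j < 2 * k ∧ P < R * L ∧ m' = machB φ k d L w tab (cols φ k) j P ∧ p = 1 := by
  unfold IsOp instB
  simp only [List.getElem?_map]
  constructor
  · rintro ⟨job, h1, h2⟩
    have hj : j < 2 * k := by
      by_contra hj
      rw [List.getElem?_eq_none (by simpa using hj)] at h1
      simp at h1
    rw [List.getElem?_range hj] at h1
    simp only [Option.map_some, Option.some.injEq] at h1
    subst h1
    rw [List.getElem?_map] at h2
    have hP : P < R * L := by
      by_contra hP
      rw [List.getElem?_eq_none (by simpa using hP)] at h2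
      simp at h2
    rw [List.getElem?_range hP] at h2
    simp only [Option.map_some, Option.some.injEq, Prod.mk.injEq] at h2
    exact ⟨hj, hP, h2.1.symm, h2.2.symm⟩
  · rintro ⟨hj, hP, rfl, rfl⟩
    rw [List.getElem?_range hj]
    refine ⟨_, rfl, ?_⟩
    rw [List.getElem?_map, List.getElem?_range hP]
    rfl

theorem jobA_lt (φ : CNF) (k : ℕ) (hk : 0 < k) (x : ℕ × ℕ) : jobA φ k x < 2 * k := by
  have h1 := Nat.mod_lt (litAt φ x.2).1 hk
  have h2 := Nat.mod_lt (litAt φ (3 * (x.2 / 3))).1 hk
  have h3 := Nat.mod_lt (fstOcc φ x.2 / 3) hk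
  unfold jobA
  split_ifs <;> omega

theorem slotMach_lt (φ : CNF) (k d : ℕ) (hk : 0 < k) (cl : List ((ℕ × ℕ) × ℕ)) (i j p : ℕ)
    (hj : j < 2 * k) : slotMach φ k d cl i j p < 4 * k := by
  unfold slotMach
  cases (cl.find? fun y => decide (y.2 = i / 65536) &&
    (decide (jobA φ k y.1 = j) || decide (jobB φ k y.1 = j))) with
  | none => simp only [Option.map_none, Option.getD_none]; omega
  | some y =>
    simp only [Option.map_some, Option.getD_some]
    unfold testMach
    have := jobA_lt φ k hk y.1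
    split_ifs <;> omega

theorem machB_lt (φ : CNF) (k d L w : ℕ) (hk : 0 < k) (tab : List (List ℕ))
    (hE : Exp (2 * k) (perm tab)) (cl : List ((ℕ × ℕ) × ℕ)) (j P : ℕ) (hj : j < 2 * k) :
    machB φ k d L w tab cl j P < 4 * k := by
  unfold machB
  split_ifs
  · exact slotMach_lt φ k d hk cl _ j _ hj
  · have := hE.lt (digit 11 w (P % L)) (Nat.mod_lt _ (by norm_num)) j hj
    omega

theorem simple_instB (φ : CNF) (m k d L R w : ℕ) (tab : List (List ℕ)) (hk : 0 < k)
    (hm : 4 * k ≤ m) (hE : Exp (2 * k) (perm tab)) : Simple (instB φ m k d L R w tab) := by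
  constructor
  · show ((List.range (2 * k)).map _).length < m
    rw [List.length_map, List.length_range]
    omega
  · intro j i m' p h
    rw [isOp_instB] at h
    obtain ⟨h1, h2, rfl, rfl⟩ := h
    exact ⟨(machB_lt φ k d L w hk tab hE _ j i h1).trans_le hm, rfl⟩

/-! ### Offsets -/

/-- The offset of job `j`, in blocks. -/
def ofsB (k d : ℕ) (τ : ℕ → Bool) (u : ℕ → ℕ) (j : ℕ) : ℕ :=
  if j < k then off (aX k u j) d else off (aY k d τ (j - k)) (2 * d)

theorem ofsB_lt (k d : ℕ) (τ : ℕ → Bool) (u : ℕ → ℕ) (hu : ∀ c, u c ≤ 2) (j : ℕ) :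
    ofsB k d τ u j < 16 ^ (2 * d) := by
  unfold ofsB
  split
  · exact (off_lt _ _ fun l _ => aX_lt k u hu _ l).trans_le
      (Nat.pow_le_pow_right (by norm_num) (by omega))
  · exact off_lt _ _ fun l _ => aY_lt k d τ _ l

theorem ofsB_X (k d : ℕ) (τ : ℕ → Bool) (u : ℕ → ℕ) (c : ℕ) (hk : 0 < k) :
    ofsB k d τ u (c % k) = off (aX k u (c % k)) d := by
  have := Nat.mod_lt c hk
  unfold ofsB
  rw [if_pos this]

theorem ofsB_Y (k d : ℕ) (τ : ℕ → Bool) (u : ℕ → ℕ) (v : ℕ) :
    ofsB k d τ u (k + v % k) = off (aY k d τ (v % k)) (2 * d) := by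
  unfold ofsB
  rw [if_neg (by omega), Nat.add_sub_cancel_left]

/-! ### The digit differences are allowed -/

theorem getD_getElem? (φ : CNF) (c : ℕ) (h : c < φ.2.length) :
    φ.2[c]? = some (φ.2.getD c ((0, false), (0, false), (0, false))) := by
  rw [List.getD_eq_getElem?_getD, List.getElem?_eq_getElem h]
  rfl

theorem litAt_lt (φ : CNF) (hv : Vars φ) (o : ℕ) (h : o < 3 * φ.2.length) :
    (litAt φ o).1 < φ.1 := by
  unfold litAt
  have h1 := hv _ (List.mem_of_getElem? (getD_getElem? φ (o / 3) (by omega)))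
  generalize φ.2.getD (o / 3) ((0, false), (0, false), (0, false)) = cl at *
  unfold litOf
  split
  · exact h1.1
  · split
    · exact h1.2.1
    · exact h1.2.2

/-- The pair of digit differences seen by a test is allowed. -/
theorem allow_of (φ : CNF) (k d : ℕ) (τ : ℕ → Bool) (u : ℕ → ℕ) (hk : 0 < k)
    (hM : φ.2.length ≤ k * d) (hN : φ.1 ≤ k * d) (hv : Vars φ) (hu : ∀ c, u c ≤ 2)
    (ht : ∀ c cl, φ.2[c]? = some cl → τ (litOf cl (u c)).1 = (litOf cl (u c)).2)
    (x : ℕ × ℕ) (hx : x.1 < 3) (ho : x.2 < 3 * φ.2.length) (p p' : ℕ)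
    (h : p + ofsB k d τ u (jobA φ k x) = p' + ofsB k d τ u (jobB φ k x)) :
    allow x.1 (x.2 % 3) (litAt φ x.2).2
      ((digit 16 p (x.2 / 3 / k) + 16 - digit 16 p' (x.2 / 3 / k)) % 16)
      ((digit 16 p (d + (litAt φ x.2).1 / k) + 16 - digit 16 p' (d + (litAt φ x.2).1 / k)) % 16)
      = true := by
  obtain ⟨t, o⟩ := x
  simp only at *
  have hcM : o / 3 < φ.2.length := by omega
  have hl : o / 3 / k < d := by
    rw [Nat.div_lt_iff_lt_mul hk]
    calc o / 3 < φ.2.length := hcM
      _ ≤ d * k := by rw [mul_comm]; exact hM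
  have hvr := litAt_lt φ hv o ho
  have htc := ht _ _ (getD_getElem? φ (o / 3) hcM)
  have hlit : litAt φ o = litOf (φ.2.getD (o / 3) ((0, false), (0, false), (0, false)))
    (o % 3) := rfl
  generalize hcl : φ.2.getD (o / 3) ((0, false), (0, false), (0, false)) = cl at *
  generalize hvv : (litAt φ o).1 = v at *
  have hl' : d + v / k < 2 * d := by
    have : v / k < d := by
      rw [Nat.div_lt_iff_lt_mul hk]
      calc v < φ.1 := hvr
        _ ≤ d * k := by rw [mul_comm]; exact hN
    omega
  generalize hcc : o / 3 = c at *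
  generalize hL : c / k = l at *
  generalize hL' : d + v / k = l' at *
  have hX : digit 16 (off (aX k u (c % k)) d) l = 4 * u c := by
    rw [dig_off _ _ _ (fun l _ => aX_lt k u hu _ l) hl, ← hL, aX_val]
  have hX' : ∀ i, digit 16 (off (aX k u i) d) l' = 0 := fun i =>
    dig_off_ge _ _ _ (fun l _ => aX_lt k u hu _ l) (by rw [← hL']; exact Nat.le_add_right _ _)
  have hY' : digit 16 (off (aY k d τ (v % k)) (2 * d)) l' = 4 * (τ v).toNat := by
    rw [dig_off _ _ _ (fun l _ => aY_lt k d τ _ l) hl', ← hL', aY_val]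
  have hYd : ∀ y i, digit 16 (y + off (aY k d τ i) (2 * d)) l = digit 16 y l := by
    intro y i
    apply dig_add_of_dvd
    refine (pow_dvd_pow 16 (show l + 1 ≤ d by omega)).trans (dvd_off _ _ _ fun i hi => ?_)
    unfold aY
    rw [if_pos hi]
  have huc := hu c
  rcases (show t = 0 ∨ t = 1 ∨ t = 2 by omega) with rfl | rfl | rfl
  · -- variable job and clause job
    simp only [jobA, jobB, if_true, zero_ne_one, if_false, hvv, hcc] at h
    rw [ofsB_X k d τ u c hk, ofsB_Y k d τ u v] at h
    obtain ⟨e, he, h1⟩ := dig_diff l p' (off (aX k u (c % k)) d)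
    obtain ⟨e1, he1, h2⟩ := dig_diff l' p' (off (aX k u (c % k)) d)
    obtain ⟨e2, he2, h3⟩ := dig_diff l' p (off (aY k d τ (v % k)) (2 * d))
    rw [← h, hYd, hX] at h1
    rw [← h, hX'] at h2
    rw [hY'] at h3
    rw [h1]
    have b1 := dig_lt l' p
    have b2 := dig_lt l' p'
    have b3 := dig_lt l' (p + off (aY k d τ (v % k)) (2 * d))
    generalize digit 16 p l' = y1 at *
    generalize digit 16 p' l' = y2 at *
    generalize digit 16 (p + off (aY k d τ (v % k)) (2 * d)) l' = y3 at *
    have hxr : (4 * u c + e) % 16 / 4 = o % 3 → τ v = (litAt φ o).2 := by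
      intro hr
      have : u c = o % 3 := by omega
      rw [← hvv, hlit, ← this]
      exact htc
    unfold allow
    simp only [if_true, Bool.and_eq_true,
      Bool.or_eq_true, decide_eq_true_eq, Bool.not_eq_true', decide_eq_false_iff_not]
    refine ⟨by omega, by omega, ?_⟩
    rcases Bool.eq_false_or_eq_true (τ v) with hb | hb
    · right
      rw [hb] at h3 hxr
      simp only [Bool.toNat_true] at h3
      refine ⟨by omega, ?_⟩
      by_cases hr : (4 * u c + e) % 16 / 4 = o % 3
      · right; exact (hxr hr).symm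
      · left; exact hr
    · left
      rw [hb] at h3 hxr
      simp only [Bool.toNat_false] at h3
      refine ⟨by omega, ?_⟩
      by_cases hr : (4 * u c + e) % 16 / 4 = o % 3
      · right; exact (hxr hr).symm
      · left; exact hr
  · -- two variable jobs
    simp only [jobA, jobB, one_ne_zero, if_false, if_true] at h
    rw [ofsB_Y, ofsB_Y] at h
    have e1 := hYd p ((litAt φ (3 * (o / 3))).1 % k)
    rw [h, hYd] at e1
    rw [← e1]
    unfold allow
    have a1 := dig_lt l p'
    simp only [one_ne_zero, if_false, if_true, decide_eq_true_eq]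
    omega
  · -- two clause jobs
    simp only [jobA, jobB, OfNat.ofNat_ne_zero, OfNat.ofNat_ne_one, if_false, hcc] at h
    rw [ofsB_X k d τ u c hk, ofsB_X k d τ u _ hk] at h
    obtain ⟨e1, he1, h2⟩ := dig_diff l' p' (off (aX k u (c % k)) d)
    obtain ⟨e2, he2, h3⟩ := dig_diff l' p (off (aX k u (fstOcc φ o / 3 % k)) d)
    rw [← h, hX'] at h2
    rw [hX'] at h3
    have b1 := dig_lt l' p
    have b2 := dig_lt l' p'
    have b3 := dig_lt l' (p + off (aX k u (fstOcc φ o / 3 % k)) d)
    generalize digit 16 p l' = y1 at *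
    generalize digit 16 p' l' = y2 at *
    generalize digit 16 (p + off (aX k u (fstOcc φ o / 3 % k)) d) l' = y3 at *
    unfold allow
    simp only [OfNat.ofNat_ne_zero, OfNat.ofNat_ne_one, if_false, Bool.or_eq_true,
      decide_eq_true_eq]
    omega

/-! ### The colouring -/

theorem mex_notMem (l : List ℕ) : mex l ∉ l := by
  have hex : ∃ c ∈ List.range (l.length + 1), (!decide (c ∈ l)) = true := by
    by_contra hc
    push Not at hc
    have h1 : (Finset.range (l.length + 1)) ⊆ l.toFinset := by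
      intro c hc'
      have := hc c (List.mem_range.2 (Finset.mem_range.1 hc'))
      rw [List.mem_toFinset]
      simpa using this
    have h2 := Finset.card_le_card h1
    rw [Finset.card_range] at h2
    have h3 := List.toFinset_card_le l
    omega
  obtain ⟨c, hc⟩ := Option.isSome_iff_exists.1 (List.find?_isSome.2 hex)
  have hm : mex l = c := by
    unfold mex
    rw [hc]
    rfl
  rw [hm]
  have h1 := List.find?_some hc
  simpa using h1

theorem fst_mem {α : Type} {mt : α → α → Bool} {l : List α} {y : α × ℕ}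
    (h : y ∈ colour mt l) : y.1 ∈ l := by
  induction l with
  | nil => simp [colour] at h
  | cons x l ih =>
    change y ∈ (x, _) :: colour mt l at h
    rcases List.mem_cons.1 h with rfl | h
    · simp
    · exact List.mem_cons_of_mem _ (ih h)

theorem col_unique {α : Type} {mt : α → α → Bool} (hs : ∀ x y, mt x y = true → mt y x = true)
    {l : List α} {y z : α × ℕ} (hy : y ∈ colour mt l) (hz : z ∈ colour mt l)
    (hc : y.2 = z.2) (hm : mt y.1 z.1 = true) : y = z := by
  induction l with
  | nil => simp [colour] at hy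
  | cons x l ih =>
    have key : ∀ z ∈ colour mt l, mt x z.1 = true →
        mex (((colour mt l).filter fun y => mt x y.1).map Prod.snd) ≠ z.2 := by
      intro z hz hm he
      apply mex_notMem (((colour mt l).filter fun y => mt x y.1).map Prod.snd)
      rw [he]
      exact List.mem_map_of_mem (List.mem_filter.2 ⟨hz, hm⟩)
    change y ∈ (x, mex (((colour mt l).filter fun y => mt x y.1).map Prod.snd)) ::
      colour mt l at hy
    change z ∈ (x, mex (((colour mt l).filter fun y => mt x y.1).map Prod.snd)) ::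
      colour mt l at hz
    rcases List.mem_cons.1 hy with rfl | hy <;> rcases List.mem_cons.1 hz with rfl | hz
    · rfl
    · exact absurd hc (key z hz hm)
    · exact absurd hc.symm (key y hy (hs _ _ hm))
    · exact ih hy hz

theorem meet_symm (φ : CNF) (k : ℕ) (x y : ℕ × ℕ) (h : meet φ k x y = true) :
    meet φ k y x = true := by
  unfold meet at *
  simp only [Bool.or_eq_true, decide_eq_true_eq] at *
  rcases h with (h | h) | (h | h)
  · exact Or.inl (Or.inl h.symm)
  · exact Or.inr (Or.inl h.symm)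
  · exact Or.inl (Or.inr h.symm)
  · exact Or.inr (Or.inr h.symm)

theorem tests_mem (φ : CNF) (k : ℕ) (x : ℕ × ℕ) (h : x ∈ tests φ k) :
    x.1 < 3 ∧ x.2 < 3 * φ.2.length ∧ jobA φ k x ≠ jobB φ k x := by
  unfold tests at h
  rw [List.mem_filter, List.mem_flatMap] at h
  obtain ⟨⟨t, ht, hx⟩, h2⟩ := h
  obtain ⟨o, ho, rfl⟩ := List.mem_map.1 hx
  rw [List.mem_range] at ht ho
  refine ⟨ht, ho, by simpa using h2⟩

/-! ### No conflicts -/

/-- What it means that a job is on a common machine. -/
theorem slotMach_ne (φ : CNF) (k d i j p : ℕ)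
    (h : slotMach φ k d (cols φ k) i j p ≠ j) :
    ∃ y ∈ cols φ k, y.2 = i / 65536 ∧ slotMach φ k d (cols φ k) i j p = 2 * k + jobA φ k y.1 ∧
      allow y.1.1 (y.1.2 % 3) (litAt φ y.1.2).2 ((i / 4096 % 16 + 16 - i / 16 % 16) % 16)
        ((i / 256 % 16 + 16 - i % 16) % 16) = false ∧
      ((j = jobA φ k y.1 ∧ digit 16 p (y.1.2 / 3 / k) = i / 4096 % 16 ∧
          digit 16 p (d + (litAt φ y.1.2).1 / k) = i / 256 % 16) ∨
        (j = jobB φ k y.1 ∧ digit 16 p (y.1.2 / 3 / k) = i / 16 % 16 ∧
          digit 16 p (d + (litAt φ y.1.2).1 / k) = i % 16)) := by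
  unfold slotMach at h ⊢
  cases hf : ((cols φ k).find? fun y => decide (y.2 = i / 65536) &&
      (decide (jobA φ k y.1 = j) || decide (jobB φ k y.1 = j))) with
  | none => rw [hf] at h; exact absurd rfl h
  | some y =>
    rw [hf] at h
    simp only [Option.map_some, Option.getD_some] at h ⊢
    have h1 := List.find?_some hf
    have h2 := List.mem_of_find?_eq_some hf
    simp only [Bool.and_eq_true, decide_eq_true_eq] at h1
    refine ⟨y, h2, h1.1, ?_⟩
    unfold testMach at h ⊢
    split_ifs at h ⊢ with hif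
    · refine ⟨rfl, ?_⟩
      simp only [Bool.and_eq_true, Bool.or_eq_true, decide_eq_true_eq, Bool.not_eq_true'] at hif
      exact hif
    · exact absurd rfl h

/-- Two different jobs which fit are never on the same machine in a test slot. -/
theorem slot_ne (φ : CNF) (k d : ℕ) (τ : ℕ → Bool) (u : ℕ → ℕ) (hk : 0 < k)
    (hM : φ.2.length ≤ k * d) (hN : φ.1 ≤ k * d) (hv : Vars φ) (hu : ∀ c, u c ≤ 2)
    (ht : ∀ c cl, φ.2[c]? = some cl → τ (litOf cl (u c)).1 = (litOf cl (u c)).2)
    (i j j' p p' : ℕ) (hj : j < 2 * k) (hj' : j' < 2 * k) (hne : j ≠ j')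
    (h : ofsB k d τ u j + p = ofsB k d τ u j' + p') :
    slotMach φ k d (cols φ k) i j p ≠ slotMach φ k d (cols φ k) i j' p' := by
  intro he
  by_cases h1 : slotMach φ k d (cols φ k) i j p = j
  · by_cases h2 : slotMach φ k d (cols φ k) i j' p' = j'
    · exact hne (by rw [← h1, he, h2])
    · obtain ⟨y, -, -, h3, -⟩ := slotMach_ne φ k d i j' p' h2
      omega
  · obtain ⟨y, hy, hy2, hy3, hna, hya⟩ := slotMach_ne φ k d i j p h1
    by_cases h2 : slotMach φ k d (cols φ k) i j' p' = j'
    · omega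
    · obtain ⟨z, hz, hz2, hz3, -, hza⟩ := slotMach_ne φ k d i j' p' h2
      have hyz : y = z := by
        refine col_unique (meet_symm φ k) hy hz (by rw [hy2, hz2]) ?_
        unfold meet
        have : jobA φ k y.1 = jobA φ k z.1 := by omega
        simp [this]
      subst hyz
      obtain ⟨hm1, hm2, -⟩ := tests_mem φ k y.1 (fst_mem hy)
      have key := fun (x x' : ℕ) hx => allow_of φ k d τ u hk hM hN hv hu ht y.1 hm1 hm2 x x' hx
      rcases hya with ⟨e1, e2, e3⟩ | ⟨e1, e2, e3⟩ <;> rcases hza with ⟨f1, f2, f3⟩ | ⟨f1, f2, f3⟩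
      · exact hne (e1.trans f1.symm)
      · have := key p p' (by rw [← e1, ← f1]; omega)
        rw [e2, e3, f2, f3, hna] at this
        simp at this
      · have := key p' p (by rw [← e1, ← f1]; omega)
        rw [e2, e3, f2, f3, hna] at this
        simp at this
      · exact hne (e1.trans f1.symm)

/-- If two positions are congruent modulo the length of a block and the offsets of two different
jobs fit, the jobs are on different machines. -/
theorem machB_ne (φ : CNF) (k d L w : ℕ) (tab : List (List ℕ)) (hE : Exp (2 * k) (perm tab))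
    (h3 : 3 ∣ L) (τ : ℕ → Bool) (u : ℕ → ℕ) (hk : 0 < k)
    (hM : φ.2.length ≤ k * d) (hN : φ.1 ≤ k * d) (hv : Vars φ) (hu : ∀ c, u c ≤ 2)
    (ht : ∀ c cl, φ.2[c]? = some cl → τ (litOf cl (u c)).1 = (litOf cl (u c)).2)
    (j j' P P' : ℕ) (hj : j < 2 * k) (hj' : j' < 2 * k) (hne : j ≠ j')
    (h : ofsB k d τ u j + P / L = ofsB k d τ u j' + P' / L) (hm : P % L = P' % L) :
    machB φ k d L w tab (cols φ k) j P ≠ machB φ k d L w tab (cols φ k) j' P' := by
  have hP : P % 3 = P' % 3 := by
    rw [← Nat.mod_mod_of_dvd P h3, hm, Nat.mod_mod_of_dvd P' h3]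
  unfold machB
  rw [← hP, ← hm]
  by_cases h2 : P % 3 = 2
  · rw [if_pos h2, if_pos h2]
    exact slot_ne φ k d τ u hk hM hN hv hu ht (P % L / 3) j j' (P / L) (P' / L) hj hj' hne h
  · rw [if_neg h2, if_neg h2]
    intro hh
    exact hne (hE.inj _ (Nat.mod_lt _ (by norm_num)) j hj j' hj' hh)

/-- **YES side**: the minimum makespan for a satisfiable formula. -/
theorem yes0 (φ : CNF) (m k d L R w : ℕ) (tab : List (List ℕ)) (hk : 0 < k)
    (hE : Exp (2 * k) (perm tab)) (h3 : 3 ∣ L) (hM : φ.2.length ≤ k * d)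
    (hN : φ.1 ≤ k * d) (hv : Vars φ) (hsat : Sat φ) :
    OPT (instB φ m k d L R w tab) ≤ (16 ^ (2 * d) + R) * L := by
  obtain ⟨τ, hτ⟩ := hsat
  obtain ⟨u, hu, ht⟩ := exists_lit φ τ hτ
  rcases Nat.eq_zero_or_pos L with rfl | hL
  · refine (Nat.sInf_le ?_).trans (Nat.zero_le _)
    refine ⟨fun _ _ => 0, ⟨?_, ?_⟩, ?_⟩ <;> simp only [isOp_instB, EndsBy] <;> intros <;>
      simp_all
  refine Nat.sInf_le ⟨fun j P => ofsB k d τ u j * L + P, ⟨?_, ?_⟩, ?_⟩
  · intro j i m p m' p' h1 _
    rw [isOp_instB] at h1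
    obtain ⟨-, -, -, rfl⟩ := h1
    show ofsB k d τ u j * L + i + 1 ≤ ofsB k d τ u j * L + (i + 1)
    omega
  · intro j i j' i' m p p' h1 h2 hne
    rw [isOp_instB] at h1 h2
    obtain ⟨hj, hi, hm, rfl⟩ := h1
    obtain ⟨hj', hi', hm', rfl⟩ := h2
    by_contra hcon
    simp only [] at hcon
    have heq : ofsB k d τ u j * L + i = ofsB k d τ u j' * L + i' := by omega
    have hjj : j ≠ j' := by
      rintro rfl
      apply hne
      rw [Nat.add_left_cancel heq]
    refine machB_ne φ k d L w tab hE h3 τ u hk hM hN hv hu ht j j' i i' hj hj' hjj ?_ ?_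
      (hm.symm.trans hm')
    · have := congrArg (· / L) heq
      simpa [Nat.mul_add_div hL, mul_comm _ L] using this
    · have := congrArg (· % L) heq
      simpa [mul_comm _ L, Nat.mul_add_mod] using this
  · intro j i m p h1
    rw [isOp_instB] at h1
    obtain ⟨-, hi, -, rfl⟩ := h1
    have h2 := ofsB_lt k d τ u hu j
    have h3 : ofsB k d τ u j * L ≤ 16 ^ (2 * d) * L := Nat.mul_le_mul_right _ h2.le
    rw [add_mul]
    show ofsB k d τ u j * L + i + 1 ≤ _
    omega

end YB

/-- The instances are in `Simple`. -/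
theorem simple_instB (φ : CNF) (m k d L R w : ℕ) (tab : List (List ℕ)) (hk : 0 < k)
    (hm : 4 * k ≤ m) (hE : Exp (2 * k) (perm tab)) : Simple (instB φ m k d L R w tab) :=
  YB.simple_instB φ m k d L R w tab hk hm hE

/-- The YES side. -/
theorem yesB {φ : CNF} {m k d L E : ℕ} {tab : List (List ℕ)} (hk : 0 < k)
    (hE : Exp (2 * k) (perm tab)) (h3 : 3 ∣ L) (hM : φ.2.length ≤ k * d) (hn : φ.1 ≤ k * d)
    (hv : Vars φ) (hsat : Sat φ) (w : ℕ) :
    OPT (instB φ m k d L (blocks d E) w tab) ≤ 16 ^ (2 * d) * (E + 1) * L := by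
  refine (YB.yes0 φ m k d L _ w tab hk hE h3 hM hn hv hsat).trans (le_of_eq ?_)
  unfold blocks
  ring

end Pool.Agent.H.JS
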