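import Mathlib

/-!
Definitions used in the statement of the main theorem: the job shop problem, its approximation
algorithms, and the gap exponential time hypothesis.
-/

namespace Pool.Agent.H.JS

open Turing

/-! ### The job shop problem -/

/-- An instance of the job shop problem: the number of machines, and the list of the jobs. A job
is the list of its operations; an operation is a pair (machine, processing time). -/
abbrev Shop := ℕ × List (List (ℕ × ℕ))

/-- `IsOp I j i m p`: the operation number `i` of the job number `j` exists, runs on machine `m`
and has processing time `p`. -/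
def IsOp (I : Shop) (j i m p : ℕ) : Prop :=
  ∃ job, I.2[j]? = some job ∧ job[i]? = some (m, p)

/-- A schedule gives the start time `st j i` to the operation `i` of the job `j`. It is feasible
if the operations of each job run in their order and no two operations run on the same machine
at the same time. -/
def Feasible (I : Shop) (st : ℕ → ℕ → ℕ) : Prop :=
  (∀ j i m p m' p', IsOp I j i m p → IsOp I j (i + 1) m' p' → st j i + p ≤ st j (i + 1)) ∧
  (∀ j i j' i' m p p', IsOp I j i m p → IsOp I j' i' m p' → (j, i) ≠ (j', i') →
    st j i + p ≤ st j' i' ∨ st j' i' + p' ≤ st j i)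

/-- The makespan of the schedule `st` is at most `K`. -/
def EndsBy (I : Shop) (st : ℕ → ℕ → ℕ) (K : ℕ) : Prop :=
  ∀ j i m p, IsOp I j i m p → st j i + p ≤ K

/-- The minimum makespan. -/
noncomputable def OPT (I : Shop) : ℕ := sInf {K | ∃ st, Feasible I st ∧ EndsBy I st K}

/-- The instances with machines `0, ..., m - 1`, at most `m - 1` jobs, and all processing times
equal to `1`. -/
def Simple (I : Shop) : Prop :=
  I.2.length < I.1 ∧ ∀ j i m p, IsOp I j i m p → m < I.1 ∧ p = 1

/-! ### Codes -/

/-- Code of a natural number, in unary. -/
def codeNat (n : ℕ) : List Bool := (List.replicate n [true, false]).flatten ++ [false]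

/-- Code of a pair. -/
def codePair {α β : Type} (c : α → List Bool) (c' : β → List Bool) (x : α × β) : List Bool :=
  true :: (c x.1 ++ c' x.2)

/-- Code of a list: the codes of its members, each preceded by `true`, then `false`. -/
def codeList {α : Type} (c : α → List Bool) (l : List α) : List Bool :=
  l.flatMap (fun a => true :: c a) ++ [false]

/-- Code of a bit. -/
def codeBool (b : Bool) : List Bool := if b then [true, false, false] else [false]

/-- Code of an instance of the job shop problem. -/
def codeShop : Shop → List Bool :=
  codePair codeNat (codeList (codeList (codePair codeNat codeNat)))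

/-- Code of a schedule: the start times are given in binary, as lists of bits. -/
def codeSched : List (List (List Bool)) → List Bool := codeList (codeList (codeList codeBool))

/-- The value of a list of bits, least significant bit first. -/
def val (l : List Bool) : ℕ := l.foldr (fun b n => 2 * n + b.toNat) 0

/-- The schedule given by a list of lists of binary numbers. -/
def startOf (s : List (List (List Bool))) (j i : ℕ) : ℕ := val ((s.getD j []).getD i [])

/-! ### Approximation algorithms -/

/-- The machine `tm`, started with the word `x`, halts within `n` steps with the word `y` on its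
output stack. -/
def Outputs (tm : FinTM2) (iA : tm.Γ tm.k₀ ≃ Bool) (oA : tm.Γ tm.k₁ ≃ Bool) (x y : List Bool)
    (n : ℕ) : Prop :=
  Nonempty (TM2OutputsInTime tm (x.map iA.invFun) (some (y.map oA.invFun)) n)

/-- The machine `tm` approximates, in time `t(length of the input)`, the minimum makespan of the
instances in `Simple` with `m` machines within the factor `1 + 1 / e`: it outputs a feasible
schedule of makespan at most `(1 + 1 / e) OPT`. The input is the instance together with `e`. -/
def IsScheme (m e : ℕ) (t : ℕ → ℕ) (tm : FinTM2) (iA : tm.Γ tm.k₀ ≃ Bool)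
    (oA : tm.Γ tm.k₁ ≃ Bool) : Prop :=
  ∀ I : Shop, Simple I → I.1 = m → ∃ s : List (List (List Bool)),
    Outputs tm iA oA (codePair codeShop codeNat (I, e)) (codeSched s)
      (t (codePair codeShop codeNat (I, e)).length) ∧
    Feasible I (startOf s) ∧ ∃ K, EndsBy I (startOf s) K ∧ e * K ≤ (e + 1) * OPT I

/-- The machine `tm` separates, in time `t(length of the input)`, the instances in `Simple` with
`m` machines and minimum makespan at most `K` from those with minimum makespan more than
`(1 + 1 / e) K`. The input is the instance together with `e` and `K`. -/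
def IsGapTest (m e : ℕ) (t : ℕ → ℕ) (tm : FinTM2) (iA : tm.Γ tm.k₀ ≃ Bool)
    (oA : tm.Γ tm.k₁ ≃ Bool) : Prop :=
  ∀ (I : Shop) (K : ℕ), Simple I → I.1 = m → ∃ b : Bool,
    Outputs tm iA oA (codePair codeShop (codePair codeNat codeNat) (I, e, K)) (codeBool b)
      (t (codePair codeShop (codePair codeNat codeNat) (I, e, K)).length) ∧
    (OPT I ≤ K → b = true) ∧ ((e + 1) * K < e * OPT I → b = false)

/-! ### The gap exponential time hypothesis -/

/-- A literal: the number of its variable, and its sign. -/
abbrev Lit := ℕ × Bool

/-- A clause: three literals. -/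
abbrev Clause := Lit × Lit × Lit

/-- A 3CNF formula: a number `n` (its variables are among `0, ..., n - 1`) and its clauses. -/
abbrev CNF := ℕ × List Clause

/-- The clause is true under the assignment `τ`. -/
def holds (τ : ℕ → Bool) (c : Clause) : Bool :=
  τ c.1.1 == c.1.2 || τ c.2.1.1 == c.2.1.2 || τ c.2.2.1 == c.2.2.2

/-- The formula is satisfiable. -/
def Sat (φ : CNF) : Prop := ∃ τ : ℕ → Bool, ∀ c ∈ φ.2, holds τ c = true

/-- Each assignment violates more than a fraction `1 / D` of the clauses. -/
def Far (D : ℕ) (φ : CNF) : Prop :=
  ∀ τ : ℕ → Bool, φ.2.length < D * φ.2.countP (fun c => !holds τ c)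

/-- The formula has at most `d n` clauses, and their variables are among `0, ..., n - 1`. -/
def Sparse (d : ℕ) (φ : CNF) : Prop :=
  φ.2.length ≤ d * φ.1 ∧ ∀ c ∈ φ.2, c.1.1 < φ.1 ∧ c.2.1.1 < φ.1 ∧ c.2.2.1 < φ.1

/-- Code of a formula. -/
def codeCNF : CNF → List Bool :=
  codePair codeNat (codeList (codePair (codePair codeNat codeBool)
    (codePair (codePair codeNat codeBool) (codePair codeNat codeBool))))

/-- The gap exponential time hypothesis: there are `d`, `D`, `H` such that no machine which stops
within `O(2 ^ (n / H))` steps on each 3CNF formula with `n` variables and at most `d n` clauses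
outputs `true` on the satisfiable ones and `false` on those for which each assignment violates
more than a fraction `1 / D` of the clauses. -/
def GapETH : Prop :=
  ∃ d D H : ℕ, 0 < D ∧ 0 < H ∧
    ∀ (tm : FinTM2) (iA : tm.Γ tm.k₀ ≃ Bool) (oA : tm.Γ tm.k₁ ≃ Bool) (C : ℕ),
      ¬ ∀ φ : CNF, Sparse d φ → ∃ b : Bool,
        Outputs tm iA oA (codeCNF φ) (codeBool b) (C * 2 ^ (φ.1 / H)) ∧
        (Sat φ → b = true) ∧ (Far D φ → b = false)

end Pool.Agent.H.JS
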