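import Pool.Agent.H.MP_aeb38e_lc.StaticB

/-!
The number of tests that have a job in common with a given test.
-/

set_option autoImplicit false

namespace Pool.Agent.H.JS

namespace Deg

open Finset

theorem card_res (M k a : ℕ) :
    ((range (3 * M)).filter fun o => o / 3 % k = a).card ≤ 3 * (M / k + 1) := by
  have h : ((range (3 * M)).filter fun o => o / 3 % k = a).card ≤
      (range 3 ×ˢ range (M / k + 1)).card := by
    refine card_le_card_of_injOn (fun o => (o % 3, o / 3 / k)) ?_ ?_
    · intro o ho
      rw [mem_coe, mem_filter, mem_range] at ho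
      rw [mem_coe, mem_product, mem_range, mem_range]
      refine ⟨Nat.mod_lt _ (by norm_num), ?_⟩
      have h1 : o / 3 < M := by omega
      exact Nat.lt_succ_of_le (Nat.div_le_div_right h1.le)
    · intro o ho o' ho' he
      rw [mem_coe, mem_filter, mem_range] at ho ho'
      have h1 := congrArg Prod.fst he
      have h2 := congrArg Prod.snd he
      simp only at h1 h2
      have h3 := Nat.div_add_mod (o / 3) k
      have h4 := Nat.div_add_mod (o' / 3) k
      rw [h2, ho.2] at h3
      rw [ho'.2] at h4
      omega
  rw [card_product, card_range, card_range] at h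
  exact h

theorem card_res1 (n k a : ℕ) :
    ((range n).filter fun v => v % k = a).card ≤ n / k + 1 := by
  have h : ((range n).filter fun v => v % k = a).card ≤ (range (n / k + 1)).card := by
    refine card_le_card_of_injOn (fun v => v / k) ?_ ?_
    · intro v hv
      rw [mem_coe, mem_filter, mem_range] at hv
      rw [mem_coe, mem_range]
      exact Nat.lt_succ_of_le (Nat.div_le_div_right hv.1.le)
    · intro v hv v' hv' he
      rw [mem_coe, mem_filter, mem_range] at hv hv'
      simp only at he
      have h3 := Nat.div_add_mod v k
      have h4 := Nat.div_add_mod v' k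
      rw [he, hv.2] at h3
      rw [hv'.2] at h4
      omega
  rwa [card_range] at h

variable {B : ℕ} {φ : CNF}

theorem litAt_lt (hB : Bdd B φ) (o : ℕ) (ho : o < 3 * φ.2.length) : (litAt φ o).1 < φ.1 := by
  apply hB.1
  have h : 0 < (varList φ).count (litAt φ o).1 := by
    rw [count_varList]
    exact card_pos.2 ⟨o, mem_filter.2 ⟨mem_range.2 ho, rfl⟩⟩
  exact List.count_pos_iff.1 h

theorem card_var (hB : Bdd B φ) (v : ℕ) (hv : v < φ.1) :
    ((range (3 * φ.2.length)).filter fun o => (litAt φ o).1 = v).card ≤ B := by
  rw [← count_varList]
  exact (hB.2 v hv).2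

theorem fst_le (hB : Bdd B φ) : φ.1 ≤ 3 * φ.2.length := by
  have h : range φ.1 ⊆ (range (3 * φ.2.length)).image fun o => (litAt φ o).1 := by
    intro v hv
    have h1 := (hB.2 v (mem_range.1 hv)).1
    rw [count_varList] at h1
    obtain ⟨o, ho⟩ := card_pos.1 h1
    rw [mem_filter] at ho
    exact mem_image.2 ⟨o, ho.1, ho.2⟩
  have h2 := (card_le_card h).trans card_image_le
  rwa [card_range, card_range] at h2

theorem n_le (hB : Bdd B φ) (k : ℕ) : φ.1 / k + 1 ≤ 3 * (φ.2.length / k + 1) := by
  have h := fst_le hB
  rcases Nat.eq_zero_or_pos k with rfl | hk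
  · simp
  have h1 : φ.1 / k ≤ 3 * φ.2.length / k := Nat.div_le_div_right h
  have h2 : 3 * φ.2.length / k < 3 * (φ.2.length / k) + 3 := by
    rw [Nat.div_lt_iff_lt_mul hk]
    have h3 := Nat.lt_div_mul_add (a := φ.2.length) hk
    calc 3 * φ.2.length < 3 * (φ.2.length / k * k + k) := by omega
      _ = (3 * (φ.2.length / k) + 3) * k := by ring
  omega

theorem card_cls (hB : Bdd B φ) (k a : ℕ) :
    ((range (3 * φ.2.length)).filter fun o => (litAt φ o).1 % k = a).card ≤
      B * (3 * (φ.2.length / k + 1)) := by
  have h := card_le_mul_card_image_of_maps_to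
    (s := (range (3 * φ.2.length)).filter fun o => (litAt φ o).1 % k = a)
    (t := (range φ.1).filter fun v => v % k = a) (f := fun o => (litAt φ o).1)
    (by
      intro o ho
      rw [mem_filter, mem_range] at ho
      rw [mem_filter, mem_range]
      exact ⟨litAt_lt hB o ho.1, ho.2⟩) B (by
      intro v hv
      rw [mem_filter, mem_range] at hv
      refine (card_le_card ?_).trans (card_var hB v hv.1)
      intro o ho
      rw [mem_filter, mem_filter] at ho
      rw [mem_filter]
      exact ⟨ho.1.1, ho.2⟩)
  exact h.trans (Nat.mul_le_mul_left _ ((card_res1 _ _ _).trans (n_le hB k)))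

theorem card_cls3 (hB : Bdd B φ) (k a : ℕ) :
    ((range (3 * φ.2.length)).filter fun o => (litAt φ (3 * (o / 3))).1 % k = a).card ≤
      3 * (B * (3 * (φ.2.length / k + 1))) := by
  have h := card_le_mul_card_image_of_maps_to
    (s := (range (3 * φ.2.length)).filter fun o => (litAt φ (3 * (o / 3))).1 % k = a)
    (t := (range (3 * φ.2.length)).filter fun o => (litAt φ o).1 % k = a)
    (f := fun o => 3 * (o / 3))
    (by
      intro o ho
      rw [mem_filter, mem_range] at ho
      rw [mem_filter, mem_range]
      exact ⟨by omega, ho.2⟩) 3 (by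
      intro v hv
      have : (((range (3 * φ.2.length)).filter fun o => (litAt φ (3 * (o / 3))).1 % k = a).filter
          fun o => 3 * (o / 3) = v).card ≤ (range 3).card := by
        refine card_le_card_of_injOn (fun o => o % 3) ?_ ?_
        · intro o _
          rw [mem_coe, mem_range]
          exact Nat.mod_lt _ (by norm_num)
        · intro o ho o' ho' he
          rw [mem_coe, mem_filter] at ho ho'
          have h1 := ho.2
          have h2 := ho'.2
          simp only at he
          omega
      rwa [card_range] at this)
  exact h.trans (Nat.mul_le_mul_left _ (card_cls hB k a))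

theorem card_fst (hB : Bdd B φ) (k a : ℕ) :
    ((range (3 * φ.2.length)).filter fun o => fstOcc φ o / 3 % k = a).card ≤
      B * (3 * (φ.2.length / k + 1)) := by
  have h := card_le_mul_card_image_of_maps_to
    (s := (range (3 * φ.2.length)).filter fun o => fstOcc φ o / 3 % k = a)
    (t := (range (3 * φ.2.length)).filter fun o => o / 3 % k = a) (f := fun o => fstOcc φ o)
    (by
      intro o ho
      rw [mem_filter, mem_range] at ho
      rw [mem_filter, mem_range]
      exact ⟨(fstOcc_spec φ o).2.1.trans_lt ho.1, ho.2⟩) B (by
      intro v hv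
      rw [mem_filter, mem_range] at hv
      refine (card_le_card ?_).trans (card_var hB (litAt φ v).1 (litAt_lt hB v hv.1))
      intro o ho
      rw [mem_filter, mem_filter] at ho
      rw [mem_filter]
      refine ⟨ho.1.1, ?_⟩
      rw [← ho.2]
      exact (fstOcc_spec φ o).1.symm)
  exact h.trans (Nat.mul_le_mul_left _ (card_res _ _ _))

/-- The test contains the job. -/
def has (φ : CNF) (k j : ℕ) (x : ℕ × ℕ) : Bool :=
  decide (jobA φ k x = j) || decide (jobB φ k x = j)

theorem length_list (N : ℕ) (q : ℕ × ℕ → Bool) :
    (((List.range 3).flatMap fun t => (List.range N).map fun o => (t, o)).filter q).length =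
      ((range N).filter fun o => q (0, o) = true).card +
        ((range N).filter fun o => q (1, o) = true).card +
        ((range N).filter fun o => q (2, o) = true).card := by
  have key : ∀ t : ℕ, (((List.range N).map fun o => (t, o)).filter q).length =
      ((range N).filter fun o => q (t, o) = true).card := by
    intro t
    rw [List.filter_map, List.length_map]
    have : ((range N).filter fun o => q (t, o) = true).card =
        ((List.range N).filter fun o => decide (q (t, o) = true)).length := by
      rw [← List.toFinset_card_of_nodup ((List.nodup_range).filter _), List.toFinset_filter]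
      congr 1
      ext o
      simp
    rw [this]
    congr 1
    refine List.filter_congr ?_
    intro o _
    simp
  rw [show List.range 3 = [0, 1, 2] from rfl]
  simp only [List.flatMap_cons, List.flatMap_nil, List.append_nil, List.filter_append,
    List.length_append, key]
  ring

theorem one_le (hB : Bdd B φ) (hM : 0 < φ.2.length) : 1 ≤ B := by
  have h := hB.2 _ (litAt_lt hB 0 (by omega))
  omega

theorem length_has {k : ℕ} (hk : 0 < k) (hB : Bdd B φ) (j : ℕ) :
    (((List.range 3).flatMap fun t =>
      (List.range (3 * φ.2.length)).map fun o => (t, o)).filter (has φ k j)).length ≤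
      degB B φ.2.length k := by
  rw [length_list]
  rcases Nat.eq_zero_or_pos φ.2.length with h0 | hM
  · rw [h0]
    simp
  have hB1 := one_le hB hM
  have c1 := card_res φ.2.length k j
  have c2 := card_fst hB k j
  have c3 := card_cls hB k (j - k)
  have c4 := card_cls3 hB k (j - k)
  unfold degB
  set Q := φ.2.length / k + 1
  have hQ : 3 * Q ≤ B * (3 * Q) := Nat.le_mul_of_pos_left _ hB1
  have e0 : 16 * B * Q = 16 * (B * Q) := by ring
  have e1 : B * (3 * Q) = 3 * (B * Q) := by ring
  rw [e0]
  rw [e1] at c2 c3 c4 hQ
  rcases Nat.lt_or_ge j k with hj | hj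
  · have a0 : ((range (3 * φ.2.length)).filter fun o => has φ k j (0, o) = true).card ≤ 3 * Q := by
      refine (card_le_card ?_).trans c1
      intro o ho
      rw [mem_filter] at ho ⊢
      refine ⟨ho.1, ?_⟩
      have h1 := ho.2
      unfold has jobA jobB at h1
      simp only [if_true, zero_ne_one, if_false, Bool.or_eq_true, decide_eq_true_eq] at h1
      omega
    have a1 : ((range (3 * φ.2.length)).filter fun o => has φ k j (1, o) = true).card ≤ 0 := by
      rw [Nat.le_zero, card_eq_zero, filter_eq_empty_iff]
      intro o _ h1
      unfold has jobA jobB at h1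
      simp only [one_ne_zero, if_true, if_false, Bool.or_eq_true, decide_eq_true_eq] at h1
      omega
    have a2 : ((range (3 * φ.2.length)).filter fun o => has φ k j (2, o) = true).card ≤
        3 * (B * Q) + 3 * Q := by
      refine (card_le_card ?_).trans ((card_union_le _ _).trans (Nat.add_le_add c2 c1))
      intro o ho
      rw [mem_filter] at ho
      rw [mem_union, mem_filter, mem_filter]
      have h1 := ho.2
      unfold has jobA jobB at h1
      simp only [OfNat.ofNat_ne_zero, OfNat.ofNat_ne_one, if_false, Bool.or_eq_true,
        decide_eq_true_eq] at h1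
      rcases h1 with h1 | h1
      · exact Or.inl ⟨ho.1, h1⟩
      · exact Or.inr ⟨ho.1, h1⟩
    omega
  · have a0 : ((range (3 * φ.2.length)).filter fun o => has φ k j (0, o) = true).card ≤
        3 * (B * Q) := by
      refine (card_le_card ?_).trans c3
      intro o ho
      rw [mem_filter] at ho ⊢
      refine ⟨ho.1, ?_⟩
      have h1 := ho.2
      have h2 := Nat.mod_lt (o / 3) hk
      unfold has jobA jobB at h1
      simp only [if_true, zero_ne_one, if_false, Bool.or_eq_true, decide_eq_true_eq] at h1
      omega
    have a1 : ((range (3 * φ.2.length)).filter fun o => has φ k j (1, o) = true).card ≤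
        3 * (3 * (B * Q)) + 3 * (B * Q) := by
      refine (card_le_card ?_).trans ((card_union_le _ _).trans (Nat.add_le_add c4 c3))
      intro o ho
      rw [mem_filter] at ho
      rw [mem_union, mem_filter, mem_filter]
      have h1 := ho.2
      unfold has jobA jobB at h1
      simp only [one_ne_zero, if_true, if_false, Bool.or_eq_true, decide_eq_true_eq] at h1
      rcases h1 with h1 | h1
      · exact Or.inl ⟨ho.1, by omega⟩
      · exact Or.inr ⟨ho.1, by omega⟩
    have a2 : ((range (3 * φ.2.length)).filter fun o => has φ k j (2, o) = true).card ≤ 0 := by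
      rw [Nat.le_zero, card_eq_zero, filter_eq_empty_iff]
      intro o _ h1
      have h2 := Nat.mod_lt (o / 3) hk
      have h3 := Nat.mod_lt (fstOcc φ o / 3) hk
      unfold has jobA jobB at h1
      simp only [OfNat.ofNat_ne_zero, OfNat.ofNat_ne_one, if_false, Bool.or_eq_true,
        decide_eq_true_eq] at h1
      omega
    omega

theorem length_tests_has {k : ℕ} (hk : 0 < k) (hB : Bdd B φ) (j : ℕ) :
    ((tests φ k).filter (has φ k j)).length ≤ degB B φ.2.length k := by
  refine le_trans (List.Sublist.length_le ?_) (length_has hk hB j)
  exact List.Sublist.filter _ List.filter_sublist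

theorem length_filter_or {α : Type} (p q r : α → Bool)
    (h : ∀ x, p x = true → q x = true ∨ r x = true) (l : List α) :
    (l.filter p).length ≤ (l.filter q).length + (l.filter r).length := by
  rw [← List.countP_eq_length_filter, ← List.countP_eq_length_filter,
    ← List.countP_eq_length_filter]
  induction l with
  | nil => simp
  | cons y l ih =>
    simp only [List.countP_cons]
    have h1 := h y
    cases hp : p y <;> cases hq : q y <;> cases hr : r y <;> rw [hp, hq, hr] at h1 <;>
      simp at h1 ⊢ <;> omega

end Deg

/-- The number of tests that have a job in common with a given test. -/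
theorem deg_le {φ : CNF} {B k : ℕ} (hk : 0 < k) (hB : Bdd B φ) (x : ℕ × ℕ) :
    ((tests φ k).filter (meet φ k x)).length ≤ 2 * degB B φ.2.length k := by
  have h1 := Deg.length_tests_has hk hB (jobA φ k x)
  have h2 := Deg.length_tests_has hk hB (jobB φ k x)
  have h3 := Deg.length_filter_or (meet φ k x) (Deg.has φ k (jobA φ k x))
    (Deg.has φ k (jobB φ k x)) (by
      intro y hy
      unfold meet at hy
      unfold Deg.has
      simp only [Bool.or_eq_true, decide_eq_true_eq] at hy ⊢
      rcases hy with (h | h) | (h | h)
      · exact Or.inl (Or.inl h.symm)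
      · exact Or.inl (Or.inr h.symm)
      · exact Or.inr (Or.inl h.symm)
      · exact Or.inr (Or.inr h.symm)) (tests φ k)
  omega

/-- The number of colours. -/
theorem cols_lt {φ : CNF} {B k : ℕ} (hk : 0 < k) (hB : Bdd B φ) :
    ∀ y ∈ cols φ k, y.2 < 2 * degB B φ.2.length k :=
  colour_lt (meet φ k) (fun x => by simp [meet]) (tests φ k) fun x _ => deg_le hk hB x

end Pool.Agent.H.JS
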