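import Pool.Agent.H.MP_aeb38e_lc.Word

/-! The dynamic part: in a schedule with little idle time, in one block almost all units are
aligned. -/

namespace Pool.Agent.H.JS

open Finset

/-! ### Counting jumps of monotone sequences -/

theorem count_jumps (V : ℕ → ℕ) (b : ℕ) : ∀ N : ℕ, (∀ i < N, V i ≤ V (i + 1)) →
    b * ((range N).filter (fun i => V i + b ≤ V (i + 1))).card + V 0 ≤ V N := by
  intro N
  induction N with
  | zero => intro _; simp
  | succ N ih =>
    intro hm
    have h1 := ih (fun i hi => hm i (by omega))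
    have h2 := hm N (by omega)
    rw [Finset.range_add_one, Finset.filter_insert]
    by_cases h3 : V N + b ≤ V (N + 1)
    · rw [if_pos h3, Finset.card_insert_of_notMem (by simp)]
      rw [mul_add, mul_one]
      omega
    · rw [if_neg h3]
      omega

theorem card_filter_div_le (N W : ℕ) (K : Finset ℕ) (hW : 0 < W) :
    ((range N).filter (fun u => u / W ∈ K)).card ≤ W * K.card := by
  have h1 : ∀ k ∈ ((range N).filter (fun u => u / W ∈ K)).image (fun u => u / W),
      (((range N).filter (fun u => u / W ∈ K)).filter (fun u => u / W = k)).card ≤ W := by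
    intro k _
    have h2 : ((range N).filter (fun u => u / W ∈ K)).filter (fun u => u / W = k) ⊆
        Finset.Ico (k * W) (k * W + W) := by
      intro u hu
      have h3 := (Finset.mem_filter.1 hu).2
      rw [Finset.mem_Ico]
      have h4 := Nat.div_add_mod u W
      have h5 := Nat.mod_lt u hW
      rw [h3, mul_comm] at h4
      omega
    have h3 := Finset.card_le_card h2
    rw [Nat.card_Ico] at h3
    omega
  have h2 := Finset.card_le_mul_card_image (s := (range N).filter (fun u => u / W ∈ K))
    (f := fun u => u / W) W h1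
  have h3 : ((range N).filter (fun u => u / W ∈ K)).image (fun u => u / W) ⊆ K := by
    intro k hk
    obtain ⟨u, hu, rfl⟩ := Finset.mem_image.1 hk
    exact (Finset.mem_filter.1 hu).2
  exact h2.trans (Nat.mul_le_mul_left _ (Finset.card_le_card h3))

/-- Counting the units at which the clock and job `j` are not aligned. -/
theorem pair_count (q L1 L2 l h g I B0 T : ℕ) (F : ℕ → ZMod q) (j : ZMod q)
    (s0 sj y V : ℕ → ℕ) (hl : 0 < l) (hh : 0 < h) (hL1 : 0 < L1) (hL2 : 0 < L2)
    (hcop : Nat.Coprime L1 L2) (hB0 : L1 * L2 ∣ B0) (hIL : I ≤ L1 * L2)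
    (hy : ∀ u u', u ≤ u' → u' ≤ L1 * L2 → y u ≤ y u')
    (hV : ∀ u u', u ≤ u' → u' ≤ L1 * L2 → V u ≤ V u')
    (hVI : V (L1 * L2) ≤ V 0 + I)
    (hdev : ∀ u u', u ≤ u' → u' ≤ L1 * L2 →
      |((y u' : ℤ) - y u) - ((u' : ℤ) - u)| ≤ (V u' : ℤ) - V u)
    (hfree : ∀ u, u + l ≤ L1 * L2 → V (u + l) = V u →
      ∀ a < l, y u + a < T ∧ sj (y u + a) = s0 (B0 + u + a))
    (hconf : ∀ u < L1 * L2, ∀ y' < T, s0 (B0 + u) = sj y' → (B0 + u) % 3 ≠ 2 → y' % 3 ≠ 2 →
      F (B0 + u) ≠ F y' + j)
    (W1 : WordProp q L1 l h g F) (W2 : WordProp q L2 l h g F) :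
    ((range (L1 * L2)).filter (fun u => ¬ ∃ y' < T, sj y' = s0 (B0 + u) ∧
      y' % (L1 * L2) = u)).card ≤
      h * l * (3 * (L1 + L2) + 1) + 2 * l * I + 2 * g * l * (L1 * L2 / (h * l)) := by
  classical
  set L := L1 * L2 with hL
  have hLpos : 0 < L := Nat.mul_pos hL1 hL2
  set W := h * l with hW
  have hWpos : 0 < W := Nat.mul_pos hh hl
  set N := L / W with hN
  have hNW : N * W ≤ L := Nat.div_mul_le_self L W
  have hNW' : L < N * W + W := by
    have := Nat.lt_div_mul_add (a := L) hWpos
    rw [← hN] at this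
    omega
  -- bad windows
  let jump : (ℕ → ℕ) → ℕ → Finset ℕ := fun C b => (range N).filter (fun i => C i + b ≤ C (i + 1))
  let CV : ℕ → ℕ := fun w => V (w * W)
  let CX : ℕ → ℕ → ℕ := fun n w => (B0 + w * W) / n
  let CY : ℕ → ℕ → ℕ := fun n w => y (w * W) / n
  have hwL : ∀ w < N, (w + 1) * W ≤ L := by
    intro w hw
    exact (Nat.mul_le_mul_right W (Nat.succ_le_of_lt hw)).trans hNW
  have hJV : (jump CV (h + 1)).card * (h + 1) ≤ I := by
    have h1 := count_jumps CV (h + 1) N (fun i hi => hV _ _
      (Nat.mul_le_mul_right W (Nat.le_succ i)) (hwL i hi))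
    have h2 : CV N ≤ V L := hV _ _ hNW le_rfl
    have h3 : CV 0 = V 0 := by simp [CV]
    change (h + 1) * (jump CV (h + 1)).card + CV 0 ≤ CV N at h1
    rw [mul_comm]
    omega
  have hJX : ∀ n m, 0 < n → L = n * m → (jump (CX n) 1).card ≤ m := by
    intro n m hn hnm
    have h1 := count_jumps (CX n) 1 N (fun i hi => Nat.div_le_div_right
      (Nat.add_le_add_left (Nat.mul_le_mul_right W (Nat.le_succ i)) B0))
    have h2 : CX n N ≤ B0 / n + m := by
      have : CX n N ≤ (B0 + n * m) / n := Nat.div_le_div_right (by omega)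
      rwa [Nat.add_mul_div_left _ _ hn] at this
    have h3 : CX n 0 = B0 / n := by simp [CX]
    change 1 * (jump (CX n) 1).card + CX n 0 ≤ CX n N at h1
    omega
  have hJY : ∀ n m, 0 < n → L = n * m → (jump (CY n) 1).card ≤ 2 * m := by
    intro n m hn hnm
    have h1 := count_jumps (CY n) 1 N (fun i hi => Nat.div_le_div_right
      (hy _ _ (Nat.mul_le_mul_right W (Nat.le_succ i)) (hwL i hi)))
    have h4 : y (N * W) ≤ y 0 + n * (2 * m) := by
      have h5 := (abs_le.1 (hdev 0 (N * W) (Nat.zero_le _) hNW)).2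
      have h6 : V (N * W) ≤ V L := hV _ _ hNW le_rfl
      have h7 : n * (2 * m) = L + L := by rw [hnm]; ring
      rw [h7]
      push_cast at h5
      have h8 : ((N * W : ℕ) : ℤ) ≤ L := by exact_mod_cast hNW
      push_cast at h8
      omega
    have h2 : CY n N ≤ y 0 / n + 2 * m := by
      have : CY n N ≤ (y 0 + n * (2 * m)) / n := Nat.div_le_div_right h4
      rwa [Nat.add_mul_div_left _ _ hn] at this
    have h3 : CY n 0 = y 0 / n := by simp [CY]
    change 1 * (jump (CY n) 1).card + CY n 0 ≤ CY n N at h1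
    omega
  set BW : Finset ℕ := jump CV (h + 1) ∪ ((jump (CX L1) 1 ∪ jump (CY L1) 1) ∪
    (jump (CX L2) 1 ∪ jump (CY L2) 1)) with hBW
  have hBWc : W * BW.card ≤ l * I + W * (3 * (L1 + L2)) := by
    have e1 := hJX L1 L2 hL1 hL
    have e2 := hJY L1 L2 hL1 hL
    have e3 := hJX L2 L1 hL2 (by rw [hL, mul_comm])
    have e4 := hJY L2 L1 hL2 (by rw [hL, mul_comm])
    have e5 : BW.card ≤ (jump CV (h + 1)).card + (3 * (L1 + L2)) := by
      have f1 := Finset.card_union_le (jump CV (h + 1)) ((jump (CX L1) 1 ∪ jump (CY L1) 1) ∪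
        (jump (CX L2) 1 ∪ jump (CY L2) 1))
      have f2 := Finset.card_union_le (jump (CX L1) 1 ∪ jump (CY L1) 1)
        (jump (CX L2) 1 ∪ jump (CY L2) 1)
      have f3 := Finset.card_union_le (jump (CX L1) 1) (jump (CY L1) 1)
      have f4 := Finset.card_union_le (jump (CX L2) 1) (jump (CY L2) 1)
      rw [← hBW] at f1
      omega
    have e6 : W * (jump CV (h + 1)).card ≤ l * I := by
      calc W * (jump CV (h + 1)).card = l * ((jump CV (h + 1)).card * h) := by rw [hW]; ring
        _ ≤ l * ((jump CV (h + 1)).card * (h + 1)) := by gcongr; omega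
        _ ≤ l * I := Nat.mul_le_mul_left _ hJV
    calc W * BW.card ≤ W * ((jump CV (h + 1)).card + (3 * (L1 + L2))) :=
          Nat.mul_le_mul_left _ e5
      _ = W * (jump CV (h + 1)).card + W * (3 * (L1 + L2)) := by ring
      _ ≤ _ := Nat.add_le_add_right e6 _
  -- chunks with idle time
  set BC : Finset ℕ := (range (N * h)).filter (fun k => V (k * l) + 1 ≤ V ((k + 1) * l)) with hBC
  have hkL : ∀ k < N * h, (k + 1) * l ≤ N * W := by
    intro k hk
    calc (k + 1) * l ≤ (N * h) * l := Nat.mul_le_mul_right l (Nat.succ_le_of_lt hk)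
      _ = N * W := by rw [hW]; ring
  have hBCc : BC.card ≤ I := by
    have h1 := count_jumps (fun k => V (k * l)) 1 (N * h) (fun i hi => hV _ _
      (Nat.mul_le_mul_right l (Nat.le_succ i)) ((hkL i hi).trans hNW))
    have h2 : V (N * h * l) ≤ V L := hV _ _ (by
      calc N * h * l = N * W := by rw [hW]; ring
        _ ≤ L := hNW) le_rfl
    rw [← hBC, Nat.zero_mul] at h1
    omega
  -- off-diagonal chunks
  let OC : ℕ → Finset ℕ := fun n => (range (N * h)).filter (fun k => k / h ∉ BW ∧ k ∉ BC ∧
    (B0 + k * l) % n ≠ y (k * l) % n)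
  have hOC : ∀ n, WordProp q n l h g F → (∀ w, w ∉ BW → w ∉ jump (CX n) 1 ∧ w ∉ jump (CY n) 1) →
      (OC n).card ≤ g * N := by
    intro n WP hnBW
    have h1 : ∀ w ∈ (OC n).image (fun k => k / h),
        ((OC n).filter (fun k => k / h = w)).card ≤ g := by
      intro w hw
      by_contra hcon
      push Not at hcon
      obtain ⟨k0, hk0, hk0w⟩ := Finset.mem_image.1 hw
      obtain ⟨hk0r, hk0BW, -, -⟩ := Finset.mem_filter.1 hk0
      rw [Finset.mem_range] at hk0r
      have hwN : w < N := by
        rw [← hk0w, Nat.div_lt_iff_lt_mul hh]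
        exact hk0r
      have hwBW : w ∉ BW := by rw [← hk0w]; exact hk0BW
      obtain ⟨hwX, hwY⟩ := hnBW w hwBW
      have hwV : w ∉ jump CV (h + 1) := by
        intro hc
        exact hwBW (Finset.mem_union_left _ hc)
      have hX' : (B0 + (w + 1) * W) / n ≤ (B0 + w * W) / n := by
        by_contra hc
        apply hwX
        rw [Finset.mem_filter, Finset.mem_range]
        exact ⟨hwN, by change (B0 + w * W) / n + 1 ≤ (B0 + (w + 1) * W) / n; omega⟩
      have hY' : y ((w + 1) * W) / n ≤ y (w * W) / n := by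
        by_contra hc
        apply hwY
        rw [Finset.mem_filter, Finset.mem_range]
        exact ⟨hwN, by change y (w * W) / n + 1 ≤ y ((w + 1) * W) / n; omega⟩
      have hV' : V ((w + 1) * W) ≤ V (w * W) + h := by
        by_contra hc
        apply hwV
        rw [Finset.mem_filter, Finset.mem_range]
        exact ⟨hwN, by change V (w * W) + (h + 1) ≤ V ((w + 1) * W); omega⟩
      have hwW : (w + 1) * W = w * W + W := by ring
      have hwL' := hwL w hwN
      have hpos : ∀ c, (w * h + c) * l = w * W + c * l := by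
        intro c; rw [hW]; ring
      have hcl : ∀ c < h, c * l + l ≤ W := by
        intro c hc
        have := Nat.mul_le_mul_right l (Nat.succ_le_of_lt hc)
        rw [Nat.succ_mul] at this
        exact this
      -- members of the fibre
      set G : Finset ℕ := ((OC n).filter (fun k => k / h = w)).image (fun k => k % h) with hG
      have hGm : ∀ c ∈ G, c < h ∧ V (w * W + c * l + l) = V (w * W + c * l) ∧
          (B0 + (w * W + c * l)) % n ≠ y (w * W + c * l) % n := by
        intro c hc
        obtain ⟨k, hk, hkc⟩ := Finset.mem_image.1 hc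
        obtain ⟨hk1, hk2⟩ := Finset.mem_filter.1 hk
        obtain ⟨hkr, -, hkBC, hkoff⟩ := Finset.mem_filter.1 hk1
        rw [Finset.mem_range] at hkr
        have hkeq : k = w * h + c := by
          have := Nat.div_add_mod k h
          rw [hk2, hkc, mul_comm] at this
          exact this.symm
        have hclt : c < h := by rw [← hkc]; exact Nat.mod_lt _ hh
        refine ⟨hclt, ?_, ?_⟩
        · have h2 : ¬ (V (k * l) + 1 ≤ V ((k + 1) * l)) := by
            intro hc'
            apply hkBC
            rw [hBC, Finset.mem_filter, Finset.mem_range]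
            exact ⟨hkr, hc'⟩
          have h3 : k * l = w * W + c * l := by rw [hkeq, hpos]
          have h4 : (k + 1) * l = w * W + c * l + l := by rw [Nat.succ_mul, h3]
          rw [h3, h4] at h2
          have h5 := hcl c hclt
          have h6 := hV (w * W + c * l) (w * W + c * l + l) (by omega) (by omega)
          omega
        · rw [hkeq, hpos] at hkoff
          exact hkoff
      have hstepY : ∀ c ∈ G, y (w * W + c * l + l) = y (w * W + c * l) + l := by
        intro c hc
        obtain ⟨hc1, hc2, _⟩ := hGm c hc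
        have h5 := hcl c hc1
        have h6 := hdev (w * W + c * l) (w * W + c * l + l) (by omega) (by omega)
        rw [hc2, sub_self] at h6
        have h7 := abs_nonpos_iff.1 h6
        push_cast at h7
        omega
      apply WP j (B0 + w * W) (fun c => y (w * W + c * l)) G
      refine ⟨fun c hc => (hGm c hc).1, ?_, ?_, ?_, ?_, ?_, ?_, ?_, ?_⟩
      · rw [hG, Finset.card_image_of_injOn]
        · omega
        · intro k hk k' hk' hkk
          have e1 := (Finset.mem_filter.1 (Finset.mem_coe.1 hk)).2
          have e2 := (Finset.mem_filter.1 (Finset.mem_coe.1 hk')).2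
          have e3 := Nat.div_add_mod k h
          have e4 := Nat.div_add_mod k' h
          dsimp only at hkk
          rw [e1] at e3
          rw [e2, ← hkk] at e4
          omega
      · apply le_antisymm
        · exact Nat.div_le_div_right (by omega)
        · refine le_trans (Nat.div_le_div_right ?_) hX'
          rw [hwW]; omega
      · intro c hc
        obtain ⟨hc1, hc2, _⟩ := hGm c hc
        have h5 := hcl c hc1
        have h6 := hstepY c hc
        have h7 := hy (w * W + c * l + l) ((w + 1) * W) (by omega) hwL'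
        have h8 := hy (w * W) (w * W + c * l) (by omega) (by omega)
        rw [Nat.zero_mul, Nat.add_zero]
        apply le_antisymm
        · exact Nat.div_le_div_right (by omega)
        · exact le_trans (Nat.div_le_div_right (by omega)) hY'
      · intro c c' hcc hc'
        have h5 := hcl c' hc'
        have h6 : c * l ≤ c' * l := Nat.mul_le_mul_right l hcc.le
        exact hy _ _ (by omega) (by omega)
      · intro c hc c' hcc hc'
        have h5 := hcl c' hc'
        have h6 : (c + 1) * l ≤ c' * l := Nat.mul_le_mul_right l (Nat.succ_le_of_lt hcc)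
        rw [Nat.succ_mul] at h6
        have h7 := hstepY c hc
        have h8 := hy (w * W + c * l + l) (w * W + c' * l) (by omega) (by omega)
        omega
      · have h5 : ∀ b, b < h → ∑ c ∈ range b, |((y (w * W + (c + 1) * l) : ℤ) -
            y (w * W + c * l) - l)| ≤ (V (w * W + b * l) : ℤ) - V (w * W) := by
          intro b
          induction b with
          | zero => intro _; simp
          | succ b ih =>
            intro hb
            rw [Finset.sum_range_succ]
            have h6 := ih (by omega)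
            have h7 := hcl (b + 1) hb
            have h8 : b * l ≤ (b + 1) * l := Nat.mul_le_mul_right l (Nat.le_succ b)
            have h9 := hdev (w * W + b * l) (w * W + (b + 1) * l) (by omega) (by omega)
            have h10 : ((w * W + (b + 1) * l : ℕ) : ℤ) - ((w * W + b * l : ℕ) : ℤ) = l := by
              push_cast; ring
            rw [h10] at h9
            linarith
        have h6 := h5 (h - 1) (by omega)
        have h7 : (h - 1) * l ≤ W := by
          rw [hW]
          exact Nat.mul_le_mul_right l (Nat.sub_le h 1)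
        have h8 := hV (w * W + (h - 1) * l) ((w + 1) * W) (by omega) hwL'
        have h9 : ((V (w * W + (h - 1) * l) : ℕ) : ℤ) ≤ V (w * W) + h := by
          exact_mod_cast h8.trans hV'
        calc _ ≤ _ := h6
          _ ≤ (h : ℤ) := by linarith
      · intro c hc
        have h5 := (hGm c hc).2.2
        rw [← add_assoc] at h5
        exact h5
      · intro c hc a ha h5 h6
        obtain ⟨hc1, hc2, _⟩ := hGm c hc
        have h7 := hcl c hc1
        obtain ⟨h8, h9⟩ := hfree (w * W + c * l) (by omega) hc2 a ha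
        have h10 := hconf (w * W + c * l + a) (by omega) _ h8
          (by rw [h9]; congr 1; ring)
        have e1 : B0 + w * W + c * l + a = B0 + (w * W + c * l + a) := by ring
        rw [e1] at h5 ⊢
        exact h10 h5 h6
    have h2 := Finset.card_le_mul_card_image (s := OC n) (f := fun k => k / h) g h1
    have h3 : (OC n).image (fun k => k / h) ⊆ range N := by
      intro w hw
      obtain ⟨k, hk, rfl⟩ := Finset.mem_image.1 hw
      rw [Finset.mem_range, Nat.div_lt_iff_lt_mul hh]
      exact Finset.mem_range.1 (Finset.mem_filter.1 hk).1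
    have h4 := Finset.card_le_card h3
    rw [Finset.card_range] at h4
    exact h2.trans (Nat.mul_le_mul_left _ h4)
  have hOC1 : (OC L1).card ≤ g * N := hOC L1 W1 (fun w hw => by
    constructor
    · intro hc
      exact hw (Finset.mem_union_right _ (Finset.mem_union_left _ (Finset.mem_union_left _ hc)))
    · intro hc
      exact hw (Finset.mem_union_right _ (Finset.mem_union_left _ (Finset.mem_union_right _ hc))))
  have hOC2 : (OC L2).card ≤ g * N := hOC L2 W2 (fun w hw => by
    constructor
    · intro hc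
      exact hw (Finset.mem_union_right _ (Finset.mem_union_right _ (Finset.mem_union_left _ hc)))
    · intro hc
      exact hw (Finset.mem_union_right _ (Finset.mem_union_right _ (Finset.mem_union_right _ hc))))
  -- cover
  have hcover : (range L).filter (fun u => ¬ ∃ y' < T, sj y' = s0 (B0 + u) ∧ y' % L = u) ⊆
      Finset.Ico (N * W) L ∪ ((range L).filter (fun u => u / W ∈ BW) ∪
        ((range L).filter (fun u => u / l ∈ BC) ∪
          ((range L).filter (fun u => u / l ∈ OC L1) ∪
            (range L).filter (fun u => u / l ∈ OC L2)))) := by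
    intro u hu
    obtain ⟨huL, hubad⟩ := Finset.mem_filter.1 hu
    rw [Finset.mem_range] at huL
    by_cases hrest : N * W ≤ u
    · exact Finset.mem_union_left _ (Finset.mem_Ico.2 ⟨hrest, huL⟩)
    apply Finset.mem_union_right
    push Not at hrest
    by_cases hwin : u / W ∈ BW
    · exact Finset.mem_union_left _ (Finset.mem_filter.2 ⟨Finset.mem_range.2 huL, hwin⟩)
    apply Finset.mem_union_right
    by_cases hch : u / l ∈ BC
    · exact Finset.mem_union_left _ (Finset.mem_filter.2 ⟨Finset.mem_range.2 huL, hch⟩)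
    apply Finset.mem_union_right
    have hkr : u / l < N * h := by
      rw [Nat.div_lt_iff_lt_mul hl]
      calc u < N * W := hrest
        _ = N * h * l := by rw [hW]; ring
    have hkw : u / l / h = u / W := by
      rw [Nat.div_div_eq_div_mul, hW, mul_comm l h]
    set k := u / l with hk
    have hkfree : V ((k + 1) * l) = V (k * l) := by
      have h1 : ¬ (V (k * l) + 1 ≤ V ((k + 1) * l)) := by
        intro hc
        exact hch (Finset.mem_filter.2 ⟨Finset.mem_range.2 hkr, hc⟩)
      have h2 := hV (k * l) ((k + 1) * l) (Nat.mul_le_mul_right l (Nat.le_succ k))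
        ((hkL k hkr).trans hNW)
      omega
    have hkl : (k + 1) * l = k * l + l := Nat.succ_mul k l
    rw [hkl] at hkfree
    have hkL' := (hkL k hkr).trans hNW
    rw [hkl] at hkL'
    have hu' : k * l + u % l = u := by
      have := Nat.div_add_mod u l
      rw [mul_comm] at this
      exact this
    obtain ⟨h1, h2⟩ := hfree (k * l) hkL' hkfree (u % l) (Nat.mod_lt _ hl)
    have h3 : ¬ (y (k * l) + u % l) % L = u := by
      intro hc
      apply hubad
      refine ⟨y (k * l) + u % l, h1, ?_, hc⟩
      rw [h2, add_assoc, hu']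
    have h4 : ¬ (y (k * l) ≡ B0 + k * l [MOD L]) := by
      intro hc
      apply h3
      have h5 := Nat.ModEq.add_right (u % l) hc
      rw [add_assoc, hu'] at h5
      have h6 : (B0 + u) % L = u := by
        obtain ⟨m, hm⟩ := hB0
        rw [hm, Nat.mul_add_mod, Nat.mod_eq_of_lt huL]
      have h7 : (y (k * l) + u % l) % L = (B0 + u) % L := h5
      rw [h7, h6]
    have h5 : ¬ (y (k * l) ≡ B0 + k * l [MOD L1]) ∨ ¬ (y (k * l) ≡ B0 + k * l [MOD L2]) := by
      by_contra hc
      push Not at hc
      exact h4 ((Nat.modEq_and_modEq_iff_modEq_mul hcop).1 hc)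
    rcases h5 with h5 | h5
    · apply Finset.mem_union_left
      refine Finset.mem_filter.2 ⟨Finset.mem_range.2 huL, ?_⟩
      refine Finset.mem_filter.2 ⟨Finset.mem_range.2 hkr, ?_, hch, ?_⟩
      · rw [← hk, hkw]; exact hwin
      · intro hc; exact h5 hc.symm
    · apply Finset.mem_union_right
      refine Finset.mem_filter.2 ⟨Finset.mem_range.2 huL, ?_⟩
      refine Finset.mem_filter.2 ⟨Finset.mem_range.2 hkr, ?_, hch, ?_⟩
      · rw [← hk, hkw]; exact hwin
      · intro hc; exact h5 hc.symm
  have hc := Finset.card_le_card hcover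
  have c1 := Finset.card_union_le (Finset.Ico (N * W) L) ((range L).filter (fun u => u / W ∈ BW) ∪
        ((range L).filter (fun u => u / l ∈ BC) ∪
          ((range L).filter (fun u => u / l ∈ OC L1) ∪
            (range L).filter (fun u => u / l ∈ OC L2))))
  have c2 := Finset.card_union_le ((range L).filter (fun u => u / W ∈ BW))
        ((range L).filter (fun u => u / l ∈ BC) ∪
          ((range L).filter (fun u => u / l ∈ OC L1) ∪
            (range L).filter (fun u => u / l ∈ OC L2)))
  have c3 := Finset.card_union_le ((range L).filter (fun u => u / l ∈ BC))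
          ((range L).filter (fun u => u / l ∈ OC L1) ∪
            (range L).filter (fun u => u / l ∈ OC L2))
  have c4 := Finset.card_union_le ((range L).filter (fun u => u / l ∈ OC L1))
            ((range L).filter (fun u => u / l ∈ OC L2))
  have d0 : (Finset.Ico (N * W) L).card ≤ W := by
    rw [Nat.card_Ico]; omega
  have d1 := (card_filter_div_le L W BW hWpos).trans hBWc
  have d2 := card_filter_div_le L l BC hl
  have d3 := (card_filter_div_le L l (OC L1) hl).trans (Nat.mul_le_mul_left l hOC1)
  have d4 := (card_filter_div_le L l (OC L2) hl).trans (Nat.mul_le_mul_left l hOC2)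
  have d5 : l * BC.card ≤ l * I := Nat.mul_le_mul_left l hBCc
  have e1 : W * (3 * (L1 + L2) + 1) + 2 * l * I + 2 * g * l * N =
      W + (l * I + W * (3 * (L1 + L2))) + l * I + l * (g * N) + l * (g * N) := by ring
  rw [e1]
  omega

/-! ### Number of started operations -/

/-- number of operations (of `s`, `T` in all) started before time `t` -/
def Yc (s : ℕ → ℕ) (T : ℕ) : ℕ → ℕ
  | 0 => 0
  | t + 1 => if Yc s T t < T ∧ s (Yc s T t) = t then Yc s T t + 1 else Yc s T t

section Yc

variable {s : ℕ → ℕ} {T : ℕ}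

theorem Yc_inv (hs : ∀ P P', P < P' → P' < T → s P < s P') (t : ℕ) :
    (∀ P < Yc s T t, s P < t) ∧ (∀ P, Yc s T t ≤ P → P < T → t ≤ s P) ∧ Yc s T t ≤ T := by
  induction t with
  | zero => exact ⟨fun P hP => absurd hP (Nat.not_lt_zero _), fun P _ _ => Nat.zero_le _,
      Nat.zero_le _⟩
  | succ t ih =>
    obtain ⟨h1, h2, h3⟩ := ih
    rw [Yc]
    split_ifs with h
    · obtain ⟨h4, h5⟩ := h
      refine ⟨?_, ?_, h4⟩
      · intro P hP
        rcases Nat.lt_or_ge P (Yc s T t) with h6 | h6
        · exact (h1 P h6).trans (Nat.lt_succ_self t)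
        · have : P = Yc s T t := by omega
          rw [this, h5]
          exact Nat.lt_succ_self t
      · intro P hP hPT
        have := hs (Yc s T t) P (by omega) hPT
        omega
    · refine ⟨fun P hP => (h1 P hP).trans (Nat.lt_succ_self t), ?_, h3⟩
      intro P hP hPT
      have h4 : Yc s T t < T := lt_of_le_of_lt hP hPT
      have h5 : s (Yc s T t) ≠ t := fun hc => h ⟨h4, hc⟩
      have h6 := h2 _ le_rfl h4
      rcases Nat.eq_or_lt_of_le hP with h7 | h7
      · rw [← h7]; omega
      · have := hs _ P h7 hPT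
        omega

theorem Yc_st (hs : ∀ P P', P < P' → P' < T → s P < s P') {P : ℕ} (hP : P < T) :
    Yc s T (s P) = P := by
  obtain ⟨h1, h2, _⟩ := Yc_inv hs (s P)
  by_contra hne
  rcases Nat.lt_or_ge P (Yc s T (s P)) with h | h
  · exact absurd (h1 P h) (lt_irrefl _)
  · have h3 : Yc s T (s P) < P := by omega
    have h4 := h2 _ le_rfl (h3.trans hP)
    have h5 := hs _ P h3 hP
    omega

theorem Yc_step (t : ℕ) : Yc s T t ≤ Yc s T (t + 1) ∧ Yc s T (t + 1) ≤ Yc s T t + 1 := by
  rw [Yc]
  split_ifs <;> omega

theorem Yc_mono {t t' : ℕ} (h : t ≤ t') :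
    Yc s T t ≤ Yc s T t' ∧ Yc s T t' + t ≤ Yc s T t + t' := by
  induction t', h using Nat.le_induction with
  | base => exact ⟨le_rfl, le_rfl⟩
  | succ t' _ ih =>
    have := Yc_step (s := s) (T := T) t'
    omega

theorem Yc_le (t : ℕ) : Yc s T t ≤ t := by
  have := (Yc_mono (s := s) (T := T) (Nat.zero_le t)).2
  have h0 : Yc s T 0 = 0 := rfl
  omega

theorem Yc_top (hs : ∀ P P', P < P' → P' < T → s P < s P') {H : ℕ} (hH : ∀ P < T, s P < H) :
    Yc s T H = T := by
  obtain ⟨_, h2, h3⟩ := Yc_inv hs H
  rcases Nat.lt_or_ge (Yc s T H) T with h | h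
  · have h4 := h2 _ le_rfl h
    have h5 := hH _ h
    omega
  · omega

theorem Yc_free {t l : ℕ} (h : Yc s T (t + l) = Yc s T t + l) :
    ∀ a < l, Yc s T t + a < T ∧ s (Yc s T t + a) = t + a := by
  intro a ha
  have h1 := (Yc_mono (s := s) (T := T) (show t ≤ t + a by omega)).2
  have h2 := (Yc_mono (s := s) (T := T) (show t + a ≤ t + l by omega)).2
  have h3 : Yc s T (t + a) = Yc s T t + a := by omega
  have h4 := (Yc_mono (s := s) (T := T) (show t ≤ t + (a + 1) by omega)).2
  have h5 := (Yc_mono (s := s) (T := T) (show t + (a + 1) ≤ t + l by omega)).2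
  have h6 : Yc s T (t + a + 1) = Yc s T t + (a + 1) := by
    rw [add_assoc]; omega
  rw [Yc, h3] at h6
  split_ifs at h6 with h7
  · exact h7
  · omega

end Yc

theorem exists_block (Z a b : ℕ → ℕ) (R I H : ℕ) (hR : 0 < R) (hZ : ∀ t t', t ≤ t' → Z t ≤ Z t')
    (hab : ∀ p, p + 1 < R → b p ≤ a (p + 1)) (hH : b (R - 1) ≤ H) (hZH : Z H ≤ R * I) :
    ∃ p < R, Z (b p) ≤ Z (a p) + I := by
  by_contra hcon
  push Not at hcon
  have h1 : ∀ p < R, (p + 1) * (I + 1) ≤ Z (b p) := by
    intro p
    induction p with
    | zero =>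
      intro hp
      have := hcon 0 hp
      omega
    | succ p ih =>
      intro hp
      have h2 := ih (by omega)
      have h3 := hcon (p + 1) hp
      have h4 := hZ _ _ (hab p hp)
      have h5 : (p + 1 + 1) * (I + 1) = (p + 1) * (I + 1) + (I + 1) := by ring
      omega
  have h2 := h1 (R - 1) (by omega)
  have h3 := hZ _ _ hH
  have h4 : R - 1 + 1 = R := by omega
  rw [h4] at h2
  have h5 : R * (I + 1) = R * I + R := by ring
  omega

/-- The dynamic part: in a schedule with little idle time there is a block of the clock in which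
almost all units are aligned. -/
theorem dynamic (q R L1 L2 l h g I e : ℕ) (F : ℕ → ZMod q)
    (st : ℕ → ℕ → ℕ) (hq : 0 < q) (hR : 0 < R) (hl : 0 < l) (hh : 0 < h) (hL1 : 0 < L1)
    (hL2 : 0 < L2) (hcop : Nat.Coprime L1 L2)
    (hmono : ∀ j < q, ∀ P P', P < P' → P' < R * (L1 * L2) → st j P < st j P')
    (hH : ∀ j < q, ∀ P < R * (L1 * L2), st j P < R * (L1 * L2) + e)
    (hconf : ∀ j < q, j ≠ 0 → ∀ x < R * (L1 * L2), ∀ y < R * (L1 * L2), st 0 x = st j y →
      x % 3 ≠ 2 → y % 3 ≠ 2 → F x ≠ F y + (j : ZMod q))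
    (hI : q * e ≤ R * I) (hIL : I < L1 * L2)
    (W1 : WordProp q L1 l h g F) (W2 : WordProp q L2 l h g F) :
    ∃ (p : ℕ → ℕ) (bad : Finset ℕ),
      bad.card ≤ q * (h * l * (3 * (L1 + L2) + 1) + 2 * l * I +
        2 * g * l * (L1 * L2 / (h * l))) ∧
      (∀ j < q, p j < R) ∧
      ∀ u < L1 * L2, u ∉ bad → ∃ t, ∀ j < q, st j (p j * (L1 * L2) + u) = t := by
  classical
  set L := L1 * L2 with hL
  set T := R * L with hT
  have hLpos : 0 < L := Nat.mul_pos hL1 hL2
  -- the block
  let Z : ℕ → ℕ → ℕ := fun j t => t - Yc (st j) T t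
  have hZm : ∀ j t t', t ≤ t' → Z j t ≤ Z j t' := by
    intro j t t' htt
    have h1 := (Yc_mono (s := st j) (T := T) htt).2
    have h2 := Yc_le (s := st j) (T := T) t
    have h3 := Yc_le (s := st j) (T := T) t'
    change t - Yc (st j) T t ≤ t' - Yc (st j) T t'
    omega
  obtain ⟨p0, hp0, hblock⟩ := exists_block (fun t => ∑ j ∈ range q, Z j t)
    (fun p => st 0 (p * L)) (fun p => st 0 (p * L + L - 1) + 1) R I (T + e) hR
    (fun t t' htt => Finset.sum_le_sum (fun j _ => hZm j t t' htt))
    (by
      intro p hp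
      have h1 : (p + 1) * L = p * L + L := Nat.succ_mul p L
      have h2 : (p + 1 + 1) * L ≤ T := Nat.mul_le_mul_right L (Nat.succ_le_of_lt hp)
      have h3 : (p + 1 + 1) * L = (p + 1) * L + L := Nat.succ_mul (p + 1) L
      exact hmono 0 hq _ _ (by omega) (by omega))
    (by
      have h1 : (R - 1) * L + L = T := by
        rw [hT, ← Nat.succ_mul]; congr 1; omega
      exact hH 0 hq _ (by omega))
    (by
      have h1 : ∀ j ∈ range q, Z j (T + e) = e := by
        intro j hj
        have h2 := Yc_top (hmono j (Finset.mem_range.1 hj)) (hH j (Finset.mem_range.1 hj))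
        change T + e - Yc (st j) T (T + e) = e
        rw [h2]; omega
      rw [Finset.sum_congr rfl h1, Finset.sum_const, Finset.card_range, smul_eq_mul]
      exact hI)
  set B0 := p0 * L with hB0
  have hB0T : B0 + L ≤ T := by
    have h1 : (p0 + 1) * L ≤ T := Nat.mul_le_mul_right L (Nat.succ_le_of_lt hp0)
    rwa [Nat.succ_mul] at h1
  -- times of the units
  let τ : ℕ → ℕ := fun u => if u < L then st 0 (B0 + u) else st 0 (B0 + L - 1) + 1
  have hτ1 : ∀ u < L, τ u = st 0 (B0 + u) := fun u hu => if_pos hu
  have hτL : τ L = st 0 (B0 + L - 1) + 1 := if_neg (lt_irrefl L)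
  have hτm : ∀ u u', u ≤ u' → u' ≤ L → τ u ≤ τ u' := by
    intro u u' huu hu'
    rcases Nat.eq_or_lt_of_le huu with h1 | h1
    · rw [h1]
    rcases Nat.eq_or_lt_of_le hu' with h2 | h2
    · rw [h2, hτL, hτ1 u (by omega)]
      rcases Nat.eq_or_lt_of_le (show u ≤ L - 1 by omega) with h3 | h3
      · rw [h3, show B0 + (L - 1) = B0 + L - 1 by omega]; omega
      · have := hmono 0 hq (B0 + u) (B0 + L - 1) (by omega) (by omega)
        omega
    · rw [hτ1 u (by omega), hτ1 u' h2]
      exact (hmono 0 hq _ _ (by omega) (by omega)).le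
  have hY0 : ∀ u ≤ L, Yc (st 0) T (τ u) = B0 + u := by
    intro u hu
    rcases Nat.eq_or_lt_of_le hu with h1 | h1
    · rw [h1, hτL, Yc, Yc_st (hmono 0 hq) (show B0 + L - 1 < T by omega),
        if_pos ⟨by omega, rfl⟩]
      omega
    · rw [hτ1 u h1, Yc_st (hmono 0 hq) (by omega)]
  -- idle time of the clock and of another job
  have hidle : ∀ j < q, j ≠ 0 → Z 0 (τ L) + Z j (τ L) ≤ Z 0 (τ 0) + Z j (τ 0) + I := by
    intro j hj hj0
    have h0 : τ 0 = st 0 B0 := by rw [hτ1 0 hLpos, Nat.add_zero]
    have h1 : ∑ i ∈ range q, Z i (τ L) ≤ ∑ i ∈ range q, Z i (τ 0) + I := by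
      rw [h0, hτL]; exact hblock
    have h2 : ∑ i ∈ range q, (Z i (τ L) - Z i (τ 0)) + ∑ i ∈ range q, Z i (τ 0) =
        ∑ i ∈ range q, Z i (τ L) := by
      rw [← Finset.sum_add_distrib]
      apply Finset.sum_congr rfl
      intro i _
      exact Nat.sub_add_cancel (hZm i _ _ (hτm 0 L (Nat.zero_le _) le_rfl))
    have h3 : ∑ i ∈ ({0, j} : Finset ℕ), (Z i (τ L) - Z i (τ 0)) ≤
        ∑ i ∈ range q, (Z i (τ L) - Z i (τ 0)) := by
      apply Finset.sum_le_sum_of_subset
      intro i hi
      rw [Finset.mem_insert, Finset.mem_singleton] at hi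
      rw [Finset.mem_range]
      rcases hi with rfl | rfl
      · exact hq
      · exact hj
    rw [Finset.sum_pair (Ne.symm hj0)] at h3
    have h4 := hZm 0 _ _ (hτm 0 L (Nat.zero_le _) le_rfl)
    have h5 := hZm j _ _ (hτm 0 L (Nat.zero_le _) le_rfl)
    omega
  -- the sequences of `pair_count`
  have hZ0 : ∀ u ≤ L, Z 0 (τ u) + (B0 + u) = τ u := by
    intro u hu
    have h1 := Yc_le (s := st 0) (T := T) (τ u)
    have h2 := hY0 u hu
    change τ u - Yc (st 0) T (τ u) + (B0 + u) = τ u
    omega
  have hZj : ∀ j u, Z j (τ u) + Yc (st j) T (τ u) = τ u := by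
    intro j u
    have h1 := Yc_le (s := st j) (T := T) (τ u)
    change τ u - Yc (st j) T (τ u) + Yc (st j) T (τ u) = τ u
    omega
  have hdev : ∀ j u u', u ≤ u' → u' ≤ L →
      |((Yc (st j) T (τ u') : ℤ) - Yc (st j) T (τ u)) - ((u' : ℤ) - u)| ≤
        ((Z 0 (τ u') + Z j (τ u') : ℕ) : ℤ) - ((Z 0 (τ u) + Z j (τ u) : ℕ) : ℤ) := by
    intro j u u' huu hu'
    have h1 := hZ0 u (huu.trans hu')
    have h2 := hZ0 u' hu'
    have h3 := hZj j u
    have h4 := hZj j u'
    have h5 := hZm 0 _ _ (hτm u u' huu hu')
    have h6 := hZm j _ _ (hτm u u' huu hu')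
    rw [abs_le]
    push_cast
    constructor <;> omega
  have hpc : ∀ j < q, j ≠ 0 → ((range L).filter (fun u => ¬ ∃ y' < T, st j y' = st 0 (B0 + u) ∧
      y' % L = u)).card ≤
      h * l * (3 * (L1 + L2) + 1) + 2 * l * I + 2 * g * l * (L / (h * l)) := by
    intro j hj hj0
    refine pair_count q L1 L2 l h g I B0 T F (j : ZMod q) (st 0) (st j)
      (fun u => Yc (st j) T (τ u)) (fun u => Z 0 (τ u) + Z j (τ u)) hl hh hL1 hL2 hcop
      (Dvd.intro_left p0 rfl) hIL.le ?_ ?_ ?_ ?_ ?_ ?_ W1 W2
    · intro u u' huu hu'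
      exact (Yc_mono (hτm u u' huu hu')).1
    · intro u u' huu hu'
      exact Nat.add_le_add (hZm 0 _ _ (hτm u u' huu hu')) (hZm j _ _ (hτm u u' huu hu'))
    · exact hidle j hj hj0
    · exact hdev j
    · intro u hu hVu a ha
      have h1 := hZm 0 _ _ (hτm u (u + l) (by omega) hu)
      have h2 := hZm j _ _ (hτm u (u + l) (by omega) hu)
      have h3 := hZ0 u (by omega)
      have h4 := hZ0 (u + l) hu
      have h5 := hZj j u
      have h6 := hZj j (u + l)
      have h7 : τ (u + l) = τ u + l := by omega
      have h8 : Yc (st j) T (τ u + l) = Yc (st j) T (τ u) + l := by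
        rw [← h7]; omega
      have h9 : Yc (st 0) T (τ u + l) = Yc (st 0) T (τ u) + l := by
        rw [← h7, hY0 (u + l) hu, hY0 u (by omega)]; ring
      obtain ⟨h10, h11⟩ := Yc_free h8 a ha
      obtain ⟨_, h12⟩ := Yc_free h9 a ha
      rw [hY0 u (by omega)] at h12
      exact ⟨h10, by rw [h11, h12]⟩
    · intro u hu y' hy' heq hx3 hy3
      exact hconf j hj hj0 _ (by omega) _ hy' heq hx3 hy3
  -- the bad units
  set bad : Finset ℕ := (range q).biUnion (fun j => (range L).filter
    (fun u => ¬ ∃ y' < T, st j y' = st 0 (B0 + u) ∧ y' % L = u)) with hbad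
  have hbadc : bad.card ≤ q * (h * l * (3 * (L1 + L2) + 1) + 2 * l * I +
        2 * g * l * (L / (h * l))) := by
    refine (Finset.card_biUnion_le_card_mul _ _ _ ?_).trans (by rw [Finset.card_range])
    intro j hj
    by_cases hj0 : j = 0
    · have h1 : (range L).filter
          (fun u => ¬ ∃ y' < T, st j y' = st 0 (B0 + u) ∧ y' % L = u) = ∅ := by
        rw [Finset.filter_eq_empty_iff]
        intro u hu hc
        rw [Finset.mem_range] at hu
        apply hc
        refine ⟨B0 + u, by omega, by rw [hj0], ?_⟩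
        rw [hB0, Nat.mul_comm, Nat.mul_add_mod, Nat.mod_eq_of_lt hu]
      rw [h1]; simp
    · exact hpc j (Finset.mem_range.1 hj) hj0
  have hgood : ∀ u < L, u ∉ bad → ∀ j < q, ∃ y' < T, st j y' = st 0 (B0 + u) ∧ y' % L = u := by
    intro u hu hub j hj
    by_contra hc
    apply hub
    rw [hbad, Finset.mem_biUnion]
    exact ⟨j, Finset.mem_range.2 hj, Finset.mem_filter.2 ⟨Finset.mem_range.2 hu, hc⟩⟩
  by_cases hex : ∃ u < L, u ∉ bad
  · obtain ⟨u0, hu0, hub0⟩ := hex
    have hy0 := hgood u0 hu0 hub0
    refine ⟨fun j => Yc (st j) T (τ u0) / L, bad, hbadc, ?_, ?_⟩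
    · intro j hj
      obtain ⟨y', hy', h1, h2⟩ := hy0 j hj
      have h3 : Yc (st j) T (τ u0) = y' := by
        rw [hτ1 u0 hu0, ← h1, Yc_st (hmono j hj) hy']
      dsimp only
      rw [h3, Nat.div_lt_iff_lt_mul hLpos]
      exact hy'
    · intro u hu hub
      refine ⟨st 0 (B0 + u), ?_⟩
      intro j hj
      obtain ⟨y0', hy0', h1, h2⟩ := hy0 j hj
      obtain ⟨y', hy', h3, h4⟩ := hgood u hu hub j hj
      have e1 : Yc (st j) T (τ u0) = y0' := by
        rw [hτ1 u0 hu0, ← h1, Yc_st (hmono j hj) hy0']
      have e2 : Yc (st j) T (τ u) = y' := by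
        rw [hτ1 u hu, ← h3, Yc_st (hmono j hj) hy']
      have key : y' / L = y0' / L := by
        by_cases hj0 : j = 0
        · have f1 := hY0 u0 hu0.le
          have f2 := hY0 u hu.le
          rw [hj0] at e1 e2
          rw [f1] at e1
          rw [f2] at e2
          rw [← e1, ← e2, hB0, mul_comm, Nat.mul_add_div hLpos, Nat.mul_add_div hLpos,
            Nat.div_eq_of_lt hu, Nat.div_eq_of_lt hu0]
        · have hbound : ∀ v v', v ≤ v' → v' ≤ L →
              |((Yc (st j) T (τ v') : ℤ) - Yc (st j) T (τ v)) - ((v' : ℤ) - v)| ≤ I := by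
            intro v v' hvv hv'
            have f1 := hdev j v v' hvv hv'
            have f2 := hidle j hj hj0
            have f3 := hZm 0 _ _ (hτm v' L hv' le_rfl)
            have f4 := hZm j _ _ (hτm v' L hv' le_rfl)
            have f5 := hZm 0 _ _ (hτm 0 v (Nat.zero_le _) (hvv.trans hv'))
            have f6 := hZm j _ _ (hτm 0 v (Nat.zero_le _) (hvv.trans hv'))
            refine f1.trans ?_
            push_cast
            omega
          have g1 := Nat.div_add_mod y' L
          have g2 := Nat.div_add_mod y0' L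
          rw [h4] at g1
          rw [h2] at g2
          have g3 : |((L : ℤ) * (y' / L : ℕ) - L * (y0' / L : ℕ))| ≤ I := by
            rcases Nat.le_total u0 u with hle | hle
            · have f1 := hbound u0 u hle hu.le
              rw [e1, e2] at f1
              have f2 : (y' : ℤ) = L * (y' / L : ℕ) + u := by exact_mod_cast g1.symm
              have f3 : (y0' : ℤ) = L * (y0' / L : ℕ) + u0 := by exact_mod_cast g2.symm
              rw [f2, f3] at f1
              convert f1 using 2
              ring_nf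
            · have f1 := hbound u u0 hle hu0.le
              rw [e1, e2] at f1
              have f2 : (y' : ℤ) = L * (y' / L : ℕ) + u := by exact_mod_cast g1.symm
              have f3 : (y0' : ℤ) = L * (y0' / L : ℕ) + u0 := by exact_mod_cast g2.symm
              rw [abs_sub_comm]
              rw [f2, f3] at f1
              convert f1 using 2
              ring_nf
          by_contra hne
          rcases Nat.lt_or_gt_of_ne hne with hlt | hlt
          · have f1 : L * (y' / L) + L ≤ L * (y0' / L) := by
              have := Nat.mul_le_mul_left L (Nat.succ_le_of_lt hlt)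
              rwa [Nat.mul_succ] at this
            have f2 := (abs_le.1 g3).1
            have f3 : ((L * (y' / L) + L : ℕ) : ℤ) ≤ ((L * (y0' / L) : ℕ) : ℤ) := by
              exact_mod_cast f1
            push_cast at f2 f3
            omega
          · have f1 : L * (y0' / L) + L ≤ L * (y' / L) := by
              have := Nat.mul_le_mul_left L (Nat.succ_le_of_lt hlt)
              rwa [Nat.mul_succ] at this
            have f2 := (abs_le.1 g3).2
            have f3 : ((L * (y0' / L) + L : ℕ) : ℤ) ≤ ((L * (y' / L) : ℕ) : ℤ) := by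
              exact_mod_cast f1
            push_cast at f2 f3
            omega
      dsimp only
      rw [e1, ← key]
      have g1 := Nat.div_add_mod y' L
      rw [h4] at g1
      rw [mul_comm, g1, h3]
  · push Not at hex
    exact ⟨fun _ => 0, bad, hbadc, fun _ _ => hR, fun u hu hub => absurd (hex u hu) hub⟩

end Pool.Agent.H.JS
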