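import Pool.Agent.H.MP_aeb38e_lc.Word2
import Pool.Agent.H.MP_aeb38e_lc.Expander

/-! The dynamic part at an absolute rate: pairs of jobs, the expander, the reference job. -/

namespace Pool.Agent.H.JS2

open Finset
open Pool.Agent.H.JS (Exp)

/-! ### Counting jumps of monotone sequences -/

theorem count_jumps (V : ℕ → ℕ) (b : ℕ) : ∀ N : ℕ, (∀ i < N, V i ≤ V (i + 1)) →
    b * ((range N).filter (fun i => V i + b ≤ V (i + 1))).card + V 0 ≤ V N := by
  intro N
  induction N with
  | zero => intro _; simp
  | succ N ih =>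
    intro hm
    have h1 := ih (fun i hi => hm i (by omega))
    have h2 := hm N (by omega)
    rw [Finset.range_add_one, Finset.filter_insert]
    by_cases h3 : V N + b ≤ V (N + 1)
    · rw [if_pos h3, Finset.card_insert_of_notMem (by simp)]
      rw [mul_add, mul_one]
      omega
    · rw [if_neg h3]
      omega

theorem card_filter_div_le (N W : ℕ) (K : Finset ℕ) (hW : 0 < W) :
    ((range N).filter (fun u => u / W ∈ K)).card ≤ W * K.card := by
  have h1 : ∀ k ∈ ((range N).filter (fun u => u / W ∈ K)).image (fun u => u / W),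
      (((range N).filter (fun u => u / W ∈ K)).filter (fun u => u / W = k)).card ≤ W := by
    intro k _
    have h2 : ((range N).filter (fun u => u / W ∈ K)).filter (fun u => u / W = k) ⊆
        Finset.Ico (k * W) (k * W + W) := by
      intro u hu
      have h3 := (Finset.mem_filter.1 hu).2
      rw [Finset.mem_Ico]
      have h4 := Nat.div_add_mod u W
      have h5 := Nat.mod_lt u hW
      rw [h3, mul_comm] at h4
      omega
    have h3 := Finset.card_le_card h2
    rw [Nat.card_Ico] at h3
    omega
  have h2 := Finset.card_le_mul_card_image (s := (range N).filter (fun u => u / W ∈ K))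
    (f := fun u => u / W) W h1
  have h3 : ((range N).filter (fun u => u / W ∈ K)).image (fun u => u / W) ⊆ K := by
    intro k hk
    obtain ⟨u, hu, rfl⟩ := Finset.mem_image.1 hk
    exact (Finset.mem_filter.1 hu).2
  exact h2.trans (Nat.mul_le_mul_left _ (Finset.card_le_card h3))

/-- Counting the positions of a job at which another job is not aligned. -/
theorem pair_count (L l h g M I B0 T : ℕ) (F : ℕ → ℕ) (s : ℕ) (hs : s < 11)
    (s0 sj y V : ℕ → ℕ) (hl : 0 < l) (hh : 0 < h) (hLh : h * l + h ≤ L)
    (hy : ∀ u u', u ≤ u' → u' ≤ M → y u ≤ y u')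
    (hV : ∀ u u', u ≤ u' → u' ≤ M → V u ≤ V u')
    (hVI : V M ≤ V 0 + I)
    (hdev : ∀ u u', u ≤ u' → u' ≤ M →
      |((y u' : ℤ) - y u) - ((u' : ℤ) - u)| ≤ (V u' : ℤ) - V u)
    (hfree : ∀ u, u + l ≤ M → V (u + l) = V u →
      ∀ a < l, y u + a < T ∧ sj (y u + a) = s0 (B0 + u + a))
    (hconf : ∀ u < M, ∀ y' < T, s0 (B0 + u) = sj y' → (B0 + u) % 3 ≠ 2 → y' % 3 ≠ 2 →
      ¬ (F (B0 + u) = s ∧ F y' = 0))
    (WP : WordProp 11 L l h g F) :
    ((range M).filter (fun u => ¬ ∃ y' < T, sj y' = s0 (B0 + u) ∧
      y' % L = (B0 + u) % L)).card ≤ h * l + 2 * l * I + g * l * (M / (h * l)) := by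
  classical
  set W := h * l with hW
  have hWpos : 0 < W := Nat.mul_pos hh hl
  set N := M / W with hN
  have hNW : N * W ≤ M := Nat.div_mul_le_self M W
  have hNW' : M < N * W + W := by
    have := Nat.lt_div_mul_add (a := M) hWpos
    rw [← hN] at this
    omega
  -- bad windows
  let jump : (ℕ → ℕ) → ℕ → Finset ℕ := fun C b => (range N).filter (fun i => C i + b ≤ C (i + 1))
  let CV : ℕ → ℕ := fun w => V (w * W)
  have hwL : ∀ w < N, (w + 1) * W ≤ M := by
    intro w hw
    exact (Nat.mul_le_mul_right W (Nat.succ_le_of_lt hw)).trans hNW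
  set BW : Finset ℕ := jump CV (h + 1) with hBW
  have hJV : BW.card * (h + 1) ≤ I := by
    have h1 := count_jumps CV (h + 1) N (fun i hi => hV _ _
      (Nat.mul_le_mul_right W (Nat.le_succ i)) (hwL i hi))
    have h2 : CV N ≤ V M := hV _ _ hNW le_rfl
    have h3 : CV 0 = V 0 := by simp [CV]
    change (h + 1) * BW.card + CV 0 ≤ CV N at h1
    rw [mul_comm]
    omega
  have hBWc : W * BW.card ≤ l * I := by
    calc W * BW.card = l * (BW.card * h) := by rw [hW]; ring
      _ ≤ l * (BW.card * (h + 1)) := by gcongr; omega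
      _ ≤ l * I := Nat.mul_le_mul_left _ hJV
  -- chunks with idle time
  set BC : Finset ℕ := (range (N * h)).filter (fun k => V (k * l) + 1 ≤ V ((k + 1) * l)) with hBC
  have hkL : ∀ k < N * h, (k + 1) * l ≤ N * W := by
    intro k hk
    calc (k + 1) * l ≤ (N * h) * l := Nat.mul_le_mul_right l (Nat.succ_le_of_lt hk)
      _ = N * W := by rw [hW]; ring
  have hBCc : BC.card ≤ I := by
    have h1 := count_jumps (fun k => V (k * l)) 1 (N * h) (fun i hi => hV _ _
      (Nat.mul_le_mul_right l (Nat.le_succ i)) ((hkL i hi).trans hNW))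
    have h2 : V (N * h * l) ≤ V M := hV _ _ (by
      calc N * h * l = N * W := by rw [hW]; ring
        _ ≤ M := hNW) le_rfl
    rw [← hBC, Nat.zero_mul] at h1
    omega
  -- off-diagonal chunks
  set OC : Finset ℕ := (range (N * h)).filter (fun k => k / h ∉ BW ∧ k ∉ BC ∧
    (B0 + k * l) % L ≠ y (k * l) % L) with hOCdef
  have hOC : OC.card ≤ g * N := by
    have h1 : ∀ w ∈ OC.image (fun k => k / h),
        (OC.filter (fun k => k / h = w)).card ≤ g := by
      intro w hw
      by_contra hcon
      push Not at hcon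
      obtain ⟨k0, hk0, hk0w⟩ := Finset.mem_image.1 hw
      obtain ⟨hk0r, hk0BW, -, -⟩ := Finset.mem_filter.1 hk0
      rw [Finset.mem_range] at hk0r
      have hwN : w < N := by
        rw [← hk0w, Nat.div_lt_iff_lt_mul hh]
        exact hk0r
      have hwV : w ∉ BW := by rw [← hk0w]; exact hk0BW
      have hV' : V ((w + 1) * W) ≤ V (w * W) + h := by
        by_contra hc
        apply hwV
        rw [hBW, Finset.mem_filter, Finset.mem_range]
        exact ⟨hwN, by change V (w * W) + (h + 1) ≤ V ((w + 1) * W); omega⟩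
      have hwW : (w + 1) * W = w * W + W := by ring
      have hwL' := hwL w hwN
      have hpos : ∀ c, (w * h + c) * l = w * W + c * l := by
        intro c; rw [hW]; ring
      have hcl : ∀ c < h, c * l + l ≤ W := by
        intro c hc
        have := Nat.mul_le_mul_right l (Nat.succ_le_of_lt hc)
        rw [Nat.succ_mul] at this
        exact this
      -- members of the fibre
      set G : Finset ℕ := (OC.filter (fun k => k / h = w)).image (fun k => k % h) with hG
      have hGm : ∀ c ∈ G, c < h ∧ V (w * W + c * l + l) = V (w * W + c * l) ∧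
          (B0 + (w * W + c * l)) % L ≠ y (w * W + c * l) % L := by
        intro c hc
        obtain ⟨k, hk, hkc⟩ := Finset.mem_image.1 hc
        obtain ⟨hk1, hk2⟩ := Finset.mem_filter.1 hk
        obtain ⟨hkr, -, hkBC, hkoff⟩ := Finset.mem_filter.1 hk1
        rw [Finset.mem_range] at hkr
        have hkeq : k = w * h + c := by
          have := Nat.div_add_mod k h
          rw [hk2, hkc, mul_comm] at this
          exact this.symm
        have hclt : c < h := by rw [← hkc]; exact Nat.mod_lt _ hh
        refine ⟨hclt, ?_, ?_⟩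
        · have h2 : ¬ (V (k * l) + 1 ≤ V ((k + 1) * l)) := by
            intro hc'
            apply hkBC
            rw [hBC, Finset.mem_filter, Finset.mem_range]
            exact ⟨hkr, hc'⟩
          have h3 : k * l = w * W + c * l := by rw [hkeq, hpos]
          have h4 : (k + 1) * l = w * W + c * l + l := by rw [Nat.succ_mul, h3]
          rw [h3, h4] at h2
          have h5 := hcl c hclt
          have h6 := hV (w * W + c * l) (w * W + c * l + l) (by omega) (by omega)
          omega
        · rw [hkeq, hpos] at hkoff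
          exact hkoff
      have hstepY : ∀ c ∈ G, y (w * W + c * l + l) = y (w * W + c * l) + l := by
        intro c hc
        obtain ⟨hc1, hc2, _⟩ := hGm c hc
        have h5 := hcl c hc1
        have h6 := hdev (w * W + c * l) (w * W + c * l + l) (by omega) (by omega)
        rw [hc2, sub_self] at h6
        have h7 := abs_nonpos_iff.1 h6
        push_cast at h7
        omega
      apply WP s hs (B0 + w * W) (fun c => y (w * W + c * l)) G
      refine ⟨fun c hc => (hGm c hc).1, ?_, ?_, ?_, ?_, ?_, ?_, ?_⟩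
      · rw [hG, Finset.card_image_of_injOn]
        · omega
        · intro k hk k' hk' hkk
          have e1 := (Finset.mem_filter.1 (Finset.mem_coe.1 hk)).2
          have e2 := (Finset.mem_filter.1 (Finset.mem_coe.1 hk')).2
          have e3 := Nat.div_add_mod k h
          have e4 := Nat.div_add_mod k' h
          dsimp only at hkk
          rw [e1] at e3
          rw [e2, ← hkk] at e4
          omega
      · intro c c' hcc hc'
        have h5 := hcl c' hc'
        have h6 : c * l ≤ c' * l := Nat.mul_le_mul_right l hcc.le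
        exact hy _ _ (by omega) (by omega)
      · intro c hc c' hcc hc'
        have h5 := hcl c' hc'
        have h6 : (c + 1) * l ≤ c' * l := Nat.mul_le_mul_right l (Nat.succ_le_of_lt hcc)
        rw [Nat.succ_mul] at h6
        have h7 := hstepY c hc
        have h8 := hy (w * W + c * l + l) (w * W + c' * l) (by omega) (by omega)
        omega
      · intro c hc
        obtain ⟨hc1, hc2, _⟩ := hGm c hc
        have h5 := hcl c hc1
        have h6 := hstepY c hc
        have h7 := (abs_le.1 (hdev (w * W) (w * W + c * l + l) (by omega) (by omega))).2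
        have h8 := hV (w * W + c * l + l) ((w + 1) * W) (by omega) hwL'
        rw [Nat.zero_mul, Nat.add_zero]
        push_cast at h7
        omega
      · have h5 : ∀ b, b < h → ∑ c ∈ range b, |((y (w * W + (c + 1) * l) : ℤ) -
            y (w * W + c * l) - l)| ≤ (V (w * W + b * l) : ℤ) - V (w * W) := by
          intro b
          induction b with
          | zero => intro _; simp
          | succ b ih =>
            intro hb
            rw [Finset.sum_range_succ]
            have h6 := ih (by omega)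
            have h7 := hcl (b + 1) hb
            have h8 : b * l ≤ (b + 1) * l := Nat.mul_le_mul_right l (Nat.le_succ b)
            have h9 := hdev (w * W + b * l) (w * W + (b + 1) * l) (by omega) (by omega)
            have h10 : ((w * W + (b + 1) * l : ℕ) : ℤ) - ((w * W + b * l : ℕ) : ℤ) = l := by
              push_cast; ring
            rw [h10] at h9
            linarith
        have h6 := h5 (h - 1) (by omega)
        have h7 : (h - 1) * l ≤ W := by
          rw [hW]
          exact Nat.mul_le_mul_right l (Nat.sub_le h 1)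
        have h8 := hV (w * W + (h - 1) * l) ((w + 1) * W) (by omega) hwL'
        have h9 : ((V (w * W + (h - 1) * l) : ℕ) : ℤ) ≤ V (w * W) + h := by
          exact_mod_cast h8.trans hV'
        calc _ ≤ _ := h6
          _ ≤ (h : ℤ) := by linarith
      · intro c hc
        have h5 := (hGm c hc).2.2
        rw [← add_assoc] at h5
        exact h5
      · intro c hc a ha h5 h6
        obtain ⟨hc1, hc2, _⟩ := hGm c hc
        have h7 := hcl c hc1
        obtain ⟨h8, h9⟩ := hfree (w * W + c * l) (by omega) hc2 a ha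
        have h10 := hconf (w * W + c * l + a) (by omega) _ h8
          (by rw [h9]; congr 1; ring)
        have e1 : B0 + w * W + c * l + a = B0 + (w * W + c * l + a) := by ring
        rw [e1] at h5 ⊢
        exact h10 h5 h6
    have h2 := Finset.card_le_mul_card_image (s := OC) (f := fun k => k / h) g h1
    have h3 : OC.image (fun k => k / h) ⊆ range N := by
      intro w hw
      obtain ⟨k, hk, rfl⟩ := Finset.mem_image.1 hw
      rw [Finset.mem_range, Nat.div_lt_iff_lt_mul hh]
      exact Finset.mem_range.1 (Finset.mem_filter.1 hk).1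
    have h4 := Finset.card_le_card h3
    rw [Finset.card_range] at h4
    exact h2.trans (Nat.mul_le_mul_left _ h4)
  -- cover
  have hcover : (range M).filter (fun u => ¬ ∃ y' < T, sj y' = s0 (B0 + u) ∧
      y' % L = (B0 + u) % L) ⊆
      Finset.Ico (N * W) M ∪ ((range M).filter (fun u => u / W ∈ BW) ∪
        ((range M).filter (fun u => u / l ∈ BC) ∪
          (range M).filter (fun u => u / l ∈ OC))) := by
    intro u hu
    obtain ⟨huL, hubad⟩ := Finset.mem_filter.1 hu
    rw [Finset.mem_range] at huL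
    by_cases hrest : N * W ≤ u
    · exact Finset.mem_union_left _ (Finset.mem_Ico.2 ⟨hrest, huL⟩)
    apply Finset.mem_union_right
    push Not at hrest
    by_cases hwin : u / W ∈ BW
    · exact Finset.mem_union_left _ (Finset.mem_filter.2 ⟨Finset.mem_range.2 huL, hwin⟩)
    apply Finset.mem_union_right
    by_cases hch : u / l ∈ BC
    · exact Finset.mem_union_left _ (Finset.mem_filter.2 ⟨Finset.mem_range.2 huL, hch⟩)
    apply Finset.mem_union_right
    have hkr : u / l < N * h := by
      rw [Nat.div_lt_iff_lt_mul hl]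
      calc u < N * W := hrest
        _ = N * h * l := by rw [hW]; ring
    have hkw : u / l / h = u / W := by
      rw [Nat.div_div_eq_div_mul, hW, mul_comm l h]
    set k := u / l with hk
    have hkfree : V ((k + 1) * l) = V (k * l) := by
      have h1 : ¬ (V (k * l) + 1 ≤ V ((k + 1) * l)) := by
        intro hc
        exact hch (Finset.mem_filter.2 ⟨Finset.mem_range.2 hkr, hc⟩)
      have h2 := hV (k * l) ((k + 1) * l) (Nat.mul_le_mul_right l (Nat.le_succ k))
        ((hkL k hkr).trans hNW)
      omega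
    have hkl : (k + 1) * l = k * l + l := Nat.succ_mul k l
    rw [hkl] at hkfree
    have hkL' := (hkL k hkr).trans hNW
    rw [hkl] at hkL'
    have hu' : k * l + u % l = u := by
      have := Nat.div_add_mod u l
      rw [mul_comm] at this
      exact this
    obtain ⟨h1, h2⟩ := hfree (k * l) hkL' hkfree (u % l) (Nat.mod_lt _ hl)
    refine Finset.mem_filter.2 ⟨Finset.mem_range.2 huL, ?_⟩
    rw [← hk, hOCdef]
    refine Finset.mem_filter.2 ⟨Finset.mem_range.2 hkr, ?_, hch, ?_⟩
    · rw [hkw]; exact hwin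
    · intro hc
      apply hubad
      refine ⟨y (k * l) + u % l, h1, ?_, ?_⟩
      · rw [h2, add_assoc, hu']
      · have h5 := Nat.ModEq.add_right (n := L) (u % l) hc.symm
        rw [add_assoc, hu'] at h5
        exact h5
  have hc := Finset.card_le_card hcover
  have c1 := Finset.card_union_le (Finset.Ico (N * W) M) ((range M).filter (fun u => u / W ∈ BW) ∪
        ((range M).filter (fun u => u / l ∈ BC) ∪
          (range M).filter (fun u => u / l ∈ OC)))
  have c2 := Finset.card_union_le ((range M).filter (fun u => u / W ∈ BW))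
        ((range M).filter (fun u => u / l ∈ BC) ∪
          (range M).filter (fun u => u / l ∈ OC))
  have c3 := Finset.card_union_le ((range M).filter (fun u => u / l ∈ BC))
          ((range M).filter (fun u => u / l ∈ OC))
  have d0 : (Finset.Ico (N * W) M).card ≤ W := by
    rw [Nat.card_Ico]; omega
  have d1 := (card_filter_div_le M W BW hWpos).trans hBWc
  have d2 := card_filter_div_le M l BC hl
  have d3 := (card_filter_div_le M l OC hl).trans (Nat.mul_le_mul_left l hOC)
  have d5 : l * BC.card ≤ l * I := Nat.mul_le_mul_left l hBCc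
  have e1 : W + 2 * l * I + g * l * N = W + l * I + l * I + l * (g * N) := by ring
  rw [e1]
  omega

/-! ### Number of started operations -/

/-- number of operations (of `s`, `T` in all) started before time `t` -/
def Yc (s : ℕ → ℕ) (T : ℕ) : ℕ → ℕ
  | 0 => 0
  | t + 1 => if Yc s T t < T ∧ s (Yc s T t) = t then Yc s T t + 1 else Yc s T t

section Yc

variable {s : ℕ → ℕ} {T : ℕ}

theorem Yc_inv (hs : ∀ P P', P < P' → P' < T → s P < s P') (t : ℕ) :
    (∀ P < Yc s T t, s P < t) ∧ (∀ P, Yc s T t ≤ P → P < T → t ≤ s P) ∧ Yc s T t ≤ T := by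
  induction t with
  | zero => exact ⟨fun P hP => absurd hP (Nat.not_lt_zero _), fun P _ _ => Nat.zero_le _,
      Nat.zero_le _⟩
  | succ t ih =>
    obtain ⟨h1, h2, h3⟩ := ih
    rw [Yc]
    split_ifs with h
    · obtain ⟨h4, h5⟩ := h
      refine ⟨?_, ?_, h4⟩
      · intro P hP
        rcases Nat.lt_or_ge P (Yc s T t) with h6 | h6
        · exact (h1 P h6).trans (Nat.lt_succ_self t)
        · have : P = Yc s T t := by omega
          rw [this, h5]
          exact Nat.lt_succ_self t
      · intro P hP hPT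
        have := hs (Yc s T t) P (by omega) hPT
        omega
    · refine ⟨fun P hP => (h1 P hP).trans (Nat.lt_succ_self t), ?_, h3⟩
      intro P hP hPT
      have h4 : Yc s T t < T := lt_of_le_of_lt hP hPT
      have h5 : s (Yc s T t) ≠ t := fun hc => h ⟨h4, hc⟩
      have h6 := h2 _ le_rfl h4
      rcases Nat.eq_or_lt_of_le hP with h7 | h7
      · rw [← h7]; omega
      · have := hs _ P h7 hPT
        omega

theorem Yc_st (hs : ∀ P P', P < P' → P' < T → s P < s P') {P : ℕ} (hP : P < T) :
    Yc s T (s P) = P := by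
  obtain ⟨h1, h2, _⟩ := Yc_inv hs (s P)
  by_contra hne
  rcases Nat.lt_or_ge P (Yc s T (s P)) with h | h
  · exact absurd (h1 P h) (lt_irrefl _)
  · have h3 : Yc s T (s P) < P := by omega
    have h4 := h2 _ le_rfl (h3.trans hP)
    have h5 := hs _ P h3 hP
    omega

theorem Yc_step (t : ℕ) : Yc s T t ≤ Yc s T (t + 1) ∧ Yc s T (t + 1) ≤ Yc s T t + 1 := by
  rw [Yc]
  split_ifs <;> omega

theorem Yc_mono {t t' : ℕ} (h : t ≤ t') :
    Yc s T t ≤ Yc s T t' ∧ Yc s T t' + t ≤ Yc s T t + t' := by
  induction t', h using Nat.le_induction with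
  | base => exact ⟨le_rfl, le_rfl⟩
  | succ t' _ ih =>
    have := Yc_step (s := s) (T := T) t'
    omega

theorem Yc_le (t : ℕ) : Yc s T t ≤ t := by
  have := (Yc_mono (s := s) (T := T) (Nat.zero_le t)).2
  have h0 : Yc s T 0 = 0 := rfl
  omega

theorem Yc_top (hs : ∀ P P', P < P' → P' < T → s P < s P') {H : ℕ} (hH : ∀ P < T, s P < H) :
    Yc s T H = T := by
  obtain ⟨_, h2, h3⟩ := Yc_inv hs H
  rcases Nat.lt_or_ge (Yc s T H) T with h | h
  · have h4 := h2 _ le_rfl h
    have h5 := hH _ h
    omega
  · omega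

theorem Yc_free {t l : ℕ} (h : Yc s T (t + l) = Yc s T t + l) :
    ∀ a < l, Yc s T t + a < T ∧ s (Yc s T t + a) = t + a := by
  intro a ha
  have h1 := (Yc_mono (s := s) (T := T) (show t ≤ t + a by omega)).2
  have h2 := (Yc_mono (s := s) (T := T) (show t + a ≤ t + l by omega)).2
  have h3 : Yc s T (t + a) = Yc s T t + a := by omega
  have h4 := (Yc_mono (s := s) (T := T) (show t ≤ t + (a + 1) by omega)).2
  have h5 := (Yc_mono (s := s) (T := T) (show t + (a + 1) ≤ t + l by omega)).2
  have h6 : Yc s T (t + a + 1) = Yc s T t + (a + 1) := by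
    rw [add_assoc]; omega
  rw [Yc, h3] at h6
  split_ifs at h6 with h7
  · exact h7
  · omega

end Yc


/-! ### Two jobs in a time window -/

/-- idle time of a job before time `t` -/
def Zc (s : ℕ → ℕ) (T t : ℕ) : ℕ := t - Yc s T t

theorem Zc_add (s : ℕ → ℕ) (T t : ℕ) : Zc s T t + Yc s T t = t := by
  have := Yc_le (s := s) (T := T) t
  unfold Zc
  omega

theorem Zc_mono (s : ℕ → ℕ) (T : ℕ) {t t' : ℕ} (h : t ≤ t') : Zc s T t ≤ Zc s T t' := by
  have h1 := (Yc_mono (s := s) (T := T) h).2
  have h2 := Zc_add s T t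
  have h3 := Zc_add s T t'
  omega

/-- label of the job with number `j`: its position mod `L`, its own label if it is idle -/
def lab (s : ℕ → ℕ) (T L j t : ℕ) : ℕ :=
  if Yc s T t < T ∧ s (Yc s T t) = t then Yc s T t % L else L + j

theorem lab_run {s : ℕ → ℕ} {T L j t : ℕ} (h : Yc s T t < T ∧ s (Yc s T t) = t) :
    lab s T L j t = Yc s T t % L := if_pos h

theorem lab_idle {s : ℕ → ℕ} {T L j t : ℕ} (h : ¬ (Yc s T t < T ∧ s (Yc s T t) = t)) :
    lab s T L j t = L + j := if_neg h

/-- Times in a window at which two jobs on an edge of the expander have different labels. -/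
theorem window_count (L l h g T t0 t1 i j : ℕ) (F : ℕ → ℕ) (s : ℕ) (hs : s < 11)
    (si sj : ℕ → ℕ) (hl : 0 < l) (hh : 0 < h) (hLh : h * l + h ≤ L) (ht : t0 ≤ t1)
    (hi : ∀ P P', P < P' → P' < T → si P < si P') (hj : ∀ P P', P < P' → P' < T → sj P < sj P')
    (hconf : ∀ x < T, ∀ y < T, si x = sj y → x % 3 ≠ 2 → y % 3 ≠ 2 → ¬ (F x = s ∧ F y = 0))
    (WP : WordProp 11 L l h g F) :
    ((Finset.Ico t0 t1).filter (fun t => lab si T L i t ≠ lab sj T L j t)).card ≤
      h * l + g * l * ((t1 - t0) / (h * l)) + 2 * l * ((Zc si T t1 - Zc si T t0) +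
        (Zc sj T t1 - Zc sj T t0)) + (Zc si T t1 - Zc si T t0) := by
  classical
  set B0 := Yc si T t0 with hB0
  obtain ⟨M, hM⟩ : ∃ M, Yc si T t1 = B0 + M :=
    ⟨Yc si T t1 - B0, by have := (Yc_mono (s := si) (T := T) ht).1; omega⟩
  have hMT : B0 + M ≤ T := by rw [← hM]; exact (Yc_inv hi t1).2.2
  have hM1 : M ≤ t1 - t0 := by
    have := (Yc_mono (s := si) (T := T) ht).2
    omega
  have hin : ∀ u < M, t0 ≤ si (B0 + u) ∧ si (B0 + u) < t1 := by
    intro u hu
    refine ⟨(Yc_inv hi t0).2.1 _ (by omega) (by omega), (Yc_inv hi t1).1 _ (by omega)⟩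
  let τ : ℕ → ℕ := fun u => if u < M then si (B0 + u) else t1
  have hτ1 : ∀ u < M, τ u = si (B0 + u) := fun u hu => if_pos hu
  have hτM : τ M = t1 := if_neg (lt_irrefl M)
  have hτm : ∀ u u', u ≤ u' → u' ≤ M → τ u ≤ τ u' := by
    intro u u' huu hu'
    rcases Nat.eq_or_lt_of_le huu with h1 | h1
    · rw [h1]
    rcases Nat.eq_or_lt_of_le hu' with h2 | h2
    · rw [h2, hτM, hτ1 u (by omega)]
      exact (hin u (by omega)).2.le
    · rw [hτ1 u (by omega), hτ1 u' h2]
      exact (hi _ _ (by omega) (by omega)).le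
  have hτ0 : t0 ≤ τ 0 := by
    rcases Nat.eq_zero_or_pos M with h1 | h1
    · rw [show τ 0 = t1 by rw [← hτM, h1]]; exact ht
    · rw [hτ1 0 h1]; exact (hin 0 h1).1
  have hYi : ∀ u ≤ M, Yc si T (τ u) = B0 + u := by
    intro u hu
    rcases Nat.eq_or_lt_of_le hu with h1 | h1
    · rw [h1, hτM, hM]
    · rw [hτ1 u h1, Yc_st hi (by omega)]
  set Ii := Zc si T t1 - Zc si T t0 with hIi
  set Ij := Zc sj T t1 - Zc sj T t0 with hIj
  have hZi1 := Zc_mono si T ht
  have hZj1 := Zc_mono sj T ht
  have hpc := pair_count L l h g M (Ii + Ij) B0 T F s hs si sj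
    (fun u => Yc sj T (τ u)) (fun u => Zc si T (τ u) + Zc sj T (τ u)) hl hh hLh
    (fun u u' huu hu' => (Yc_mono (hτm u u' huu hu')).1)
    (fun u u' huu hu' => Nat.add_le_add (Zc_mono si T (hτm u u' huu hu'))
      (Zc_mono sj T (hτm u u' huu hu')))
    (by
      have h1 := Zc_mono si T hτ0
      have h2 := Zc_mono sj T hτ0
      rw [hτM]
      omega)
    (by
      intro u u' huu hu'
      have h1 := Zc_add si T (τ u)
      have h2 := Zc_add si T (τ u')
      have h3 := Zc_add sj T (τ u)
      have h4 := Zc_add sj T (τ u')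
      have h5 := Zc_mono si T (hτm u u' huu hu')
      have h6 := Zc_mono sj T (hτm u u' huu hu')
      rw [hYi u (huu.trans hu')] at h1
      rw [hYi u' hu'] at h2
      rw [abs_le]
      push_cast
      constructor <;> omega)
    (by
      intro u hu hVu a ha
      have h1 := Zc_mono si T (hτm u (u + l) (by omega) hu)
      have h2 := Zc_mono sj T (hτm u (u + l) (by omega) hu)
      have h3 := Zc_add si T (τ u)
      have h4 := Zc_add si T (τ (u + l))
      have h5 := Zc_add sj T (τ u)
      have h6 := Zc_add sj T (τ (u + l))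
      rw [hYi u (by omega)] at h3
      rw [hYi (u + l) hu] at h4
      have h7 : τ (u + l) = τ u + l := by omega
      have h8 : Yc sj T (τ u + l) = Yc sj T (τ u) + l := by
        rw [← h7]; omega
      have h9 : Yc si T (τ u + l) = Yc si T (τ u) + l := by
        rw [← h7, hYi (u + l) hu, hYi u (by omega)]; ring
      obtain ⟨h10, h11⟩ := Yc_free h8 a ha
      obtain ⟨_, h12⟩ := Yc_free h9 a ha
      rw [hYi u (by omega)] at h12
      exact ⟨h10, by rw [h11, h12]⟩)
    (by
      intro u hu y' hy' heq hx3 hy3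
      exact hconf _ (by omega) _ hy' heq hx3 hy3)
    WP
  set Bu := (range M).filter (fun u => ¬ ∃ y' < T, sj y' = si (B0 + u) ∧
      y' % L = (B0 + u) % L) with hBu
  -- idle times of the first job
  set Id := (Finset.Ico t0 t1).filter (fun t => ¬ (Yc si T t < T ∧ si (Yc si T t) = t)) with hId
  have hIdc : Id.card ≤ Ii := by
    have h1 : (Finset.Ico t0 t1).card = ((Finset.Ico t0 t1).filter
        (fun t => Yc si T t < T ∧ si (Yc si T t) = t)).card + Id.card :=
      (Finset.card_filter_add_card_filter_not _).symm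
    have h2 : M ≤ ((Finset.Ico t0 t1).filter
        (fun t => Yc si T t < T ∧ si (Yc si T t) = t)).card := by
      have h3 := Finset.card_le_card_of_injOn (s := range M) (t := (Finset.Ico t0 t1).filter
        (fun t => Yc si T t < T ∧ si (Yc si T t) = t)) (fun u => si (B0 + u)) ?_ ?_
      · rwa [Finset.card_range] at h3
      · intro u hu
        have hu' : u < M := Finset.mem_range.1 (Finset.mem_coe.1 hu)
        obtain ⟨h4, h5⟩ := hin u hu'
        have h6 : Yc si T (si (B0 + u)) = B0 + u := Yc_st hi (by omega)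
        rw [Finset.mem_coe, Finset.mem_filter, Finset.mem_Ico, h6]
        exact ⟨⟨h4, h5⟩, by omega, rfl⟩
      · intro u hu v hv huv
        have hu' : u < M := Finset.mem_range.1 (Finset.mem_coe.1 hu)
        have hv' : v < M := Finset.mem_range.1 (Finset.mem_coe.1 hv)
        by_contra hne
        rcases Nat.lt_or_gt_of_ne hne with h4 | h4
        · have := hi (B0 + u) (B0 + v) (by omega) (by omega)
          dsimp only at huv
          omega
        · have := hi (B0 + v) (B0 + u) (by omega) (by omega)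
          dsimp only at huv
          omega
    rw [Nat.card_Ico] at h1
    have h3 := Zc_add si T t0
    have h4 := Zc_add si T t1
    rw [← hB0] at h3
    rw [hM] at h4
    omega
  have hcover : (Finset.Ico t0 t1).filter (fun t => lab si T L i t ≠ lab sj T L j t) ⊆
      Bu.image (fun u => si (B0 + u)) ∪ Id := by
    intro t htt
    obtain ⟨h1, h2⟩ := Finset.mem_filter.1 htt
    rw [Finset.mem_Ico] at h1
    by_cases hrun : Yc si T t < T ∧ si (Yc si T t) = t
    swap
    · exact Finset.mem_union_right _ (Finset.mem_filter.2 ⟨Finset.mem_Ico.2 h1, hrun⟩)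
    apply Finset.mem_union_left
    have h3 : B0 ≤ Yc si T t := (Yc_mono h1.1).1
    have h4 : Yc si T t < B0 + M := by
      by_contra hc
      push Not at hc
      rw [← hM] at hc
      have := (Yc_inv hi t1).2.1 _ hc hrun.1
      omega
    rw [Finset.mem_image]
    refine ⟨Yc si T t - B0, ?_, by rw [Nat.add_sub_cancel' h3]; exact hrun.2⟩
    rw [hBu, Finset.mem_filter, Finset.mem_range]
    refine ⟨by omega, ?_⟩
    rintro ⟨y', hy', h5, h6⟩
    rw [Nat.add_sub_cancel' h3] at h5 h6
    rw [hrun.2] at h5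
    apply h2
    have h7 : Yc sj T t = y' := by rw [← h5]; exact Yc_st hj hy'
    rw [lab_run hrun, lab_run (by rw [h7]; exact ⟨hy', h5⟩), h7, h6]
  have c1 := Finset.card_le_card hcover
  have c2 := Finset.card_union_le (Bu.image (fun u => si (B0 + u))) Id
  have c3 : (Bu.image (fun u => si (B0 + u))).card ≤ Bu.card := Finset.card_image_le
  have c4 : g * l * (M / (h * l)) ≤ g * l * ((t1 - t0) / (h * l)) :=
    Nat.mul_le_mul_left _ (Nat.div_le_div_right hM1)
  omega

/-! ### The expander table and the majority label -/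

/-- number of edges with different labels at the ends -/
def mis (q : ℕ) (sg : ℕ → ℕ → ℕ) (lb : ℕ → ℕ) : ℕ :=
  ((range 11 ×ˢ range q).filter (fun x => lb x.2 ≠ lb (sg x.1 x.2))).card

/-- a label which almost all jobs have -/
theorem exists_label (q : ℕ) (sg : ℕ → ℕ → ℕ) (hE : Exp q sg) (lb : ℕ → ℕ) :
    ∃ c, ((range q).filter (fun j => lb j ≠ c)).card ≤ mis q sg lb := by
  classical
  by_cases hbig : ∃ c, q < 2 * ((range q).filter (fun j => lb j = c)).card
  · obtain ⟨c, hc⟩ := hbig
    refine ⟨c, ?_⟩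
    set S := (range q).filter (fun j => lb j ≠ c) with hS
    have h1 : ((range q).filter (fun j => lb j = c)).card + S.card = q := by
      have := Finset.card_filter_add_card_filter_not (s := range q) (fun j => lb j = c)
      rw [Finset.card_range] at this
      exact this
    have h2 := hE.exp S (Finset.filter_subset _ _) (by omega)
    refine h2.trans (Finset.card_le_card ?_)
    intro x hx
    obtain ⟨h3, h4⟩ := Finset.mem_filter.1 hx
    obtain ⟨h5, h6⟩ := Finset.mem_product.1 h3
    obtain ⟨h7, h8⟩ := Finset.mem_filter.1 h6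
    refine Finset.mem_filter.2 ⟨Finset.mem_product.2 ⟨h5, h7⟩, ?_⟩
    intro h9
    apply h4
    refine Finset.mem_filter.2 ⟨Finset.mem_range.2
      (hE.lt _ (Finset.mem_range.1 h5) _ (Finset.mem_range.1 h7)), ?_⟩
    rw [← h9]
    exact h8
  · push Not at hbig
    refine ⟨0, ?_⟩
    have h0 : ((range q).filter (fun j => lb j ≠ 0)).card ≤ q := by
      have := Finset.card_filter_le (range q) (fun j => lb j ≠ 0)
      rwa [Finset.card_range] at this
    refine h0.trans ?_
    -- sum over the classes
    have h1 : q = ∑ c ∈ (range q).image lb, ((range q).filter (fun j => lb j = c)).card := by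
      have := Finset.card_eq_sum_card_image lb (range q)
      rw [Finset.card_range] at this
      exact this
    have h2 : mis q sg lb = ∑ c ∈ (range q).image lb,
        ((range 11 ×ˢ (range q).filter (fun j => lb j = c)).filter
          (fun x => sg x.1 x.2 ∉ (range q).filter (fun j => lb j = c))).card := by
      unfold mis
      rw [Finset.card_eq_sum_card_fiberwise (f := fun x : ℕ × ℕ => lb x.2)
        (t := (range q).image lb)]
      · apply Finset.sum_congr rfl
        intro c _
        congr 1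
        ext x
        simp only [Finset.mem_filter, Finset.mem_product, Finset.mem_range]
        constructor
        · rintro ⟨⟨⟨h3, h4⟩, h5⟩, h6⟩
          refine ⟨⟨h3, h4, h6⟩, ?_⟩
          rintro ⟨_, h8⟩
          exact h5 (h6.trans h8.symm)
        · rintro ⟨⟨h3, h4, h6⟩, h7⟩
          refine ⟨⟨⟨h3, h4⟩, ?_⟩, h6⟩
          intro h8
          apply h7
          exact ⟨hE.lt _ h3 _ h4, by rw [← h8]; exact h6⟩
      · intro x hx
        have h3 := (Finset.mem_filter.1 (Finset.mem_coe.1 hx)).1
        exact Finset.mem_coe.2 (Finset.mem_image_of_mem _ (Finset.mem_product.1 h3).2)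
    calc q = ∑ c ∈ (range q).image lb, ((range q).filter (fun j => lb j = c)).card := h1
      _ ≤ ∑ c ∈ (range q).image lb,
        ((range 11 ×ˢ (range q).filter (fun j => lb j = c)).filter
          (fun x => sg x.1 x.2 ∉ (range q).filter (fun j => lb j = c))).card := by
          apply Finset.sum_le_sum
          intro c _
          exact hE.exp _ (Finset.filter_subset _ _) (hbig c)
      _ = mis q sg lb := h2.symm

theorem exists_block (Z a b : ℕ → ℕ) (R I H : ℕ) (hR : 0 < R) (hZ : ∀ t t', t ≤ t' → Z t ≤ Z t')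
    (hab : ∀ p, p + 1 < R → b p ≤ a (p + 1)) (hH : b (R - 1) ≤ H) (hZH : Z H ≤ R * I) :
    ∃ p < R, Z (b p) ≤ Z (a p) + I := by
  by_contra hcon
  push Not at hcon
  have h1 : ∀ p < R, (p + 1) * (I + 1) ≤ Z (b p) := by
    intro p
    induction p with
    | zero =>
      intro hp
      have := hcon 0 hp
      omega
    | succ p ih =>
      intro hp
      have h2 := ih (by omega)
      have h3 := hcon (p + 1) hp
      have h4 := hZ _ _ (hab p hp)
      have h5 : (p + 1 + 1) * (I + 1) = (p + 1) * (I + 1) + (I + 1) := by ring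
      omega
  have h2 := h1 (R - 1) (by omega)
  have h3 := hZ _ _ hH
  have h4 : R - 1 + 1 = R := by omega
  rw [h4] at h2
  have h5 : R * (I + 1) = R * I + R := by ring
  omega

/-- choice of the reference job -/
theorem exists_ref (q M I : ℕ) (m f : ℕ → ℕ) (hq : 0 < q) (hm : ∑ j ∈ range q, m j ≤ M)
    (hf : ∑ j ∈ range q, f j ≤ I) :
    ∃ j < q, q * m j ≤ 2 * M + 1 ∧ q * f j ≤ 2 * I + 1 := by
  by_contra hcon
  push Not at hcon
  have h1 : ∀ j ∈ range q, 2 * (M + 1) * (I + 1) ≤ q * (m j * (I + 1) + f j * (M + 1)) := by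
    intro j hj
    have h2 := hcon j (Finset.mem_range.1 hj)
    by_cases h3 : q * m j ≤ 2 * M + 1
    · have h4 : 2 * (I + 1) ≤ q * f j := by have := h2 h3; omega
      calc 2 * (M + 1) * (I + 1) = 2 * (I + 1) * (M + 1) := by ring
        _ ≤ (q * f j) * (M + 1) := Nat.mul_le_mul_right _ h4
        _ ≤ q * (m j * (I + 1) + f j * (M + 1)) := by
            have : q * (m j * (I + 1) + f j * (M + 1)) =
              q * m j * (I + 1) + q * f j * (M + 1) := by ring
            omega
    · have h4 : 2 * (M + 1) ≤ q * m j := by omega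
      calc 2 * (M + 1) * (I + 1) ≤ (q * m j) * (I + 1) := Nat.mul_le_mul_right _ h4
        _ ≤ q * (m j * (I + 1) + f j * (M + 1)) := by
            have : q * (m j * (I + 1) + f j * (M + 1)) =
              q * m j * (I + 1) + q * f j * (M + 1) := by ring
            omega
  have h2 := Finset.sum_le_sum h1
  rw [Finset.sum_const, Finset.card_range, smul_eq_mul, ← Finset.mul_sum] at h2
  have h3 := Nat.le_of_mul_le_mul_left h2 hq
  rw [Finset.sum_add_distrib, ← Finset.sum_mul, ← Finset.sum_mul] at h3
  have h4 : (∑ j ∈ range q, m j) * (I + 1) ≤ M * (I + 1) := Nat.mul_le_mul_right _ hm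
  have h5 : (∑ j ∈ range q, f j) * (M + 1) ≤ I * (M + 1) := Nat.mul_le_mul_right _ hf
  have h6 : 2 * (M + 1) * (I + 1) = M * (I + 1) + I * (M + 1) + M + I + 2 := by ring
  omega

/-- The number of (time, edge) pairs with different labels in a window. -/
theorem sum_mis (q L l h g T t0 t1 : ℕ) (F : ℕ → ℕ) (sg st : ℕ → ℕ → ℕ)
    (hl : 0 < l) (hh : 0 < h) (hLh : h * l + h ≤ L) (ht : t0 ≤ t1) (hE : Exp q sg)
    (hmono : ∀ j < q, ∀ P P', P < P' → P' < T → st j P < st j P')
    (hconf : ∀ i < q, ∀ j < q, i ≠ j → ∀ x < T, ∀ y < T, st i x = st j y →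
      x % 3 ≠ 2 → y % 3 ≠ 2 → sg (F x) i ≠ sg (F y) j)
    (WP : WordProp 11 L l h g F) :
    ∑ t ∈ Finset.Ico t0 t1, mis q sg (fun j => lab (st j) T L j t) ≤
      11 * (q * (h * l + g * l * ((t1 - t0) / (h * l))) +
        (4 * l + 1) * ∑ j ∈ range q, (Zc (st j) T t1 - Zc (st j) T t0)) := by
  classical
  set f : ℕ → ℕ := fun j => Zc (st j) T t1 - Zc (st j) T t0 with hf
  set K := h * l + g * l * ((t1 - t0) / (h * l)) with hK
  have h1 : ∑ t ∈ Finset.Ico t0 t1, mis q sg (fun j => lab (st j) T L j t) =
      ∑ x ∈ range 11 ×ˢ range q, ((Finset.Ico t0 t1).filter (fun t =>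
        lab (st x.2) T L x.2 t ≠ lab (st (sg x.1 x.2)) T L (sg x.1 x.2) t)).card := by
    unfold mis
    simp only [Finset.card_filter]
    rw [Finset.sum_comm]
  have h2 : ∀ x ∈ range 11 ×ˢ range q, ((Finset.Ico t0 t1).filter (fun t =>
        lab (st x.2) T L x.2 t ≠ lab (st (sg x.1 x.2)) T L (sg x.1 x.2) t)).card ≤
      K + 2 * l * (f x.2 + f (sg x.1 x.2)) + f x.2 := by
    intro x hx
    obtain ⟨h3, h4⟩ := Finset.mem_product.1 hx
    rw [Finset.mem_range] at h3 h4
    by_cases heq : sg x.1 x.2 = x.2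
    · rw [heq]
      have : (Finset.Ico t0 t1).filter (fun t =>
        lab (st x.2) T L x.2 t ≠ lab (st x.2) T L x.2 t) = ∅ := by
        rw [Finset.filter_eq_empty_iff]
        intro t _ hc
        exact hc rfl
      rw [this]; simp
    · have h5 := hE.lt _ h3 _ h4
      refine window_count L l h g T t0 t1 x.2 (sg x.1 x.2) F x.1 h3 (st x.2) (st (sg x.1 x.2))
        hl hh hLh ht (hmono _ h4) (hmono _ h5) ?_ WP
      intro a ha b hb hab ha3 hb3 hF
      have h6 := hconf _ h4 _ h5 (fun h => heq h.symm) a ha b hb hab ha3 hb3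
      rw [hF.1, hF.2, hE.zero _ h5] at h6
      exact h6 rfl
  have h3 : ∑ x ∈ range 11 ×ˢ range q, f x.2 = 11 * ∑ j ∈ range q, f j := by
    rw [Finset.sum_product]
    simp
  have h4 : ∑ x ∈ range 11 ×ˢ range q, f (sg x.1 x.2) ≤ 11 * ∑ j ∈ range q, f j := by
    rw [Finset.sum_product]
    calc ∑ s ∈ range 11, ∑ j ∈ range q, f (sg s j) ≤ ∑ _s ∈ range 11, ∑ j ∈ range q, f j := by
          apply Finset.sum_le_sum
          intro s hs
          rw [Finset.mem_range] at hs
          have h5 : Set.InjOn (sg s) (range q : Set ℕ) := by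
            intro a ha b hb hab
            exact hE.inj s hs a (Finset.mem_range.1 (Finset.mem_coe.1 ha)) b
              (Finset.mem_range.1 (Finset.mem_coe.1 hb)) hab
          rw [← Finset.sum_image (f := f) (g := sg s) h5]
          apply Finset.sum_le_sum_of_subset
          intro a ha
          obtain ⟨b, hb, rfl⟩ := Finset.mem_image.1 ha
          exact Finset.mem_range.2 (hE.lt s hs b (Finset.mem_range.1 hb))
      _ = 11 * ∑ j ∈ range q, f j := by simp
  clear_value K
  calc ∑ t ∈ Finset.Ico t0 t1, mis q sg (fun j => lab (st j) T L j t) ≤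
        ∑ x ∈ range 11 ×ˢ range q, (K + 2 * l * (f x.2 + f (sg x.1 x.2)) + f x.2) := by
        rw [h1]; exact Finset.sum_le_sum h2
    _ = 11 * q * K + 2 * l * (∑ x ∈ range 11 ×ˢ range q, f x.2 +
          ∑ x ∈ range 11 ×ˢ range q, f (sg x.1 x.2)) + ∑ x ∈ range 11 ×ˢ range q, f x.2 := by
        rw [Finset.sum_add_distrib, Finset.sum_add_distrib, ← Finset.mul_sum,
          Finset.sum_add_distrib, Finset.sum_const, Finset.card_product, Finset.card_range,
          Finset.card_range, smul_eq_mul]
    _ ≤ 11 * q * K + 2 * l * (11 * ∑ j ∈ range q, f j + 11 * ∑ j ∈ range q, f j) +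
          11 * ∑ j ∈ range q, f j := by
        rw [h3]
        gcongr
    _ = _ := by ring

/-- The dynamic part: in a schedule with little idle time almost all pairs (unit, job) are
aligned. -/
theorem dynamic (q R1 L l h g I e : ℕ) (F : ℕ → ℕ) (sg st : ℕ → ℕ → ℕ)
    (hq : 0 < q) (hR1 : 0 < R1) (hl : 0 < l) (hh : 0 < h) (hLh : h * l + h ≤ L)
    (hE : Exp q sg)
    (hmono : ∀ j < q, ∀ P P', P < P' → P' < 3 * R1 * L → st j P < st j P')
    (hH : ∀ j < q, ∀ P < 3 * R1 * L, st j P < 3 * R1 * L + e)
    (hconf : ∀ i < q, ∀ j < q, i ≠ j → ∀ x < 3 * R1 * L, ∀ y < 3 * R1 * L, st i x = st j y →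
      x % 3 ≠ 2 → y % 3 ≠ 2 → sg (F x) i ≠ sg (F y) j)
    (hI : q * e ≤ R1 * I) (hIL : 2 * I + 1 < q * L) (WP : WordProp 11 L l h g F) :
    ∃ (p t : ℕ → ℕ) (bad : Finset (ℕ × ℕ)),
      bad.card ≤ 3 * (11 * (q * (h * l + g * l * (3 * L / (h * l))) + (4 * l + 1) * I)) + I + 1 ∧
      ∀ u < L, ∀ j < q, (u, j) ∉ bad → p j * L + u < 3 * R1 * L ∧ st j (p j * L + u) = t u := by
  classical
  set T := 3 * R1 * L with hT
  have hLpos : 0 < L := by
    have := Nat.mul_pos hh hl
    omega
  -- the window
  obtain ⟨a, ha, hblock⟩ := exists_block (fun t => ∑ j ∈ range q, Zc (st j) T t)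
    (fun p => 3 * L * p) (fun p => 3 * L * (p + 1)) R1 I T hR1
    (fun t t' htt => Finset.sum_le_sum (fun j _ => Zc_mono (st j) T htt))
    (fun p _ => le_rfl)
    (by
      have h1 : R1 - 1 + 1 = R1 := by omega
      rw [h1, hT]
      exact le_of_eq (by ring))
    (by
      have h1 : ∀ j ∈ range q, Zc (st j) T T ≤ e := by
        intro j hj
        have h2 := Yc_top (hmono j (Finset.mem_range.1 hj)) (hH j (Finset.mem_range.1 hj))
        have h3 := (Yc_mono (s := st j) (T := T) (show T ≤ T + e by omega)).2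
        have h4 := Zc_add (st j) T T
        omega
      refine (Finset.sum_le_sum h1).trans ?_
      rw [Finset.sum_const, Finset.card_range, smul_eq_mul]
      exact hI)
  set t0 := 3 * L * a with ht0
  set t1 := 3 * L * (a + 1) with ht1
  have ht01 : t1 = t0 + 3 * L := by rw [ht1, ht0]; ring
  have htle : t0 ≤ t1 := by omega
  set f : ℕ → ℕ := fun j => Zc (st j) T t1 - Zc (st j) T t0 with hf
  have hfI : ∑ j ∈ range q, f j ≤ I := by
    have h1 : ∑ j ∈ range q, f j + ∑ j ∈ range q, Zc (st j) T t0 =
        ∑ j ∈ range q, Zc (st j) T t1 := by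
      rw [← Finset.sum_add_distrib]
      apply Finset.sum_congr rfl
      intro j _
      exact Nat.sub_add_cancel (Zc_mono (st j) T htle)
    omega
  -- labels
  let lb : ℕ → ℕ → ℕ := fun j t => lab (st j) T L j t
  set Mt := 11 * (q * (h * l + g * l * (3 * L / (h * l))) + (4 * l + 1) * I) with hMt
  have hmis : ∑ t ∈ Finset.Ico t0 t1, mis q sg (fun j => lb j t) ≤ Mt := by
    have h1 := sum_mis q L l h g T t0 t1 F sg st hl hh hLh htle hE hmono hconf WP
    rw [show t1 - t0 = 3 * L by omega] at h1
    refine h1.trans ?_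
    rw [hMt]
    exact Nat.mul_le_mul_left _ (Nat.add_le_add_left (Nat.mul_le_mul_left _ hfI) _)
  have hlab : ∀ t, ∃ c, ((range q).filter (fun j => lb j t ≠ c)).card ≤
      mis q sg (fun j => lb j t) := fun t => exists_label q sg hE (fun j => lb j t)
  choose c hc using hlab
  let m : ℕ → ℕ := fun j => ((Finset.Ico t0 t1).filter (fun t => lb j t ≠ c t)).card
  have hm : ∑ j ∈ range q, m j ≤ Mt := by
    have h1 : ∑ j ∈ range q, m j =
        ∑ t ∈ Finset.Ico t0 t1, ((range q).filter (fun j => lb j t ≠ c t)).card := by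
      simp only [m, Finset.card_filter]
      rw [Finset.sum_comm]
    rw [h1]
    exact (Finset.sum_le_sum (fun t _ => hc t)).trans hmis
  obtain ⟨j0, hj0, hmj0, hfj0⟩ := exists_ref q Mt I m f hq hm hfI
  have hIj0 : f j0 < L := by
    by_contra hcon
    push Not at hcon
    have := Nat.mul_le_mul_left q hcon
    omega
  -- the block of the reference job
  set P0 := Yc (st j0) T t0 with hP0
  have hP1 : P0 + 2 * L < Yc (st j0) T t1 + 1 := by
    have h1 := Zc_add (st j0) T t0
    have h2 := Zc_add (st j0) T t1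
    have h3 := Zc_mono (st j0) T htle
    have h4 : f j0 = Zc (st j0) T t1 - Zc (st j0) T t0 := rfl
    omega
  set p0 := (P0 + L - 1) / L with hp0
  have hp0a : P0 ≤ p0 * L := by
    have h1 := Nat.div_add_mod (P0 + L - 1) L
    have h2 := Nat.mod_lt (P0 + L - 1) hLpos
    rw [← hp0, mul_comm] at h1
    omega
  have hp0b : p0 * L ≤ P0 + L - 1 := Nat.div_mul_le_self _ _
  have hpos : ∀ u < L, P0 ≤ p0 * L + u ∧ p0 * L + u < Yc (st j0) T t1 := by
    intro u hu; omega
  have hY1T : Yc (st j0) T t1 ≤ T := (Yc_inv (hmono j0 hj0) t1).2.2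
  let τ : ℕ → ℕ := fun u => st j0 (p0 * L + u)
  have hτ : ∀ u < L, t0 ≤ τ u ∧ τ u < t1 := by
    intro u hu
    obtain ⟨h1, h2⟩ := hpos u hu
    exact ⟨(Yc_inv (hmono j0 hj0) t0).2.1 _ h1 (by omega), (Yc_inv (hmono j0 hj0) t1).1 _ h2⟩
  have hYτ : ∀ u < L, Yc (st j0) T (τ u) = p0 * L + u := by
    intro u hu
    have := (hpos u hu).2
    exact Yc_st (hmono j0 hj0) (by omega)
  have hτinj : ∀ u < L, ∀ v < L, τ u = τ v → u = v := by
    intro u hu v hv h1
    have h2 := hYτ u hu
    rw [h1, hYτ v hv] at h2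
    omega
  have hlab0 : ∀ u < L, lb j0 (τ u) = u := by
    intro u hu
    have h1 := hYτ u hu
    have h2 := (hpos u hu).2
    have h3 : Yc (st j0) T (τ u) < T ∧ st j0 (Yc (st j0) T (τ u)) = τ u := by
      rw [h1]; exact ⟨by omega, rfl⟩
    change lab (st j0) T L j0 (τ u) = u
    rw [lab_run h3, h1, mul_comm, Nat.mul_add_mod, Nat.mod_eq_of_lt hu]
  have hτm : ∀ u v, u ≤ v → v < L → τ u ≤ τ v := by
    intro u v huv hv
    rcases Nat.eq_or_lt_of_le huv with h1 | h1
    · rw [h1]
    · have := (hpos v hv).2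
      exact (hmono j0 hj0 _ _ (by omega) (by omega)).le
  -- jobs aligned with the reference job
  have hrun : ∀ j < q, ∀ u < L, lb j (τ u) = u →
      Yc (st j) T (τ u) < T ∧ st j (Yc (st j) T (τ u)) = τ u ∧ Yc (st j) T (τ u) % L = u := by
    intro j hj u hu h1
    by_cases h2 : Yc (st j) T (τ u) < T ∧ st j (Yc (st j) T (τ u)) = τ u
    · refine ⟨h2.1, h2.2, ?_⟩
      rw [← lab_run (L := L) (j := j) h2]
      exact h1
    · have h3 : lb j (τ u) = L + j := lab_idle h2
      omega
  have hconst : ∀ j < q, f j < L → ∀ u v, u ≤ v → v < L → lb j (τ u) = u → lb j (τ v) = v →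
      Yc (st j) T (τ u) / L = Yc (st j) T (τ v) / L := by
    intro j hj hfj u v huv hv h1 h2
    obtain ⟨_, _, h3⟩ := hrun j hj u (by omega) h1
    obtain ⟨_, _, h4⟩ := hrun j hj v hv h2
    have d1 := Nat.div_add_mod (Yc (st j) T (τ u)) L
    have d2 := Nat.div_add_mod (Yc (st j) T (τ v)) L
    rw [h3] at d1
    rw [h4] at d2
    have hττ := hτm u v huv hv
    have e1 := Zc_add (st j) T (τ u)
    have e2 := Zc_add (st j) T (τ v)
    have e3 := Zc_add (st j0) T (τ u)
    have e4 := Zc_add (st j0) T (τ v)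
    rw [hYτ u (by omega)] at e3
    rw [hYτ v hv] at e4
    have i1 := Zc_mono (st j) T hττ
    have i2 := Zc_mono (st j0) T hττ
    have i3 := Zc_mono (st j) T (hτ u (by omega)).1
    have i4 := Zc_mono (st j) T (hτ v hv).2.le
    have i5 := Zc_mono (st j0) T (hτ u (by omega)).1
    have i6 := Zc_mono (st j0) T (hτ v hv).2.le
    have f1 : f j = Zc (st j) T t1 - Zc (st j) T t0 := rfl
    have f2 : f j0 = Zc (st j0) T t1 - Zc (st j0) T t0 := rfl
    set A := Yc (st j) T (τ u) / L with hA
    set B := Yc (st j) T (τ v) / L with hB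
    by_contra hne
    rcases Nat.lt_or_gt_of_ne hne with hlt | hlt
    · have := Nat.mul_le_mul_left L (Nat.succ_le_of_lt hlt)
      rw [Nat.mul_succ] at this
      omega
    · have := Nat.mul_le_mul_left L (Nat.succ_le_of_lt hlt)
      rw [Nat.mul_succ] at this
      omega
  -- the bad pairs
  set b1 := ((range L).filter (fun u => lb j0 (τ u) ≠ c (τ u))) ×ˢ range q with hb1
  set b2 := (range L ×ˢ range q).filter (fun x => lb x.2 (τ x.1) ≠ c (τ x.1)) with hb2
  set b3 := range L ×ˢ ((range q).filter (fun j => L ≤ f j)) with hb3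
  have hτim : ∀ (S : ℕ → Prop) [DecidablePred S], ((range L).filter (fun u => S (τ u))).card ≤
      ((Finset.Ico t0 t1).filter S).card := by
    intro S _
    apply Finset.card_le_card_of_injOn τ
    · intro u hu
      obtain ⟨h1, h2⟩ := Finset.mem_filter.1 (Finset.mem_coe.1 hu)
      obtain ⟨h3, h4⟩ := hτ u (Finset.mem_range.1 h1)
      exact Finset.mem_coe.2 (Finset.mem_filter.2 ⟨Finset.mem_Ico.2 ⟨h3, h4⟩, h2⟩)
    · intro u hu v hv huv
      have h1 := (Finset.mem_filter.1 (Finset.mem_coe.1 hu)).1
      have h2 := (Finset.mem_filter.1 (Finset.mem_coe.1 hv)).1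
      exact hτinj u (Finset.mem_range.1 h1) v (Finset.mem_range.1 h2) huv
  have hb1c : b1.card ≤ 2 * Mt + 1 := by
    rw [hb1, Finset.card_product, Finset.card_range, mul_comm]
    refine (Nat.mul_le_mul_left q (hτim (fun t => lb j0 t ≠ c t))).trans ?_
    exact hmj0
  have hb2c : b2.card ≤ Mt := by
    have h1 : b2.card = ∑ j ∈ range q, ((range L).filter (fun u => lb j (τ u) ≠ c (τ u))).card := by
      rw [hb2, Finset.card_filter, Finset.sum_product_right]
      simp only [Finset.card_filter]
    rw [h1]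
    exact (Finset.sum_le_sum (fun j _ => hτim (fun t => lb j t ≠ c t))).trans hm
  have hb3c : b3.card ≤ I := by
    rw [hb3, Finset.card_product, Finset.card_range]
    calc L * ((range q).filter (fun j => L ≤ f j)).card =
          ∑ _j ∈ (range q).filter (fun j => L ≤ f j), L := by
          rw [Finset.sum_const, smul_eq_mul, mul_comm]
      _ ≤ ∑ j ∈ (range q).filter (fun j => L ≤ f j), f j :=
          Finset.sum_le_sum (fun j hj => (Finset.mem_filter.1 hj).2)
      _ ≤ ∑ j ∈ range q, f j := Finset.sum_le_sum_of_subset (Finset.filter_subset _ _)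
      _ ≤ I := hfI
  -- the block numbers
  let good : ℕ → ℕ → Prop := fun j u => u < L ∧ lb j (τ u) = u
  let p : ℕ → ℕ := fun j => if hex : ∃ u, good j u then Yc (st j) T (τ hex.choose) / L else 0
  refine ⟨p, τ, b1 ∪ (b2 ∪ b3), ?_, ?_⟩
  · have c1 := Finset.card_union_le b1 (b2 ∪ b3)
    have c2 := Finset.card_union_le b2 b3
    omega
  · intro u hu j hj hnot
    rw [Finset.mem_union, Finset.mem_union] at hnot
    push Not at hnot
    obtain ⟨n1, n2, n3⟩ := hnot
    have g1 : lb j0 (τ u) = c (τ u) := by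
      by_contra hcon
      exact n1 (Finset.mem_product.2 ⟨Finset.mem_filter.2 ⟨Finset.mem_range.2 hu, hcon⟩,
        Finset.mem_range.2 hj⟩)
    have g2 : lb j (τ u) = c (τ u) := by
      by_contra hcon
      exact n2 (Finset.mem_filter.2 ⟨Finset.mem_product.2 ⟨Finset.mem_range.2 hu,
        Finset.mem_range.2 hj⟩, hcon⟩)
    have g3 : f j < L := by
      by_contra hcon
      push Not at hcon
      exact n3 (Finset.mem_product.2 ⟨Finset.mem_range.2 hu,
        Finset.mem_filter.2 ⟨Finset.mem_range.2 hj, hcon⟩⟩)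
    have g4 : lb j (τ u) = u := by rw [g2, ← g1, hlab0 u hu]
    have hex : ∃ u, good j u := ⟨u, hu, g4⟩
    have hp : p j = Yc (st j) T (τ hex.choose) / L := dif_pos hex
    obtain ⟨k1, k2⟩ := hex.choose_spec
    obtain ⟨r1, r2, r3⟩ := hrun j hj u hu g4
    have hpu : p j = Yc (st j) T (τ u) / L := by
      rw [hp]
      rcases Nat.le_total hex.choose u with h1 | h1
      · exact hconst j hj g3 _ _ h1 hu k2 g4
      · exact (hconst j hj g3 _ _ h1 k1 g4 k2).symm
    have hval : p j * L + u = Yc (st j) T (τ u) := by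
      have := Nat.div_add_mod (Yc (st j) T (τ u)) L
      rw [r3] at this
      rw [hpu, mul_comm]
      exact this
    rw [hval]
    exact ⟨r1, r2⟩

end Pool.Agent.H.JS2
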