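import Pool.Agent.H.MP_aeb38e_lc.Defs

/-!
The instance of the job shop problem built from a 3CNF formula `φ`.

Parameters: `k` (there are `2 k + 1` jobs: job `0` is the clock, jobs `1, ..., k` carry the
clauses, jobs `k + 1, ..., 2 k` the variables), `d` (number of levels of either kind), `s` (the
lengths of the two words are `3 s` and `3 s + 1`), `R` (number of blocks), `w` (the two words, as
one number).
-/

namespace Pool.Agent.H.JS

/-- Digit `u` of `c` in base `q`. -/
def digit (q c u : ℕ) : ℕ := (fun x => x / q)^[u] c % q

/-- The length of a block. -/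
def len (s : ℕ) : ℕ := 3 * s * (3 * s + 1)

/-- The literal number `r` of a clause. -/
def litOf (c : Clause) (r : ℕ) : Lit := if r = 0 then c.1 else if r = 1 then c.2.1 else c.2.2

/-- The pairs of digit differences that are allowed in a test of type `t` for the literal number
`r`, whose sign is `sg`. -/
def allowed (t r : ℕ) (sg : Bool) (x y : ℕ) : Bool :=
  if t = 0 then decide (x % 4 ≤ 1) && (decide (x < 12) && decide (y ≤ 1))
  else if t = 1 then decide (x = 0) && (decide (y % 4 ≤ 1) && decide (y < 8))
  else decide (x % 4 ≤ 1) && (decide (x < 12) &&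
    (((decide (y = 15) || decide (y ≤ 1)) && (!decide (x / 4 = r) || !sg)) ||
      ((decide (11 ≤ y) && decide (y ≤ 13)) && (!decide (x / 4 = r) || sg))))

/-- The first job of a test. -/
def fstJob (k t v : ℕ) : ℕ := if t = 2 then 1 + k + v % k else 0

/-- The second job of a test. -/
def sndJob (k t c v : ℕ) : ℕ := if t = 1 then 1 + k + v % k else 1 + c % k

/-- In slot `i` of block `p`, the operation of job `j` runs on the common machine. -/
def special (φ : CNF) (k d i j p : ℕ) : Bool :=
  match φ.2[i / 589824]? with
  | none => false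
  | some cl =>
    !allowed (i / 65536 % 3) (i / 196608 % 3) (litOf cl (i / 196608 % 3)).2
        ((i / 4096 % 16 + 16 - i / 16 % 16) % 16) ((i / 256 % 16 + 16 - i % 16) % 16) &&
      ((decide (j = fstJob k (i / 65536 % 3) (litOf cl (i / 196608 % 3)).1) &&
          (decide (digit 16 p (i / 589824 / k) = i / 4096 % 16) &&
            decide (digit 16 p (d + (litOf cl (i / 196608 % 3)).1 / k) = i / 256 % 16))) ||
        (decide (j = sndJob k (i / 65536 % 3) (i / 589824) (litOf cl (i / 196608 % 3)).1) &&
          (decide (digit 16 p (i / 589824 / k) = i / 16 % 16) &&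
            decide (digit 16 p (d + (litOf cl (i / 196608 % 3)).1 / k) = i % 16))))

/-- The shift given by the two words. -/
def shift (k s w P : ℕ) : ℕ :=
  digit (2 * k + 1) w (P % (3 * s)) + digit (2 * k + 1) w (3 * s + P % (3 * s + 1))

/-- The machine of operation `P` of job `j`. -/
def mach (φ : CNF) (k d s w j P : ℕ) : ℕ :=
  if P % 3 = 2 then bif special φ k d (P % len s / 3) j (P / len s) then 2 * k + 1 else j
  else (shift k s w P + j) % (2 * k + 1)

/-- The instance. -/
def inst (φ : CNF) (k d s R w : ℕ) : Shop :=
  (2 * k + 2, (List.range (2 * k + 1)).map fun j =>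
    (List.range (R * len s)).map fun P => (mach φ k d s w j P, 1))

/-- The value of `s` for a formula with `M` clauses. -/
def sOf (M : ℕ) : ℕ := Nat.sqrt (196608 * M) + 1

/-- The variables of the clauses are among `0, ..., n - 1`. -/
def Vars (φ : CNF) : Prop := ∀ c ∈ φ.2, c.1.1 < φ.1 ∧ c.2.1.1 < φ.1 ∧ c.2.2.1 < φ.1

/-- The number of blocks. -/
def blocks (d E : ℕ) : ℕ := 16 ^ (2 * d) * E

/-- The target makespan. -/
def target (d s E : ℕ) : ℕ := 16 ^ (2 * d) * (E + 1) * len s

/-- The instance used for `φ`. -/
def instOf (φ : CNF) (k d E w : ℕ) : Shop :=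
  inst φ k d (sOf φ.2.length) (blocks d E) w

end Pool.Agent.H.JS
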