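import Pool.Agent.H.MP_aeb38e_lc.Inst
import Pool.Agent.H.MP_aeb38e_lc.Bdd

/-!
The instance of the job shop problem built from a 3CNF formula with a bounded number of
occurrences of each variable (strong form).

Parameters: `k` (there are `2 k` jobs: the jobs `0, ..., k - 1` carry the clauses, the jobs
`k, ..., 2 k - 1` the variables), `d` (number of levels of either kind), `L` (length of a block),
`R` (number of blocks), `w` (the word), `tab` (the table of the eleven permutations).
The machines `0, ..., 2 k - 1` are ordinary, the machine `2 k + A` is used by the test whose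
first job is `A`.
-/

namespace Pool.Agent.H.JS

/-- The literal at position `o = 3 c + r`. -/
def litAt (φ : CNF) (o : ℕ) : Lit :=
  litOf (φ.2.getD (o / 3) ((0, false), (0, false), (0, false))) (o % 3)

/-- The first position of the variable of position `o`. -/
def fstOcc (φ : CNF) (o : ℕ) : ℕ :=
  ((List.range o).find? fun o' => decide ((litAt φ o').1 = (litAt φ o).1)).getD o

/-- The first job of the test `x = (t, o)`. -/
def jobA (φ : CNF) (k : ℕ) (x : ℕ × ℕ) : ℕ :=
  if x.1 = 0 then k + (litAt φ x.2).1 % k
  else if x.1 = 1 then k + (litAt φ (3 * (x.2 / 3))).1 % k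
  else fstOcc φ x.2 / 3 % k

/-- The second job of the test `x = (t, o)`. -/
def jobB (φ : CNF) (k : ℕ) (x : ℕ × ℕ) : ℕ :=
  if x.1 = 1 then k + (litAt φ x.2).1 % k else x.2 / 3 % k

/-- The pairs of digit differences that are allowed in a test of type `t` for the literal number
`r` of a clause, whose sign is `sg`. -/
def allow (t r : ℕ) (sg : Bool) (x y : ℕ) : Bool :=
  if t = 0 then decide (x % 4 ≤ 1) && (decide (x < 12) &&
    (((decide (y = 15) || decide (y ≤ 1)) && (!decide (x / 4 = r) || !sg)) ||
      ((decide (11 ≤ y) && decide (y ≤ 13)) && (!decide (x / 4 = r) || sg))))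
  else if t = 1 then decide (x = 0)
  else decide (y = 15) || decide (y ≤ 1)

/-- The tests. -/
def tests (φ : CNF) (k : ℕ) : List (ℕ × ℕ) :=
  ((List.range 3).flatMap fun t => (List.range (3 * φ.2.length)).map fun o => (t, o)).filter
    fun x => !decide (jobA φ k x = jobB φ k x)

/-- The least number that is not in the list. -/
def mex (l : List ℕ) : ℕ :=
  ((List.range (l.length + 1)).find? fun c => !decide (c ∈ l)).getD 0

/-- Two tests have a common job. -/
def meet (φ : CNF) (k : ℕ) (x y : ℕ × ℕ) : Bool :=
  (decide (jobA φ k x = jobA φ k y) || decide (jobA φ k x = jobB φ k y)) ||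
    (decide (jobB φ k x = jobA φ k y) || decide (jobB φ k x = jobB φ k y))

/-- Greedy colouring. -/
def colour {α : Type} (mt : α → α → Bool) (l : List α) : List (α × ℕ) :=
  l.foldr (fun x acc => (x, mex ((acc.filter fun y => mt x y.1).map Prod.snd)) :: acc) []

/-- The coloured tests. -/
def cols (φ : CNF) (k : ℕ) : List ((ℕ × ℕ) × ℕ) := colour (meet φ k) (tests φ k)

/-- The machine of the job `j` in the slot `i` of the block `p`, given the coloured test `y` of
the job in this slot. -/
def testMach (φ : CNF) (k d i j p : ℕ) (x : ℕ × ℕ) : ℕ :=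
  if (!allow x.1 (x.2 % 3) (litAt φ x.2).2 ((i / 4096 % 16 + 16 - i / 16 % 16) % 16)
        ((i / 256 % 16 + 16 - i % 16) % 16) &&
      ((decide (j = jobA φ k x) && (decide (digit 16 p (x.2 / 3 / k) = i / 4096 % 16) &&
          decide (digit 16 p (d + (litAt φ x.2).1 / k) = i / 256 % 16))) ||
        (decide (j = jobB φ k x) && (decide (digit 16 p (x.2 / 3 / k) = i / 16 % 16) &&
          decide (digit 16 p (d + (litAt φ x.2).1 / k) = i % 16))))) = true
  then 2 * k + jobA φ k x else j

/-- The machine of the job `j` in the slot `i` of the block `p`. -/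
def slotMach (φ : CNF) (k d : ℕ) (cl : List ((ℕ × ℕ) × ℕ)) (i j p : ℕ) : ℕ :=
  ((cl.find? fun y => decide (y.2 = i / 65536) &&
    (decide (jobA φ k y.1 = j) || decide (jobB φ k y.1 = j))).map
      fun y => testMach φ k d i j p y.1).getD j

/-- Value of the permutation number `s` of the table at `j`. -/
def perm (tab : List (List ℕ)) (s j : ℕ) : ℕ := (tab.getD s []).getD j 0

/-- The machine of operation `P` of job `j`. -/
def machB (φ : CNF) (k d L w : ℕ) (tab : List (List ℕ)) (cl : List ((ℕ × ℕ) × ℕ)) (j P : ℕ) : ℕ :=
  if P % 3 = 2 then slotMach φ k d cl (P % L / 3) j (P / L)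
  else perm tab (digit 11 w (P % L)) j

/-- The instance. -/
def instB (φ : CNF) (m k d L R w : ℕ) (tab : List (List ℕ)) : Shop :=
  (m, (List.range (2 * k)).map fun j => (List.range (R * L)).map fun P =>
    (machB φ k d L w tab (cols φ k) j P, 1))

/-- Bound for the number of tests of a job. -/
def degB (B M k : ℕ) : ℕ := 16 * B * (M / k + 1)

/-- The length of a block. -/
def lenB (B M k : ℕ) : ℕ := 3 * 65536 * (2 * degB B M k)

end Pool.Agent.H.JS
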