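import Pool.Agent.H.MP_84f0af_lc.Stk
import Pool.Agent.H.MP_aeb38e_lc.Defs

/-!
Machines of stack programs, with their running time.
-/

namespace Pool.Agent.H.MP_aeb38e_lc

open Function Turing Pool.Agent.H.MP_84f0af_lc

theorem exists_regLe {A : Type} (c : Cmd A) : ∃ R, 1 ≤ R ∧ c.RegLe R := by
  induction c with
  | skip => exact ⟨1, le_rfl, trivial⟩
  | push r a => exact ⟨r + 1, by omega, Nat.le_succ r⟩
  | pop r => exact ⟨r + 1, by omega, Nat.le_succ r⟩
  | move r s => exact ⟨r + s + 1, by omega, by omega, by omega⟩
  | dup r s t => exact ⟨r + s + t + 1, by omega, by omega, by omega, by omega⟩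
  | seq c d ihc ihd =>
    obtain ⟨R, h1, h2⟩ := ihc
    obtain ⟨R', h1', h2'⟩ := ihd
    exact ⟨R + R', by omega, h2.mono (by omega), h2'.mono (by omega)⟩
  | ite r p c d ihc ihd =>
    obtain ⟨R, h1, h2⟩ := ihc
    obtain ⟨R', h1', h2'⟩ := ihd
    exact ⟨R + R' + r, by omega, by omega, h2.mono (by omega), h2'.mono (by omega)⟩
  | loop r p c ih =>
    obtain ⟨R, h1, h2⟩ := ih
    exact ⟨R + r, by omega, by omega, h2.mono (by omega)⟩

/-- A program which transforms the word in register `0` (reversed) to a word in register `1`
(reversed) gives a machine. -/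
theorem exists_machine {A : Type} [Fintype A] (a₀ : A) (inA : Bool → A) (outA : A → Bool)
    (outB : Bool → A) (hout : ∀ b, outA (outB b) = b) (c : Cmd A) :
    ∃ (tm : FinTM2) (iA : tm.Γ tm.k₀ ≃ Bool) (oA : tm.Γ tm.k₁ ≃ Bool), ∀ (x y : List Bool) (n : ℕ),
      Run c (update (fun _ => []) 0 (x.map inA).reverse) n
        (update (fun _ => []) 1 (y.map outB).reverse) →
      ∀ t, n + x.length + y.length + 2 ≤ t → JS.Outputs tm iA oA x y t := by
  obtain ⟨R, hR1, hR⟩ := exists_regLe c
  refine ⟨finMach R a₀ inA outA c, Equiv.refl _, Equiv.refl _, fun x y n hrun t ht => ?_⟩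
  have h1 := read_steps R a₀ inA outA c x [] (fun _ => [])
  have h2 := sim (mach R a₀ inA outA c) hrun .inl (.inr true) (fun _ => rfl) hR ([] : List Bool)
    ([] : List Bool)
  have h3 := write_steps R hR1 a₀ inA outA c ((y.map outB).reverse)
    (Function.update (fun _ => []) 1 (y.map outB).reverse) [] (by simp)
  have hfin := (h1.trans ((by simpa using h2 : StepsTo _ n _ _).trans h3))
  refine ⟨⟨⟨x.length + 1 + (n + ((y.map outB).reverse.length + 1)), ?_⟩, ?_⟩⟩
  · have einit : initList (finMach R a₀ inA outA c) (List.map (Equiv.refl Bool).symm x)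
        = ⟨some (.inr false), none, lift (fun _ => []) x []⟩ := by
      unfold initList
      congr 1
      funext k
      cases k with
      | inp =>
        show List.map (fun x => x) x = x
        simp
      | out => rfl
      | reg j => rfl
    have ehalt : haltList (finMach R a₀ inA outA c) (List.map (Equiv.refl Bool).symm y)
        = ⟨none, none, lift (fun _ => []) [] y⟩ := by
      unfold haltList
      congr 1
      funext k
      cases k with
      | inp => rfl
      | out =>
        show List.map (fun x => x) y = y
        simp
      | reg j => rfl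
    have e1 : ((y.map outB).reverse.map outA).reverse ++ [] = y := by
      simp [Function.comp_def, hout]
    have e2 : Function.update (Function.update (fun _ => []) 1 (y.map outB).reverse) 1
        ([] : List A) = fun _ => [] := by
      simp
    rw [e1, e2] at hfin
    have := hfin
    unfold StepsTo at this
    exact (congrArg (fun z => (flip bind (TM2.step (mach R a₀ inA outA c)))^[x.length + 1 +
      (n + ((List.map outB y).reverse.length + 1))] (some z)) einit).trans
        (this.trans (congrArg some ehalt.symm))
  · simp only [List.length_reverse, List.length_map]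
    omega

end Pool.Agent.H.MP_aeb38e_lc
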