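import Pool.Agent.H.MP_aeb38e_lc.Body
import Pool.Agent.H.MP_aeb38e_lc.Tm

/-!
A machine which calls another machine for all words, and tests all its outputs.
-/

namespace Pool.Agent.H.MP_aeb38e_lc

open Function Turing Pool.Agent.H.MP_84f0af_lc
open Pool.Agent.H.MP_5be563_lc.PT (Enc enc sz mk4 stk Prog Poly PBdd)

/-- the loop -/
noncomputable def loopP (pf pg ps : Prog) (M : FinTM2) (iM : M.Γ M.k₀ ≃ Bool)
    (oM : M.Γ M.k₁ ≃ Bool) : Cmd (BA M) := .loop 6 nonemp (lbody pf pg ps M iM oM)

theorem run_loopP {pf pg ps : Prog} (M : FinTM2) (iM : M.Γ M.k₀ ≃ Bool)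
    (oM : M.Γ M.k₁ ≃ Bool) {X f y : ℕ → List Bool} {r : ℕ → Bool} {Z F P1 P2 P3 W T : ℕ}
    (h1 : ∀ w < W, MP_5be563_lc.PT.Run pf (mk4 (X w) [] [] []) (stk [enc (f w)] []) P1)
    (hM : ∀ w < W, Nonempty (TM2OutputsInTime M ((f w).map iM.invFun)
      (some ((y w).map oM.invFun)) T))
    (h2 : ∀ w < W, MP_5be563_lc.PT.Run pg (mk4 (true :: (X w ++ (enc (y w)).bits)) [] [] [])
      (mk4 (enc (r w)).bits [] [] []) P2)
    (h3 : ∀ w < W, MP_5be563_lc.PT.Run ps (mk4 (X w) [] [] []) (mk4 (X (w + 1)) [] [] []) P3)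
    (hX : ∀ w ≤ W, (X w).length ≤ Z) (hf : ∀ w < W, (f w).length ≤ F) :
    ∀ k w j, w + k = W → ∃ n ≤ k * (1 + tBody (cA M) Z F P1 P2 P3 T) + 1, ∃ j' ≤ j + k,
      (j' = 0 ↔ j = 0 ∧ ∀ i, w ≤ i → i < W → r i = true) ∧
      Run (loopP pf pg ps M iM oM)
      (st [] [] [] (List.replicate k mk) [] (il (X w)) (List.replicate j mk) []) n
      (st [] [] [] [] [] (il (X W)) (List.replicate j' mk) []) := by
  intro k
  induction k with
  | zero =>
    intro w j hw
    have hw' : w = W := by omega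
    subst hw'
    refine ⟨1, by omega, j, by omega, ⟨fun h => ⟨h, fun i h1 h2 => by omega⟩, fun h => h.1⟩, ?_⟩
    exact Run.loop_false (by rw [st_6]; rfl)
  | succ k ih =>
    intro w j hw
    obtain ⟨n1, hn1, r1⟩ := run_body M iM oM (h1 w (by omega)) (hM w (by omega))
      (h2 w (by omega)) (h3 w (by omega)) (hX w (by omega)) (hX (w + 1) (by omega))
      (hf w (by omega)) k j
    obtain ⟨n2, hn2, j', hj', hiff, r2⟩ := ih (w + 1) (if r w = true then j else j + 1)
      (by omega)
    refine ⟨1 + (n1 + n2), ?_, j', ?_, ?_, Run.loop_true (by rw [st_6]; rfl) r1 r2⟩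
    · have e : (k + 1) * (1 + tBody (cA M) Z F P1 P2 P3 T) =
        k * (1 + tBody (cA M) Z F P1 P2 P3 T) + (1 + tBody (cA M) Z F P1 P2 P3 T) := by ring
      omega
    · split_ifs at hj' <;> omega
    · rw [hiff]
      by_cases hr : r w = true
      · rw [if_pos hr]
        constructor
        · rintro ⟨h4, h5⟩
          refine ⟨h4, fun i hi1 hi2 => ?_⟩
          rcases Nat.eq_or_lt_of_le hi1 with h | h
          · rw [← h]; exact hr
          · exact h5 i h hi2
        · rintro ⟨h4, h5⟩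
          exact ⟨h4, fun i hi1 hi2 => h5 i (by omega) hi2⟩
      · rw [if_neg hr]
        constructor
        · rintro ⟨h4, h5⟩
          omega
        · rintro ⟨h4, h5⟩
          exact absurd (h5 w le_rfl (by omega)) hr

/-- the first part: `2 ^ S` marks in register `6`, the first state in register `8` -/
def setup (B : Type) (pS : Prog) (bb : List Bool) : Cmd (Bool ⊕ B) :=
  .seq (dupAll 0 2 7) (.seq (pushL 2 (il bb)) (.seq (.push 2 mk) (.seq (tr B pS)
  (.seq (.push 6 mk) (.seq (dbl B) (.seq (.pop 2) (.seq (pushL 8 (il [false, false]))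
  (.seq (dupAll 6 9 10) (.seq (moveAll 9 6) (.seq (wnum B) (.seq (.push 8 mk)
  (.seq (moveAll 7 10) (.seq (moveAll 10 8) (.seq (.push 8 mk) (.seq (pushL 8 (il bb))
  (.push 8 mk))))))))))))))))

theorem run_setup {B : Type} {pS : Prog} {ba bb : List Bool} {n P : ℕ}
    (h : MP_5be563_lc.PT.Run pS (mk4 (true :: (bb ++ ba)) [] [] []) (mk4 (enc n).bits [] [] []) P) :
    ∃ t ≤ 6 * ba.length + 2 * bb.length + 4 * P + n * (6 * 2 ^ n + 6) + 8 * 2 ^ n + 30,
    Run (setup B pS bb) (update (fun _ => []) 0 (il ba).reverse : Sto (Bool ⊕ B)) t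
      (st [] [] [] (List.replicate (2 ^ n) mk) []
        (il (true :: (bb ++ (true :: (ba ++ (true :: ((enc (2 ^ n)).bits ++ (enc 0).bits)))))))
        [] []) := by
  have e0 : (update (fun _ => []) 0 (il ba).reverse : Sto (Bool ⊕ B)) =
      (st (il ba).reverse [] [] [] [] [] [] [] : Sto (Bool ⊕ B)) := by
    funext r
    simp only [update_apply, st]
    split_ifs <;> rfl
  rw [e0]
  have q1 := run_dupAll (r := 0) (s := 2) (t := 7) (by omega) (by omega) (by omega)
    (il ba).reverse (st (il ba).reverse [] [] [] [] [] [] [] : Sto (Bool ⊕ B)) rfl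
  have q2 := run_pushL 2 (il bb) (st [] [] (il ba) [] (il ba) [] [] [] : Sto (Bool ⊕ B))
  have q3 := Run.push 2 (mk : Bool ⊕ B) (st [] [] (il bb ++ il ba) [] (il ba) [] [] [])
  simp only [up_0, up_2, up_7, st_0, st_2, st_7, List.append_nil, List.reverse_reverse,
    List.length_reverse, List.length_map] at q1 q2 q3
  have e3 : ((mk : Bool ⊕ B) :: (il bb ++ il ba)) = il (true :: (bb ++ ba)) := by
    simp [mk]
  rw [e3] at q3
  obtain ⟨n4, hn4, q4⟩ := run_tr h [] [] [] (il ba) [] [] ([] : List (Bool ⊕ B))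
  have q5 := Run.push 6 (mk : Bool ⊕ B) (st [] [] (il (enc n).bits) [] (il ba) [] [] [])
  obtain ⟨n6, hn6, q6⟩ := run_dbl (B := B) [] [] (il ba) [] n 1
  rw [mul_one] at q6 hn6
  have q7 := Run.pop 2 (st [] [] [.inl false] (List.replicate (2 ^ n) (mk : Bool ⊕ B))
    (il ba) [] [] [])
  have q8 := run_pushL 8 (il [false, false]) (st [] [] []
    (List.replicate (2 ^ n) (mk : Bool ⊕ B)) (il ba) [] [] [])
  have q9 := run_dupAll (r := 6) (s := 9) (t := 10) (by omega) (by omega) (by omega)
    (List.replicate (2 ^ n) (mk : Bool ⊕ B)) (st [] [] [] (List.replicate (2 ^ n) mk)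
      (il ba) (il [false, false]) [] []) rfl
  have q10 := run_moveAll (r := 9) (s := 6) (by omega)
    (List.replicate (2 ^ n) (mk : Bool ⊕ B)) (st [] [] [] []
      (il ba) (il [false, false]) (List.replicate (2 ^ n) mk) (List.replicate (2 ^ n) mk)) rfl
  simp only [up_6, up_2, up_8, up_9, up_10, st_6, st_2, st_8, st_9, st_10, List.append_nil,
    List.reverse_replicate, List.length_replicate, List.length_map, List.tail_cons] at q5 q7 q8 q9 q10
  have q11 := run_wnum [] [] [] (List.replicate (2 ^ n) (mk : Bool ⊕ B)) (il ba) []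
    (il (enc 0).bits) (2 ^ n) 0
  rw [zero_add] at q11
  have e11 : ((il (enc 0).bits ++ il (enc 0).bits) : List (Bool ⊕ B)) = il [false, false] := rfl
  rw [e11] at q11
  generalize List.replicate (2 ^ n) (mk : Bool ⊕ B) = w at *
  have q12 := Run.push 8 (mk : Bool ⊕ B) (st [] [] [] w (il ba)
    (il (enc (2 ^ n)).bits ++ il (enc 0).bits) [] [])
  have e12 : ((mk : Bool ⊕ B) :: (il (enc (2 ^ n)).bits ++ il (enc 0).bits)) =
    il (true :: ((enc (2 ^ n)).bits ++ (enc 0).bits)) := by
    simp [mk]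
  generalize hR : (true :: ((enc (2 ^ n)).bits ++ (enc 0).bits)) = R at *
  have q13 := run_moveAll (r := 7) (s := 10) (by omega) (il ba)
    (st [] [] [] w (il ba) (il R) [] ([] : List (Bool ⊕ B))) rfl
  have q14 := run_moveAll (r := 10) (s := 8) (by omega) (il ba).reverse
    (st [] [] [] w [] (il R) [] ((il ba).reverse : List (Bool ⊕ B))) rfl
  have q15 := Run.push 8 (mk : Bool ⊕ B) (st [] [] [] w [] (il ba ++ il R) [] [])
  have e15 : ((mk : Bool ⊕ B) :: (il ba ++ il R)) = il (true :: (ba ++ R)) := by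
    simp [mk]
  have q16 := run_pushL 8 (il bb) (st [] [] [] w [] (il (true :: (ba ++ R))) []
    ([] : List (Bool ⊕ B)))
  have q17 := Run.push 8 (mk : Bool ⊕ B) (st [] [] [] w [] (il bb ++ il (true :: (ba ++ R)))
    [] [])
  have e17 : ((mk : Bool ⊕ B) :: (il bb ++ il (true :: (ba ++ R)))) =
      il (true :: (bb ++ (true :: (ba ++ R)))) := by
    simp [mk]
  simp only [up_7, up_8, up_10, st_7, st_8, st_10, List.append_nil, List.reverse_reverse,
    List.length_reverse, List.length_map, e12, e15, e17] at q12 q13 q14 q15 q16 q17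
  have hall := Run.seq q1 (Run.seq q2 (Run.seq q3 (Run.seq q4 (Run.seq q5 (Run.seq q6
    (Run.seq q7 (Run.seq q8 (Run.seq q9 (Run.seq q10 (Run.seq q11 (Run.seq q12 (Run.seq q13
    (Run.seq q14 (Run.seq q15 (Run.seq q16 q17)))))))))))))))
  refine ⟨_, ?_, hall⟩
  clear hall q1 q2 q3 q4 q5 q6 q7 q8 q9 q10 q11 q12 q13 q14 q15 q16 q17 h
  simp only [List.length_cons, List.length_nil]
  omega

/-- the last part: output of the result -/
def finish (B : Type) (v : Bool) : Cmd (Bool ⊕ B) :=
  .seq (clear 8) (.ite 9 nonemp (.seq (clear 9) (pushL 1 (il (enc v).bits).reverse))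
    (pushL 1 (il (enc (!v)).bits).reverse))

theorem enc_bool_length (v : Bool) : (enc v).bits.length ≤ 3 := by
  cases v <;> simp [MP_5be563_lc.PT.D.bits]

theorem run_finish {B : Type} (v : Bool) (x : List Bool) (j : ℕ) :
    ∃ t ≤ 2 * x.length + 2 * j + 10,
    Run (finish B v) (st [] [] [] [] [] (il x) (List.replicate j mk) []) t
      (update (fun _ => []) 1 (il (enc (xor (decide (j = 0)) v)).bits).reverse :
        Sto (Bool ⊕ B)) := by
  have e0 : ∀ o : List (Bool ⊕ B), (update (fun _ => []) 1 o : Sto (Bool ⊕ B)) =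
      st [] o [] [] [] [] [] [] := by
    intro o
    funext r
    simp only [update_apply, st]
    split_ifs <;> first | rfl | omega
  have q1 := run_clear (r := 8) (il x) (st [] [] [] [] [] (il x)
    (List.replicate j (mk : Bool ⊕ B)) []) rfl
  rw [up_8, List.length_map] at q1
  rw [e0]
  cases j with
  | zero =>
    have q2 := run_pushL 1 (il (enc (!v)).bits).reverse
      (st [] [] [] [] [] [] (List.replicate 0 (mk : Bool ⊕ B)) [])
    rw [st_1, up_1, List.append_nil, List.length_reverse, List.length_map] at q2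
    have h3 := enc_bool_length (!v)
    refine ⟨2 * x.length + 1 + (1 + ((enc (!v)).bits.length + 1)), by omega,
      (Run.seq q1 (Run.ite_false rfl q2)).congr ?_⟩
    cases v <;> rfl
  | succ j =>
    have q2 := run_clear (r := 9) (List.replicate (j + 1) mk) (st [] [] [] [] [] []
      (List.replicate (j + 1) (mk : Bool ⊕ B)) []) rfl
    rw [up_9, List.length_replicate] at q2
    have q3 := run_pushL 1 (il (enc v).bits).reverse
      (st [] [] [] [] [] [] ([] : List (Bool ⊕ B)) [])
    rw [st_1, up_1, List.append_nil, List.length_reverse, List.length_map] at q3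
    have h3 := enc_bool_length v
    refine ⟨2 * x.length + 1 + (1 + ((2 * (j + 1) + 1) + ((enc v).bits.length + 1))), by omega,
      (Run.seq q1 (Run.ite_true rfl (Run.seq q2 q3))).congr ?_⟩
    cases v <;> rfl

end Pool.Agent.H.MP_aeb38e_lc
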