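import Pool.Agent.H.MP_aeb38e_lc.Core
import Pool.Agent.H.MP_aeb38e_lc.Acc
import Pool.Agent.H.MP_aeb38e_lc.Bits

/-!
The main theorem.
-/

namespace Pool.Agent.H.JS

open Turing Pool.Agent.H.MP_5be563_lc.PT

theorem opt_le {I : Shop} {st : ℕ → ℕ → ℕ} {K : ℕ} (h : Feasible I st) (hK : EndsBy I st K) :
    OPT I ≤ K := Nat.sInf_le ⟨st, h, hK⟩

theorem bits_length' {α : Type} [Enc α] (x : α) : (enc x).bits.length = sz x :=
  D.bits_length _

theorem IsScheme.mono {m e : ℕ} {t t' : ℕ → ℕ} {tm : FinTM2} {iA : tm.Γ tm.k₀ ≃ Bool}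
    {oA : tm.Γ tm.k₁ ≃ Bool} (h : IsScheme m e t tm iA oA) (ht : ∀ n, t n ≤ t' n) :
    IsScheme m e t' tm iA oA := by
  intro I hI hm
  obtain ⟨s, h1, h2⟩ := h I hI hm
  exact ⟨s, h1.mono (ht _), h2⟩

theorem eval_le (p : Polynomial ℕ) : ∃ A, ∀ n, p.eval n ≤ A * (n ^ p.natDegree + 1) := by
  refine ⟨∑ i ∈ Finset.range (p.natDegree + 1), p.coeff i, fun n => ?_⟩
  rw [Polynomial.eval_eq_sum_range, Finset.sum_mul]
  refine Finset.sum_le_sum fun i hi => Nat.mul_le_mul_left _ ?_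
  have hi' : i ≤ p.natDegree := by
    have := Finset.mem_range.1 hi
    omega
  rcases Nat.eq_zero_or_pos n with h0 | h0
  · subst h0
    rcases Nat.eq_zero_or_pos i with h1 | h1
    · subst h1; simp
    · rw [Nat.zero_pow h1]; exact Nat.zero_le _
  · exact (Nat.pow_le_pow_right h0 hi').trans (Nat.le_succ _)

theorem main (h : GapETH) :
    (∃ b, ∀ c m, b * (c + 1) ≤ m → ∃ e, 0 < e ∧ ∀ (tm : FinTM2) (iA : tm.Γ tm.k₀ ≃ Bool)
      (oA : tm.Γ tm.k₁ ≃ Bool) (C : ℕ), ¬ IsScheme m e (fun n => C * (n ^ c + 1)) tm iA oA ∧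
        ¬ IsGapTest m e (fun n => C * (n ^ c + 1)) tm iA oA) ∧
    (∀ (f : ℕ → ℕ → ℕ) (p : Polynomial ℕ), ¬ ∃ (tm : FinTM2) (iA : tm.Γ tm.k₀ ≃ Bool)
      (oA : tm.Γ tm.k₁ ≃ Bool), ∀ m e, 0 < e → IsScheme m e (fun n => f m e * p.eval n) tm iA oA)
    := by
  have key : ∃ b, ∀ c m, b * (c + 1) ≤ m → ∃ e, 0 < e ∧ ∀ (tm : FinTM2)
      (iA : tm.Γ tm.k₀ ≃ Bool) (oA : tm.Γ tm.k₁ ≃ Bool) (C : ℕ),
      ¬ IsScheme m e (fun n => C * (n ^ c + 1)) tm iA oA ∧
        ¬ IsGapTest m e (fun n => C * (n ^ c + 1)) tm iA oA := by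
    obtain ⟨d, D, H, hD, hH, hGE⟩ := h
    obtain ⟨acc1, ha1, ha1'⟩ := acc_scheme
    obtain ⟨acc2, ha2, ha2'⟩ := acc_test
    obtain ⟨b1, hb1⟩ := core (inp := fun x => (enc (x.1, x.2.1)).bits) hD hH hGE
      (poly_bits (f := fun x : Shop × ℕ × ℕ => (x.1, x.2.1)) (by fun_prop))
      (by
        intro I e K
        have h1 : (enc (I, e)).bits.length = sz (I, e) := bits_length' _
        have h2 : sz (I, e) = sz I + sz e + 1 := sz_pair _ _
        show (enc (I, e)).bits.length ≤ _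
        omega) ha1
    obtain ⟨b2, hb2⟩ := core (inp := fun x => (enc x).bits) hD hH hGE
      (poly_bits (f := fun x : Shop × ℕ × ℕ => x) Poly.id)
      (by
        intro I e K
        have h1 : (enc (I, e, K)).bits.length = sz (I, e, K) := bits_length' _
        have h2 : sz (I, e, K) = sz I + sz (e, K) + 1 := sz_pair _ _
        have h3 : sz (e, K) = sz e + sz K + 1 := sz_pair _ _
        show (enc (I, e, K)).bits.length ≤ _
        omega) ha2
    refine ⟨2 * (b1 + b2) + 4, fun c m hm => ?_⟩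
    have hk : 0 < (m - 2) / 2 := by
      have : 4 ≤ m := by nlinarith
      omega
    have hbk : (b1 + b2 + 1) * (c + 1) ≤ (m - 2) / 2 := by
      have h1 : (2 * (b1 + b2) + 4) * (c + 1) = 2 * ((b1 + b2 + 1) * (c + 1)) + 2 * (c + 1) := by
        ring
      omega
    have hk1 : b1 * (c + 1) ≤ (m - 2) / 2 := by nlinarith
    have hk2 : b2 * (c + 1) ≤ (m - 2) / 2 := by nlinarith
    have hm2 : 2 * ((m - 2) / 2) + 2 ≤ m := by omega
    obtain ⟨M0, hE, -⟩ := Classical.choose_spec (no D ((m - 2) / 2) hD hk)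
    refine ⟨_, hE, fun tm iA oA C => ⟨fun hs => ?_, fun hs => ?_⟩⟩
    · refine hb1 c _ hk1 hk m hm2 tm iA oA C fun I K hI hIm => ?_
      obtain ⟨s, h1, h2, K', h3, h4⟩ := hs I hI hIm
      refine ⟨codeSched s, ?_, fun hle => ?_, fun hlt => ?_⟩
      · show Outputs tm iA oA (enc (I, _)).bits _ (C * ((enc (I, _)).bits.length ^ c + 1))
        rw [bits_in1]
        exact h1
      · rw [ha1']
        exact ⟨K', h3, h4.trans (Nat.mul_le_mul_left _ hle)⟩
      · rw [← Bool.not_eq_true, ha1']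
        rintro ⟨K'', h5, h6⟩
        have h7 := opt_le h2 h5
        have h8 := Nat.mul_le_mul_left (Classical.choose (no D ((m - 2) / 2) hD hk)) h7
        omega
    · refine hb2 c _ hk2 hk m hm2 tm iA oA C fun I K hI hIm => ?_
      obtain ⟨b, h1, h2, h3⟩ := hs I K hI hIm
      refine ⟨codeBool b, ?_, fun hle => ?_, fun hlt => ?_⟩
      · show Outputs tm iA oA (enc (I, _, K)).bits _ (C * ((enc (I, _, K)).bits.length ^ c + 1))
        rw [bits_in2]
        exact h1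
      · rw [ha2']; exact h2 hle
      · rw [ha2']; exact h3 hlt
  refine ⟨key, fun f p hex => ?_⟩
  obtain ⟨tm, iA, oA, hs⟩ := hex
  obtain ⟨b, hb⟩ := key
  obtain ⟨A, hA⟩ := eval_le p
  obtain ⟨e, he, hno⟩ := hb p.natDegree (b * (p.natDegree + 1)) le_rfl
  refine (hno tm iA oA (f (b * (p.natDegree + 1)) e * A)).1 ((hs _ e he).mono fun n => ?_)
  rw [mul_assoc]
  exact Nat.mul_le_mul_left _ (hA n)

end Pool.Agent.H.JS
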