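import Mathlib

/-!
# The choice of the numerical parameters
-/

set_option autoImplicit false

namespace Pool.Agent.H.JS

theorem param_pow (B : ℕ) : ∃ j0 : ℕ, ∀ j ≥ j0, B * (j + 1) ^ 4 < 2 ^ j := by
  have h := tendsto_pow_const_div_const_pow_of_one_lt 4 (r := (2 : ℝ)) (by norm_num)
  have hpos : (0 : ℝ) < 1 / (2 * (B + 1)) := by positivity
  have h1 := (h.eventually (gt_mem_nhds hpos)).exists_forall_of_atTop
  obtain ⟨j0, hj0⟩ := h1
  refine ⟨j0, fun j hj => ?_⟩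
  have h2 := hj0 (j + 1) (by omega)
  have h3 : (0 : ℝ) < 2 ^ (j + 1) := by positivity
  rw [div_lt_iff₀ h3] at h2
  have h4 : (0 : ℝ) < 2 * ((B : ℝ) + 1) := by positivity
  have h5 := mul_lt_mul_of_pos_left h2 h4
  have h6 : 2 * ((B : ℝ) + 1) * (1 / (2 * (B + 1)) * 2 ^ (j + 1)) = 2 ^ (j + 1) := by
    field_simp
  rw [h6] at h5
  have h7 : (((j + 1 : ℕ) : ℝ)) ^ 4 = (((j + 1) ^ 4 : ℕ) : ℝ) := by push_cast; ring
  rw [h7] at h5
  have h8 : ((2 * (B + 1) * (j + 1) ^ 4 : ℕ) : ℝ) < ((2 ^ (j + 1) : ℕ) : ℝ) := by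
    push_cast at h5 ⊢
    exact h5
  have h9 : 2 * (B + 1) * (j + 1) ^ 4 < 2 ^ (j + 1) := by exact_mod_cast h8
  have h10 : B * (j + 1) ^ 4 ≤ (B + 1) * (j + 1) ^ 4 := Nat.mul_le_mul_right _ (by omega)
  rw [pow_succ 2 j] at h9
  have h11 : 2 * (B + 1) * (j + 1) ^ 4 = 2 * ((B + 1) * (j + 1) ^ 4) := by ring
  omega

theorem param_growth (A q : ℕ) (hA : 1 ≤ A) : ∃ s0 : ℕ, 1 ≤ s0 ∧ ∀ s ≥ s0,
    A * ((Nat.log 2 (2 * q * ((3 * s) * (3 * s + 1)) ^ 2) + 1) * (18 * s + 8)) <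
      (3 * s) * (3 * s + 1) := by
  obtain ⟨j0, hj0⟩ := param_pow (288 * q * (3 * A) ^ 4)
  refine ⟨3 * A * (j0 + 1), by nlinarith, fun s hs => ?_⟩
  have hs1 : 1 ≤ s := by nlinarith
  set j := s / (3 * A) with hj
  have hj1 : j0 + 1 ≤ j := by
    rw [hj, Nat.le_div_iff_mul_le (by omega)]
    calc (j0 + 1) * (3 * A) = 3 * A * (j0 + 1) := by ring
      _ ≤ s := hs
  have hj2 : s < 3 * A * (j + 1) := by
    rw [hj]
    have := Nat.lt_mul_div_succ s (show 0 < 3 * A by omega)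
    simpa using this
  have hj3 : 3 * A * j ≤ s := Nat.mul_div_le s (3 * A)
  have hx : 2 * q * ((3 * s) * (3 * s + 1)) ^ 2 < 2 ^ j ∨ q = 0 := by
    rcases Nat.eq_zero_or_pos q with h0 | h0
    · exact Or.inr h0
    left
    have e1 : (3 * s) * (3 * s + 1) ≤ 12 * s ^ 2 := by nlinarith
    have e2 : ((3 * s) * (3 * s + 1)) ^ 2 ≤ (12 * s ^ 2) ^ 2 := Nat.pow_le_pow_left e1 2
    have e3 : s ^ 4 ≤ (3 * A * (j + 1)) ^ 4 := Nat.pow_le_pow_left hj2.le 4
    calc 2 * q * ((3 * s) * (3 * s + 1)) ^ 2 ≤ 2 * q * (12 * s ^ 2) ^ 2 :=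
          Nat.mul_le_mul_left _ e2
      _ = 288 * q * s ^ 4 := by ring
      _ ≤ 288 * q * (3 * A * (j + 1)) ^ 4 := Nat.mul_le_mul_left _ e3
      _ = 288 * q * (3 * A) ^ 4 * (j + 1) ^ 4 := by ring
      _ < 2 ^ j := hj0 j (by omega)
  have hlog : Nat.log 2 (2 * q * ((3 * s) * (3 * s + 1)) ^ 2) + 1 ≤ j := by
    rcases hx with hx | hx
    · exact Nat.log_lt_of_lt_pow' (by omega) hx
    · subst hx
      simp
      omega
  have e5 : 18 * s + 8 ≤ 26 * s := by omega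
  calc A * ((Nat.log 2 (2 * q * ((3 * s) * (3 * s + 1)) ^ 2) + 1) * (18 * s + 8))
      ≤ A * (j * (26 * s)) := Nat.mul_le_mul_left _ (Nat.mul_le_mul hlog e5)
    _ < (3 * s) * (3 * s + 1) := by nlinarith

theorem param_l (q N : ℕ) (hq : 2 ≤ q) : ∃ l' : ℕ, 0 < l' ∧
    24 ^ N * (q - 1) ^ l' ≤ q ^ l' := by
  obtain ⟨p, rfl⟩ : ∃ p, q = p + 1 := ⟨q - 1, by omega⟩
  have hp : 1 ≤ p := by omega
  refine ⟨24 ^ N * p, by positivity, ?_⟩
  simp only [Nat.add_sub_cancel]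
  have h1 : (1 : ℝ) + ((24 ^ N * p : ℕ) : ℝ) * (1 / p) ≤ (1 + 1 / p) ^ (24 ^ N * p) :=
    one_add_mul_le_pow (by have : (0 : ℝ) ≤ 1 / p := by positivity
                           linarith) _
  have hp0 : (0 : ℝ) < p := by exact_mod_cast hp
  have h2 : ((24 ^ N * p : ℕ) : ℝ) * (1 / p) = 24 ^ N := by
    push_cast
    field_simp
  rw [h2] at h1
  have h3 : ((p : ℝ) + 1) = p * (1 + 1 / p) := by field_simp
  have h4 : (24 ^ N * (p : ℝ) ^ (24 ^ N * p)) ≤ ((p : ℝ) + 1) ^ (24 ^ N * p) := by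
    rw [h3, mul_pow, mul_comm]
    apply mul_le_mul_of_nonneg_left _ (by positivity)
    linarith
  exact_mod_cast h4

/-- all numerical choices -/
theorem param (q K : ℕ) (hq : 2 ≤ q) (hK : 1 ≤ K) : ∃ l' E0 s0 : ℕ, 0 < l' ∧ 0 < E0 ∧
    1 ≤ s0 ∧ ∀ s ≥ s0, ∃ h g I : ℕ, 0 < h ∧
      2 * (q * ((3 * s) * (3 * s + 1)) ^ 2 * 12 ^ h) * (q - 1) ^ (g * l') < q ^ (g * l') ∧
      I < (3 * s) * (3 * s + 1) ∧
      (∀ R e : ℕ, e * E0 ≤ R * ((3 * s) * (3 * s + 1)) → q * e ≤ R * I) ∧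
      K * (q * (h * (3 * l') * (3 * (3 * s + (3 * s + 1)) + 5) + 2 * (3 * l') * I +
        2 * g * (3 * l') * ((3 * s) * (3 * s + 1) / (h * (3 * l'))))) <
        (3 * s) * (3 * s + 1) := by
  obtain ⟨l', hl', hl2⟩ := param_l q (8 * q * K) hq
  set l := 3 * l' with hl
  obtain ⟨s0, hs0, hs1⟩ := param_growth (16 * K ^ 2 * q ^ 2 * l + 16 * q * l * K) q
    (by have : 1 ≤ 16 * q * l * K := Nat.one_le_iff_ne_zero.2 (by positivity)
        omega)
  have hqK : 0 < 8 * q * K := by positivity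
  have hlpos : 0 < l := by omega
  refine ⟨l', 16 * q ^ 2 * l * K, s0, hl', by positivity, hs0, fun s hs => ?_⟩
  set L := (3 * s) * (3 * s + 1) with hL
  have hspos : 1 ≤ s := hs0.trans hs
  have hLpos : 0 < L := by positivity
  set g := Nat.log 2 (2 * q * L ^ 2) + 1 with hg
  have hgr := hs1 s hs
  rw [← hL, ← hg] at hgr
  have hLbig : 16 * q * l * K < L := by
    have h1 : 1 ≤ g * (18 * s + 8) := Nat.one_le_iff_ne_zero.2 (by positivity)
    calc 16 * q * l * K = 16 * q * l * K * 1 := by ring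
      _ ≤ (16 * K ^ 2 * q ^ 2 * l + 16 * q * l * K) * (g * (18 * s + 8)) :=
        Nat.mul_le_mul (by omega) h1
      _ < L := hgr
  have hd : 0 < 8 * q * l * K := by positivity
  set I := L / (8 * q * l * K) with hI
  have hI1 : 8 * q * l * K * I ≤ L := Nat.mul_div_le _ _
  have hI2 : L < 8 * q * l * K * (I + 1) := Nat.lt_mul_div_succ L hd
  have hI0 : 1 ≤ I := by
    rw [hI, Nat.le_div_iff_mul_le hd]
    nlinarith
  refine ⟨8 * q * K * g, g, I, by positivity, ?_, ?_, ?_, ?_⟩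
  · have h2 : 2 * q * L ^ 2 < 2 ^ g := by
      rw [hg]
      exact Nat.lt_pow_succ_log_self (by norm_num) _
    have h3 : 2 ^ g ≤ 2 ^ (8 * q * K * g) := Nat.pow_le_pow_right (by norm_num) (by nlinarith)
    have h4 : (24 ^ (8 * q * K) * (q - 1) ^ l') ^ g ≤ (q ^ l') ^ g := Nat.pow_le_pow_left hl2 g
    have h5 : (24 ^ (8 * q * K) * (q - 1) ^ l') ^ g =
        2 ^ (8 * q * K * g) * (12 ^ (8 * q * K * g) * (q - 1) ^ (g * l')) := by
      rw [mul_pow, ← pow_mul, ← pow_mul, show (24 : ℕ) = 2 * 12 by norm_num, mul_pow,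
        Nat.mul_comm l' g]
      ring
    have h6 : (q ^ l') ^ g = q ^ (g * l') := by rw [← pow_mul, Nat.mul_comm]
    rw [h5, h6] at h4
    have h7 : 0 < 12 ^ (8 * q * K * g) * (q - 1) ^ (g * l') := by
      have : 0 < q - 1 := by omega
      positivity
    calc 2 * (q * L ^ 2 * 12 ^ (8 * q * K * g)) * (q - 1) ^ (g * l')
        = (2 * q * L ^ 2) * (12 ^ (8 * q * K * g) * (q - 1) ^ (g * l')) := by ring
      _ < 2 ^ (8 * q * K * g) * (12 ^ (8 * q * K * g) * (q - 1) ^ (g * l')) :=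
        Nat.mul_lt_mul_of_pos_right (h2.trans_le h3) h7
      _ ≤ q ^ (g * l') := h4
  · have h1 : 2 * I ≤ 8 * q * l * K * I := Nat.mul_le_mul_right _ (by nlinarith)
    omega
  · intro R e he
    have h1 : L ≤ 16 * q * l * K * I := by
      have : 8 * q * l * K * (I + 1) ≤ 16 * q * l * K * I := by nlinarith
      omega
    have h2 : 16 * q * l * K * (q * e) ≤ 16 * q * l * K * (R * I) := by
      calc 16 * q * l * K * (q * e) = e * (16 * q ^ 2 * l * K) := by ring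
        _ ≤ R * L := he
        _ ≤ R * (16 * q * l * K * I) := Nat.mul_le_mul_left _ h1
        _ = 16 * q * l * K * (R * I) := by ring
    exact Nat.le_of_mul_le_mul_left h2 (by positivity)
  · set D := L / (8 * q * K * g * l) with hD
    have hD1 : 8 * q * K * g * l * D ≤ L := Nat.mul_div_le _ _
    have h1 : 2 * (K * (q * (8 * q * K * g * l * (3 * (3 * s + (3 * s + 1)) + 5)))) < L := by
      calc 2 * (K * (q * (8 * q * K * g * l * (3 * (3 * s + (3 * s + 1)) + 5))))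
          = (16 * K ^ 2 * q ^ 2 * l) * (g * (18 * s + 8)) := by ring
        _ ≤ (16 * K ^ 2 * q ^ 2 * l + 16 * q * l * K) * (g * (18 * s + 8)) :=
          Nat.mul_le_mul_right _ (by omega)
        _ < L := hgr
    have h2 : 4 * (K * (q * (2 * l * I))) ≤ L := by
      calc 4 * (K * (q * (2 * l * I))) = 8 * q * l * K * I := by ring
        _ ≤ L := hI1
    have h3 : 4 * (K * (q * (2 * g * l * D))) ≤ L := by
      calc 4 * (K * (q * (2 * g * l * D))) = 8 * q * K * g * l * D := by ring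
        _ ≤ L := hD1
    have h4 : K * (q * (8 * q * K * g * l * (3 * (3 * s + (3 * s + 1)) + 5) + 2 * l * I +
        2 * g * l * D)) = K * (q * (8 * q * K * g * l * (3 * (3 * s + (3 * s + 1)) + 5))) +
        K * (q * (2 * l * I)) + K * (q * (2 * g * l * D)) := by ring
    rw [h4]
    omega

end Pool.Agent.H.JS
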