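import Pool.Agent.H.MP_aeb38e_lc.Inst

/-!
The static part of the negative case: if jobs in blocks `p j` run conflict-free at all units
except for few, then few clauses are violated.
-/

namespace Pool.Agent.H.JS

theorem digit_lt {q : ℕ} (hq : 0 < q) (c u : ℕ) : digit q c u < q := Nat.mod_lt _ hq

/-- the assignment read off from the block numbers -/
def asg (k d : ℕ) (p : ℕ → ℕ) (v : ℕ) : Bool :=
  decide ((digit 16 (p 0) (d + v / k) + 16 - digit 16 (p (1 + k + v % k)) (d + v / k)) % 16 = 4) ||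
    decide ((digit 16 (p 0) (d + v / k) + 16 - digit 16 (p (1 + k + v % k)) (d + v / k)) % 16 = 5)

theorem core_digits {a0 aX aY b0 bX bY : ℕ} {sg : Bool} (ha0 : a0 < 16) (haX : aX < 16)
    (haY : aY < 16) (hb0 : b0 < 16) (hbX : bX < 16) (hbY : bY < 16) {r : ℕ}
    (h0 : allowed 0 r sg ((a0 + 16 - aX) % 16) ((b0 + 16 - bX) % 16) = true)
    (h1 : allowed 1 r sg ((a0 + 16 - aY) % 16) ((b0 + 16 - bY) % 16) = true)
    (h2 : allowed 2 r sg ((aY + 16 - aX) % 16) ((bY + 16 - bX) % 16) = true)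
    (hr : (a0 + 16 - aX) % 16 / 4 = r) :
    (decide ((b0 + 16 - bY) % 16 = 4) || decide ((b0 + 16 - bY) % 16 = 5)) = sg := by
  unfold allowed at h0 h1 h2
  simp only [↓reduceIte, Bool.and_eq_true, decide_eq_true_eq, one_ne_zero, OfNat.ofNat_ne_zero,
    OfNat.ofNat_ne_one, Bool.or_eq_true, Bool.not_eq_true', decide_eq_false_iff_not] at h0 h1 h2
  have e : a0 = aY := by omega
  subst e
  cases sg with
  | true =>
    simp only [Bool.or_eq_true, decide_eq_true_eq]
    simp only [Bool.true_eq_false, or_false, or_true, and_true] at h2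
    omega
  | false =>
    simp only [Bool.or_eq_false_iff, decide_eq_false_iff_not]
    simp only [Bool.false_eq_true, or_false, or_true, and_true] at h2
    omega

theorem allowed0_lt {r x y : ℕ} {sg : Bool} (h : allowed 0 r sg x y = true) : x / 4 < 3 := by
  unfold allowed at h
  simp only [↓reduceIte, Bool.and_eq_true, decide_eq_true_eq] at h
  omega

/-- the tests of the literal `r` of the clause `c` -/
def Test (k d c : ℕ) (cl : Clause) (p : ℕ → ℕ) (r t : ℕ) : Prop :=
  allowed t r (litOf cl r).2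
    ((digit 16 (p (fstJob k t (litOf cl r).1)) (c / k) + 16 -
      digit 16 (p (sndJob k t c (litOf cl r).1)) (c / k)) % 16)
    ((digit 16 (p (fstJob k t (litOf cl r).1)) (d + (litOf cl r).1 / k) + 16 -
      digit 16 (p (sndJob k t c (litOf cl r).1)) (d + (litOf cl r).1 / k)) % 16) = true

theorem holds_of_tests {k d c : ℕ} {cl : Clause} {p : ℕ → ℕ}
    (h : ∀ r < 3, ∀ t < 3, Test k d c cl p r t) : holds (asg k d p) cl = true := by
  have hx := h 0 (by norm_num) 0 (by norm_num)
  unfold Test at hx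
  have hx1 := allowed0_lt hx
  simp only [fstJob, sndJob, OfNat.zero_ne_ofNat, ↓reduceIte, zero_ne_one] at hx1
  obtain ⟨r, hr⟩ : ∃ r, (digit 16 (p 0) (c / k) + 16 - digit 16 (p (1 + c % k)) (c / k)) % 16 / 4
    = r := ⟨_, rfl⟩
  rw [hr] at hx1
  have h0 := h r hx1 0 (by norm_num)
  have h1 := h r hx1 1 (by norm_num)
  have h2 := h r hx1 2 (by norm_num)
  unfold Test at h0 h1 h2
  simp only [fstJob, sndJob, OfNat.zero_ne_ofNat, ↓reduceIte, zero_ne_one,
    OfNat.one_ne_ofNat, OfNat.ofNat_ne_one] at h0 h1 h2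
  have key := core_digits (digit_lt (by norm_num) _ _) (digit_lt (by norm_num) _ _)
    (digit_lt (by norm_num) _ _) (digit_lt (by norm_num) _ _) (digit_lt (by norm_num) _ _)
    (digit_lt (by norm_num) _ _) h0 h1 h2 hr
  have key' : asg k d p (litOf cl r).1 = (litOf cl r).2 := key
  unfold holds
  interval_cases r
  · simp only [litOf, ↓reduceIte] at key'
    simp [key']
  · simp only [litOf, one_ne_zero, ↓reduceIte] at key'
    simp [key']
  · simp only [litOf, OfNat.ofNat_ne_zero, OfNat.ofNat_ne_one, ↓reduceIte] at key'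
    simp [key']

/-- the slot of a test -/
def slot (k d c : ℕ) (cl : Clause) (p : ℕ → ℕ) (r t : ℕ) : ℕ :=
  589824 * c + 196608 * r + 65536 * t +
    4096 * digit 16 (p (fstJob k t (litOf cl r).1)) (c / k) +
    256 * digit 16 (p (fstJob k t (litOf cl r).1)) (d + (litOf cl r).1 / k) +
    16 * digit 16 (p (sndJob k t c (litOf cl r).1)) (c / k) +
    digit 16 (p (sndJob k t c (litOf cl r).1)) (d + (litOf cl r).1 / k)

theorem slot_digits {c r t a b a' b' : ℕ} (hr : r < 3) (ht : t < 3) (ha : a < 16) (ha' : a' < 16)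
    (hb : b < 16) (hb' : b' < 16) {i : ℕ}
    (hi : i = 589824 * c + 196608 * r + 65536 * t + 4096 * a + 256 * a' + 16 * b + b') :
    i / 589824 = c ∧ i / 196608 % 3 = r ∧ i / 65536 % 3 = t ∧ i / 4096 % 16 = a ∧
      i / 256 % 16 = a' ∧ i / 16 % 16 = b ∧ i % 16 = b' := by
  refine ⟨?_, ?_, ?_, ?_, ?_, ?_, ?_⟩ <;> omega

theorem slot_div {k d c : ℕ} {cl : Clause} {p : ℕ → ℕ} {r t : ℕ} (hr : r < 3) (ht : t < 3) :
    slot k d c cl p r t / 589824 = c :=
  (slot_digits hr ht (digit_lt (by norm_num) _ _) (digit_lt (by norm_num) _ _)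
    (digit_lt (by norm_num) _ _) (digit_lt (by norm_num) _ _) rfl).1

theorem special_slot {φ : CNF} {k d c : ℕ} {cl : Clause} {p : ℕ → ℕ} {r t : ℕ} (hr : r < 3)
    (ht : t < 3) (hc : φ.2[c]? = some cl) (hn : ¬ Test k d c cl p r t) :
    special φ k d (slot k d c cl p r t) (fstJob k t (litOf cl r).1)
      (p (fstJob k t (litOf cl r).1)) = true ∧
    special φ k d (slot k d c cl p r t) (sndJob k t c (litOf cl r).1)
      (p (sndJob k t c (litOf cl r).1)) = true := by
  obtain ⟨e1, e2, e3, e4, e5, e6, e7⟩ := slot_digits (c := c) hr ht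
    (digit_lt (q := 16) (by norm_num) (p (fstJob k t (litOf cl r).1)) (c / k))
    (digit_lt (q := 16) (by norm_num) (p (fstJob k t (litOf cl r).1)) (d + (litOf cl r).1 / k))
    (digit_lt (q := 16) (by norm_num) (p (sndJob k t c (litOf cl r).1)) (c / k))
    (digit_lt (q := 16) (by norm_num) (p (sndJob k t c (litOf cl r).1)) (d + (litOf cl r).1 / k))
    (i := slot k d c cl p r t) rfl
  unfold Test at hn
  rw [Bool.not_eq_true] at hn
  unfold special
  rw [e1, hc]
  simp only
  rw [e2, e3, e4, e5, e6, e7, hn]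
  simp

theorem fst_ne_snd {k t c v : ℕ} (hk : 0 < k) : fstJob k t v ≠ sndJob k t c v := by
  have h1 := Nat.mod_lt c hk
  unfold fstJob sndJob
  split_ifs <;> omega

theorem fst_lt {k t v : ℕ} (hk : 0 < k) : fstJob k t v < 2 * k + 1 := by
  have h1 := Nat.mod_lt v hk
  unfold fstJob
  split_ifs <;> omega

theorem snd_lt {k t c v : ℕ} (hk : 0 < k) : sndJob k t c v < 2 * k + 1 := by
  have h1 := Nat.mod_lt v hk
  have h2 := Nat.mod_lt c hk
  unfold sndJob
  split_ifs <;> omega

theorem three_dvd_len (s : ℕ) : 3 ∣ len s := ⟨s * (3 * s + 1), by unfold len; ring⟩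

theorem mach_special {φ : CNF} {k d s w i j b : ℕ} (hi : 3 * i + 2 < len s)
    (h : special φ k d i j b = true) :
    mach φ k d s w j (b * len s + (3 * i + 2)) = 2 * k + 1 := by
  obtain ⟨w, hw⟩ := three_dvd_len s
  have e1 : (b * len s + (3 * i + 2)) % 3 = 2 := by
    rw [hw, show b * (3 * w) + (3 * i + 2) = 2 + 3 * (b * w + i) by ring, Nat.add_mul_mod_self_left]
  have e2 : (b * len s + (3 * i + 2)) % len s / 3 = i := by
    rw [Nat.mul_add_mod', Nat.mod_eq_of_lt hi]
    omega
  have e3 : (b * len s + (3 * i + 2)) / len s = b := by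
    rw [mul_comm, Nat.mul_add_div (by omega), Nat.div_eq_of_lt hi, add_zero]
  unfold mach
  rw [if_pos e1, e2, e3, h]
  rfl

theorem countP_le_card {α : Type} (P : α → Bool) (g : ℕ → ℕ) : ∀ (l : List α) (n : ℕ)
    (bad : Finset ℕ), (∀ i a, l[i]? = some a → P a = true → ∃ u ∈ bad, g u = n + i) →
      l.countP P ≤ bad.card := by
  intro l
  induction l with
  | nil => intro n bad _; exact Nat.zero_le _
  | cons a l ih =>
    intro n bad h
    by_cases hP : P a = true
    · obtain ⟨u0, hu0, hg0⟩ := h 0 a rfl hP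
      rw [List.countP_cons_of_pos hP]
      have h1 := ih (n + 1) (bad.erase u0) (by
        intro i b hb hPb
        obtain ⟨u, hu, hg⟩ := h (i + 1) b (by simpa using hb) hPb
        refine ⟨u, Finset.mem_erase.2 ⟨?_, hu⟩, by omega⟩
        rintro rfl
        omega)
      rw [Finset.card_erase_of_mem hu0] at h1
      have : 0 < bad.card := Finset.card_pos.2 ⟨u0, hu0⟩
      omega
    · rw [List.countP_cons_of_neg hP]
      refine ih (n + 1) bad ?_
      intro i b hb hPb
      obtain ⟨u, hu, hg⟩ := h (i + 1) b (by simpa using hb) hPb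
      exact ⟨u, hu, by omega⟩

theorem static {φ : CNF} {D k d s w : ℕ} (hk : 0 < k)
    (hs : 589824 * φ.2.length ≤ s * (3 * s + 1)) (hfar : Far D φ) (p : ℕ → ℕ) (bad : Finset ℕ)
    (h : ∀ u < len s, u ∉ bad → ∀ i < 2 * k + 1, ∀ j < 2 * k + 1, i ≠ j →
      mach φ k d s w i (p i * len s + u) ≠ mach φ k d s w j (p j * len s + u)) :
    φ.2.length < D * bad.card := by
  refine (hfar (asg k d p)).trans_le (Nat.mul_le_mul_left D ?_)
  refine countP_le_card _ (fun u => u / 3 / 589824) φ.2 0 bad ?_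
  intro c cl hc hv
  rw [Bool.not_eq_true'] at hv
  have hex : ∃ r < 3, ∃ t < 3, ¬ Test k d c cl p r t := by
    by_contra hcon
    push Not at hcon
    rw [holds_of_tests hcon] at hv
    exact absurd hv (by simp)
  obtain ⟨r, hr, t, ht, hn⟩ := hex
  obtain ⟨hA, hB⟩ := special_slot (φ := φ) hr ht hc hn
  have hcl : c < φ.2.length := by
    obtain ⟨h1, _⟩ := List.getElem?_eq_some_iff.1 hc
    exact h1
  have hdiv := slot_div (k := k) (d := d) (c := c) (cl := cl) (p := p) hr ht
  have hu : 3 * slot k d c cl p r t + 2 < len s := by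
    have e : len s = 3 * (s * (3 * s + 1)) := by unfold len; ring
    rw [e]
    omega
  have hmem : 3 * slot k d c cl p r t + 2 ∈ bad := by
    by_contra hnot
    refine h _ hu hnot (fstJob k t (litOf cl r).1) (fst_lt hk) (sndJob k t c (litOf cl r).1)
      (snd_lt hk) (fst_ne_snd hk) ?_
    rw [mach_special hu hA, mach_special hu hB]
  refine ⟨_, hmem, ?_⟩
  show (3 * slot k d c cl p r t + 2) / 3 / 589824 = 0 + c
  omega

end Pool.Agent.H.JS
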