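import Pool.Agent.H.MP_aeb38e_lc.Dyn
import Pool.Agent.H.MP_aeb38e_lc.Static
import Pool.Agent.H.MP_aeb38e_lc.Param

/-! Soundness: for a formula far from satisfiable, one of the instances has large makespan. -/

namespace Pool.Agent.H.JS

open Finset

theorem no_digit_eq (q c u : ℕ) : digit q c u = c / q ^ u % q := by
  have h : ∀ u c, (fun x => x / q)^[u] c = c / q ^ u := by
    intro u
    induction u with
    | zero => intro c; simp
    | succ u ih =>
      intro c
      rw [Function.iterate_succ_apply, ih, Nat.div_div_eq_div_mul, pow_succ, mul_comm]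
  rw [digit, h]

/-- the instance, unfolded -/
theorem isOp_inst_iff (φ : CNF) (k d s R w j P m p : ℕ) :
    IsOp (inst φ k d s R w) j P m p ↔
      j < 2 * k + 1 ∧ P < R * len s ∧ m = mach φ k d s w j P ∧ p = 1 := by
  unfold IsOp inst
  constructor
  · rintro ⟨job, h1, h2⟩
    dsimp only at h1
    rw [List.getElem?_map, Option.map_eq_some_iff] at h1
    obtain ⟨j', hj', rfl⟩ := h1
    rw [List.getElem?_eq_some_iff] at hj'
    obtain ⟨hj1, hj2⟩ := hj'
    rw [List.getElem_range] at hj2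
    rw [List.length_range] at hj1
    subst hj2
    rw [List.getElem?_map, Option.map_eq_some_iff] at h2
    obtain ⟨P', hP', h3⟩ := h2
    rw [List.getElem?_eq_some_iff] at hP'
    obtain ⟨hP1, hP2⟩ := hP'
    rw [List.getElem_range] at hP2
    rw [List.length_range] at hP1
    subst hP2
    simp only [Prod.mk.injEq] at h3
    exact ⟨hj1, hP1, h3.1.symm, h3.2.symm⟩
  · rintro ⟨h1, h2, rfl, rfl⟩
    refine ⟨(List.range (R * len s)).map fun P => (mach φ k d s w j P, 1), ?_, ?_⟩
    · dsimp only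
      rw [List.getElem?_map, List.getElem?_range h1]
      rfl
    · rw [List.getElem?_map, List.getElem?_range h2]
      rfl

/-- some feasible schedule -/
theorem exists_sched (φ : CNF) (k d s R w : ℕ) :
    ∃ K st, Feasible (inst φ k d s R w) st ∧ EndsBy (inst φ k d s R w) st K := by
  refine ⟨(2 * k + 1) * (R * len s), fun j i => j * (R * len s) + i, ⟨?_, ?_⟩, ?_⟩
  · intro j i m p m' p' h _
    obtain ⟨_, _, _, rfl⟩ := (isOp_inst_iff _ _ _ _ _ _ _ _ _ _).1 h
    dsimp only
    omega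
  · intro j i j' i' m p p' h h' hne
    obtain ⟨_, h1, _, rfl⟩ := (isOp_inst_iff _ _ _ _ _ _ _ _ _ _).1 h
    obtain ⟨_, h2, _, rfl⟩ := (isOp_inst_iff _ _ _ _ _ _ _ _ _ _).1 h'
    dsimp only
    have h3 : j * (R * len s) + i ≠ j' * (R * len s) + i' := by
      intro hc
      apply hne
      have e1 : (j * (R * len s) + i) / (R * len s) = j := by
        rw [mul_comm, Nat.mul_add_div (by omega), Nat.div_eq_of_lt h1, Nat.add_zero]
      have e2 : (j' * (R * len s) + i') / (R * len s) = j' := by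
        rw [mul_comm, Nat.mul_add_div (by omega), Nat.div_eq_of_lt h2, Nat.add_zero]
      have e3 : j = j' := by rw [← e1, ← e2, hc]
      rw [e3] at hc
      rw [e3, Nat.add_left_cancel hc]
    omega
  · intro j i m p h
    obtain ⟨h0, h1, _, rfl⟩ := (isOp_inst_iff _ _ _ _ _ _ _ _ _ _).1 h
    dsimp only
    have h2 : (j + 1) * (R * len s) ≤ (2 * k + 1) * (R * len s) :=
      Nat.mul_le_mul_right _ h0
    rw [Nat.succ_mul] at h2
    omega

theorem lt_OPT {φ : CNF} {k d s R w X : ℕ}
    (h : ∀ st, Feasible (inst φ k d s R w) st → EndsBy (inst φ k d s R w) st X → False) :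
    X < OPT (inst φ k d s R w) := by
  by_contra hcon
  push Not at hcon
  have hne : {K | ∃ st, Feasible (inst φ k d s R w) st ∧
      EndsBy (inst φ k d s R w) st K}.Nonempty := exists_sched φ k d s R w
  obtain ⟨st, h1, h2⟩ := Nat.sInf_mem hne
  exact h st h1 (fun j i m p hop => (h2 j i m p hop).trans hcon)

/-- there is a word with the word property -/
theorem exists_shift (k s l' h g : ℕ) (hs : 0 < s) (hl : 0 < l') (hh : 0 < h)
    (hnum : 2 * ((2 * k + 1) * ((3 * s) * (3 * s + 1)) ^ 2 * 12 ^ h) *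
      ((2 * k + 1) - 1) ^ (g * l') < (2 * k + 1) ^ (g * l')) :
    ∃ w < (2 * k + 1) ^ (6 * s + 1),
      WordProp (2 * k + 1) (3 * s) (3 * l') h g
        (fun P => ((shift k s w P : ℕ) : ZMod (2 * k + 1))) ∧
      WordProp (2 * k + 1) (3 * s + 1) (3 * l') h g
        (fun P => ((shift k s w P : ℕ) : ZMod (2 * k + 1))) := by
  obtain ⟨w, hw, h1⟩ := exists_word (2 * k + 1) (3 * s) (3 * s + 1)
    ((3 * s) * (3 * s + 1)) l' h g (by omega) (by omega) (by positivity) (Dvd.intro _ rfl)
    (Dvd.intro_left _ rfl) ⟨s * (3 * s + 1), by ring⟩ hl hh hnum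
  refine ⟨w, ?_, ?_⟩
  · rwa [show 3 * s + (3 * s + 1) = 6 * s + 1 by ring] at hw
  have h3 : (fun P => ((shift k s w P : ℕ) : ZMod (2 * k + 1))) =
      word (2 * k + 1) (3 * s) (3 * s + 1) w := by
    funext P
    rw [shift, no_digit_eq, no_digit_eq, Nat.cast_add, word]
  rw [h3]
  exact h1

/-- No schedule of small makespan for a good word. -/
theorem no_core (φ : CNF) (k d s R w l h g I e D : ℕ) (hs : 0 < s) (hR : 0 < R)
    (hl : 0 < l) (hh : 0 < h)
    (hI : (2 * k + 1) * e ≤ R * I) (hIL : I < len s)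
    (W1 : WordProp (2 * k + 1) (3 * s) l h g
        (fun P => ((shift k s w P : ℕ) : ZMod (2 * k + 1))))
    (W2 : WordProp (2 * k + 1) (3 * s + 1) l h g
        (fun P => ((shift k s w P : ℕ) : ZMod (2 * k + 1))))
    (hB : D * ((2 * k + 1) * (h * l * (3 * (3 * s + (3 * s + 1)) + 1) + 2 * l * I +
      2 * g * l * (len s / (h * l)))) ≤ φ.2.length)
    (static : ∀ (p : ℕ → ℕ) (bad : Finset ℕ),
      (∀ u < len s, u ∉ bad → ∀ i < 2 * k + 1, ∀ j < 2 * k + 1, i ≠ j →
        mach φ k d s w i (p i * len s + u) ≠ mach φ k d s w j (p j * len s + u)) →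
      φ.2.length < D * bad.card)
    (st : ℕ → ℕ → ℕ) (hf : Feasible (inst φ k d s R w) st)
    (he : EndsBy (inst φ k d s R w) st (R * len s + e)) : False := by
  have hlen : len s = 3 * s * (3 * s + 1) := rfl
  have hop : ∀ j < 2 * k + 1, ∀ P < R * len s,
      IsOp (inst φ k d s R w) j P (mach φ k d s w j P) 1 :=
    fun j hj P hP => (isOp_inst_iff φ k d s R w j P _ _).2 ⟨hj, hP, rfl, rfl⟩
  have hstep : ∀ j < 2 * k + 1, ∀ P, P + 1 < R * len s → st j P < st j (P + 1) := by
    intro j hj P hP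
    have := hf.1 j P _ _ _ _ (hop j hj P (by omega)) (hop j hj (P + 1) hP)
    omega
  have hmono : ∀ j < 2 * k + 1, ∀ P P', P < P' → P' < R * (3 * s * (3 * s + 1)) →
      st j P < st j P' := by
    intro j hj P P' hPP
    obtain ⟨n, rfl⟩ := Nat.exists_eq_add_of_lt hPP
    induction n with
    | zero => intro hP'; exact hstep j hj P hP'
    | succ n ih =>
      intro hP'
      have h1 := ih (by omega) (by omega)
      have := hstep j hj (P + n + 1) hP'
      exact h1.trans this
  have hH : ∀ j < 2 * k + 1, ∀ P < R * (3 * s * (3 * s + 1)),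
      st j P < R * (3 * s * (3 * s + 1)) + e := by
    intro j hj P hP
    have := he j P _ _ (hop j hj P hP)
    rw [hlen] at this
    omega
  have hnoc : ∀ j < 2 * k + 1, ∀ j' < 2 * k + 1, j ≠ j' → ∀ x < R * len s, ∀ y < R * len s,
      st j x = st j' y → mach φ k d s w j x ≠ mach φ k d s w j' y := by
    intro j hj j' hj' hne x hx y hy hst hm
    have h1 := hop j hj x hx
    have h2 := hop j' hj' y hy
    rw [← hm] at h2
    have := hf.2 j x j' y _ _ _ h1 h2 (by
      intro hc
      exact hne (Prod.mk.inj hc).1)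
    omega
  have hconf : ∀ j < 2 * k + 1, j ≠ 0 → ∀ x < R * (3 * s * (3 * s + 1)),
      ∀ y < R * (3 * s * (3 * s + 1)), st 0 x = st j y → x % 3 ≠ 2 → y % 3 ≠ 2 →
      (fun P => ((shift k s w P : ℕ) : ZMod (2 * k + 1))) x ≠
        (fun P => ((shift k s w P : ℕ) : ZMod (2 * k + 1))) y + (j : ZMod (2 * k + 1)) := by
    intro j hj hj0 x hx y hy hst hx3 hy3 hc
    apply hnoc 0 (by omega) j hj (Ne.symm hj0) x hx y hy hst
    rw [mach, mach, if_neg hx3, if_neg hy3, Nat.add_zero]
    have h1 : ((shift k s w x : ℕ) : ZMod (2 * k + 1)) =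
        ((shift k s w y + j : ℕ) : ZMod (2 * k + 1)) := by
      push_cast
      exact hc
    exact (ZMod.natCast_eq_natCast_iff' _ _ _).1 h1
  obtain ⟨p, bad, hbad, hp, hgood⟩ := dynamic (2 * k + 1) R (3 * s) (3 * s + 1) l h g I e
    (fun P => ((shift k s w P : ℕ) : ZMod (2 * k + 1))) st (by omega) hR hl hh (by omega)
    (by omega) (by simp) hmono hH hconf hI hIL W1 W2
  have h1 := static p bad (by
    intro u hu hub i hi j hj hij
    obtain ⟨t, ht⟩ := hgood u hu hub
    have hlt : ∀ j < 2 * k + 1, p j * len s + u < R * len s := by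
      intro j hj
      have h2 : (p j + 1) * len s ≤ R * len s := Nat.mul_le_mul_right _ (hp j hj)
      rw [Nat.succ_mul] at h2
      omega
    apply hnoc i hi j hj hij _ (hlt i hi) _ (hlt j hj)
    rw [hlen, ht i hi, ht j hj])
  have h2 : D * bad.card ≤ φ.2.length := (Nat.mul_le_mul_left D hbad).trans hB
  omega

theorem sOf_sq (M : ℕ) : 196608 * M < sOf M * sOf M := Nat.lt_succ_sqrt _

theorem len_sOf_le {M : ℕ} (hM : 0 < M) : len (sOf M) ≤ 9437184 * M := by
  have h1 : Nat.sqrt (196608 * M) * Nat.sqrt (196608 * M) ≤ 196608 * M := Nat.sqrt_le _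
  have h2 : 1 ≤ Nat.sqrt (196608 * M) := Nat.sqrt_pos.2 (by omega)
  rw [len, sOf]
  set r := Nat.sqrt (196608 * M)
  nlinarith

/-- Soundness. -/
theorem no (D k : ℕ) (hD : 0 < D) (hk : 0 < k) : ∃ E M0 : ℕ, 0 < E ∧
    ∀ (φ : CNF) (d : ℕ), M0 ≤ φ.2.length → φ.2.length ≤ k * d → φ.1 ≤ k * d → Vars φ →
      Far D φ → ∃ w < (2 * k + 1) ^ (6 * sOf φ.2.length + 1),
        (E + 1) * target d (sOf φ.2.length) E < E * OPT (instOf φ k d E w) := by
  obtain ⟨l', E0, s0, hl', hE0, hs0, hpar⟩ := param (2 * k + 1) (9437184 * D) (by omega)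
    (by omega)
  refine ⟨3 * E0, s0 * s0, by omega, ?_⟩
  intro φ d hM _ _ _ hfar
  set s := sOf φ.2.length with hs
  have hM0 : 0 < φ.2.length := by
    have : 1 ≤ s0 * s0 := Nat.mul_pos hs0 hs0
    omega
  have hss : s0 ≤ s := by
    have h1 : s0 ≤ Nat.sqrt (196608 * φ.2.length) := Nat.le_sqrt.2 (by omega)
    rw [hs, sOf]; omega
  have hs1 : 0 < s := by omega
  obtain ⟨h, g, I, hh, hnum, hIL, hI, hB⟩ := hpar s hss
  obtain ⟨w, hw, W1, W2⟩ := exists_shift k s l' h g hs1 hl' hh hnum
  refine ⟨w, hw, ?_⟩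
  have hsq := sOf_sq φ.2.length
  rw [← hs] at hsq
  have hslots : 589824 * φ.2.length ≤ s * (3 * s + 1) := by nlinarith
  have hR : 0 < blocks d (3 * E0) := by
    rw [blocks]
    have : 0 < 16 ^ (2 * d) := by positivity
    positivity
  have hlen : len s = 3 * s * (3 * s + 1) := rfl
  set A := 16 ^ (2 * d) * len s with hA
  have hT : blocks d (3 * E0) * len s = 3 * E0 * A := by
    rw [blocks, hA]; ring
  have hlow : blocks d (3 * E0) * len s + 3 * A < OPT (instOf φ k d (3 * E0) w) := by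
    refine lt_OPT ?_
    intro st hf he
    refine no_core φ k d s (blocks d (3 * E0)) w (3 * l') h g I (3 * A) D hs1 hR (by omega) hh
      (hI _ _ ?_) hIL W1 W2 ?_ (fun p bad h => static hk hslots hfar p bad h) st hf he
    · rw [← hlen, hT]
      exact le_of_eq (by ring)
    · have h1 := len_sOf_le hM0
      rw [← hs] at h1
      rw [← hlen] at hB
      have h2 : 9437184 * (D * ((2 * k + 1) * (h * (3 * l') * (3 * (3 * s + (3 * s + 1)) + 1) +
          2 * (3 * l') * I + 2 * g * (3 * l') * (len s / (h * (3 * l')))))) ≤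
          9437184 * D * ((2 * k + 1) * (h * (3 * l') * (3 * (3 * s + (3 * s + 1)) + 5) +
          2 * (3 * l') * I + 2 * g * (3 * l') * (len s / (h * (3 * l'))))) := by
        rw [← mul_assoc 9437184 D]
        gcongr
        omega
      omega
  have htgt : target d s (3 * E0) = (3 * E0 + 1) * A := by
    rw [target, hA]; ring
  rw [htgt]
  rw [hT] at hlow
  have hA0 : 0 < A := by
    rw [hA, hlen]; positivity
  calc (3 * E0 + 1) * ((3 * E0 + 1) * A) ≤ 3 * E0 * (3 * E0 * A + 3 * A) := by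
        nlinarith [Nat.mul_le_mul (show 1 ≤ E0 from hE0) (le_refl A)]
    _ < 3 * E0 * OPT (instOf φ k d (3 * E0) w) := Nat.mul_lt_mul_of_pos_left hlow (by omega)

end Pool.Agent.H.JS
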