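import Pool.Agent.H.MP_aeb38e_lc.StaticC
import Pool.Agent.H.MP_aeb38e_lc.DegB
import Pool.Agent.H.MP_aeb38e_lc.YesB
import Pool.Agent.H.MP_aeb38e_lc.Align

/-!
Soundness of the strong form: the gap does not depend on the number of machines.
-/

namespace Pool.Agent.H.JS

open Finset

/-- The statement of the alignment theorem. -/
def AlignStmt : Prop :=
  ∀ Γ : ℕ, 0 < Γ → ∃ e0 L0 : ℕ, 0 < e0 ∧ ∀ L, L0 ≤ L → 3 ∣ L →
    ∃ w < 11 ^ L, ∀ (q R1 e : ℕ) (sg st : ℕ → ℕ → ℕ), 0 < q → 0 < R1 → Exp q sg →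
      e0 * e ≤ 3 * R1 * L →
      (∀ j < q, ∀ P P', P < P' → P' < 3 * R1 * L → st j P < st j P') →
      (∀ j < q, ∀ P < 3 * R1 * L, st j P < 3 * R1 * L + e) →
      (∀ i < q, ∀ j < q, i ≠ j → ∀ x < 3 * R1 * L, ∀ y < 3 * R1 * L, st i x = st j y →
        x % 3 ≠ 2 → y % 3 ≠ 2 → sg (w / 11 ^ (x % L) % 11) i ≠ sg (w / 11 ^ (y % L) % 11) j) →
      ∃ (p t : ℕ → ℕ) (bad : Finset (ℕ × ℕ)), Γ * bad.card ≤ q * L ∧
        ∀ u < L, ∀ j < q, (u, j) ∉ bad → p j * L + u < 3 * R1 * L ∧ st j (p j * L + u) = t u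

theorem digit_eqB (q c u : ℕ) : digit q c u = c / q ^ u % q := by
  have h : ∀ u c, (fun x => x / q)^[u] c = c / q ^ u := by
    intro u
    induction u with
    | zero => intro c; simp
    | succ u ih =>
      intro c
      rw [Function.iterate_succ_apply, ih, Nat.div_div_eq_div_mul, pow_succ, mul_comm]
  rw [digit, h]

theorem exists_schedB (φ : CNF) (m k d L R w : ℕ) (tab : List (List ℕ)) :
    ∃ K st, Feasible (instB φ m k d L R w tab) st ∧ EndsBy (instB φ m k d L R w tab) st K := by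
  refine ⟨(2 * k) * (R * L), fun j i => j * (R * L) + i, ⟨?_, ?_⟩, ?_⟩
  · intro j i m' p m'' p' h _
    obtain ⟨_, _, _, rfl⟩ := (YB.isOp_instB _ _ _ _ _ _ _ _ _ _ _ _).1 h
    dsimp only
    omega
  · intro j i j' i' m' p p' h h' hne
    obtain ⟨_, h1, _, rfl⟩ := (YB.isOp_instB _ _ _ _ _ _ _ _ _ _ _ _).1 h
    obtain ⟨_, h2, _, rfl⟩ := (YB.isOp_instB _ _ _ _ _ _ _ _ _ _ _ _).1 h'
    dsimp only
    have h3 : j * (R * L) + i ≠ j' * (R * L) + i' := by
      intro hc
      apply hne
      have e1 : (j * (R * L) + i) / (R * L) = j := by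
        rw [mul_comm, Nat.mul_add_div (by omega), Nat.div_eq_of_lt h1, Nat.add_zero]
      have e2 : (j' * (R * L) + i') / (R * L) = j' := by
        rw [mul_comm, Nat.mul_add_div (by omega), Nat.div_eq_of_lt h2, Nat.add_zero]
      have e3 : j = j' := by rw [← e1, ← e2, hc]
      rw [e3] at hc
      rw [e3, Nat.add_left_cancel hc]
    omega
  · intro j i m' p h
    obtain ⟨h0, h1, _, rfl⟩ := (YB.isOp_instB _ _ _ _ _ _ _ _ _ _ _ _).1 h
    dsimp only
    have h2 : (j + 1) * (R * L) ≤ (2 * k) * (R * L) := Nat.mul_le_mul_right _ h0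
    rw [Nat.succ_mul] at h2
    omega

theorem lt_OPTB {φ : CNF} {m k d L R w X : ℕ} {tab : List (List ℕ)}
    (h : ∀ st, Feasible (instB φ m k d L R w tab) st → EndsBy (instB φ m k d L R w tab) st X →
      False) : X < OPT (instB φ m k d L R w tab) := by
  by_contra hcon
  push Not at hcon
  have hne : {K | ∃ st, Feasible (instB φ m k d L R w tab) st ∧
      EndsBy (instB φ m k d L R w tab) st K}.Nonempty := exists_schedB φ m k d L R w tab
  obtain ⟨st, h1, h2⟩ := Nat.sInf_mem hne
  exact h st h1 (fun j i m p hop => (h2 j i m p hop).trans hcon)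

/-- Soundness of the strong form. -/
theorem noB_of_align (hal : AlignStmt) (D B : ℕ) (hD : 0 < D) (hB : 0 < B) :
    ∃ E N0 : ℕ, 0 < E ∧ ∀ (k : ℕ), 0 < k → ∀ (φ : CNF) (m d : ℕ) (tab : List (List ℕ)),
      Exp (2 * k) (perm tab) → N0 * k ≤ φ.2.length → Bdd B φ → Far D φ →
      ∃ w < 11 ^ lenB B φ.2.length k,
        (E + 1) * (16 ^ (2 * d) * (E + 1) * lenB B φ.2.length k) <
          E * OPT (instB φ m k d (lenB B φ.2.length k) (blocks d E) w tab) := by
  set C := 3 * 65536 * (2 * (16 * B)) with hC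
  have hC0 : 0 < C := by omega
  obtain ⟨e0, L0, he0, hal'⟩ := hal (4 * C * (D * B)) (by positivity)
  refine ⟨3 * e0, L0 + 1, by omega, ?_⟩
  intro k hk φ m d tab hE hM hBdd hfar
  set M := φ.2.length with hMdef
  have hlen : lenB B M k = C * (M / k + 1) := by
    unfold lenB degB
    rw [hC]
    ring
  set L := lenB B M k with hL
  have h3 : 3 ∣ L := ⟨65536 * (2 * degB B M k), by rw [hL]; unfold lenB; ring⟩
  have hMk : L0 + 1 ≤ M / k := (Nat.le_div_iff_mul_le hk).2 hM
  have hL0 : L0 ≤ L := by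
    rw [hlen]
    nlinarith
  have hLpos : 0 < L := by
    rw [hlen]
    positivity
  obtain ⟨w, hw, hal2⟩ := hal' L hL0 h3
  refine ⟨w, hw, ?_⟩
  set A := 16 ^ (2 * d) * L with hA
  have hA0 : 0 < A := by positivity
  have hR : blocks d (3 * e0) = 3 * (16 ^ (2 * d) * e0) := by
    unfold blocks
    ring
  have hRL : 3 * (16 ^ (2 * d) * e0) * L = 3 * e0 * A := by rw [hA]; ring
  have hlow : 3 * e0 * A + 3 * A < OPT (instB φ m k d L (blocks d (3 * e0)) w tab) := by
    rw [hR]
    refine lt_OPTB ?_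
    intro st hf he
    have hop : ∀ j < 2 * k, ∀ P < 3 * (16 ^ (2 * d) * e0) * L,
        IsOp (instB φ m k d L (3 * (16 ^ (2 * d) * e0)) w tab) j P
          (machB φ k d L w tab (cols φ k) j P) 1 :=
      fun j hj P hP => (YB.isOp_instB φ m k d L _ w tab j P _ _).2 ⟨hj, hP, rfl, rfl⟩
    have hstep : ∀ j < 2 * k, ∀ P, P + 1 < 3 * (16 ^ (2 * d) * e0) * L →
        st j P < st j (P + 1) := by
      intro j hj P hP
      have := hf.1 j P _ _ _ _ (hop j hj P (by omega)) (hop j hj (P + 1) hP)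
      omega
    have hmono : ∀ j < 2 * k, ∀ P P', P < P' → P' < 3 * (16 ^ (2 * d) * e0) * L →
        st j P < st j P' := by
      intro j hj P P' hPP
      obtain ⟨n, rfl⟩ := Nat.exists_eq_add_of_lt hPP
      induction n with
      | zero => intro hP'; exact hstep j hj P hP'
      | succ n ih =>
        intro hP'
        have h1 := ih (by omega) (by omega)
        have := hstep j hj (P + n + 1) hP'
        exact h1.trans this
    have hnoc : ∀ i < 2 * k, ∀ j < 2 * k, i ≠ j → ∀ x < 3 * (16 ^ (2 * d) * e0) * L,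
        ∀ y < 3 * (16 ^ (2 * d) * e0) * L, st i x = st j y →
        machB φ k d L w tab (cols φ k) i x ≠ machB φ k d L w tab (cols φ k) j y := by
      intro i hi j hj hne x hx y hy hst hm
      have h1 := hop i hi x hx
      have h2 := hop j hj y hy
      rw [← hm] at h2
      have := hf.2 i x j y _ _ _ h1 h2 (by
        intro hc
        exact hne (Prod.mk.inj hc).1)
      omega
    obtain ⟨p, t, bad, hbad, hgood⟩ := hal2 (2 * k) (16 ^ (2 * d) * e0) (3 * A) (perm tab) st
      (by omega) (by positivity) hE (by rw [hRL]; exact le_of_eq (by ring)) hmono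
      (by
        intro j hj P hP
        have := he j P _ _ (hop j hj P hP)
        rw [hRL]
        omega)
      (by
        intro i hi j hj hne x hx y hy hst hx3 hy3
        have := hnoc i hi j hj hne x hx y hy hst
        rw [machB, machB, if_neg hx3, if_neg hy3, digit_eqB, digit_eqB] at this
        exact this)
    have hst := static2_of_deg (d := d) (D := D) (L := L) (w := w) (tab := tab) hk hBdd
      (N := 2 * degB B M k) (fun x _ => deg_le hk hBdd x) (le_of_eq (by rw [hL]; rfl)) h3 hfar p bad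
      (by
        intro u hu i hi j hj hne hbi hbj
        obtain ⟨h1, h2⟩ := hgood u hu i hi hbi
        obtain ⟨h4, h5⟩ := hgood u hu j hj hbj
        exact hnoc i hi j hj hne _ h1 _ h4 (h2.trans h5.symm))
    -- numbers
    have hkL : 2 * k * L ≤ 4 * C * M := by
      rw [hlen]
      have h6 : k * (M / k) ≤ M := Nat.mul_div_le M k
      have h7 : k ≤ M := by
        calc k = 1 * k := (one_mul k).symm
          _ ≤ (L0 + 1) * k := Nat.mul_le_mul_right k (by omega)
          _ ≤ M := hM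
      calc 2 * k * (C * (M / k + 1)) = 2 * C * (k * (M / k) + k) := by ring
        _ ≤ 2 * C * (M + M) := Nat.mul_le_mul_left _ (by omega)
        _ = 4 * C * M := by ring
    have h8 : 4 * C * (D * (B * bad.card)) ≤ 4 * C * M := by
      calc 4 * C * (D * (B * bad.card)) = 4 * C * (D * B) * bad.card := by ring
        _ ≤ 2 * k * L := hbad
        _ ≤ 4 * C * M := hkL
    have h9 : D * (B * bad.card) ≤ M := Nat.le_of_mul_le_mul_left h8 (by positivity)
    omega
  have e1 : 16 ^ (2 * d) * (3 * e0 + 1) * L = (3 * e0 + 1) * A := by rw [hA]; ring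
  rw [e1]
  calc (3 * e0 + 1) * ((3 * e0 + 1) * A) ≤ 3 * e0 * (3 * e0 * A + 3 * A) := by
        nlinarith [Nat.mul_le_mul (show 1 ≤ e0 from he0) (le_refl A)]
    _ < 3 * e0 * OPT (instB φ m k d L (blocks d (3 * e0)) w tab) :=
        Nat.mul_lt_mul_of_pos_left hlow (by omega)

theorem far_of_bdd_zero {φ : CNF} {D : ℕ} (hB : Bdd 0 φ) (hfar : Far D φ) : False := by
  have h0 : φ.2.length = 0 := by
    by_contra hne
    have hmem : (litAt φ 0).1 ∈ varList φ := by
      rw [varList_map, List.mem_map]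
      exact ⟨0, List.mem_range.2 (by omega), rfl⟩
    obtain ⟨h1, h2⟩ := hB.2 _ (hB.1 _ hmem)
    omega
  have h1 := hfar (fun _ => true)
  have h2 : φ.2.countP (fun c => !holds (fun _ => true) c) ≤ φ.2.length := List.countP_le_length
  rw [h0] at h1 h2
  have h3 : φ.2.countP (fun c => !holds (fun _ => true) c) = 0 := by omega
  rw [h3] at h1
  omega

/-- Soundness of the strong form: `E` does not depend on the number of machines. -/
theorem noB (D B : ℕ) (hD : 0 < D) :
    ∃ E N0 : ℕ, 0 < E ∧ ∀ (k : ℕ), 0 < k → ∀ (φ : CNF) (m d : ℕ) (tab : List (List ℕ)),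
      Exp (2 * k) (perm tab) → N0 * k ≤ φ.2.length → Bdd B φ → Far D φ →
      ∃ w < 11 ^ lenB B φ.2.length k,
        (E + 1) * (16 ^ (2 * d) * (E + 1) * lenB B φ.2.length k) <
          E * OPT (instB φ m k d (lenB B φ.2.length k) (blocks d E) w tab) := by
  rcases Nat.eq_zero_or_pos B with rfl | hB
  · exact ⟨1, 0, one_pos, fun k _ φ m d tab _ _ hBdd hfar =>
      absurd (far_of_bdd_zero hBdd hfar) (fun h => h)⟩
  · exact noB_of_align JS2.align D B hD hB

end Pool.Agent.H.JS
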