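import Pool.Agent.H.MP_aeb38e_lc.Inst
import Pool.Agent.H.MP_5be563_lc.PT.Main
import Pool.Agent.H.MP_5be563_lc.PT.Arith
import Pool.Agent.H.MP_5be563_lc.PT.Tree

/-!
The instance is computable in polynomial time (numbers in unary); codes are the serializations
of the encodings; sizes.
-/

set_option linter.unusedSectionVars false

namespace Pool.Agent.H.JS

open Turing Pool.Agent.H.MP_5be563_lc.PT

section
variable {α : Type} [Enc α]

/-! ### Division -/

/-- one step of counting with a carry -/
def dmStep (g : ℕ) (s : ℕ × ℕ) : ℕ × ℕ := if s.2 + 1 = g then (s.1 + 1, 0) else (s.1, s.2 + 1)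

theorem dm_iterate (g n : ℕ) : (dmStep g)^[n] (0, 0) = (n / g, n % g) := by
  induction n with
  | zero => simp
  | succ n ih =>
    rw [Function.iterate_succ_apply', ih]
    unfold dmStep
    rcases Nat.eq_zero_or_pos g with h0 | h0
    · subst h0; simp
    · have h1 := Nat.div_add_mod n g
      have h2 := Nat.mod_lt n h0
      by_cases h : n % g + 1 = g
      · rw [if_pos h]
        have e : n + 1 = g * (n / g + 1) := by rw [mul_add]; omega
        rw [e, Nat.mul_div_cancel_left _ h0, Nat.mul_mod_right]
      · rw [if_neg h]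
        have e : n + 1 = n % g + 1 + g * (n / g) := by omega
        have h3 : n % g + 1 < g := by omega
        rw [Prod.mk.injEq]
        constructor
        · show n / g = (n + 1) / g
          conv_rhs => rw [e]
          rw [Nat.add_mul_div_left _ _ h0, Nat.div_eq_of_lt h3, zero_add]
        · show n % g + 1 = (n + 1) % g
          conv_rhs => rw [e]
          rw [Nat.add_mul_mod_self_left, Nat.mod_eq_of_lt h3]

@[fun_prop]
theorem Poly.dmStep {g : α → ℕ} {s : α → ℕ × ℕ} (hg : Poly g) (hs : Poly s) :
    Poly (fun a => dmStep (g a) (s a)) := by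
  unfold JS.dmStep
  fun_prop

theorem Poly.dm {f g : α → ℕ} (hf : Poly f) (hg : Poly g) :
    Poly (fun a => (f a / g a, f a % g a)) := by
  have key := Poly.iterate (f := fun a s => JS.dmStep (g a) s) (s := fun _ : α => ((0, 0) : ℕ × ℕ))
    (n := f) (B := fun a => 4 * sz (f a)) (by fun_prop) (by fun_prop) hf
    ((PBdd.const 4).mul hf.sz_le) (by
      intro a k hk
      rw [dm_iterate, sz_pair, sz_nat, sz_nat, sz_nat]
      have h1 := Nat.div_le_self k (g a)
      have h2 := Nat.mod_le k (g a)
      omega)
  simpa only [dm_iterate] using key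

@[fun_prop]
theorem Poly.div {f g : α → ℕ} (hf : Poly f) (hg : Poly g) : Poly (fun a => f a / g a) :=
  Poly.comp (f := fun p : ℕ × ℕ => p.1) (by fun_prop) (Poly.dm hf hg)

@[fun_prop]
theorem Poly.mod {f g : α → ℕ} (hf : Poly f) (hg : Poly g) : Poly (fun a => f a % g a) :=
  Poly.comp (f := fun p : ℕ × ℕ => p.2) (by fun_prop) (Poly.dm hf hg)

@[fun_prop]
theorem Poly.nmin {f g : α → ℕ} (hf : Poly f) (hg : Poly g) : Poly (fun a => min (f a) (g a)) := by
  have : Poly (fun a => if f a ≤ g a then f a else g a) := by fun_prop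
  refine (show (fun a => min (f a) (g a)) = _ from ?_) ▸ this
  funext a
  rw [min_def]

theorem div_iterate_le (q c u : ℕ) : (fun x => x / q)^[u] c ≤ c := by
  induction u with
  | zero => exact le_rfl
  | succ u ih =>
    rw [Function.iterate_succ_apply']
    exact (Nat.div_le_self _ _).trans ih

@[fun_prop]
theorem Poly.digit {q c u : α → ℕ} (hq : Poly q) (hc : Poly c) (hu : Poly u) :
    Poly (fun a => digit (q a) (c a) (u a)) := by
  have key := Poly.iterate (f := fun a x => x / q a) (s := c) (n := u) (B := fun a => sz (c a))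
    (by fun_prop) hc hu hc.sz_le (by
      intro a k hk
      have := div_iterate_le (q a) (c a) k
      rw [sz_nat, sz_nat]
      omega)
  unfold JS.digit
  fun_prop

@[fun_prop]
theorem Poly.len {s : α → ℕ} (h : Poly s) : Poly (fun a => len (s a)) := by
  unfold JS.len
  fun_prop

theorem sqrt_iterate (M k : ℕ) :
    (fun r => if (r + 1) * (r + 1) ≤ M then r + 1 else r)^[k] 0 = min k (Nat.sqrt M) := by
  induction k with
  | zero => simp
  | succ k ih =>
    rw [Function.iterate_succ_apply', ih]
    have h := @Nat.le_sqrt (min k (Nat.sqrt M) + 1) M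
    by_cases hc : (min k (Nat.sqrt M) + 1) * (min k (Nat.sqrt M) + 1) ≤ M
    · rw [if_pos hc]
      have := h.2 hc
      omega
    · rw [if_neg hc]
      have : ¬ (min k (Nat.sqrt M) + 1 ≤ Nat.sqrt M) := fun h' => hc (h.1 h')
      omega

@[fun_prop]
theorem Poly.sqrt {M : α → ℕ} (hM : Poly M) : Poly (fun a => Nat.sqrt (M a)) := by
  have key := Poly.iterate (f := fun a r => if (r + 1) * (r + 1) ≤ M a then r + 1 else r)
    (s := fun _ : α => 0) (n := M) (B := fun a => sz (M a)) (by fun_prop) (by fun_prop) hM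
    hM.sz_le (by
      intro a k hk
      rw [sqrt_iterate, sz_nat, sz_nat]
      omega)
  refine (show (fun a => Nat.sqrt (M a)) = _ from ?_) ▸ key
  funext a
  rw [sqrt_iterate]
  have := Nat.sqrt_le_self (M a)
  omega

@[fun_prop]
theorem Poly.sOf {M : α → ℕ} (h : Poly M) : Poly (fun a => sOf (M a)) := by
  unfold JS.sOf
  fun_prop

/-- The power `16 ^ (2 d)`, as long as it is at most `W`. -/
def capPow (d W : ℕ) : ℕ := (fun x => min (16 * x) W)^[2 * d] 1

theorem capPow_eq {d W : ℕ} (h : 16 ^ (2 * d) ≤ W) : capPow d W = 16 ^ (2 * d) := by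
  have key : ∀ k ≤ 2 * d, (fun x => min (16 * x) W)^[k] 1 = 16 ^ k := by
    intro k
    induction k with
    | zero => intro _; rfl
    | succ k ih =>
      intro hk
      rw [Function.iterate_succ_apply', ih (by omega)]
      have h1 : 16 ^ (k + 1) ≤ 16 ^ (2 * d) := Nat.pow_le_pow_right (by norm_num) hk
      have e : 16 * 16 ^ k = 16 ^ (k + 1) := by ring
      show min (16 * 16 ^ k) W = _
      rw [e]
      omega
  exact key _ le_rfl

@[fun_prop]
theorem Poly.capPow {d W : α → ℕ} (hd : Poly d) (hW : Poly W) :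
    Poly (fun a => capPow (d a) (W a)) := by
  have key := Poly.iterate (f := fun a x => min (16 * x) (W a))
    (s := fun _ : α => 1) (n := fun a => 2 * d a) (B := fun a => sz (W a) + 2) (by fun_prop)
    (by fun_prop) (by fun_prop) (hW.sz_le.add (PBdd.const 2)) (by
      intro a k hk
      cases k with
      | zero => simp
      | succ k =>
        rw [Function.iterate_succ_apply', sz_nat, sz_nat]
        have := min_le_right (16 * ((fun x => min (16 * x) (W a))^[k] 1)) (W a)
        show 2 * min (16 * ((fun x => min (16 * x) (W a))^[k] 1)) (W a) + 1 ≤ _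
        omega)
  exact key

/-! ### The instance -/

@[fun_prop]
theorem Poly.litOf {c : α → Clause} {r : α → ℕ} (hc : Poly c) (hr : Poly r) :
    Poly (fun a => litOf (c a) (r a)) := by
  unfold JS.litOf
  fun_prop

@[fun_prop]
theorem Poly.allowed {t r x y : α → ℕ} {sg : α → Bool} (ht : Poly t) (hr : Poly r)
    (hsg : Poly sg) (hx : Poly x) (hy : Poly y) :
    Poly (fun a => allowed (t a) (r a) (sg a) (x a) (y a)) := by
  unfold JS.allowed
  fun_prop

@[fun_prop]
theorem Poly.fstJob {k t v : α → ℕ} (hk : Poly k) (ht : Poly t) (hv : Poly v) :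
    Poly (fun a => fstJob (k a) (t a) (v a)) := by
  unfold JS.fstJob
  fun_prop

@[fun_prop]
theorem Poly.sndJob {k t c v : α → ℕ} (hk : Poly k) (ht : Poly t) (hc : Poly c) (hv : Poly v) :
    Poly (fun a => sndJob (k a) (t a) (c a) (v a)) := by
  unfold JS.sndJob
  fun_prop

/-- the value of `special` for a given clause -/
def special1 (cl : Clause) (k d i j p : ℕ) : Bool :=
  !allowed (i / 65536 % 3) (i / 196608 % 3) (litOf cl (i / 196608 % 3)).2
      ((i / 4096 % 16 + 16 - i / 16 % 16) % 16) ((i / 256 % 16 + 16 - i % 16) % 16) &&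
    ((decide (j = fstJob k (i / 65536 % 3) (litOf cl (i / 196608 % 3)).1) &&
        (decide (digit 16 p (i / 589824 / k) = i / 4096 % 16) &&
          decide (digit 16 p (d + (litOf cl (i / 196608 % 3)).1 / k) = i / 256 % 16))) ||
      (decide (j = sndJob k (i / 65536 % 3) (i / 589824) (litOf cl (i / 196608 % 3)).1) &&
        (decide (digit 16 p (i / 589824 / k) = i / 16 % 16) &&
          decide (digit 16 p (d + (litOf cl (i / 196608 % 3)).1 / k) = i % 16))))

theorem special_eq (φ : CNF) (k d i j p : ℕ) :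
    special φ k d i j p = match φ.2[i / 589824]? with
      | none => false
      | some cl => special1 cl k d i j p := rfl

@[fun_prop]
theorem Poly.special1 {cl : α → Clause} {k d i j p : α → ℕ} (hcl : Poly cl) (hk : Poly k)
    (hd : Poly d) (hi : Poly i) (hj : Poly j) (hp : Poly p) :
    Poly (fun a => special1 (cl a) (k a) (d a) (i a) (j a) (p a)) := by
  unfold JS.special1
  fun_prop

@[fun_prop]
theorem Poly.special {φ : α → CNF} {k d i j p : α → ℕ} (hφ : Poly φ) (hk : Poly k)
    (hd : Poly d) (hi : Poly i) (hj : Poly j) (hp : Poly p) :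
    Poly (fun a => special (φ a) (k a) (d a) (i a) (j a) (p a)) := by
  have key := Poly.ocase (l := fun a => (φ a).2[i a / 589824]?) (f := fun _ => false)
    (g := fun a cl => JS.special1 cl (k a) (d a) (i a) (j a) (p a)) (by fun_prop) (by fun_prop)
    (by fun_prop)
  refine (show (fun a => JS.special (φ a) (k a) (d a) (i a) (j a) (p a)) = _ from ?_) ▸ key
  funext a
  rw [special_eq]
  cases (φ a).2[i a / 589824]? <;> rfl

@[fun_prop]
theorem Poly.shift {k s w P : α → ℕ} (hk : Poly k) (hs : Poly s) (hw : Poly w) (hP : Poly P) :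
    Poly (fun a => shift (k a) (s a) (w a) (P a)) := by
  unfold JS.shift
  fun_prop

@[fun_prop]
theorem Poly.mach {φ : α → CNF} {k d s w j P : α → ℕ} (hφ : Poly φ) (hk : Poly k)
    (hd : Poly d) (hs : Poly s) (hw : Poly w) (hj : Poly j) (hP : Poly P) :
    Poly (fun a => mach (φ a) (k a) (d a) (s a) (w a) (j a) (P a)) := by
  unfold JS.mach
  fun_prop

@[fun_prop]
theorem Poly.inst {φ : α → CNF} {k d s R w : α → ℕ} (hφ : Poly φ) (hk : Poly k)
    (hd : Poly d) (hs : Poly s) (hR : Poly R) (hw : Poly w) :
    Poly (fun a => inst (φ a) (k a) (d a) (s a) (R a) (w a)) := by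
  unfold JS.inst
  fun_prop

end

/-! ### Sizes -/

theorem mach_le (φ : CNF) (k d s w j P : ℕ) (hj : j ≤ 2 * k + 1) :
    mach φ k d s w j P ≤ 2 * k + 1 := by
  unfold mach
  split_ifs
  · cases special φ k d (P % len s / 3) j (P / len s)
    · exact hj
    · exact le_rfl
  · exact (Nat.mod_lt _ (by omega)).le

theorem sz_inst_le (φ : CNF) (k d s R w : ℕ) :
    sz (inst φ k d s R w) ≤ 100 * (k + 1) ^ 2 * (R * len s + 1) := by
  unfold inst
  set n := R * len s with hn
  have h1 : ∀ j < 2 * k + 1, sz ((List.range n).map fun P => (mach φ k d s w j P, 1)) ≤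
      n * (4 * k + 8) + 1 := by
    intro j hj
    have h := sz_le_of_forall ((List.range n).map fun P => (mach φ k d s w j P, 1)) (4 * k + 7) (by
      intro a ha
      obtain ⟨P, _, rfl⟩ := List.mem_map.1 ha
      rw [sz_pair, sz_nat, sz_nat]
      have := mach_le φ k d s w j P (by omega)
      omega)
    rw [List.length_map, List.length_range] at h
    exact h
  have h2 := sz_le_of_forall ((List.range (2 * k + 1)).map fun j =>
    (List.range n).map fun P => (mach φ k d s w j P, 1)) (n * (4 * k + 8) + 1) (by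
      intro a ha
      obtain ⟨j, hj, rfl⟩ := List.mem_map.1 ha
      exact h1 j (List.mem_range.1 hj))
  rw [List.length_map, List.length_range] at h2
  rw [sz_pair, sz_nat]
  refine (Nat.add_le_add_right (Nat.add_le_add_left h2 _) _).trans ?_
  nlinarith [Nat.zero_le (n * k), Nat.zero_le (n * k ^ 2), Nat.zero_le n, Nat.zero_le (k ^ 2)]

theorem sz_cnf_le {d : ℕ} {φ : CNF} (h : Sparse d φ) :
    sz φ ≤ 30 * (d + 1) * (φ.1 + 1) ^ 2 := by
  obtain ⟨hlen, hv⟩ := h
  have h1 := sz_le_of_forall φ.2 (6 * φ.1 + 11) (by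
    intro c hc
    obtain ⟨h1, h2, h3⟩ := hv c hc
    rw [sz_prod c, sz_prod c.1, sz_prod c.2, sz_prod c.2.1, sz_prod c.2.2, sz_nat, sz_nat, sz_nat]
    have e1 := sz_bool_le c.1.2
    have e2 := sz_bool_le c.2.1.2
    have e3 := sz_bool_le c.2.2.2
    omega)
  rw [sz_prod, sz_nat]
  have h2 := Nat.mul_le_mul_right (6 * φ.1 + 11 + 1) hlen
  refine (Nat.add_le_add_right (Nat.add_le_add_left (h1.trans (Nat.add_le_add_right h2 1)) _)
    _).trans ?_
  nlinarith [Nat.zero_le (d * φ.1), Nat.zero_le (d * φ.1 ^ 2), Nat.zero_le d, Nat.zero_le φ.1,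
    Nat.zero_le (φ.1 ^ 2)]

/-! ### Codes -/

theorem bits_nat (n : ℕ) : (enc n).bits = codeNat n := by
  induction n with
  | zero => rfl
  | succ n ih =>
    rw [enc_succ]
    show true :: ([false] ++ (enc n).bits) = _
    rw [ih]
    unfold codeNat
    rw [List.replicate_succ, List.flatten_cons]
    rfl

theorem bits_bool (b : Bool) : (enc b).bits = codeBool b := by cases b <;> rfl

theorem bits_pair {β γ : Type} [Enc β] [Enc γ] {c : β → List Bool} {c' : γ → List Bool}
    (h : ∀ b, (enc b).bits = c b) (h' : ∀ b, (enc b).bits = c' b) (x : β × γ) :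
    (enc x).bits = codePair c c' x := by
  rw [enc_prod]
  show true :: ((enc x.1).bits ++ (enc x.2).bits) = _
  rw [h, h']
  rfl

theorem bits_list {β : Type} [Enc β] {c : β → List Bool} (h : ∀ b, (enc b).bits = c b)
    (l : List β) : (enc l).bits = codeList c l := by
  induction l with
  | nil => rfl
  | cons a l ih =>
    rw [enc_lcons]
    show true :: ((enc a).bits ++ (enc l).bits) = _
    rw [h, ih]
    unfold codeList
    rw [List.flatMap_cons, List.append_assoc]
    rfl

theorem bits_shop (I : Shop) : (enc I).bits = codeShop I :=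
  bits_pair bits_nat (bits_list (bits_list (bits_pair bits_nat bits_nat))) I

theorem bits_sched (s : List (List (List Bool))) : (enc s).bits = codeSched s :=
  bits_list (bits_list (bits_list bits_bool)) s

theorem bits_cnf (φ : CNF) : (enc φ).bits = codeCNF φ :=
  bits_pair bits_nat (bits_list (bits_pair (bits_pair bits_nat bits_bool)
    (bits_pair (bits_pair bits_nat bits_bool) (bits_pair bits_nat bits_bool)))) φ

theorem bits_in1 (x : Shop × ℕ) : (enc x).bits = codePair codeShop codeNat x :=
  bits_pair bits_shop bits_nat x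

theorem bits_in2 (x : Shop × ℕ × ℕ) :
    (enc x).bits = codePair codeShop (codePair codeNat codeNat) x :=
  bits_pair bits_shop (bits_pair bits_nat bits_nat) x

end Pool.Agent.H.JS
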