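import Pool.Agent.H.MP_aeb38e_lc.Bdd
import Pool.Agent.H.MP_aeb38e_lc.PInst

/-!
Branching over the variables which are contained in many clauses: definitions, and computability
in polynomial time.
-/

namespace Pool.Agent.H.JS

open Turing Pool.Agent.H.MP_5be563_lc.PT

/-- the clause contains the variable `v` -/
def has (v : ℕ) (c : Clause) : Bool := c.1.1 == v || (c.2.1.1 == v || c.2.2.1 == v)

/-- the variable `v` is contained in more than `B` clauses -/
def hvy (B : ℕ) (φ : CNF) (v : ℕ) : Bool := decide (B < (φ.2.filter fun c => has v c).length)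

/-- number of the heavy variables below `v` -/
def hix (B : ℕ) (φ : CNF) (v : ℕ) : ℕ := ((List.range v).filter fun u => hvy B φ u).length

/-- value of the heavy variable `v` in the branch `w` -/
def hval (B : ℕ) (φ : CNF) (w v : ℕ) : Bool := decide (digit 2 w (hix B φ v) = 1)

/-- the literal is heavy, and true in the branch `w` -/
def ltrue (B : ℕ) (φ : CNF) (w : ℕ) (l : Lit) : Bool := hvy B φ l.1 && (hval B φ w l.1 == l.2)

/-- the clause is satisfied by the heavy literals in the branch `w` -/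
def csat (B : ℕ) (φ : CNF) (w : ℕ) (c : Clause) : Bool :=
  ltrue B φ w c.1 || (ltrue B φ w c.2.1 || ltrue B φ w c.2.2)

/-- the light literals of the clause -/
def light (B : ℕ) (φ : CNF) (c : Clause) : List Lit :=
  [c.1, c.2.1, c.2.2].filter fun l => !hvy B φ l.1

/-- some clause is falsified in the branch `w` -/
def dead (B : ℕ) (φ : CNF) (w : ℕ) : Bool :=
  φ.2.any fun c => !csat B φ w c && (light B φ c).isEmpty

/-- a heavy literal is replaced by the literal `d` -/
def swl (B : ℕ) (φ : CNF) (d l : Lit) : Lit := bif hvy B φ l.1 then d else l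

/-- the heavy literals are replaced by a light literal of the clause -/
def cres (B : ℕ) (φ : CNF) (c : Clause) : Clause :=
  (swl B φ ((light B φ c).headD (0, false)) c.1, swl B φ ((light B φ c).headD (0, false)) c.2.1,
    swl B φ ((light B φ c).headD (0, false)) c.2.2)

/-- the clauses which remain in the branch `w` -/
def res (B : ℕ) (φ : CNF) (w : ℕ) : List Clause :=
  (φ.2.filter fun c => !csat B φ w c && !(light B φ c).isEmpty).map fun c => cres B φ c

/-- the variable `v` is used -/
def used (ψ : List Clause) (v : ℕ) : Bool := ψ.any fun c => has v c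

/-- number of the used variables below `v` -/
def rnk (ψ : List Clause) (v : ℕ) : ℕ := ((List.range v).filter fun u => used ψ u).length

/-- renaming of the variables -/
def ren (ψ : List Clause) (c : Clause) : Clause :=
  ((rnk ψ c.1.1, c.1.2), (rnk ψ c.2.1.1, c.2.1.2), (rnk ψ c.2.2.1, c.2.2.2))

/-- removal of the variables which are not used -/
def tidy (n : ℕ) (ψ : List Clause) : CNF := (rnk ψ n, ψ.map fun c => ren ψ c)

/-- the formula of the branch `w` -/
def branch (B : ℕ) (φ : CNF) (w : ℕ) : CNF := tidy φ.1 (res B φ w)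

section
variable {α : Type} [Enc α]

@[fun_prop]
theorem Poly.has {v : α → ℕ} {c : α → Clause} (hv : Poly v) (hc : Poly c) :
    Poly (fun a => has (v a) (c a)) := by
  unfold JS.has
  fun_prop

@[fun_prop]
theorem Poly.hvy {B : α → ℕ} {φ : α → CNF} {v : α → ℕ} (hB : Poly B) (hφ : Poly φ)
    (hv : Poly v) : Poly (fun a => hvy (B a) (φ a) (v a)) := by
  unfold JS.hvy
  fun_prop

@[fun_prop]
theorem Poly.hix {B : α → ℕ} {φ : α → CNF} {v : α → ℕ} (hB : Poly B) (hφ : Poly φ)
    (hv : Poly v) : Poly (fun a => hix (B a) (φ a) (v a)) := by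
  unfold JS.hix
  fun_prop

@[fun_prop]
theorem Poly.hval {B : α → ℕ} {φ : α → CNF} {w v : α → ℕ} (hB : Poly B) (hφ : Poly φ)
    (hw : Poly w) (hv : Poly v) : Poly (fun a => hval (B a) (φ a) (w a) (v a)) := by
  unfold JS.hval
  fun_prop

@[fun_prop]
theorem Poly.ltrue {B : α → ℕ} {φ : α → CNF} {w : α → ℕ} {l : α → Lit} (hB : Poly B)
    (hφ : Poly φ) (hw : Poly w) (hl : Poly l) :
    Poly (fun a => ltrue (B a) (φ a) (w a) (l a)) := by
  unfold JS.ltrue
  fun_prop

@[fun_prop]
theorem Poly.csat {B : α → ℕ} {φ : α → CNF} {w : α → ℕ} {c : α → Clause} (hB : Poly B)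
    (hφ : Poly φ) (hw : Poly w) (hc : Poly c) :
    Poly (fun a => csat (B a) (φ a) (w a) (c a)) := by
  unfold JS.csat
  fun_prop

@[fun_prop]
theorem Poly.light {B : α → ℕ} {φ : α → CNF} {c : α → Clause} (hB : Poly B)
    (hφ : Poly φ) (hc : Poly c) : Poly (fun a => light (B a) (φ a) (c a)) := by
  unfold JS.light
  fun_prop

@[fun_prop]
theorem Poly.dead {B : α → ℕ} {φ : α → CNF} {w : α → ℕ} (hB : Poly B)
    (hφ : Poly φ) (hw : Poly w) : Poly (fun a => dead (B a) (φ a) (w a)) := by
  unfold JS.dead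
  fun_prop

@[fun_prop]
theorem Poly.swl {B : α → ℕ} {φ : α → CNF} {d l : α → Lit} (hB : Poly B)
    (hφ : Poly φ) (hd : Poly d) (hl : Poly l) :
    Poly (fun a => swl (B a) (φ a) (d a) (l a)) := by
  unfold JS.swl
  fun_prop

@[fun_prop]
theorem Poly.cres {B : α → ℕ} {φ : α → CNF} {c : α → Clause} (hB : Poly B)
    (hφ : Poly φ) (hc : Poly c) : Poly (fun a => cres (B a) (φ a) (c a)) := by
  unfold JS.cres
  fun_prop

@[fun_prop]
theorem Poly.res {B : α → ℕ} {φ : α → CNF} {w : α → ℕ} (hB : Poly B)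
    (hφ : Poly φ) (hw : Poly w) : Poly (fun a => res (B a) (φ a) (w a)) := by
  unfold JS.res
  fun_prop

@[fun_prop]
theorem Poly.used {ψ : α → List Clause} {v : α → ℕ} (hψ : Poly ψ) (hv : Poly v) :
    Poly (fun a => used (ψ a) (v a)) := by
  unfold JS.used
  fun_prop

@[fun_prop]
theorem Poly.rnk {ψ : α → List Clause} {v : α → ℕ} (hψ : Poly ψ) (hv : Poly v) :
    Poly (fun a => rnk (ψ a) (v a)) := by
  unfold JS.rnk
  fun_prop

@[fun_prop]
theorem Poly.ren {ψ : α → List Clause} {c : α → Clause} (hψ : Poly ψ) (hc : Poly c) :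
    Poly (fun a => ren (ψ a) (c a)) := by
  unfold JS.ren
  fun_prop

@[fun_prop]
theorem Poly.tidy {n : α → ℕ} {ψ : α → List Clause} (hn : Poly n) (hψ : Poly ψ) :
    Poly (fun a => tidy (n a) (ψ a)) := by
  unfold JS.tidy
  fun_prop

@[fun_prop]
theorem Poly.branch {B : α → ℕ} {φ : α → CNF} {w : α → ℕ} (hB : Poly B)
    (hφ : Poly φ) (hw : Poly w) : Poly (fun a => branch (B a) (φ a) (w a)) := by
  unfold JS.branch
  fun_prop

end

end Pool.Agent.H.JS
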