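import Pool.Agent.H.MP_aeb38e_lc.Occ1

/-!
Properties of the branches.
-/

namespace Pool.Agent.H.JS

/-! ### Ranks -/

/-- number of the elements below `v` with the property `p` -/
def rk (p : ℕ → Bool) (v : ℕ) : ℕ := ((List.range v).filter p).length

theorem rk_succ (p : ℕ → Bool) (v : ℕ) : rk p (v + 1) = rk p v + if p v = true then 1 else 0 := by
  unfold rk
  rw [List.range_succ, List.filter_append, List.length_append]
  congr 1
  by_cases h : p v = true
  · simp [h]
  · simp [h]

theorem rk_mono (p : ℕ → Bool) {u v : ℕ} (h : u ≤ v) : rk p u ≤ rk p v := by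
  induction v with
  | zero =>
    have : u = 0 := by omega
    rw [this]
  | succ v ih =>
    rcases Nat.eq_or_lt_of_le h with h1 | h1
    · rw [h1]
    · rw [rk_succ]
      exact (ih (by omega)).trans (Nat.le_add_right _ _)

theorem rk_lt (p : ℕ → Bool) {u v : ℕ} (hu : p u = true) (h : u < v) : rk p u < rk p v := by
  have h1 : rk p (u + 1) ≤ rk p v := rk_mono p h
  rw [rk_succ, if_pos hu] at h1
  omega

theorem rk_inj (p : ℕ → Bool) {u v : ℕ} (hu : p u = true) (hv : p v = true)
    (h : rk p u = rk p v) : u = v := by
  rcases Nat.lt_trichotomy u v with h1 | h1 | h1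
  · have := rk_lt p hu h1; omega
  · exact h1
  · have := rk_lt p hv h1; omega

theorem rk_surj (p : ℕ → Bool) {n r : ℕ} (h : r < rk p n) : ∃ v < n, p v = true ∧ rk p v = r := by
  induction n with
  | zero => simp [rk] at h
  | succ n ih =>
    by_cases h1 : r < rk p n
    · obtain ⟨v, hv, h2⟩ := ih h1
      exact ⟨v, by omega, h2⟩
    · rw [rk_succ] at h
      by_cases h2 : p n = true
      · rw [if_pos h2] at h
        exact ⟨n, by omega, h2, by omega⟩
      · rw [if_neg h2] at h
        omega

theorem rk_le (p : ℕ → Bool) (n : ℕ) : rk p n ≤ n := by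
  unfold rk
  exact (List.length_filter_le _ _).trans (by simp)

theorem rnk_eq (ψ : List Clause) (v : ℕ) : rnk ψ v = rk (used ψ) v := rfl

theorem hix_eq (B : ℕ) (φ : CNF) (v : ℕ) : hix B φ v = rk (hvy B φ) v := rfl

/-! ### Digits -/

theorem exists_digits (h : ℕ) : ∀ b : ℕ → Bool, ∃ w < 2 ^ h, ∀ i < h,
    decide (digit 2 w i = 1) = b i := by
  induction h with
  | zero => intro b; exact ⟨0, by simp, fun i hi => by omega⟩
  | succ h ih =>
    intro b
    obtain ⟨w, hw, h1⟩ := ih fun i => b (i + 1)
    refine ⟨2 * w + (b 0).toNat, ?_, fun i hi => ?_⟩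
    · have : (b 0).toNat ≤ 1 := by cases b 0 <;> simp
      rw [pow_succ]
      omega
    · have hb : (b 0).toNat ≤ 1 := by cases b 0 <;> simp
      cases i with
      | zero =>
        show decide ((2 * w + (b 0).toNat) % 2 = 1) = b 0
        cases h0 : b 0
        · simp
        · simp
      | succ i =>
        have h2 := h1 i (by omega)
        unfold digit at h2 ⊢
        rw [Function.iterate_succ_apply]
        have e : (2 * w + (b 0).toNat) / 2 = w := by omega
        rw [e]
        exact h2

/-- each assignment of the heavy variables is one of the branches -/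
theorem exists_branch (B : ℕ) (φ : CNF) (τ : ℕ → Bool) : ∃ w < 2 ^ hix B φ φ.1, ∀ v < φ.1,
    hvy B φ v = true → hval B φ w v = τ v := by
  obtain ⟨w, hw, h⟩ := exists_digits (hix B φ φ.1)
    (fun i => decide (∃ v < φ.1, hvy B φ v = true ∧ hix B φ v = i ∧ τ v = true))
  refine ⟨w, hw, fun v hv hh => ?_⟩
  unfold hval
  rw [h _ (by rw [hix_eq, hix_eq]; exact rk_lt _ hh hv)]
  cases hτ : τ v with
  | true => exact decide_eq_true ⟨v, hv, hh, rfl, hτ⟩
  | false =>
    refine decide_eq_false ?_
    rintro ⟨u, hu, hu1, hu2, hu3⟩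
    have : u = v := rk_inj _ hu1 hh hu2
    rw [this, hτ] at hu3
    exact absurd hu3 (by simp)

/-! ### Literals and clauses -/

/-- the literal is true -/
def lh (τ : ℕ → Bool) (l : Lit) : Bool := τ l.1 == l.2

theorem holds_eq (τ : ℕ → Bool) (c : Clause) :
    holds τ c = (lh τ c.1 || (lh τ c.2.1 || lh τ c.2.2)) := by
  unfold holds lh
  rw [Bool.or_assoc]

/-- the assignment `τ` with the values of the branch `w` at the heavy variables -/
def mix (B : ℕ) (φ : CNF) (w : ℕ) (τ : ℕ → Bool) (v : ℕ) : Bool :=
  bif hvy B φ v then hval B φ w v else τ v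

/-- a clause which is satisfied by the branch is true -/
theorem holds_of_csat {B : ℕ} {φ : CNF} {w : ℕ} {τ : ℕ → Bool}
    {c : Clause} (hτ : ∀ l ∈ [c.1, c.2.1, c.2.2], hvy B φ l.1 = true → hval B φ w l.1 = τ l.1)
    (h : csat B φ w c = true) : holds τ c = true := by
  rw [holds_eq]
  unfold csat at h
  have key : ∀ l ∈ [c.1, c.2.1, c.2.2], ltrue B φ w l = true → lh τ l = true := by
    intro l hl h1
    unfold ltrue at h1
    rw [Bool.and_eq_true] at h1
    unfold lh
    rw [← hτ l hl h1.1]
    exact h1.2
  simp only [Bool.or_eq_true] at h ⊢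
  rcases h with h | h | h
  · exact Or.inl (key _ (by simp) h)
  · exact Or.inr (Or.inl (key _ (by simp) h))
  · exact Or.inr (Or.inr (key _ (by simp) h))

/-- a clause which is not satisfied by the branch is equivalent to its rest -/
theorem holds_cres {B : ℕ} {φ : CNF} {w : ℕ} {τ : ℕ → Bool} {c : Clause}
    (hτ : ∀ l ∈ [c.1, c.2.1, c.2.2], hvy B φ l.1 = true → hval B φ w l.1 = τ l.1)
    (h : csat B φ w c = false) (hl : (light B φ c).isEmpty = false) :
    holds τ (cres B φ c) = holds τ c := by
  set d := (light B φ c).headD (0, false) with hd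
  have hdm : d ∈ light B φ c := by
    rw [hd]
    cases hh : light B φ c with
    | nil => rw [hh] at hl; simp at hl
    | cons a l => simp
  have hd1 : d ∈ [c.1, c.2.1, c.2.2] := (List.mem_filter.1 hdm).1
  have hd2 : hvy B φ d.1 = false := by
    have := (List.mem_filter.1 hdm).2
    simpa using this
  -- heavy literals are false
  have hf : ∀ l ∈ [c.1, c.2.1, c.2.2], hvy B φ l.1 = true → lh τ l = false := by
    intro l hl' hh
    have h1 : ltrue B φ w l = false := by
      unfold csat at h
      simp only [Bool.or_eq_false_iff] at h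
      simp only [List.mem_cons, List.not_mem_nil, or_false] at hl'
      rcases hl' with rfl | rfl | rfl
      · exact h.1
      · exact h.2.1
      · exact h.2.2
    unfold ltrue at h1
    rw [hh, Bool.true_and, hτ l hl' hh] at h1
    exact h1
  have h3 : ∀ l ∈ [c.1, c.2.1, c.2.2], lh τ (swl B φ d l) = true →
      (lh τ l = true ∨ lh τ d = true) := by
    intro l _ h4
    unfold swl at h4
    cases hh : hvy B φ l.1
    · rw [hh, cond_false] at h4; exact Or.inl h4
    · rw [hh, cond_true] at h4; exact Or.inr h4
  have h5 : ∀ l ∈ [c.1, c.2.1, c.2.2], lh τ l = true → lh τ (swl B φ d l) = true := by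
    intro l hl' h4
    unfold swl
    cases hh : hvy B φ l.1
    · rw [cond_false]; exact h4
    · rw [hf l hl' hh] at h4; exact absurd h4 (by simp)
  have h6 : lh τ d = true → lh τ c.1 = true ∨ lh τ c.2.1 = true ∨ lh τ c.2.2 = true := by
    intro h4
    simp only [List.mem_cons, List.not_mem_nil, or_false] at hd1
    rcases hd1 with h7 | h7 | h7
    · rw [h7] at h4; exact Or.inl h4
    · rw [h7] at h4; exact Or.inr (Or.inl h4)
    · rw [h7] at h4; exact Or.inr (Or.inr h4)
  rw [Bool.eq_iff_iff, holds_eq, holds_eq]
  simp only [Bool.or_eq_true]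
  show (lh τ (swl B φ d c.1) = true ∨ lh τ (swl B φ d c.2.1) = true ∨
    lh τ (swl B φ d c.2.2) = true) ↔ _
  constructor
  · rintro (h4 | h4 | h4)
    · rcases h3 _ (by simp) h4 with h8 | h8
      · exact Or.inl h8
      · exact h6 h8
    · rcases h3 _ (by simp) h4 with h8 | h8
      · exact Or.inr (Or.inl h8)
      · exact h6 h8
    · rcases h3 _ (by simp) h4 with h8 | h8
      · exact Or.inr (Or.inr h8)
      · exact h6 h8
  · rintro (h4 | h4 | h4)
    · exact Or.inl (h5 _ (by simp) h4)
    · exact Or.inr (Or.inl (h5 _ (by simp) h4))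
    · exact Or.inr (Or.inr (h5 _ (by simp) h4))

/-- the variables of the rest of a clause are light variables of the clause -/
theorem has_cres {B : ℕ} {φ : CNF} {c : Clause} {v : ℕ} (hl : (light B φ c).isEmpty = false)
    (h : has v (cres B φ c) = true) : has v c = true ∧ hvy B φ v = false := by
  set d := (light B φ c).headD (0, false) with hd
  have hdm : d ∈ light B φ c := by
    rw [hd]
    cases hh : light B φ c with
    | nil => rw [hh] at hl; simp at hl
    | cons a l => simp
  have hd1 : d ∈ [c.1, c.2.1, c.2.2] := (List.mem_filter.1 hdm).1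
  have hd2 : hvy B φ d.1 = false := by
    have := (List.mem_filter.1 hdm).2
    simpa using this
  have hmem : ∀ l ∈ [c.1, c.2.1, c.2.2], has l.1 c = true := by
    intro l hl'
    unfold has
    simp only [List.mem_cons, List.not_mem_nil, or_false] at hl'
    rcases hl' with h7 | h7 | h7 <;> rw [h7] <;> simp
  have h3 : ∀ l ∈ [c.1, c.2.1, c.2.2], (swl B φ d l).1 = v →
      has v c = true ∧ hvy B φ v = false := by
    intro l hl' h4
    unfold swl at h4
    cases hh : hvy B φ l.1
    · rw [hh, cond_false] at h4
      rw [← h4]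
      exact ⟨hmem l hl', hh⟩
    · rw [hh, cond_true] at h4
      rw [← h4]
      exact ⟨hmem d hd1, hd2⟩
  unfold has at h
  simp only [Bool.or_eq_true, beq_iff_eq] at h
  rcases h with h | h | h
  · exact h3 _ (by simp) h
  · exact h3 _ (by simp) h
  · exact h3 _ (by simp) h

/-! ### Removal of the variables which are not used -/

theorem used_of_mem {ψ : List Clause} {c : Clause} (hc : c ∈ ψ) {l : Lit}
    (hl : l ∈ [c.1, c.2.1, c.2.2]) : used ψ l.1 = true := by
  unfold used
  rw [List.any_eq_true]
  refine ⟨c, hc, ?_⟩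
  unfold has
  simp only [List.mem_cons, List.not_mem_nil, or_false] at hl
  rcases hl with h7 | h7 | h7 <;> rw [h7] <;> simp

theorem holds_ren {ψ : List Clause} {τ σ : ℕ → Bool}
    (hτ : ∀ v, used ψ v = true → σ (rnk ψ v) = τ v) {c : Clause} (hc : c ∈ ψ) :
    holds σ (ren ψ c) = holds τ c := by
  unfold holds ren
  simp only
  rw [hτ _ (used_of_mem hc (l := c.1) (by simp)), hτ _ (used_of_mem hc (l := c.2.1) (by simp)),
    hτ _ (used_of_mem hc (l := c.2.2) (by simp))]

/-- an assignment of the new variables for an assignment of the old ones -/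
theorem exists_old (ψ : List Clause) (τ : ℕ → Bool) : ∃ σ : ℕ → Bool, ∀ v, used ψ v = true →
    σ (rnk ψ v) = τ v := by
  classical
  refine ⟨fun r => decide (∃ v, used ψ v = true ∧ rnk ψ v = r ∧ τ v = true), fun v hv => ?_⟩
  beta_reduce
  cases hτ : τ v with
  | true => exact decide_eq_true ⟨v, hv, rfl, hτ⟩
  | false =>
    refine decide_eq_false ?_
    rintro ⟨u, hu1, hu2, hu3⟩
    have : u = v := rk_inj _ hu1 hv hu2
    rw [this, hτ] at hu3
    exact absurd hu3 (by simp)

theorem sat_tidy {n : ℕ} {ψ : List Clause} {τ : ℕ → Bool} (h : ∀ c ∈ ψ, holds τ c = true) :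
    Sat (tidy n ψ) := by
  obtain ⟨σ, hσ⟩ := exists_old ψ τ
  refine ⟨σ, fun c hc => ?_⟩
  obtain ⟨c', hc', rfl⟩ := List.mem_map.1 hc
  rw [holds_ren hσ hc']
  exact h c' hc'

theorem countP_tidy {n : ℕ} {ψ : List Clause} (σ : ℕ → Bool) :
    (tidy n ψ).2.countP (fun c => !holds σ c) =
      ψ.countP (fun c => !holds (fun v => σ (rnk ψ v)) c) := by
  unfold tidy
  rw [List.countP_map]
  apply List.countP_congr
  intro c hc
  simp only [Function.comp_apply]
  rw [holds_ren (τ := fun v => σ (rnk ψ v)) (fun v _ => rfl) hc]

theorem varList_tidy (n : ℕ) (ψ : List Clause) :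
    varList (tidy n ψ) = (varList (n, ψ)).map (rnk ψ) := by
  unfold varList tidy
  rw [List.flatMap_map, List.map_flatMap]
  rfl

theorem used_iff (n : ℕ) (ψ : List Clause) (v : ℕ) : used ψ v = true ↔ v ∈ varList (n, ψ) := by
  unfold used varList has
  simp only [List.any_eq_true, List.mem_flatMap, Bool.or_eq_true, beq_iff_eq, List.mem_cons,
    List.not_mem_nil, or_false]
  constructor
  · rintro ⟨c, hc, h | h | h⟩
    · exact ⟨c, hc, Or.inl h.symm⟩
    · exact ⟨c, hc, Or.inr (Or.inl h.symm)⟩
    · exact ⟨c, hc, Or.inr (Or.inr h.symm)⟩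
  · rintro ⟨c, hc, h | h | h⟩
    · exact ⟨c, hc, Or.inl h.symm⟩
    · exact ⟨c, hc, Or.inr (Or.inl h.symm)⟩
    · exact ⟨c, hc, Or.inr (Or.inr h.symm)⟩

theorem count_map_rnk {ψ : List Clause} {v : ℕ} (hv : used ψ v = true) :
    ∀ l : List ℕ, (∀ u ∈ l, used ψ u = true) → (l.map (rnk ψ)).count (rnk ψ v) = l.count v := by
  intro l
  induction l with
  | nil => intro _; rfl
  | cons u l ih =>
    intro h
    rw [List.map_cons, List.count_cons, List.count_cons,
      ih fun u' hu' => h u' (List.mem_cons_of_mem _ hu')]
    congr 1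
    by_cases huv : u = v
    · rw [huv]; simp
    · have : rnk ψ u ≠ rnk ψ v := fun h' => huv (rk_inj _ (h u List.mem_cons_self) hv h')
      simp [huv, this]

theorem count_varList_le (n : ℕ) (ψ : List Clause) (v : ℕ) :
    (varList (n, ψ)).count v ≤ 3 * (ψ.filter fun c => has v c).length := by
  unfold varList
  simp only
  induction ψ with
  | nil => simp
  | cons c ψ ih =>
    rw [List.flatMap_cons, List.count_append, List.filter_cons]
    by_cases h : has v c = true
    · rw [if_pos h, List.length_cons]
      have : [c.1.1, c.2.1.1, c.2.2.1].count v ≤ 3 := List.count_le_length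
      omega
    · rw [if_neg h]
      have : [c.1.1, c.2.1.1, c.2.2.1].count v = 0 := by
        unfold has at h
        simp only [Bool.or_eq_true, beq_iff_eq, not_or] at h
        rw [List.count_eq_zero]
        simp only [List.mem_cons, List.not_mem_nil, or_false, not_or]
        exact ⟨fun h' => h.1 h'.symm, fun h' => h.2.1 h'.symm, fun h' => h.2.2 h'.symm⟩
      omega

theorem bdd_tidy {n B : ℕ} {ψ : List Clause} (hn : ∀ v ∈ varList (n, ψ), v < n)
    (hB : ∀ v, (ψ.filter fun c => has v c).length ≤ B) : Bdd (3 * B) (tidy n ψ) := by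
  constructor
  · intro r hr
    rw [varList_tidy] at hr
    obtain ⟨v, hv, rfl⟩ := List.mem_map.1 hr
    exact rk_lt _ ((used_iff n ψ v).2 hv) (hn v hv)
  · intro r hr
    obtain ⟨v, hv, hu, rfl⟩ := rk_surj (used ψ) (n := n) (r := r) hr
    rw [varList_tidy]
    have e := count_map_rnk (ψ := ψ) hu (varList (n, ψ)) fun u hu' => (used_iff n ψ u).2 hu'
    rw [rnk_eq] at e
    rw [e]
    refine ⟨List.count_pos_iff.2 ((used_iff n ψ v).1 hu), ?_⟩
    exact (count_varList_le n ψ v).trans (Nat.mul_le_mul_left 3 (hB v))

/-! ### The branches -/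

theorem bdd_branch {B d : ℕ} {φ : CNF} (h : Sparse d φ) (w : ℕ) : Bdd (3 * B) (branch B φ w) := by
  have hmem : ∀ c ∈ res B φ w, ∃ c' ∈ φ.2, (light B φ c').isEmpty = false ∧ c = cres B φ c' := by
    intro c hc
    obtain ⟨c', hc', rfl⟩ := List.mem_map.1 hc
    have h1 := List.mem_filter.1 hc'
    refine ⟨c', h1.1, ?_, rfl⟩
    have h2 := h1.2
    rw [Bool.and_eq_true] at h2
    simpa using h2.2
  refine bdd_tidy ?_ ?_
  · intro v hv
    rw [← used_iff] at hv
    unfold used at hv
    rw [List.any_eq_true] at hv
    obtain ⟨c, hc, hvc⟩ := hv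
    obtain ⟨c', hc', hl, rfl⟩ := hmem c hc
    have h1 := (has_cres hl hvc).1
    have h2 := h.2 c' hc'
    unfold has at h1
    simp only [Bool.or_eq_true, beq_iff_eq] at h1
    rcases h1 with h1 | h1 | h1
    · rw [← h1]; exact h2.1
    · rw [← h1]; exact h2.2.1
    · rw [← h1]; exact h2.2.2
  · intro v
    cases hh : hvy B φ v with
    | true =>
      have : (res B φ w).filter (fun c => has v c) = [] := by
        rw [List.filter_eq_nil_iff]
        intro c hc hvc
        obtain ⟨c', hc', hl, rfl⟩ := hmem c hc
        have h1 := (has_cres hl hvc).2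
        rw [hh] at h1
        exact absurd h1 (by simp)
      rw [this]
      exact Nat.zero_le _
    | false =>
      have h1 : (φ.2.filter fun c => has v c).length ≤ B := by
        unfold hvy at hh
        simpa using hh
      refine le_trans ?_ h1
      unfold res
      rw [List.filter_map, List.length_map, List.filter_filter, ← List.countP_eq_length_filter,
        ← List.countP_eq_length_filter]
      apply List.countP_mono_left
      intro c hc h2
      simp only [Function.comp_apply, Bool.and_eq_true] at h2
      exact (has_cres (by simpa using h2.2.2) h2.1).1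

theorem branch_fst_le (B : ℕ) (φ : CNF) (w : ℕ) : (branch B φ w).1 ≤ φ.1 := rk_le _ _

theorem sat_branch {B d : ℕ} {φ : CNF} (h : Sparse d φ) (hs : Sat φ) :
    ∃ w < 2 ^ hix B φ φ.1, dead B φ w = false ∧ Sat (branch B φ w) := by
  obtain ⟨τ, hτ⟩ := hs
  obtain ⟨w, hw, h1⟩ := exists_branch B φ τ
  have h2 : ∀ c ∈ φ.2, ∀ l ∈ [c.1, c.2.1, c.2.2], hvy B φ l.1 = true →
      hval B φ w l.1 = τ l.1 := by
    intro c hc l hl hh
    refine h1 _ ?_ hh
    have h3 := h.2 c hc
    simp only [List.mem_cons, List.not_mem_nil, or_false] at hl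
    rcases hl with h7 | h7 | h7 <;> rw [h7]
    · exact h3.1
    · exact h3.2.1
    · exact h3.2.2
  refine ⟨w, hw, ?_, ?_⟩
  · unfold dead
    rw [List.any_eq_false]
    intro c hc hd
    rw [Bool.and_eq_true] at hd
    have hcs : csat B φ w c = false := by simpa using hd.1
    have hle : light B φ c = [] := by simpa using hd.2
    have h3 := hτ c hc
    rw [holds_eq] at h3
    have h4 : ∀ l ∈ [c.1, c.2.1, c.2.2], lh τ l = true → ltrue B φ w l = true := by
      intro l hl hlt
      have h5 : hvy B φ l.1 = true := by
        by_contra hc'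
        have : l ∈ light B φ c := List.mem_filter.2 ⟨hl, by simpa using hc'⟩
        rw [hle] at this
        simp at this
      unfold ltrue
      rw [h5, Bool.true_and, h2 c hc l hl h5]
      exact hlt
    unfold csat at hcs
    simp only [Bool.or_eq_false_iff] at hcs
    simp only [Bool.or_eq_true] at h3
    rcases h3 with h3 | h3 | h3
    · have := h4 _ (by simp) h3
      rw [hcs.1] at this
      exact absurd this (by simp)
    · have := h4 _ (by simp) h3
      rw [hcs.2.1] at this
      exact absurd this (by simp)
    · have := h4 _ (by simp) h3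
      rw [hcs.2.2] at this
      exact absurd this (by simp)
  · refine sat_tidy (τ := τ) fun c hc => ?_
    obtain ⟨c', hc', rfl⟩ := List.mem_map.1 hc
    have h3 := List.mem_filter.1 hc'
    have h4 := h3.2
    rw [Bool.and_eq_true] at h4
    rw [holds_cres (h2 c' h3.1) (by simpa using h4.1) (by simpa using h4.2)]
    exact hτ c' h3.1

theorem far_branch {B D : ℕ} {φ : CNF} (hf : Far D φ) {w : ℕ} (hd : dead B φ w = false) :
    Far D (branch B φ w) := by
  intro σ
  set τ : ℕ → Bool := mix B φ w fun v => σ (rnk (res B φ w) v) with hτ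
  have h2 : ∀ l : Lit, hvy B φ l.1 = true → hval B φ w l.1 = τ l.1 := by
    intro l hh
    rw [hτ]
    unfold mix
    rw [hh, cond_true]
  have e1 : (branch B φ w).2.countP (fun c => !holds σ c) =
      φ.2.countP (fun c => !holds τ c) := by
    unfold branch
    rw [countP_tidy]
    have e2 : (res B φ w).countP (fun c => !holds (fun v => σ (rnk (res B φ w) v)) c) =
        (res B φ w).countP (fun c => !holds τ c) := by
      apply List.countP_congr
      intro c hc
      have hlight : ∀ v, has v c = true → hvy B φ v = false := by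
        intro v hv
        obtain ⟨c', hc', rfl⟩ := List.mem_map.1 hc
        have h3 := (List.mem_filter.1 hc').2
        rw [Bool.and_eq_true] at h3
        exact (has_cres (by simpa using h3.2) hv).2
      have e3 : ∀ v, has v c = true → τ v = σ (rnk (res B φ w) v) := by
        intro v hv
        rw [hτ]
        unfold mix
        rw [hlight v hv, cond_false]
      have e4 : holds τ c = holds (fun v => σ (rnk (res B φ w) v)) c := by
        unfold holds
        rw [e3 c.1.1 (by simp [has]), e3 c.2.1.1 (by simp [has]), e3 c.2.2.1 (by simp [has])]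
      rw [e4]
    rw [e2]
    unfold res
    rw [List.countP_map, List.countP_filter]
    apply List.countP_congr
    intro c hc
    simp only [Function.comp_apply, Bool.and_eq_true, Bool.not_eq_true']
    unfold dead at hd
    rw [List.any_eq_false] at hd
    have h3 := hd c hc
    rw [Bool.and_eq_true, not_and] at h3
    cases hcs : csat B φ w c with
    | true =>
      have := holds_of_csat (τ := τ) (fun l _ => h2 l) hcs
      simp [this]
    | false =>
      have h4 : (light B φ c).isEmpty = false := by
        have := h3 (by simp [hcs])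
        simpa using this
      rw [holds_cres (fun l _ => h2 l) hcs h4]
      simp [h4]
  rw [e1]
  refine lt_of_le_of_lt ?_ (hf τ)
  show ((res B φ w).map fun c => ren (res B φ w) c).length ≤ _
  rw [List.length_map]
  unfold res
  rw [List.length_map]
  exact List.length_filter_le _ _

/-- the number of heavy variables -/
theorem hix_mul_le (B : ℕ) (φ : CNF) (n : ℕ) : hix B φ n * (B + 1) ≤ 3 * φ.2.length := by
  have h1 : hix B φ n * (B + 1) ≤ ∑ v ∈ Finset.range n, (φ.2.filter fun c => has v c).length := by
    induction n with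
    | zero => simp [hix]
    | succ n ih =>
      rw [Finset.sum_range_succ, hix_eq, rk_succ, ← hix_eq, add_mul]
      refine Nat.add_le_add ih ?_
      cases hh : hvy B φ n with
      | false => simp
      | true =>
        rw [if_pos rfl, one_mul]
        unfold hvy at hh
        simpa using hh
  refine h1.trans ?_
  generalize φ.2 = l
  induction l with
  | nil => simp
  | cons c l ih =>
    have e : ∀ v, ((c :: l).filter fun c => has v c).length =
        (l.filter fun c => has v c).length + if has v c = true then 1 else 0 := by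
      intro v
      rw [List.filter_cons]
      by_cases h : has v c = true
      · rw [if_pos h, if_pos h, List.length_cons]
      · rw [if_neg h, if_neg h, Nat.add_zero]
    simp only [e]
    rw [Finset.sum_add_distrib, List.length_cons, mul_add]
    refine Nat.add_le_add ih ?_
    rw [← Finset.card_filter]
    refine le_trans (Finset.card_le_card (t := {c.1.1, c.2.1.1, c.2.2.1}) ?_)
      (Finset.card_le_three.trans (by omega))
    intro v hv
    have := (Finset.mem_filter.1 hv).2
    unfold has at this
    simp only [Bool.or_eq_true, beq_iff_eq] at this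
    simp only [Finset.mem_insert, Finset.mem_singleton]
    rcases this with h | h | h
    · exact Or.inl h.symm
    · exact Or.inr (Or.inl h.symm)
    · exact Or.inr (Or.inr h.symm)

end Pool.Agent.H.JS
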