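import Pool.Agent.H.MP_aeb38e_lc.Bdd
import Pool.Agent.H.MP_aeb38e_lc.PInst

/-!
A formula with few clauses is replaced by disjoint copies of itself: this keeps the number of
occurrences of the variables, the satisfiability and the distance to satisfiability.
-/

namespace Pool.Agent.H.JS

open Turing Pool.Agent.H.MP_5be563_lc.PT

/-- The clause with the numbers of its variables increased by `a`. -/
def shiftC (a : ℕ) (c : Clause) : Clause :=
  ((c.1.1 + a, c.1.2), (c.2.1.1 + a, c.2.1.2), (c.2.2.1 + a, c.2.2.2))

/-- The clauses of `m` disjoint copies of a formula with `n` variables. -/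
def copies (m n : ℕ) (l : List Clause) : List Clause :=
  ((List.range m).map fun i => l.map fun c => shiftC (i * n) c).flatten

/-- A formula with fewer than `M0` clauses is replaced by `M0` disjoint copies of it. -/
def rep2 (M0 : ℕ) (φ : CNF) : CNF :=
  if φ.2.length < M0 then (M0 * φ.1, copies M0 φ.1 φ.2) else φ

section
variable {α : Type} [Enc α]

@[fun_prop]
theorem Poly.shiftC {n : α → ℕ} {c : α → Clause} (hn : Poly n) (hc : Poly c) :
    Poly (fun a => shiftC (n a) (c a)) := by
  unfold JS.shiftC
  fun_prop

@[fun_prop]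
theorem Poly.copies {m n : α → ℕ} {l : α → List Clause} (hm : Poly m) (hn : Poly n)
    (hl : Poly l) : Poly (fun a => copies (m a) (n a) (l a)) := by
  unfold JS.copies
  fun_prop

@[fun_prop]
theorem Poly.rep2 {M0 : α → ℕ} {φ : α → CNF} (hM : Poly M0) (hφ : Poly φ) :
    Poly (fun a => rep2 (M0 a) (φ a)) := by
  unfold JS.rep2
  fun_prop

end

theorem copies_succ (m n : ℕ) (l : List Clause) :
    copies (m + 1) n l = copies m n l ++ l.map fun c => shiftC (m * n) c := by
  simp [copies, List.range_succ]

theorem length_copies (m n : ℕ) (l : List Clause) : (copies m n l).length = m * l.length := by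
  induction m with
  | zero => simp [copies]
  | succ m ih => rw [copies_succ, List.length_append, ih, List.length_map]; ring

theorem mem_copies {m n : ℕ} {l : List Clause} {c : Clause} :
    c ∈ copies m n l ↔ ∃ i < m, ∃ c' ∈ l, c = shiftC (i * n) c' := by
  simp only [copies, List.mem_flatten, List.mem_map, List.mem_range]
  constructor
  · rintro ⟨_, ⟨i, hi, rfl⟩, hc⟩
    rw [List.mem_map] at hc
    obtain ⟨c', hc', rfl⟩ := hc
    exact ⟨i, hi, c', hc', rfl⟩
  · rintro ⟨i, hi, c', hc', rfl⟩
    exact ⟨_, ⟨i, hi, rfl⟩, List.mem_map.2 ⟨c', hc', rfl⟩⟩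

/-- The variables of a list of clauses. -/
def varsL (l : List Clause) : List ℕ := l.flatMap fun c => [c.1.1, c.2.1.1, c.2.2.1]

theorem varList_eq_varsL (φ : CNF) : varList φ = varsL φ.2 := rfl

theorem varsL_append (l l' : List Clause) : varsL (l ++ l') = varsL l ++ varsL l' := by
  simp [varsL]

theorem varsL_shift (a : ℕ) (l : List Clause) :
    varsL (l.map fun c => shiftC a c) = (varsL l).map (· + a) := by
  induction l with
  | nil => rfl
  | cons c l ih =>
    have h1 : ∀ (c : Clause) (l : List Clause),
        varsL (c :: l) = c.1.1 :: c.2.1.1 :: c.2.2.1 :: varsL l := by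
      intro c l
      simp [varsL]
    rw [List.map_cons, h1, ih, h1]
    simp [shiftC]

theorem length_varsL (l : List Clause) : (varsL l).length = 3 * l.length := by
  induction l with
  | nil => rfl
  | cons c l ih =>
    have h1 : varsL (c :: l) = c.1.1 :: c.2.1.1 :: c.2.2.1 :: varsL l := by
      simp [varsL]
    rw [h1]
    simp only [List.length_cons, ih]
    ring

theorem count_copies {n : ℕ} {l : List Clause} (hl : ∀ v ∈ varsL l, v < n) (m i v : ℕ)
    (hv : v < n) : (varsL (copies m n l)).count (v + i * n) =
      if i < m then (varsL l).count v else 0 := by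
  induction m with
  | zero => simp [copies, varsL]
  | succ m ih =>
    rw [copies_succ, varsL_append, List.count_append, ih, varsL_shift]
    have h1 : ((varsL l).map (· + m * n)).count (v + i * n) =
        if i = m then (varsL l).count v else 0 := by
      split_ifs with h
      · subst h
        exact List.count_map_of_injective _ _ (add_left_injective _) _
      · rw [List.count_eq_zero]
        intro hmem
        rw [List.mem_map] at hmem
        obtain ⟨u, hu, hu'⟩ := hmem
        have hu2 := hl u hu
        change u + m * n = v + i * n at hu'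
        apply h
        have h2 : (u + m * n) / n = (v + i * n) / n := by rw [hu']
        rw [Nat.add_mul_div_right _ _ (by omega), Nat.add_mul_div_right _ _ (by omega),
          Nat.div_eq_of_lt hu2, Nat.div_eq_of_lt hv] at h2
        omega
    rw [h1]
    rcases lt_trichotomy i m with h | h | h
    · rw [if_pos h, if_neg (by omega), if_pos (by omega), Nat.add_zero]
    · rw [if_neg (by omega), if_pos h, if_pos (by omega), Nat.zero_add]
    · rw [if_neg (by omega), if_neg (by omega), if_neg (by omega)]

theorem holds_shift (τ : ℕ → Bool) (a : ℕ) (c : Clause) :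
    holds τ (shiftC a c) = holds (fun v => τ (v + a)) c := rfl

theorem countP_holds_copies (τ : ℕ → Bool) (m n : ℕ) (l : List Clause) (D : ℕ)
    (h : ∀ τ : ℕ → Bool, l.length < D * l.countP (fun c => !holds τ c)) :
    m * (l.length + 1) ≤ D * (copies m n l).countP (fun c => !holds τ c) := by
  induction m with
  | zero => simp
  | succ m ih =>
    rw [copies_succ, List.countP_append, List.countP_map]
    have h1 := h fun v => τ (v + m * n)
    have h2 : (fun c => !holds τ c) ∘ (fun c => shiftC (m * n) c) =
        fun c => !holds (fun v => τ (v + m * n)) c := rfl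
    rw [h2, Nat.mul_add D, Nat.succ_mul]
    omega

/-- The length of the list of clauses of a formula with bounded occurrences. -/
theorem Bdd.length_le {B : ℕ} {φ : CNF} (h : Bdd B φ) : 3 * φ.2.length ≤ B * φ.1 := by
  rw [← length_varsL, ← varList_eq_varsL]
  have h1 : (varList φ).length = ∑ v ∈ Finset.range φ.1, (varList φ).count v := by
    have h2 : (varList φ).toFinset ⊆ Finset.range φ.1 := by
      intro v hv
      exact Finset.mem_range.2 (h.1 v (List.mem_toFinset.1 hv))
    rw [← Finset.sum_subset h2, List.sum_toFinset_count_eq_length]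
    intro v _ hv
    rw [List.mem_toFinset] at hv
    exact List.count_eq_zero.2 hv
  rw [h1]
  calc ∑ v ∈ Finset.range φ.1, (varList φ).count v ≤ ∑ v ∈ Finset.range φ.1, B :=
        Finset.sum_le_sum fun v hv => (h.2 v (Finset.mem_range.1 hv)).2
    _ = B * φ.1 := by rw [Finset.sum_const, Finset.card_range, smul_eq_mul, mul_comm]

/-- The number of variables of a formula in which each variable occurs. -/
theorem Bdd.fst_le {B : ℕ} {φ : CNF} (h : Bdd B φ) : φ.1 ≤ 3 * φ.2.length := by
  rw [← length_varsL, ← varList_eq_varsL]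
  have h1 : Finset.range φ.1 ⊆ (varList φ).toFinset := by
    intro v hv
    rw [List.mem_toFinset]
    have := (h.2 v (Finset.mem_range.1 hv)).1
    exact List.count_pos_iff.1 this
  calc φ.1 = (Finset.range φ.1).card := (Finset.card_range _).symm
    _ ≤ (varList φ).toFinset.card := Finset.card_le_card h1
    _ ≤ (varList φ).length := List.toFinset_card_le _

theorem Bdd.vars {B : ℕ} {φ : CNF} (h : Bdd B φ) : Vars φ := by
  intro c hc
  have h1 : ∀ x ∈ [c.1.1, c.2.1.1, c.2.2.1], x < φ.1 := fun x hx =>
    h.1 x (List.mem_flatMap.2 ⟨c, hc, hx⟩)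
  exact ⟨h1 _ (by simp), h1 _ (by simp), h1 _ (by simp)⟩

theorem Bdd.sparse {B : ℕ} {φ : CNF} (h : Bdd B φ) : Sparse B φ := by
  refine ⟨?_, h.vars⟩
  have := h.length_le
  omega

theorem bdd_rep2 {M0 B : ℕ} {φ : CNF} (h : Bdd B φ) : Bdd B (rep2 M0 φ) := by
  unfold rep2
  split_ifs with h1
  · refine ⟨?_, ?_⟩
    · intro v hv
      rw [varList_eq_varsL, varsL, List.mem_flatMap] at hv
      obtain ⟨c, hc, hv⟩ := hv
      obtain ⟨i, hi, c', hc', rfl⟩ := mem_copies.1 hc
      have h2 : (i + 1) * φ.1 ≤ M0 * φ.1 := Nat.mul_le_mul_right _ hi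
      obtain ⟨h3, h4, h5⟩ := h.vars c' hc'
      rw [Nat.add_mul, Nat.one_mul] at h2
      simp only [shiftC, List.mem_cons, List.not_mem_nil, or_false] at hv
      show v < M0 * φ.1
      rcases hv with rfl | rfl | rfl <;> omega
    · intro v hv
      change v < M0 * φ.1 at hv
      have hn : 0 < φ.1 := by
        rcases Nat.eq_zero_or_pos φ.1 with h0 | h0
        · rw [h0] at hv; simp at hv
        · exact h0
      have h2 : v % φ.1 < φ.1 := Nat.mod_lt _ hn
      have h3 : v % φ.1 + v / φ.1 * φ.1 = v := by
        rw [mul_comm]; exact Nat.mod_add_div _ _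
      have h4 : v / φ.1 < M0 := by
        rw [Nat.div_lt_iff_lt_mul hn]; exact hv
      have h5 := count_copies h.1 M0 (v / φ.1) (v % φ.1) h2
      rw [h3, if_pos h4] at h5
      rw [varList_eq_varsL, h5]
      exact h.2 _ h2
  · exact h

theorem rep2_spec {M0 B : ℕ} {φ : CNF} (h : Bdd B φ) :
    (φ.2 ≠ [] → M0 ≤ (rep2 M0 φ).2.length) ∧
    (rep2 M0 φ).2.length ≤ φ.2.length + M0 * M0 ∧
    Bdd B (rep2 M0 φ) ∧ (Sat φ → Sat (rep2 M0 φ)) ∧ ∀ D, Far D φ → Far D (rep2 M0 φ) := by
  refine ⟨fun hne => ?_, ?_, bdd_rep2 h, fun hs => ?_, fun D hD τ => ?_⟩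
  · unfold rep2
    split_ifs with h1
    · rw [length_copies]
      exact Nat.le_mul_of_pos_right _ (List.length_pos_iff.2 hne)
    · omega
  · unfold rep2
    split_ifs with h1
    · rw [length_copies]
      have := Nat.mul_le_mul_left M0 h1.le
      omega
    · omega
  · unfold rep2
    split_ifs with h1
    · obtain ⟨τ, hτ⟩ := hs
      refine ⟨fun v => τ (v % φ.1), fun c hc => ?_⟩
      obtain ⟨i, hi, c', hc', rfl⟩ := mem_copies.1 hc
      obtain ⟨h3, h4, h5⟩ := h.vars c' hc'
      have h6 := hτ c' hc'
      rw [holds_shift]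
      unfold holds at h6 ⊢
      simp only [Nat.add_mul_mod_self_right, Nat.mod_eq_of_lt h3, Nat.mod_eq_of_lt h4,
        Nat.mod_eq_of_lt h5]
      exact h6
    · exact hs
  · have h1 := hD τ
    unfold rep2
    split_ifs with h2
    · have h3 := countP_holds_copies τ M0 φ.1 φ.2 D hD
      show (copies M0 φ.1 φ.2).length < D * (copies M0 φ.1 φ.2).countP _
      rw [length_copies]
      have h4 : M0 * φ.2.length < M0 * (φ.2.length + 1) :=
        Nat.mul_lt_mul_of_pos_left (Nat.lt_succ_self _) (by omega)
      omega
    · exact h1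

end Pool.Agent.H.JS
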