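import Pool.Agent.H.MP_aeb38e_lc.InstB
import Pool.Agent.H.MP_aeb38e_lc.Rep2

/-!
The instance of the strong form is computable in polynomial time (numbers in unary); its size.
-/

set_option linter.unusedSectionVars false

namespace Pool.Agent.H.JS

open Turing Pool.Agent.H.MP_5be563_lc.PT

section
variable {α : Type} [Enc α]

@[fun_prop]
theorem Poly.litAt {φ : α → CNF} {o : α → ℕ} (hφ : Poly φ) (ho : Poly o) :
    Poly (fun a => litAt (φ a) (o a)) := by
  unfold JS.litAt
  fun_prop

@[fun_prop]
theorem Poly.fstOcc {φ : α → CNF} {o : α → ℕ} (hφ : Poly φ) (ho : Poly o) :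
    Poly (fun a => fstOcc (φ a) (o a)) := by
  unfold JS.fstOcc
  fun_prop

@[fun_prop]
theorem Poly.jobA {φ : α → CNF} {k : α → ℕ} {x : α → ℕ × ℕ} (hφ : Poly φ) (hk : Poly k)
    (hx : Poly x) : Poly (fun a => jobA (φ a) (k a) (x a)) := by
  unfold JS.jobA
  fun_prop

@[fun_prop]
theorem Poly.jobB {φ : α → CNF} {k : α → ℕ} {x : α → ℕ × ℕ} (hφ : Poly φ) (hk : Poly k)
    (hx : Poly x) : Poly (fun a => jobB (φ a) (k a) (x a)) := by
  unfold JS.jobB
  fun_prop

@[fun_prop]
theorem Poly.allow {t r x y : α → ℕ} {sg : α → Bool} (ht : Poly t) (hr : Poly r)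
    (hsg : Poly sg) (hx : Poly x) (hy : Poly y) :
    Poly (fun a => allow (t a) (r a) (sg a) (x a) (y a)) := by
  unfold JS.allow
  fun_prop

@[fun_prop]
theorem Poly.tests {φ : α → CNF} {k : α → ℕ} (hφ : Poly φ) (hk : Poly k) :
    Poly (fun a => tests (φ a) (k a)) := by
  unfold JS.tests
  fun_prop

@[fun_prop]
theorem Poly.mex {l : α → List ℕ} (hl : Poly l) : Poly (fun a => mex (l a)) := by
  unfold JS.mex
  fun_prop

@[fun_prop]
theorem Poly.meet {φ : α → CNF} {k : α → ℕ} {x y : α → ℕ × ℕ} (hφ : Poly φ) (hk : Poly k)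
    (hx : Poly x) (hy : Poly y) : Poly (fun a => meet (φ a) (k a) (x a) (y a)) := by
  unfold JS.meet
  fun_prop

theorem mex_le_len (l : List ℕ) : mex l ≤ l.length := by
  unfold mex
  cases h : (List.range (l.length + 1)).find? fun c => !decide (c ∈ l) with
  | none => exact Nat.zero_le _
  | some c =>
    have := List.mem_range.1 (List.mem_of_find?_eq_some h)
    simp only [Option.getD_some]
    omega

theorem colour_cons_eq {β : Type} (mt : β → β → Bool) (x : β) (l : List β) :
    colour mt (x :: l) =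
      (x, mex (((colour mt l).filter fun y => mt x y.1).map Prod.snd)) :: colour mt l := rfl

theorem colour_map_fst {β : Type} (mt : β → β → Bool) (l : List β) :
    (colour mt l).map Prod.fst = l := by
  induction l with
  | nil => rfl
  | cons x l ih => rw [colour_cons_eq, List.map_cons, ih]

theorem colour_snd_le {β : Type} (mt : β → β → Bool) (l : List β) :
    ∀ y ∈ colour mt l, y.1 ∈ l ∧ y.2 ≤ l.length := by
  induction l with
  | nil => intro y hy; cases hy
  | cons x l ih =>
    intro y hy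
    rw [colour_cons_eq, List.mem_cons] at hy
    rcases hy with rfl | hy
    · refine ⟨List.mem_cons_self, (mex_le_len _).trans ?_⟩
      rw [List.length_map]
      have h1 := (List.filter_sublist (l := colour mt l) (p := fun y => mt x y.1)).length_le
      have h2 := congrArg List.length (colour_map_fst mt l)
      rw [List.length_map] at h2
      rw [List.length_cons]
      omega
    · obtain ⟨h1, h2⟩ := ih y hy
      exact ⟨List.mem_cons_of_mem _ h1, by rw [List.length_cons]; omega⟩

@[fun_prop]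
theorem Poly.colour {β : Type} [Enc β] {mt : α → β → β → Bool} {l : α → List β}
    (hmt : Poly (fun p : α × β × β => mt p.1 p.2.1 p.2.2)) (hl : Poly l) :
    Poly (fun a => colour (mt a) (l a)) := by
  have hf : Poly (fun p : α × List (β × ℕ) × β =>
      (p.2.2, JS.mex ((p.2.1.filter fun y => mt p.1 p.2.2 y.1).map Prod.snd)) :: p.2.1) := by
    have h1 : Poly (fun q : (α × List (β × ℕ) × β) × (β × ℕ) => mt q.1.1 q.1.2.2 q.2.1) :=
      Poly.comp (f := fun p : α × β × β => mt p.1 p.2.1 p.2.2)
        (g := fun q : (α × List (β × ℕ) × β) × (β × ℕ) => (q.1.1, q.1.2.2, q.2.1)) hmt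
        (by fun_prop)
    have h2 : Poly (fun p : α × List (β × ℕ) × β =>
        p.2.1.filter fun y => mt p.1 p.2.2 y.1) :=
      Poly.filter (f := fun (p : α × List (β × ℕ) × β) (y : β × ℕ) => mt p.1 p.2.2 y.1)
        h1 (by fun_prop)
    fun_prop
  have key := Poly.foldr (l := l) (s0 := fun _ => ([] : List (β × ℕ)))
    (B := fun a => sz (l a) * (3 * sz (l a) + 3 + 1) + 1) hf hl (by fun_prop)
    (((hl.sz_le.mul ((((PBdd.const 3).mul hl.sz_le).add (PBdd.const 3)).add (PBdd.const 1))).add
      (PBdd.const 1))) (by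
      intro a l₁ l₂ h
      have h0 : l₂.foldr (fun b s => (b, JS.mex ((s.filter fun y => mt a b y.1).map Prod.snd)) :: s)
          ([] : List (β × ℕ)) = JS.colour (mt a) l₂ := rfl
      show sz (l₂.foldr (fun b s => (b, JS.mex ((s.filter fun y => mt a b y.1).map Prod.snd)) :: s)
          ([] : List (β × ℕ))) ≤ _
      rw [h0]
      have h1 : l₂.length ≤ sz (l a) := by
        have := length_lt_sz (l a)
        rw [h] at this ⊢
        simp at this
        omega
      refine (sz_le_of_forall _ (3 * sz (l a) + 3) ?_).trans ?_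
      · intro y hy
        obtain ⟨h2, h3⟩ := colour_snd_le (mt a) l₂ y hy
        have h4 : sz y.1 < sz (l a) := sz_mem_lt (by rw [h]; simp [h2])
        rw [sz_prod, sz_nat]
        omega
      · have h5 := congrArg List.length (colour_map_fst (mt a) l₂)
        rw [List.length_map] at h5
        rw [h5]
        have := Nat.mul_le_mul_right (3 * sz (l a) + 3 + 1) h1
        omega)
  exact key

@[fun_prop]
theorem Poly.cols {φ : α → CNF} {k : α → ℕ} (hφ : Poly φ) (hk : Poly k) :
    Poly (fun a => cols (φ a) (k a)) := by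
  unfold JS.cols
  refine Poly.colour (mt := fun a => JS.meet (φ a) (k a)) ?_ (by fun_prop)
  fun_prop

@[fun_prop]
theorem Poly.testMach {φ : α → CNF} {k d i j p : α → ℕ} {x : α → ℕ × ℕ} (hφ : Poly φ)
    (hk : Poly k) (hd : Poly d) (hi : Poly i) (hj : Poly j) (hp : Poly p) (hx : Poly x) :
    Poly (fun a => testMach (φ a) (k a) (d a) (i a) (j a) (p a) (x a)) := by
  unfold JS.testMach
  fun_prop

@[fun_prop]
theorem Poly.slotMach {φ : α → CNF} {k d i j p : α → ℕ} {cl : α → List ((ℕ × ℕ) × ℕ)}
    (hφ : Poly φ) (hk : Poly k) (hd : Poly d) (hcl : Poly cl) (hi : Poly i) (hj : Poly j)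
    (hp : Poly p) : Poly (fun a => slotMach (φ a) (k a) (d a) (cl a) (i a) (j a) (p a)) := by
  unfold JS.slotMach
  fun_prop

@[fun_prop]
theorem Poly.perm {tab : α → List (List ℕ)} {s j : α → ℕ} (ht : Poly tab) (hs : Poly s)
    (hj : Poly j) : Poly (fun a => perm (tab a) (s a) (j a)) := by
  unfold JS.perm
  fun_prop

@[fun_prop]
theorem Poly.machB {φ : α → CNF} {k d L w j P : α → ℕ} {tab : α → List (List ℕ)}
    {cl : α → List ((ℕ × ℕ) × ℕ)} (hφ : Poly φ) (hk : Poly k) (hd : Poly d) (hL : Poly L)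
    (hw : Poly w) (ht : Poly tab) (hcl : Poly cl) (hj : Poly j) (hP : Poly P) :
    Poly (fun a => machB (φ a) (k a) (d a) (L a) (w a) (tab a) (cl a) (j a) (P a)) := by
  unfold JS.machB
  fun_prop

@[fun_prop]
theorem Poly.instB {φ : α → CNF} {m k d L R w : α → ℕ} {tab : α → List (List ℕ)}
    (hφ : Poly φ) (hm : Poly m) (hk : Poly k) (hd : Poly d) (hL : Poly L) (hR : Poly R)
    (hw : Poly w) (ht : Poly tab) :
    Poly (fun a => instB (φ a) (m a) (k a) (d a) (L a) (R a) (w a) (tab a)) := by
  unfold JS.instB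
  fun_prop

@[fun_prop]
theorem Poly.lenB {B M k : α → ℕ} (hB : Poly B) (hM : Poly M) (hk : Poly k) :
    Poly (fun a => lenB (B a) (M a) (k a)) := by
  unfold JS.lenB JS.degB
  fun_prop

end

/-! ### Sizes -/

theorem jobA_lt {φ : CNF} {k : ℕ} (hk : 0 < k) (x : ℕ × ℕ) : jobA φ k x < 2 * k := by
  have h1 := Nat.mod_lt (litAt φ x.2).1 hk
  have h2 := Nat.mod_lt (litAt φ (3 * (x.2 / 3))).1 hk
  have h3 := Nat.mod_lt (fstOcc φ x.2 / 3) hk
  unfold jobA
  split_ifs <;> omega

theorem slotMach_lt {φ : CNF} {k d i j p : ℕ} {cl : List ((ℕ × ℕ) × ℕ)} (hk : 0 < k)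
    (hj : j < 2 * k) : slotMach φ k d cl i j p < 4 * k := by
  unfold slotMach
  generalize (cl.find? fun y => decide (y.2 = i / 65536) &&
    (decide (jobA φ k y.1 = j) || decide (jobB φ k y.1 = j))) = o
  cases o with
  | none => simp only [Option.map_none, Option.getD_none]; omega
  | some y =>
    simp only [Option.map_some, Option.getD_some]
    unfold testMach
    have := jobA_lt (φ := φ) hk y.1
    split_ifs <;> omega

theorem perm_lt {tab : List (List ℕ)} {q s j : ℕ} (hq : 0 < q)
    (ht : ∀ r ∈ tab, ∀ x ∈ r, x < q) : perm tab s j < q := by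
  unfold perm
  rw [List.getD_eq_getElem?_getD, List.getD_eq_getElem?_getD]
  cases h : tab[s]? with
  | none => simpa using hq
  | some r =>
    have hr : r ∈ tab := List.mem_of_getElem? h
    rw [Option.getD_some]
    cases h' : r[j]? with
    | none => simpa using hq
    | some x => exact ht r hr x (List.mem_of_getElem? h')

theorem machB_lt {φ : CNF} {k d L w j P : ℕ} {tab : List (List ℕ)} {cl : List ((ℕ × ℕ) × ℕ)}
    (hk : 0 < k) (ht : ∀ r ∈ tab, ∀ x ∈ r, x < 2 * k) (hj : j < 2 * k) :
    machB φ k d L w tab cl j P < 4 * k := by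
  unfold machB
  split_ifs
  · exact slotMach_lt hk hj
  · have := perm_lt (s := digit 11 w (P % L)) (j := j) (show 0 < 2 * k by omega) ht
    omega

theorem sz_instB_le {φ : CNF} {m k d L R w : ℕ} {tab : List (List ℕ)} (hk : 0 < k)
    (ht : ∀ r ∈ tab, ∀ x ∈ r, x < 2 * k) :
    sz (instB φ m k d L R w tab) ≤ 2 * m + 100 * (k + 1) ^ 2 * (R * L + 1) := by
  unfold instB
  set n := R * L with hn
  have h1 : ∀ j < 2 * k, sz ((List.range n).map fun P =>
      (machB φ k d L w tab (cols φ k) j P, 1)) ≤ n * (8 * k + 8) + 1 := by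
    intro j hj
    have h := sz_le_of_forall ((List.range n).map fun P =>
      (machB φ k d L w tab (cols φ k) j P, 1)) (8 * k + 7) (by
      intro a ha
      obtain ⟨P, _, rfl⟩ := List.mem_map.1 ha
      rw [sz_pair, sz_nat, sz_nat]
      have := machB_lt (φ := φ) (d := d) (L := L) (w := w) (P := P) (cl := cols φ k) hk ht hj
      omega)
    rw [List.length_map, List.length_range] at h
    exact h
  have h2 := sz_le_of_forall ((List.range (2 * k)).map fun j =>
    (List.range n).map fun P => (machB φ k d L w tab (cols φ k) j P, 1)) (n * (8 * k + 8) + 1) (by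
      intro a ha
      obtain ⟨j, hj, rfl⟩ := List.mem_map.1 ha
      exact h1 j (List.mem_range.1 hj))
  rw [List.length_map, List.length_range] at h2
  rw [sz_pair, sz_nat]
  refine (Nat.add_le_add_right (Nat.add_le_add_left h2 _) _).trans ?_
  nlinarith [Nat.zero_le (n * k), Nat.zero_le (n * k ^ 2), Nat.zero_le n, Nat.zero_le (k ^ 2)]

end Pool.Agent.H.JS
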