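import Pool.Agent.H.MP_aeb38e_lc.Tr
import Pool.Agent.H.MP_5be563_lc.PT.Main

/-!
Stores with few registers, and pieces of the loop program.
-/

namespace Pool.Agent.H.MP_aeb38e_lc

open Function Pool.Agent.H.MP_84f0af_lc
open Pool.Agent.H.MP_5be563_lc.PT (Enc enc sz mk4 stk)

section store
variable {A : Type}

/-- the store with the given contents of the registers `0, 1, 2, 6, 7, 8, 9, 10` -/
def st (i o m w a x g c : List A) : Sto A := fun r =>
  if r = 0 then i else if r = 1 then o else if r = 2 then m else if r = 6 then w else
  if r = 7 then a else if r = 8 then x else if r = 9 then g else if r = 10 then c else []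

variable (i o m w a x g c v : List A)

@[simp] theorem st_0 : st i o m w a x g c 0 = i := rfl
@[simp] theorem st_1 : st i o m w a x g c 1 = o := rfl
@[simp] theorem st_2 : st i o m w a x g c 2 = m := rfl
@[simp] theorem st_6 : st i o m w a x g c 6 = w := rfl
@[simp] theorem st_7 : st i o m w a x g c 7 = a := rfl
@[simp] theorem st_8 : st i o m w a x g c 8 = x := rfl
@[simp] theorem st_9 : st i o m w a x g c 9 = g := rfl
@[simp] theorem st_10 : st i o m w a x g c 10 = c := rfl
theorem st_big {r : ℕ} (h : 11 ≤ r) : st i o m w a x g c r = [] := by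
  unfold st
  split_ifs <;> first | rfl | omega

@[simp] theorem up_0 : update (st i o m w a x g c) 0 v = st v o m w a x g c := by
  funext r; simp only [update_apply, st]; split_ifs <;> first | rfl | omega
@[simp] theorem up_1 : update (st i o m w a x g c) 1 v = st i v m w a x g c := by
  funext r; simp only [update_apply, st]; split_ifs <;> first | rfl | omega
@[simp] theorem up_2 : update (st i o m w a x g c) 2 v = st i o v w a x g c := by
  funext r; simp only [update_apply, st]; split_ifs <;> first | rfl | omega
@[simp] theorem up_6 : update (st i o m w a x g c) 6 v = st i o m v a x g c := by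
  funext r; simp only [update_apply, st]; split_ifs <;> first | rfl | omega
@[simp] theorem up_7 : update (st i o m w a x g c) 7 v = st i o m w v x g c := by
  funext r; simp only [update_apply, st]; split_ifs <;> first | rfl | omega
@[simp] theorem up_8 : update (st i o m w a x g c) 8 v = st i o m w a v g c := by
  funext r; simp only [update_apply, st]; split_ifs <;> first | rfl | omega
@[simp] theorem up_9 : update (st i o m w a x g c) 9 v = st i o m w a x v c := by
  funext r; simp only [update_apply, st]; split_ifs <;> first | rfl | omega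
@[simp] theorem up_10 : update (st i o m w a x g c) 10 v = st i o m w a x g v := by
  funext r; simp only [update_apply, st]; split_ifs <;> first | rfl | omega

/-- push a word -/
def pushL (r : ℕ) : List A → Cmd A
  | [] => .skip
  | y :: l => .seq (pushL r l) (.push r y)

theorem run_pushL (r : ℕ) (l : List A) (S : Sto A) :
    Run (pushL r l) S (l.length + 1) (update S r (l ++ S r)) := by
  induction l with
  | nil =>
    refine (Run.skip S).congr ?_
    rw [List.nil_append, update_eq_self]
  | cons y l ih =>
    refine (Run.seq ih (Run.push r y _)).congr ?_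
    rw [update_self, update_idem, List.cons_append]

end store

variable {B : Type}

/-- the word of bits -/
abbrev il (l : List Bool) : List (Bool ⊕ B) := l.map Sum.inl

theorem setP_st (i o m w a x g c : List (Bool ⊕ B)) (y : List Bool) :
    setP (st i o m w a x g c) (mk4 y [] [] []) = st i o (il y) w a x g c := by
  unfold setP
  funext r
  simp only [update_apply, st, MP_5be563_lc.PT.mk4_M, MP_5be563_lc.PT.mk4_A,
    MP_5be563_lc.PT.mk4_B, MP_5be563_lc.PT.mk4_C, List.map_nil]
  split_ifs <;> first | rfl | omega

/-- run of a program over the four stacks -/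
theorem run_tr {p : MP_5be563_lc.PT.Prog} {y z : List Bool} {n : ℕ}
    (h : MP_5be563_lc.PT.Run p (mk4 y [] [] []) (mk4 z [] [] []) n)
    (i o w a x g c : List (Bool ⊕ B)) :
    ∃ n' ≤ 4 * n, Run (tr B p) (st i o (il y) w a x g c) n' (st i o (il z) w a x g c) := by
  obtain ⟨k, hk, h⟩ := h
  obtain ⟨n', hn', hr⟩ := tr_run h (st i o (il y) w a x g c)
  rw [setP_st, setP_st] at hr
  exact ⟨n', by omega, hr⟩

/-- the mark -/
def mk : Bool ⊕ B := .inl true

/-- doubling -/
def dbl (B : Type) : Cmd (Bool ⊕ B) :=
  .loop 2 isT (.seq (.pop 2) (.seq (.pop 2) (.seq (dupAll 6 9 10) (.seq (moveAll 9 6)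
    (moveAll 10 6)))))

theorem enc_succ_bits (n : ℕ) : (enc (n + 1)).bits = true :: false :: (enc n).bits := rfl

theorem enc_zero_bits : (enc (0 : ℕ)).bits = [false] := rfl

theorem run_dbl (i o a x : List (Bool ⊕ B)) (n : ℕ) : ∀ k, ∃ t ≤ n * (6 * (2 ^ n * k) + 6) + 1,
    Run (dbl B) (st i o (il (enc n).bits) (List.replicate k mk) a x [] []) t
      (st i o [.inl false] (List.replicate (2 ^ n * k) mk) a x [] []) := by
  induction n with
  | zero =>
    intro k
    refine ⟨1, by omega, (Run.loop_false ?_).congr ?_⟩
    · rw [st_2]; rfl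
    · rw [pow_zero, one_mul]; rfl
  | succ n ih =>
    intro k
    obtain ⟨t, ht, r⟩ := ih (2 * k)
    have r1 := Run.pop 2 (st i o (il (enc (n + 1)).bits) (List.replicate k mk) a x [] [])
    rw [st_2, up_2] at r1
    have r2 := Run.pop 2 (st i o (il (enc (n + 1)).bits).tail (List.replicate k mk) a x [] [])
    rw [st_2, up_2] at r2
    have e : (il (enc (n + 1)).bits).tail.tail = (il (enc n).bits : List (Bool ⊕ B)) := rfl
    rw [e] at r2
    have r3 := run_dupAll (r := 6) (s := 9) (t := 10) (by omega) (by omega) (by omega)
      (List.replicate k mk) (st i o (il (enc n).bits) (List.replicate k mk) a x [] []) rfl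
    have r4 := run_moveAll (r := 9) (s := 6) (by omega) (List.replicate k mk)
      (st i o (il (enc n).bits) [] a x (List.replicate k mk) (List.replicate k mk)) rfl
    have r5 := run_moveAll (r := 10) (s := 6) (by omega) (List.replicate k mk)
      (st i o (il (enc n).bits) (List.replicate k mk) a x [] (List.replicate k mk)) rfl
    simp only [up_6, up_9, up_10, st_6, st_9, st_10, List.reverse_replicate, List.append_nil,
      List.length_replicate, ← List.replicate_add] at r3 r4 r5
    have e2 : k + k = 2 * k := by ring
    rw [e2] at r5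
    have r6 := Run.loop_true (p := isT) (by rw [st_2]; rfl)
      (Run.seq r1 (Run.seq r2 (Run.seq r3 (Run.seq r4 r5)))) r
    refine ⟨_, ?_, r6.congr ?_⟩
    · have e3 : 2 ^ n * (2 * k) = 2 ^ (n + 1) * k := by ring
      rw [e3] at ht
      have e4 : (n + 1) * (6 * (2 ^ (n + 1) * k) + 6) =
        n * (6 * (2 ^ (n + 1) * k) + 6) + (6 * (2 ^ (n + 1) * k) + 6) := by ring
      have e5 : k ≤ 2 ^ (n + 1) * k := Nat.le_mul_of_pos_left _ (by positivity)
      omega
    · have e3 : 2 ^ n * (2 * k) = 2 ^ (n + 1) * k := by ring
      rw [e3]

/-- writing a number in front of register `8` -/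
def wnum (B : Type) : Cmd (Bool ⊕ B) :=
  .loop 10 nonemp (.seq (.pop 10) (.seq (.push 8 (.inl false)) (.push 8 (.inl true))))

theorem run_wnum (i o m w a g rest : List (Bool ⊕ B)) (k : ℕ) : ∀ j,
    Run (wnum B) (st i o m w a (il (enc j).bits ++ rest) g (List.replicate k mk)) (4 * k + 1)
      (st i o m w a (il (enc (j + k)).bits ++ rest) g []) := by
  induction k with
  | zero =>
    intro j
    exact Run.loop_false (by rw [st_10]; rfl)
  | succ k ih =>
    intro j
    have r1 := Run.pop 10 (st i o m w a (il (enc j).bits ++ rest) g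
      (List.replicate (k + 1) mk))
    rw [st_10, up_10, List.replicate_succ, List.tail_cons] at r1
    have r2 := Run.push 8 (.inl false) (st i o m w a (il (enc j).bits ++ rest) g
      (List.replicate k mk))
    rw [st_8, up_8] at r2
    have r3 := Run.push 8 (.inl true) (st i o m w a (.inl false :: (il (enc j).bits ++ rest)) g
      (List.replicate k mk))
    rw [st_8, up_8] at r3
    have e : (Sum.inl true :: (Sum.inl false :: (il (enc j).bits ++ rest)) : List (Bool ⊕ B)) =
      il (enc (j + 1)).bits ++ rest := rfl
    rw [e] at r3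
    have h := ih (j + 1)
    have e2 : j + 1 + k = j + (k + 1) := by ring
    rw [e2] at h
    have e3 : 4 * (k + 1) + 1 = 1 + ((1 + (1 + 1)) + (4 * k + 1)) := by ring
    rw [e3, List.replicate_succ]
    exact Run.loop_true (by rw [st_10]; rfl) (Run.seq r1 (Run.seq r2 r3)) h

end Pool.Agent.H.MP_aeb38e_lc
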