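import Pool.Agent.H.MP_aeb38e_lc.InstB
import Pool.Agent.H.MP_aeb38e_lc.Static

/-!
The static part of the negative case, strong form.
-/

namespace Pool.Agent.H.JS

/-! ### Colouring -/

section colour

variable {α : Type} (mt : α → α → Bool)

theorem mex_notMem (l : List ℕ) : mex l ∉ l := by
  unfold mex
  cases h : (List.range (l.length + 1)).find? (fun c => !decide (c ∈ l)) with
  | some c =>
    have := List.find?_some h
    simpa using this
  | none =>
    rw [List.find?_eq_none] at h
    have h2 : List.range (l.length + 1) ⊆ l := by
      intro c hc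
      simpa using h c hc
    have h3 := (List.nodup_range (n := l.length + 1)).subperm h2
    have := h3.length_le
    simp at this

theorem mex_le (l : List ℕ) : mex l ≤ l.length := by
  unfold mex
  cases h : (List.range (l.length + 1)).find? (fun c => !decide (c ∈ l)) with
  | some c =>
    have := List.mem_of_find?_eq_some h
    rw [List.mem_range] at this
    simp only [Option.getD_some]
    omega
  | none => simp

theorem colour_cons (x : α) (l : List α) : colour mt (x :: l) =
    (x, mex (((colour mt l).filter fun y => mt x y.1).map Prod.snd)) :: colour mt l := rfl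

theorem colour_fst (l : List α) : (colour mt l).map Prod.fst = l := by
  induction l with
  | nil => rfl
  | cons x l ih => rw [colour_cons, List.map_cons, ih]

theorem exists_colour {l : List α} {x : α} (hx : x ∈ l) : ∃ c, (x, c) ∈ colour mt l := by
  rw [← colour_fst mt l, List.mem_map] at hx
  obtain ⟨y, hy, rfl⟩ := hx
  exact ⟨y.2, hy⟩

theorem mem_of_colour {l : List α} {y : α × ℕ} (hy : y ∈ colour mt l) : y.1 ∈ l := by
  rw [← colour_fst mt l]
  exact List.mem_map_of_mem hy

theorem colour_proper (hs : ∀ x y, mt x y = true → mt y x = true) (l : List α) (y z : α × ℕ)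
    (hy : y ∈ colour mt l) (hz : z ∈ colour mt l) (hm : mt y.1 z.1 = true) (hc : y.2 = z.2) :
    y = z := by
  induction l with
  | nil => exact absurd hy (by simp [colour])
  | cons x l ih =>
    have key : ∀ u ∈ colour mt l, mt x u.1 = true →
        mex (((colour mt l).filter fun y => mt x y.1).map Prod.snd) ≠ u.2 := by
      intro u hu hmu he
      apply mex_notMem (((colour mt l).filter fun y => mt x y.1).map Prod.snd)
      rw [he, List.mem_map]
      exact ⟨u, List.mem_filter.2 ⟨hu, hmu⟩, rfl⟩
    rw [colour_cons, List.mem_cons] at hy hz
    rcases hy with rfl | hy <;> rcases hz with rfl | hz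
    · rfl
    · exact absurd hc (key z hz hm)
    · exact absurd hc.symm (key y hy (hs _ _ hm))
    · exact ih hy hz

theorem colour_lt {N : ℕ} (hr : ∀ x, mt x x = true) (l : List α)
    (h : ∀ x ∈ l, (l.filter (mt x)).length ≤ N) : ∀ y ∈ colour mt l, y.2 < N := by
  induction l with
  | nil => intro y hy; exact absurd hy (by simp [colour])
  | cons x l ih =>
    intro y hy
    rw [colour_cons, List.mem_cons] at hy
    have hmono : ∀ z, (l.filter (mt z)).length ≤ ((x :: l).filter (mt z)).length := by
      intro z
      rw [List.filter_cons]
      split_ifs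
      · simp
      · exact le_rfl
    rcases hy with rfl | hy
    · refine (mex_le _).trans_lt ?_
      rw [List.length_map]
      have e : ((colour mt l).filter fun y => mt x y.1).length = (l.filter (mt x)).length := by
        conv_rhs => rw [← colour_fst mt l, List.filter_map, List.length_map]
        rfl
      rw [e]
      have h1 := h x (by simp)
      rw [List.filter_cons, if_pos (hr x), List.length_cons] at h1
      exact h1
    · exact ih (fun z hz => (hmono z).trans (h z (List.mem_cons_of_mem _ hz))) y hy

end colour

/-! ### Positions of variables -/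

theorem litOf_eq (c : Clause) (r : ℕ) :
    litOf c r = if r = 0 then c.1 else if r = 1 then c.2.1 else c.2.2 := rfl

theorem fstOcc_spec (φ : CNF) (o : ℕ) : (litAt φ (fstOcc φ o)).1 = (litAt φ o).1 ∧
    fstOcc φ o ≤ o ∧ ∀ o' < fstOcc φ o, (litAt φ o').1 ≠ (litAt φ o).1 := by
  unfold fstOcc
  cases h : (List.range o).find? (fun o' => decide ((litAt φ o').1 = (litAt φ o).1)) with
  | none =>
    rw [List.find?_eq_none] at h
    refine ⟨rfl, le_rfl, ?_⟩
    intro o' ho'
    simpa using h o' (List.mem_range.2 ho')
  | some f =>
    rw [List.find?_range_eq_some] at h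
    obtain ⟨h1, h2, h3⟩ := h
    rw [List.mem_range] at h2
    refine ⟨of_decide_eq_true h1, h2.le, ?_⟩
    intro o' ho'
    simpa using h3 o' ho'

theorem fstOcc_congr {φ : CNF} {o o' : ℕ} (h : (litAt φ o).1 = (litAt φ o').1) :
    fstOcc φ o = fstOcc φ o' := by
  obtain ⟨h1, _, h2⟩ := fstOcc_spec φ o
  obtain ⟨h3, _, h4⟩ := fstOcc_spec φ o'
  rcases lt_trichotomy (fstOcc φ o) (fstOcc φ o') with hlt | heq | hlt
  · exact absurd (h1.trans h) (h4 _ hlt)
  · exact heq
  · exact absurd (h3.trans h.symm) (h2 _ hlt)

theorem litAt_eq {φ : CNF} {c r : ℕ} {cl : Clause} (hc : φ.2[c]? = some cl) (hr : r < 3) :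
    litAt φ (3 * c + r) = litOf cl r := by
  unfold litAt
  have e1 : (3 * c + r) / 3 = c := by omega
  have e2 : (3 * c + r) % 3 = r := by omega
  rw [e1, e2, List.getD_eq_getElem?_getD, hc]
  rfl

theorem varList_map (φ : CNF) :
    varList φ = (List.range (3 * φ.2.length)).map fun o => (litAt φ o).1 := by
  obtain ⟨n, l⟩ := φ
  have key : ∀ l : List Clause, (l.flatMap fun c => [c.1.1, c.2.1.1, c.2.2.1]) =
      (List.range (3 * l.length)).map fun o =>
        (litOf (l.getD (o / 3) ((0, false), (0, false), (0, false))) (o % 3)).1 := by
    intro l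
    induction l with
    | nil => rfl
    | cons a l ih =>
      have e : 3 * (a :: l).length = 3 * l.length + 1 + 1 + 1 := by simp; ring
      rw [List.flatMap_cons, ih, e, List.range_succ_eq_map, List.map_cons, List.map_map,
        List.range_succ_eq_map, List.map_cons, List.map_map, List.range_succ_eq_map,
        List.map_cons, List.map_map]
      simp only [List.cons_append, List.nil_append]
      congr 1
      congr 1
      congr 1
      refine List.map_congr_left fun o _ => ?_
      simp only [Function.comp_apply]
      have e1 : (Nat.succ (Nat.succ (Nat.succ o))) / 3 = o / 3 + 1 := by omega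
      have e2 : (Nat.succ (Nat.succ (Nat.succ o))) % 3 = o % 3 := by omega
      rw [e1, e2]
      rfl
  exact key l

theorem count_varList (φ : CNF) (v : ℕ) : (varList φ).count v =
    ((Finset.range (3 * φ.2.length)).filter fun o => (litAt φ o).1 = v).card := by
  rw [varList_map, List.count, List.countP_map, List.countP_eq_length_filter]
  have : ((Finset.range (3 * φ.2.length)).filter fun o => (litAt φ o).1 = v).card =
      ((List.range (3 * φ.2.length)).filter fun o => decide ((litAt φ o).1 = v)).length := by
    rw [← List.toFinset_card_of_nodup ((List.nodup_range).filter _), List.toFinset_filter]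
    congr 1
    ext o
    simp
  rw [this]
  congr 1

end Pool.Agent.H.JS
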