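import Pool.Agent.H.MP_aeb38e_lc.StaticB

/-!
The static part of the negative case, strong form: main theorem.
-/

namespace Pool.Agent.H.JS

open Finset

theorem meet_symm {φ : CNF} {k : ℕ} (x y : ℕ × ℕ) (h : meet φ k x y = true) :
    meet φ k y x = true := by
  unfold meet at h ⊢
  simp only [Bool.or_eq_true, decide_eq_true_eq] at h ⊢
  rcases h with (h | h) | (h | h)
  · exact Or.inl (Or.inl h.symm)
  · exact Or.inr (Or.inl h.symm)
  · exact Or.inl (Or.inr h.symm)
  · exact Or.inr (Or.inr h.symm)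

theorem meet_refl {φ : CNF} {k : ℕ} (x : ℕ × ℕ) : meet φ k x x = true := by
  unfold meet
  simp

theorem meet_of_job {φ : CNF} {k : ℕ} {x y : ℕ × ℕ} {j : ℕ}
    (hx : jobA φ k x = j ∨ jobB φ k x = j) (hy : jobA φ k y = j ∨ jobB φ k y = j) :
    meet φ k x y = true := by
  unfold meet
  simp only [Bool.or_eq_true, decide_eq_true_eq]
  rcases hx with hx | hx <;> rcases hy with hy | hy <;> simp [hx, hy]

theorem find?_eq_of_unique {α : Type} {l : List α} {f : α → Bool} {a : α} (ha : a ∈ l)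
    (hf : f a = true) (hu : ∀ b ∈ l, f b = true → b = a) : l.find? f = some a := by
  cases h : l.find? f with
  | none =>
    rw [List.find?_eq_none] at h
    exact absurd hf (h a ha)
  | some b => rw [hu b (List.mem_of_find?_eq_some h) (List.find?_some h)]

/-- the level of the clause of the position -/
def lamC (k : ℕ) (x : ℕ × ℕ) : ℕ := x.2 / 3 / k

/-- the level of the variable of the position -/
def lamV (φ : CNF) (k d : ℕ) (x : ℕ × ℕ) : ℕ := d + (litAt φ x.2).1 / k

/-- the test is violated by the block numbers `p` -/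
def viol (φ : CNF) (k d : ℕ) (p : ℕ → ℕ) (x : ℕ × ℕ) : Bool :=
  !allow x.1 (x.2 % 3) (litAt φ x.2).2
    ((digit 16 (p (jobA φ k x)) (lamC k x) + 16 - digit 16 (p (jobB φ k x)) (lamC k x)) % 16)
    ((digit 16 (p (jobA φ k x)) (lamV φ k d x) + 16 -
      digit 16 (p (jobB φ k x)) (lamV φ k d x)) % 16)

/-- the slot of the coloured test -/
def slotB (φ : CNF) (k d : ℕ) (p : ℕ → ℕ) (x : ℕ × ℕ) (c : ℕ) : ℕ :=
  65536 * c + 4096 * digit 16 (p (jobA φ k x)) (lamC k x) +
    256 * digit 16 (p (jobA φ k x)) (lamV φ k d x) +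
    16 * digit 16 (p (jobB φ k x)) (lamC k x) + digit 16 (p (jobB φ k x)) (lamV φ k d x)

theorem slotB_digits {c a b a' b' : ℕ} (ha : a < 16) (ha' : a' < 16)
    (hb : b < 16) (hb' : b' < 16) {i : ℕ}
    (hi : i = 65536 * c + 4096 * a + 256 * a' + 16 * b + b') :
    i / 65536 = c ∧ i / 4096 % 16 = a ∧
      i / 256 % 16 = a' ∧ i / 16 % 16 = b ∧ i % 16 = b' := by
  refine ⟨?_, ?_, ?_, ?_, ?_⟩ <;> omega

theorem slotB_spec (φ : CNF) (k d : ℕ) (p : ℕ → ℕ) (x : ℕ × ℕ) (c : ℕ) :
    slotB φ k d p x c / 65536 = c ∧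
    slotB φ k d p x c / 4096 % 16 = digit 16 (p (jobA φ k x)) (lamC k x) ∧
    slotB φ k d p x c / 256 % 16 = digit 16 (p (jobA φ k x)) (lamV φ k d x) ∧
    slotB φ k d p x c / 16 % 16 = digit 16 (p (jobB φ k x)) (lamC k x) ∧
    slotB φ k d p x c % 16 = digit 16 (p (jobB φ k x)) (lamV φ k d x) :=
  slotB_digits (digit_lt (by norm_num) _ _) (digit_lt (by norm_num) _ _)
    (digit_lt (by norm_num) _ _) (digit_lt (by norm_num) _ _) rfl

theorem slotMach_viol {φ : CNF} {k d : ℕ} {p : ℕ → ℕ} {x : ℕ × ℕ} {c : ℕ}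
    (hx : (x, c) ∈ cols φ k) (hv : viol φ k d p x = true) {j : ℕ}
    (hj : jobA φ k x = j ∨ jobB φ k x = j) :
    slotMach φ k d (cols φ k) (slotB φ k d p x c) j (p j) = 2 * k + jobA φ k x := by
  obtain ⟨e1, e2, e3, e4, e5⟩ := slotB_spec φ k d p x c
  unfold slotMach
  rw [find?_eq_of_unique (a := (x, c)) hx]
  · simp only [Option.map_some, Option.getD_some]
    unfold testMach
    rw [e2, e3, e4, e5]
    rw [if_pos]
    unfold viol at hv
    unfold lamC lamV at *
    rw [hv, Bool.true_and]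
    rcases hj with rfl | rfl
    · simp
    · simp
  · simp only [e1, decide_true, Bool.true_and, Bool.or_eq_true, decide_eq_true_eq]
    exact hj
  · intro y hy hfy
    rw [e1] at hfy
    simp only [Bool.and_eq_true, Bool.or_eq_true, decide_eq_true_eq] at hfy
    exact colour_proper (meet φ k) meet_symm (tests φ k) y (x, c) hy hx
      (meet_of_job hfy.2 hj) hfy.1

theorem machB_viol {φ : CNF} {k d L w : ℕ} {tab : List (List ℕ)} {p : ℕ → ℕ} {x : ℕ × ℕ} {c : ℕ}
    (h3 : 3 ∣ L) (hi : 3 * slotB φ k d p x c + 2 < L)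
    (hx : (x, c) ∈ cols φ k) (hv : viol φ k d p x = true) {j : ℕ}
    (hj : jobA φ k x = j ∨ jobB φ k x = j) :
    machB φ k d L w tab (cols φ k) j (p j * L + (3 * slotB φ k d p x c + 2)) =
      2 * k + jobA φ k x := by
  obtain ⟨v, hv3⟩ := h3
  have e1 : (p j * L + (3 * slotB φ k d p x c + 2)) % 3 = 2 := by
    rw [hv3, show p j * (3 * v) + (3 * slotB φ k d p x c + 2) =
      2 + 3 * (p j * v + slotB φ k d p x c) by ring, Nat.add_mul_mod_self_left]
  have e2 : (p j * L + (3 * slotB φ k d p x c + 2)) % L / 3 = slotB φ k d p x c := by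
    rw [Nat.mul_add_mod', Nat.mod_eq_of_lt hi]
    omega
  have e3 : (p j * L + (3 * slotB φ k d p x c + 2)) / L = p j := by
    rw [mul_comm, Nat.mul_add_div (by omega), Nat.div_eq_of_lt hi, add_zero]
  unfold machB
  rw [if_pos e1, e2, e3]
  exact slotMach_viol hx hv hj

/-- the violated tests -/
def violSet (φ : CNF) (k d : ℕ) (p : ℕ → ℕ) : Finset (ℕ × ℕ) :=
  (tests φ k).toFinset.filter fun x => viol φ k d p x = true

theorem mem_tests {φ : CNF} {k : ℕ} {x : ℕ × ℕ} : x ∈ tests φ k ↔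
    x.1 < 3 ∧ x.2 < 3 * φ.2.length ∧ jobA φ k x ≠ jobB φ k x := by
  unfold tests
  obtain ⟨t, o⟩ := x
  simp only [List.mem_filter, List.mem_flatMap, List.mem_range, List.mem_map, Prod.mk.injEq,
    Bool.not_eq_true', decide_eq_false_iff_not]
  constructor
  · rintro ⟨⟨t', ht, o', ho, rfl, rfl⟩, h⟩
    exact ⟨ht, ho, h⟩
  · rintro ⟨ht, ho, h⟩
    exact ⟨⟨t, ht, o, ho, rfl, rfl⟩, h⟩

theorem job_lt {φ : CNF} {k : ℕ} (hk : 0 < k) (x : ℕ × ℕ) :
    jobA φ k x < 2 * k ∧ jobB φ k x < 2 * k := by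
  unfold jobA jobB
  have h1 := Nat.mod_lt (litAt φ x.2).1 hk
  have h2 := Nat.mod_lt (litAt φ (3 * (x.2 / 3))).1 hk
  have h3 := Nat.mod_lt (fstOcc φ x.2 / 3) hk
  have h4 := Nat.mod_lt (x.2 / 3) hk
  split_ifs <;> omega

theorem violSet_card {φ : CNF} {k d L w N : ℕ} {tab : List (List ℕ)} (hk : 0 < k)
    (hN : ∀ y ∈ cols φ k, y.2 < N) (hL : 3 * 65536 * N ≤ L) (h3 : 3 ∣ L)
    (p : ℕ → ℕ) (bad : Finset (ℕ × ℕ))
    (h : ∀ u < L, ∀ i < 2 * k, ∀ j < 2 * k, i ≠ j → (u, i) ∉ bad → (u, j) ∉ bad →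
      machB φ k d L w tab (cols φ k) i (p i * L + u) ≠
        machB φ k d L w tab (cols φ k) j (p j * L + u)) :
    (violSet φ k d p).card ≤ bad.card := by
  classical
  have hcol : ∀ x ∈ violSet φ k d p, ∃ c, (x, c) ∈ cols φ k := by
    intro x hx
    exact exists_colour (meet φ k) (List.mem_toFinset.1 (mem_filter.1 hx).1)
  choose! c hc using hcol
  let f : ℕ × ℕ → ℕ × ℕ := fun x =>
    if (3 * slotB φ k d p x (c x) + 2, jobA φ k x) ∈ bad then
      (3 * slotB φ k d p x (c x) + 2, jobA φ k x)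
    else (3 * slotB φ k d p x (c x) + 2, jobB φ k x)
  have hf1 : ∀ x, (f x).1 = 3 * slotB φ k d p x (c x) + 2 := by
    intro x
    simp only [f]
    split_ifs <;> rfl
  have hf2 : ∀ x, jobA φ k x = (f x).2 ∨ jobB φ k x = (f x).2 := by
    intro x
    simp only [f]
    split_ifs
    · exact Or.inl rfl
    · exact Or.inr rfl
  refine card_le_card_of_injOn f ?_ ?_
  · intro x hx
    have hx' : x ∈ violSet φ k d p := hx
    have hcx := hc x hx'
    obtain ⟨hxt, hxv⟩ := mem_filter.1 hx'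
    have hne := (mem_tests.1 (List.mem_toFinset.1 hxt)).2.2
    obtain ⟨e1, e2, e3, e4, e5⟩ := slotB_spec φ k d p x (c x)
    have hlt : 3 * slotB φ k d p x (c x) + 2 < L := by
      have := hN _ hcx
      simp only at this
      omega
    show f x ∈ bad
    simp only [f]
    split_ifs with hA
    · exact hA
    · by_contra hB
      obtain ⟨j1, j2⟩ := job_lt (φ := φ) hk x
      refine h _ hlt _ j1 _ j2 hne hA hB ?_
      rw [machB_viol h3 hlt hcx hxv (Or.inl rfl), machB_viol h3 hlt hcx hxv (Or.inr rfl)]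
  · intro x hx y hy hxy
    have hx' : x ∈ violSet φ k d p := hx
    have hy' : y ∈ violSet φ k d p := hy
    have hcx := hc x hx'
    have hcy := hc y hy'
    have h1 : slotB φ k d p x (c x) = slotB φ k d p y (c y) := by
      have := congrArg Prod.fst hxy
      rw [hf1, hf1] at this
      omega
    have h2 : c x = c y := by
      rw [← (slotB_spec φ k d p x (c x)).1, ← (slotB_spec φ k d p y (c y)).1, h1]
    have h4 : jobA φ k y = (f x).2 ∨ jobB φ k y = (f x).2 := by
      rw [hxy]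
      exact hf2 y
    have h5 := colour_proper (meet φ k) meet_symm (tests φ k) (x, c x) (y, c y) hcx hcy
      (meet_of_job (hf2 x) h4) h2
    exact (Prod.mk.inj h5).1

/-! ### Clauses -/

/-- the clause number `c` is touched by the test `x` -/
def Touch (φ : CNF) (x : ℕ × ℕ) (c : ℕ) : Prop :=
  if x.1 = 1 then c = x.2 / 3 else ∃ r < 3, (litAt φ (3 * c + r)).1 = (litAt φ x.2).1

theorem touch_card {φ : CNF} {B k : ℕ} (hB : Bdd B φ) {x : ℕ × ℕ} (hx : x ∈ tests φ k)
    [DecidablePred (Touch φ x)] :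
    ((range φ.2.length).filter (Touch φ x)).card ≤ B := by
  classical
  obtain ⟨_, ho, _⟩ := mem_tests.1 hx
  have hmem : (litAt φ x.2).1 ∈ varList φ := by
    rw [varList_map, List.mem_map]
    exact ⟨x.2, List.mem_range.2 ho, rfl⟩
  obtain ⟨h1, h2⟩ := hB.2 _ (hB.1 _ hmem)
  by_cases hx1 : x.1 = 1
  · have hsub : (range φ.2.length).filter (Touch φ x) ⊆ {x.2 / 3} := by
      intro c hc
      have := (mem_filter.1 hc).2
      unfold Touch at this
      rw [if_pos hx1] at this
      exact mem_singleton.2 this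
    have := card_le_card hsub
    rw [card_singleton] at this
    omega
  · have hsub : (range φ.2.length).filter (Touch φ x) ⊆
        ((range (3 * φ.2.length)).filter fun o => (litAt φ o).1 = (litAt φ x.2).1).image
          fun o => o / 3 := by
      intro c hc
      obtain ⟨hc1, hc2⟩ := mem_filter.1 hc
      unfold Touch at hc2
      rw [if_neg hx1] at hc2
      obtain ⟨r, hr, hv⟩ := hc2
      rw [mem_range] at hc1
      exact mem_image.2 ⟨3 * c + r, mem_filter.2 ⟨mem_range.2 (by omega), hv⟩, by omega⟩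
    refine (card_le_card hsub).trans (card_image_le.trans ?_)
    rw [← count_varList]
    exact h2

/-- the difference of digits of the variable `v` at the position `o` -/
def yv (k d : ℕ) (p : ℕ → ℕ) (v o : ℕ) : ℕ :=
  (digit 16 (p (k + v % k)) (d + v / k) + 16 - digit 16 (p (o / 3 % k)) (d + v / k)) % 16

open Classical in
/-- the assignment -/
noncomputable def asgB (φ : CNF) (k d : ℕ) (p : ℕ → ℕ) (v : ℕ) : Bool :=
  if h : ∃ o, (litAt φ o).1 = v then
    decide (11 ≤ yv k d p v (fstOcc φ h.choose)) && decide (yv k d p v (fstOcc φ h.choose) ≤ 13)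
  else false

theorem asgB_eq {φ : CNF} {k d : ℕ} {p : ℕ → ℕ} {v o : ℕ} (h : (litAt φ o).1 = v) :
    asgB φ k d p v = (decide (11 ≤ yv k d p v (fstOcc φ o)) &&
      decide (yv k d p v (fstOcc φ o) ≤ 13)) := by
  unfold asgB
  have hex : ∃ o, (litAt φ o).1 = v := ⟨o, h⟩
  rw [dif_pos hex, fstOcc_congr (hex.choose_spec.trans h.symm)]

theorem allow_of_not {φ : CNF} {k d : ℕ} {p : ℕ → ℕ} {x : ℕ × ℕ} (hx : x ∈ tests φ k)
    (h : x ∉ violSet φ k d p) : viol φ k d p x = false := by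
  by_contra hcon
  rw [Bool.not_eq_false] at hcon
  exact h (mem_filter.2 ⟨List.mem_toFinset.2 hx, hcon⟩)

theorem test0_mem {φ : CNF} {k o : ℕ} (hk : 0 < k) (ho : o < 3 * φ.2.length) :
    (0, o) ∈ tests φ k := by
  rw [mem_tests]
  refine ⟨by simp, ho, ?_⟩
  have h1 := Nat.mod_lt (o / 3) hk
  simp only [jobA, jobB, ↓reduceIte, zero_ne_one]
  omega

theorem test0_spec {φ : CNF} {k d : ℕ} {p : ℕ → ℕ} {o : ℕ} (hk : 0 < k)
    (ho : o < 3 * φ.2.length) (h : (0, o) ∉ violSet φ k d p) :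
    allow 0 (o % 3) (litAt φ o).2
      ((digit 16 (p (k + (litAt φ o).1 % k)) (o / 3 / k) + 16 -
        digit 16 (p (o / 3 % k)) (o / 3 / k)) % 16) (yv k d p (litAt φ o).1 o) = true := by
  have h1 := allow_of_not (test0_mem hk ho) h
  unfold viol at h1
  rw [Bool.not_eq_false'] at h1
  simpa only [jobA, jobB, lamC, lamV, yv, ↓reduceIte, zero_ne_one] using h1

theorem test2_spec {φ : CNF} {k d : ℕ} {p : ℕ → ℕ} {o : ℕ}
    (ho : o < 3 * φ.2.length) (h : (2, o) ∉ violSet φ k d p) :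
    (digit 16 (p (fstOcc φ o / 3 % k)) (d + (litAt φ o).1 / k) + 16 -
      digit 16 (p (o / 3 % k)) (d + (litAt φ o).1 / k)) % 16 = 15 ∨
    (digit 16 (p (fstOcc φ o / 3 % k)) (d + (litAt φ o).1 / k) + 16 -
      digit 16 (p (o / 3 % k)) (d + (litAt φ o).1 / k)) % 16 ≤ 1 := by
  by_cases hAB : jobA φ k (2, o) = jobB φ k (2, o)
  · simp only [jobA, jobB, OfNat.ofNat_ne_zero, OfNat.ofNat_ne_one, ↓reduceIte] at hAB
    rw [hAB]
    right
    omega
  · have h1 := allow_of_not (mem_tests.2 ⟨by simp, ho, hAB⟩) h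
    unfold viol at h1
    rw [Bool.not_eq_false'] at h1
    simpa only [jobA, jobB, lamC, lamV, allow, OfNat.ofNat_ne_zero, OfNat.ofNat_ne_one,
      ↓reduceIte, Bool.or_eq_true, decide_eq_true_eq] using h1

theorem test1_spec {φ : CNF} {k d : ℕ} {p : ℕ → ℕ} {c r : ℕ} (hr : r < 3)
    (ho : 3 * c + r < 3 * φ.2.length) (h : (1, 3 * c + r) ∉ violSet φ k d p) :
    digit 16 (p (k + (litAt φ (3 * c)).1 % k)) (c / k) =
      digit 16 (p (k + (litAt φ (3 * c + r)).1 % k)) (c / k) := by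
  have e1 : (3 * c + r) / 3 = c := by omega
  by_cases hAB : jobA φ k (1, 3 * c + r) = jobB φ k (1, 3 * c + r)
  · simp only [jobA, jobB, one_ne_zero, ↓reduceIte, e1] at hAB
    rw [hAB]
  · have h1 := allow_of_not (mem_tests.2 ⟨by simp, ho, hAB⟩) h
    unfold viol at h1
    rw [Bool.not_eq_false'] at h1
    simp only [jobA, jobB, lamC, allow, one_ne_zero, ↓reduceIte, decide_eq_true_eq,
      e1] at h1
    have l1 := digit_lt (q := 16) (by norm_num) (p (k + (litAt φ (3 * c)).1 % k)) (c / k)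
    have l2 := digit_lt (q := 16) (by norm_num) (p (k + (litAt φ (3 * c + r)).1 % k)) (c / k)
    omega

theorem allow0_iff {r x y : ℕ} {sg : Bool} (h : allow 0 r sg x y = true) :
    x / 4 < 3 ∧ (y = 15 ∨ y ≤ 1 ∨ (11 ≤ y ∧ y ≤ 13)) ∧
      (x / 4 = r → (decide (11 ≤ y) && decide (y ≤ 13)) = sg) := by
  unfold allow at h
  simp only [↓reduceIte, Bool.and_eq_true, decide_eq_true_eq, Bool.or_eq_true,
    Bool.not_eq_true', decide_eq_false_iff_not] at h
  obtain ⟨h1, h2, h3⟩ := h
  refine ⟨by omega, by omega, ?_⟩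
  intro hr
  rcases h3 with ⟨h4, h5⟩ | ⟨h4, h5⟩
  · have hs : sg = false := h5.resolve_left (fun h => h hr)
    rw [hs, Bool.and_eq_false_iff, decide_eq_false_iff_not, decide_eq_false_iff_not]
    omega
  · have hs : sg = true := h5.resolve_left (fun h => h hr)
    rw [hs, Bool.and_eq_true, decide_eq_true_eq, decide_eq_true_eq]
    exact h4

theorem holds_of_untouched {φ : CNF} {k d : ℕ} {p : ℕ → ℕ} {c : ℕ} {cl : Clause} (hk : 0 < k)
    (hc : φ.2[c]? = some cl) (h : ∀ x ∈ violSet φ k d p, ¬ Touch φ x c) :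
    holds (asgB φ k d p) cl = true := by
  have hcl : c < φ.2.length := by
    obtain ⟨h1, _⟩ := List.getElem?_eq_some_iff.1 hc
    exact h1
  -- the four tests
  have n0 : ∀ r < 3, (0, 3 * c + r) ∉ violSet φ k d p := by
    intro r hr hx
    refine h _ hx ?_
    unfold Touch
    rw [if_neg (by simp)]
    exact ⟨r, hr, rfl⟩
  have n2 : ∀ r < 3, (2, 3 * c + r) ∉ violSet φ k d p := by
    intro r hr hx
    refine h _ hx ?_
    unfold Touch
    rw [if_neg (by simp)]
    exact ⟨r, hr, rfl⟩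
  have n1 : ∀ r < 3, (1, 3 * c + r) ∉ violSet φ k d p := by
    intro r hr hx
    refine h _ hx ?_
    unfold Touch
    rw [if_pos rfl]
    show c = (3 * c + r) / 3
    omega
  have nf : ∀ r < 3, (0, fstOcc φ (3 * c + r)) ∉ violSet φ k d p := by
    intro r hr hx
    refine h _ hx ?_
    unfold Touch
    rw [if_neg (by simp)]
    exact ⟨r, hr, (fstOcc_spec φ (3 * c + r)).1.symm⟩
  -- the index of the true literal
  have t0 := allow0_iff (test0_spec hk (by omega : 3 * c + 0 < 3 * φ.2.length) (n0 0 (by norm_num)))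
  obtain ⟨r, hr⟩ : ∃ r, (digit 16 (p (k + (litAt φ (3 * c + 0)).1 % k)) ((3 * c + 0) / 3 / k) + 16 -
        digit 16 (p ((3 * c + 0) / 3 % k)) ((3 * c + 0) / 3 / k)) % 16 / 4 = r := ⟨_, rfl⟩
  have hr3 : r < 3 := by
    rw [← hr]
    exact t0.1
  have tr := allow0_iff (test0_spec hk (by omega : 3 * c + r < 3 * φ.2.length) (n0 r hr3))
  have e0 : (3 * c + 0) / 3 = c := by omega
  have er : (3 * c + r) / 3 = c := by omega
  have emod : (3 * c + r) % 3 = r := by omega
  have hx1 := test1_spec (k := k) (d := d) (p := p) hr3 (by omega : 3 * c + r < 3 * φ.2.length)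
    (n1 r hr3)
  have hsg : (decide (11 ≤ yv k d p (litAt φ (3 * c + r)).1 (3 * c + r)) &&
      decide (yv k d p (litAt φ (3 * c + r)).1 (3 * c + r) ≤ 13)) = (litAt φ (3 * c + r)).2 := by
    apply tr.2.2
    rw [emod, er, ← hx1]
    rw [e0, Nat.add_zero] at hr
    exact hr
  -- the class is constant
  have tf := allow0_iff (test0_spec hk (by
    have := (fstOcc_spec φ (3 * c + r)).2.1
    omega : fstOcc φ (3 * c + r) < 3 * φ.2.length) (nf r hr3))
  rw [(fstOcc_spec φ (3 * c + r)).1] at tf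
  have hz := test2_spec (k := k) (d := d) (p := p) (by omega : 3 * c + r < 3 * φ.2.length)
    (n2 r hr3)
  have key : asgB φ k d p (litAt φ (3 * c + r)).1 = (litAt φ (3 * c + r)).2 := by
    rw [asgB_eq rfl, ← hsg, Bool.eq_iff_iff]
    simp only [Bool.and_eq_true, decide_eq_true_eq]
    have a1 := tr.2.1
    have a2 := tf.2.1
    unfold yv at a1 a2 ⊢
    have l1 := digit_lt (q := 16) (by norm_num) (p (k + (litAt φ (3 * c + r)).1 % k))
      (d + (litAt φ (3 * c + r)).1 / k)
    have l2 := digit_lt (q := 16) (by norm_num) (p ((3 * c + r) / 3 % k))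
      (d + (litAt φ (3 * c + r)).1 / k)
    have l3 := digit_lt (q := 16) (by norm_num) (p (fstOcc φ (3 * c + r) / 3 % k))
      (d + (litAt φ (3 * c + r)).1 / k)
    omega
  rw [litAt_eq hc hr3] at key
  unfold holds
  interval_cases r
  · simp only [litOf, ↓reduceIte] at key
    simp [key]
  · simp only [litOf, one_ne_zero, ↓reduceIte] at key
    simp [key]
  · simp only [litOf, OfNat.ofNat_ne_zero, OfNat.ofNat_ne_one, ↓reduceIte] at key
    simp [key]

theorem far_violSet {φ : CNF} {B D k d : ℕ} (hk : 0 < k) (hB : Bdd B φ) (hfar : Far D φ)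
    (p : ℕ → ℕ) : φ.2.length < D * (B * (violSet φ k d p).card) := by
  classical
  refine (hfar (asgB φ k d p)).trans_le (Nat.mul_le_mul_left D ?_)
  have h1 : φ.2.countP (fun c => !holds (asgB φ k d p) c) ≤
      ((range φ.2.length).filter fun c => ∃ x ∈ violSet φ k d p, Touch φ x c).card := by
    refine countP_le_card _ (fun c => c) φ.2 0 _ ?_
    intro c cl hc hv
    rw [Bool.not_eq_true'] at hv
    have hcl : c < φ.2.length := by
      obtain ⟨h1, _⟩ := List.getElem?_eq_some_iff.1 hc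
      exact h1
    refine ⟨c, mem_filter.2 ⟨mem_range.2 hcl, ?_⟩, by simp⟩
    by_contra hcon
    push Not at hcon
    rw [holds_of_untouched hk hc hcon] at hv
    exact absurd hv (by simp)
  refine h1.trans ?_
  have h2 : ((range φ.2.length).filter fun c => ∃ x ∈ violSet φ k d p, Touch φ x c) ⊆
      (violSet φ k d p).biUnion fun x => (range φ.2.length).filter (Touch φ x) := by
    intro c hc
    obtain ⟨hc1, x, hx, hxc⟩ := mem_filter.1 hc
    exact mem_biUnion.2 ⟨x, hx, mem_filter.2 ⟨hc1, hxc⟩⟩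
  refine (card_le_card h2).trans (card_biUnion_le.trans ?_)
  have h3 : ∀ x ∈ violSet φ k d p, ((range φ.2.length).filter (Touch φ x)).card ≤ B := by
    intro x hx
    exact touch_card hB (List.mem_toFinset.1 (mem_filter.1 hx).1)
  refine (sum_le_card_nsmul _ _ _ h3).trans ?_
  rw [smul_eq_mul, mul_comm]

/-- The static part of the negative case. -/
theorem static2_of_deg {φ : CNF} {B D k d L w N : ℕ} {tab : List (List ℕ)} (hk : 0 < k)
    (hB : Bdd B φ) (hdeg : ∀ x ∈ tests φ k, ((tests φ k).filter (meet φ k x)).length ≤ N)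
    (hL : 3 * 65536 * N ≤ L) (h3 : 3 ∣ L) (hfar : Far D φ) (p : ℕ → ℕ) (bad : Finset (ℕ × ℕ))
    (h : ∀ u < L, ∀ i < 2 * k, ∀ j < 2 * k, i ≠ j → (u, i) ∉ bad → (u, j) ∉ bad →
      machB φ k d L w tab (cols φ k) i (p i * L + u) ≠
        machB φ k d L w tab (cols φ k) j (p j * L + u)) :
    φ.2.length < D * (B * bad.card) := by
  have h1 := far_violSet (d := d) hk hB hfar p
  have h2 := violSet_card (d := d) hk (colour_lt (meet φ k) meet_refl (tests φ k) hdeg) hL h3 p bad h
  exact h1.trans_le (Nat.mul_le_mul_left D (Nat.mul_le_mul_left B h2))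

end Pool.Agent.H.JS
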