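import Pool.Agent.H.MP_84f0af_lc.UFdef

/-!
Case distinction and translating moves in the stack language.
-/

namespace Pool.Agent.H.MP_aeb38e_lc

open Function Pool.Agent.H.MP_84f0af_lc

variable {A : Type}

/-- case distinction over a list of tests of the top of register `r` -/
def sw (r : ℕ) {ι : Type} (p : ι → Option A → Bool) (c : ι → Cmd A) : List ι → Cmd A
  | [] => .skip
  | i :: l => .ite r (p i) (c i) (sw r p c l)

theorem run_sw {r : ℕ} {ι : Type} {p : ι → Option A → Bool} {c : ι → Cmd A} {S S' : Sto A}
    {i : ι} {n : ℕ} (hi : p i (S r).head? = true) (hu : ∀ j, p j (S r).head? = true → j = i)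
    (h : Run (c i) S n S') : ∀ l : List ι, i ∈ l → ∃ n' ≤ n + l.length, Run (sw r p c l) S n' S' := by
  intro l
  induction l with
  | nil => intro h; simp at h
  | cons j l ih =>
    intro hm
    by_cases hj : p j (S r).head? = true
    · obtain rfl := hu j hj
      exact ⟨1 + n, by simp only [List.length_cons]; omega, Run.ite_true hj h⟩
    · have hne : i ≠ j := by
        rintro rfl
        exact hj hi
      have hm' : i ∈ l := by
        rcases List.mem_cons.1 hm with h' | h'
        · exact absurd h' hne
        · exact h'
      obtain ⟨n', hn', hr⟩ := ih hm'
      exact ⟨1 + n', by simp only [List.length_cons]; omega,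
        Run.ite_false (by simpa using hj) hr⟩

/-- move everything from `r` to `s` (reversing), translating the symbols with `f` -/
noncomputable def trans [Fintype A] [DecidableEq A] (f : A → A) (r s : ℕ) : Cmd A :=
  .loop r nonemp (sw r (fun (a : A) o => decide (o = some a))
    (fun a => .seq (.pop r) (.push s (f a))) Finset.univ.toList)

theorem run_trans [Fintype A] [DecidableEq A] (f : A → A) {r s : ℕ} (hrs : r ≠ s) :
    ∀ (l : List A) (S : Sto A), S r = l → ∃ n ≤ (Fintype.card A + 3) * l.length + 1,
    Run (trans f r s) S n (update (update S r []) s ((l.map f).reverse ++ S s)) := by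
  intro l
  induction l with
  | nil =>
    intro S hS
    refine ⟨1, by simp, (Run.loop_false (by rw [hS]; rfl)).congr ?_⟩
    funext k
    simp only [update_apply]
    split_ifs with k1 k2
    · rw [k1]; simp
    · rw [k2, hS]
    · rfl
  | cons a l ih =>
    intro S hS
    obtain ⟨n1, hn1, h1⟩ := ih (update (update S r l) s (f a :: S s)) (by
      rw [update_of_ne hrs, update_self])
    have h2 : Run (.seq (.pop r) (.push s (f a))) S 2 (update (update S r l) s (f a :: S s)) := by
      refine (Run.seq (Run.pop r S) (Run.push s (f a) _)).congr ?_
      rw [hS, update_of_ne hrs.symm]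
      rfl
    obtain ⟨n2, hn2, h3⟩ := run_sw (p := fun (a : A) o => decide (o = some a))
      (c := fun a => .seq (.pop r) (.push s (f a))) (i := a) (S := S) (r := r)
      (by rw [hS]; simp) (by intro j hj; rw [hS] at hj; exact (by simpa using hj : a = j).symm) h2
      Finset.univ.toList (by simp)
    have h4 := Run.loop_true (p := nonemp) (by rw [hS]; rfl) h3 h1
    refine ⟨_, ?_, h4.congr ?_⟩
    · rw [Finset.length_toList, Finset.card_univ] at hn2
      rw [List.length_cons]
      calc 1 + (n2 + n1) ≤ 1 + ((2 + Fintype.card A) + ((Fintype.card A + 3) * l.length + 1)) := by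
            omega
        _ = (Fintype.card A + 3) * (l.length + 1) + 1 := by ring
    · clear h1 h2 h3 h4 ih
      funext k
      simp only [update_apply]
      split_ifs with k1 k2
      · simp
      · rfl
      · rfl

theorem len_update {S : Sto A} {r s : ℕ} {l : List A} {n : ℕ}
    (h : l.length ≤ (S s).length + n) : (update S s l r).length ≤ (S r).length + n := by
  rw [update_apply]
  split_ifs with h1
  · rw [h1]; exact h
  · omega

/-- the length of a register grows by at most two in a step -/
theorem Run.len_le {c : Cmd A} {S S' : Sto A} {n : ℕ} (h : Run c S n S') (r : ℕ) :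
    (S' r).length ≤ (S r).length + 2 * n := by
  induction h with
  | skip => omega
  | push s a S => exact (len_update (n := 1) (by simp)).trans (by omega)
  | pop s S => exact (len_update (n := 0) (by simp)).trans (by omega)
  | move s t S =>
    unfold doMove
    cases hs : S s with
    | nil => simp only; omega
    | cons a l =>
      simp only
      refine (len_update (n := 1) (by simp)).trans ?_
      have := len_update (S := S) (r := r) (s := s) (l := l) (n := 0) (by rw [hs]; simp)
      omega
  | dup s t u S =>
    unfold doDup
    cases hs : S s with
    | nil => simp only; omega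
    | cons a l =>
      simp only
      refine (len_update (n := 1) (by simp)).trans ?_
      have h1 := len_update (S := update S s l) (r := r) (s := t) (l := a :: update S s l t)
        (n := 1) (by simp)
      have h2 := len_update (S := S) (r := r) (s := s) (l := l) (n := 0) (by rw [hs]; simp)
      omega
  | seq _ _ ih1 ih2 => omega
  | ite_true _ _ ih => omega
  | ite_false _ _ ih => omega
  | loop_false => omega
  | loop_true _ _ _ ih1 ih2 => omega

end Pool.Agent.H.MP_aeb38e_lc
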