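import Pool.Agent.H.MP_aeb38e_lc.Sw
import Pool.Agent.H.MP_5be563_lc.PT.Data

/-!
Translation of the programs over four stacks of bits to the stack language.
-/

namespace Pool.Agent.H.MP_aeb38e_lc

open Function Pool.Agent.H.MP_84f0af_lc

variable {B : Type}

/-- the registers of the four stacks -/
def reg : MP_5be563_lc.PT.Stk → ℕ
  | .M => 2
  | .A => 3
  | .B => 4
  | .C => 5

theorem reg_inj : Injective reg := by
  intro a b h
  cases a <;> cases b <;> first | rfl | (simp [reg] at h)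

/-- test for the bit `true` -/
def isT : Option (Bool ⊕ B) → Bool
  | some (.inl true) => true
  | _ => false

/-- translation of a program -/
def tr (B : Type) : MP_5be563_lc.PT.Prog → Cmd (Bool ⊕ B)
  | .skip => .skip
  | .push k b => .push (reg k) (.inl b)
  | .seq p q => .seq (tr B p) (tr B q)
  | .pop k pe pf pt => .ite (reg k) isT (.seq (.pop (reg k)) (tr B pt))
      (.ite (reg k) nonemp (.seq (.pop (reg k)) (tr B pf)) (tr B pe))
  | .loop k pf pt => .loop (reg k) nonemp (.ite (reg k) isT (.seq (.pop (reg k)) (tr B pt))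
      (.seq (.pop (reg k)) (tr B pf)))
  | .whileT k p => .seq (.loop (reg k) isT (.seq (.pop (reg k)) (tr B p))) (.pop (reg k))

/-- the store `S` with the given contents of the four stacks -/
def setP (S : Sto (Bool ⊕ B)) (s : MP_5be563_lc.PT.Sto) : Sto (Bool ⊕ B) :=
  update (update (update (update S 2 ((s .M).map .inl)) 3 ((s .A).map .inl)) 4
    ((s .B).map .inl)) 5 ((s .C).map .inl)

theorem setP_reg (S : Sto (Bool ⊕ B)) (s : MP_5be563_lc.PT.Sto) (k : MP_5be563_lc.PT.Stk) :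
    setP S s (reg k) = (s k).map .inl := by
  cases k <;> simp [setP, reg]

theorem setP_other (S : Sto (Bool ⊕ B)) (s : MP_5be563_lc.PT.Sto) {r : ℕ} (h : ∀ k, reg k ≠ r) :
    setP S s r = S r := by
  have h1 := h .M
  have h2 := h .A
  have h3 := h .B
  have h4 := h .C
  simp only [reg] at h1 h2 h3 h4
  simp only [setP]
  rw [update_of_ne (Ne.symm h4), update_of_ne (Ne.symm h3), update_of_ne (Ne.symm h2),
    update_of_ne (Ne.symm h1)]

theorem update_setP (S : Sto (Bool ⊕ B)) (s : MP_5be563_lc.PT.Sto) (k : MP_5be563_lc.PT.Stk)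
    (l : List Bool) : update (setP S s) (reg k) (l.map .inl) = setP S (update s k l) := by
  funext r
  by_cases hr : ∃ k', reg k' = r
  · obtain ⟨k', rfl⟩ := hr
    by_cases hk : k' = k
    · subst hk
      rw [update_self, setP_reg, update_self]
    · rw [update_of_ne (fun h => hk (reg_inj h)), setP_reg, setP_reg, update_of_ne hk]
  · rw [update_of_ne (fun h => hr ⟨k, h.symm⟩), setP_other _ _ (fun k h => hr ⟨k, h⟩),
      setP_other _ _ (fun k h => hr ⟨k, h⟩)]

theorem run_popP (S : Sto (Bool ⊕ B)) {s : MP_5be563_lc.PT.Sto} {k : MP_5be563_lc.PT.Stk}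
    {b : Bool} {l : List Bool} (h : s k = b :: l) :
    Run (.pop (reg k)) (setP S s) 1 (setP S (update s k l)) := by
  refine (Run.pop _ _).congr ?_
  rw [setP_reg, h, List.map_cons, List.tail_cons, update_setP]

theorem tr_run {p : MP_5be563_lc.PT.Prog} {s s' : MP_5be563_lc.PT.Sto} {n : ℕ}
    (h : MP_5be563_lc.PT.Ev p s s' n) (S : Sto (Bool ⊕ B)) :
    ∃ n' ≤ 4 * n, Run (tr B p) (setP S s) n' (setP S s') := by
  induction h with
  | skip => exact ⟨1, by omega, Run.skip _⟩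
  | @push k b s =>
    refine ⟨1, by omega, (Run.push _ _ _).congr ?_⟩
    rw [setP_reg, ← List.map_cons, update_setP]
  | seq _ _ ih1 ih2 =>
    obtain ⟨n1, h1, r1⟩ := ih1
    obtain ⟨n2, h2, r2⟩ := ih2
    exact ⟨n1 + n2, by omega, Run.seq r1 r2⟩
  | @pop_e k pe pf pt s s' n hs _ ih =>
    obtain ⟨n1, h1, r1⟩ := ih
    refine ⟨1 + (1 + n1), by omega, Run.ite_false ?_ (Run.ite_false ?_ r1)⟩
    · rw [setP_reg, hs]; rfl
    · rw [setP_reg, hs]; rfl
  | @pop_f k pe pf pt s s' n l hs _ ih =>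
    obtain ⟨n1, h1, r1⟩ := ih
    refine ⟨1 + (1 + (1 + n1)), by omega, Run.ite_false ?_ (Run.ite_true ?_
      (Run.seq (run_popP S hs) r1))⟩
    · rw [setP_reg, hs]; rfl
    · rw [setP_reg, hs]; rfl
  | @pop_t k pe pf pt s s' n l hs _ ih =>
    obtain ⟨n1, h1, r1⟩ := ih
    refine ⟨1 + (1 + n1), by omega, Run.ite_true ?_ (Run.seq (run_popP S hs) r1)⟩
    rw [setP_reg, hs]; rfl
  | @loop_e k pf pt s hs =>
    refine ⟨1, by omega, Run.loop_false ?_⟩
    rw [setP_reg, hs]; rfl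
  | @loop_f k pf pt s s' s'' n m l hs _ _ ih1 ih2 =>
    obtain ⟨n1, h1, r1⟩ := ih1
    obtain ⟨n2, h2, r2⟩ := ih2
    refine ⟨1 + ((1 + (1 + n1)) + n2), by omega, Run.loop_true ?_ (Run.ite_false ?_
      (Run.seq (run_popP S hs) r1)) r2⟩
    · rw [setP_reg, hs]; rfl
    · rw [setP_reg, hs]; rfl
  | @loop_t k pf pt s s' s'' n m l hs _ _ ih1 ih2 =>
    obtain ⟨n1, h1, r1⟩ := ih1
    obtain ⟨n2, h2, r2⟩ := ih2
    refine ⟨1 + ((1 + (1 + n1)) + n2), by omega, Run.loop_true ?_ (Run.ite_true ?_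
      (Run.seq (run_popP S hs) r1)) r2⟩
    · rw [setP_reg, hs]; rfl
    · rw [setP_reg, hs]; rfl
  | @while_e k p s hs =>
    refine ⟨1 + 1, by omega, Run.seq (Run.loop_false ?_) ((Run.pop _ _).congr ?_)⟩
    · rw [setP_reg, hs]; rfl
    · rw [setP_reg, hs, List.map_nil, List.tail_nil]
      have : setP S s (reg k) = [] := by rw [setP_reg, hs]; rfl
      rw [← this, update_eq_self]
  | @while_f k p s l hs =>
    refine ⟨1 + 1, by omega, Run.seq (Run.loop_false ?_) (run_popP S hs)⟩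
    rw [setP_reg, hs]; rfl
  | @while_t k p s s' s'' n m l hs _ _ ih1 ih2 =>
    obtain ⟨n1, h1, r1⟩ := ih1
    obtain ⟨n2, h2, r2⟩ := ih2
    cases r2 with
    | @seq _ _ _ S1 _ m1 m2 r3 r4 =>
      refine ⟨(1 + ((1 + n1) + m1)) + m2, by omega, Run.seq (Run.loop_true ?_
        (Run.seq (run_popP S hs) r1) r3) r4⟩
      rw [setP_reg, hs]; rfl

end Pool.Agent.H.MP_aeb38e_lc
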