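import Mathlib

/-! Words without misaligned coincidences (union bound). -/

namespace Pool.Agent.H.JS

open Finset

/-- extension of a finite word by zero -/
def ext {α : Type*} [Zero α] {n : ℕ} (S : Fin n → α) (m : ℕ) : α :=
  if h : m < n then S ⟨m, h⟩ else 0

theorem ext_restrict {α : Type*} [Zero α] {n : ℕ} (S : Fin (n + 1) → α) {m : ℕ} (h : m < n) :
    ext (fun i : Fin n => S i.castSucc) m = ext S m := by
  have h' : m < n + 1 := by omega
  simp only [ext, h, h', dif_pos]
  rfl

theorem ext_last {α : Type*} [Zero α] {n : ℕ} (S : Fin (n + 1) → α) :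
    ext S n = S (Fin.last n) := by
  have h' : n < n + 1 := by omega
  simp only [ext, h', dif_pos]
  rfl

/-- Key count: words without the forbidden differences along two increasing sequences. -/
theorem key_count (q : ℕ) [NeZero q] (n : ℕ) :
    ∀ (T : Finset ℕ) (x y : ℕ → ℕ) (g : ℕ → ZMod q),
      StrictMonoOn x (T : Set ℕ) → StrictMonoOn y (T : Set ℕ) →
      (∀ t ∈ T, x t < n) → (∀ t ∈ T, y t < n) → (∀ t ∈ T, x t ≠ y t) →
      (univ.filter (fun S : Fin n → ZMod q =>
        ∀ t ∈ T, ext S (x t) - ext S (y t) ≠ g t)).card * q ^ T.card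
        ≤ q ^ n * (q - 1) ^ T.card := by
  induction n with
  | zero =>
    intro T x y g _ _ hxn _ _
    have hT : T = ∅ := by
      rw [Finset.eq_empty_iff_forall_notMem]
      intro t ht
      exact absurd (hxn t ht) (by omega)
    subst hT
    simp
  | succ n ih =>
    intro T x y g hx hy hxn hyn hne
    set A := univ.filter (fun S : Fin (n + 1) → ZMod q =>
        ∀ t ∈ T, ext S (x t) - ext S (y t) ≠ g t) with hA
    let f : (Fin (n + 1) → ZMod q) → (Fin n → ZMod q) := fun S i => S i.castSucc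
    by_cases htop : ∃ t ∈ T, x t = n ∨ y t = n
    · obtain ⟨t0, ht0, htt⟩ := htop
      have hmax : ∀ t ∈ T, t ≠ t0 → t < t0 := by
        intro t ht hne'
        by_contra hlt
        have hlt' : t0 < t := by omega
        have h1 := hx (Finset.mem_coe.2 ht0) (Finset.mem_coe.2 ht) hlt'
        have h2 := hy (Finset.mem_coe.2 ht0) (Finset.mem_coe.2 ht) hlt'
        have h3 := hxn t ht
        have h4 := hyn t ht
        rcases htt with h | h <;> omega
      set T' := T.erase t0 with hT'
      have hcard : T.card = T'.card + 1 := by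
        rw [hT', Finset.card_erase_of_mem ht0]
        have := Finset.card_pos.2 ⟨t0, ht0⟩
        omega
      have hsub : (T' : Set ℕ) ⊆ (T : Set ℕ) := by
        intro t ht
        exact Finset.mem_coe.2 (Finset.mem_of_mem_erase (Finset.mem_coe.1 ht))
      have hxn' : ∀ t ∈ T', x t < n := by
        intro t ht
        have h1 := Finset.mem_of_mem_erase ht
        have h2 := hx (Finset.mem_coe.2 h1) (Finset.mem_coe.2 ht0)
          (hmax t h1 (Finset.ne_of_mem_erase ht))
        have h3 := hxn t0 ht0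
        omega
      have hyn' : ∀ t ∈ T', y t < n := by
        intro t ht
        have h1 := Finset.mem_of_mem_erase ht
        have h2 := hy (Finset.mem_coe.2 h1) (Finset.mem_coe.2 ht0)
          (hmax t h1 (Finset.ne_of_mem_erase ht))
        have h3 := hyn t0 ht0
        omega
      have hih := ih T' x y g (hx.mono hsub) (hy.mono hsub) hxn' hyn'
        (fun t ht => hne t (Finset.mem_of_mem_erase ht))
      set A0 := univ.filter (fun S : Fin n → ZMod q =>
        ∀ t ∈ T', ext S (x t) - ext S (y t) ≠ g t) with hA0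
      have himg : A.image f ⊆ A0 := by
        intro S0 hS0
        obtain ⟨S, hS, rfl⟩ := Finset.mem_image.1 hS0
        rw [hA0, Finset.mem_filter]
        refine ⟨Finset.mem_univ _, ?_⟩
        intro t ht
        have h1 := (Finset.mem_filter.1 hS).2 t (Finset.mem_of_mem_erase ht)
        rw [ext_restrict S (hxn' t ht), ext_restrict S (hyn' t ht)]
        exact h1
      have hfib : ∀ S0 ∈ A.image f, (A.filter (fun S => f S = S0)).card ≤ q - 1 := by
        intro S0 _
        -- the excluded value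
        let v : ZMod q := if x t0 = n then g t0 + ext S0 (y t0) else ext S0 (x t0) - g t0
        have hinj : Set.InjOn (fun S : Fin (n + 1) → ZMod q => S (Fin.last n))
            (A.filter (fun S => f S = S0) : Set (Fin (n + 1) → ZMod q)) := by
          intro S hS S' hS' hSS'
          have h1 : f S = S0 := (Finset.mem_filter.1 (Finset.mem_coe.1 hS)).2
          have h2 : f S' = S0 := (Finset.mem_filter.1 (Finset.mem_coe.1 hS')).2
          funext i
          refine Fin.lastCases ?_ ?_ i
          · exact hSS'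
          · intro j
            have h3 : f S j = f S' j := by rw [h1, h2]
            exact h3
        have hmaps : ∀ S ∈ A.filter (fun S => f S = S0),
            (fun S : Fin (n + 1) → ZMod q => S (Fin.last n)) S ∈ (univ.erase v : Finset (ZMod q)) := by
          intro S hS
          have h1 : f S = S0 := (Finset.mem_filter.1 hS).2
          have h2 := (Finset.mem_filter.1 (Finset.mem_filter.1 hS).1).2 t0 ht0
          rw [Finset.mem_erase]
          refine ⟨?_, Finset.mem_univ _⟩
          intro hv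
          apply h2
          by_cases hxt : x t0 = n
          · have hyt : y t0 < n := by
              have := hyn t0 ht0
              have := hne t0 ht0
              omega
            have hvv : v = g t0 + ext S0 (y t0) := by simp [v, hxt]
            rw [hxt, ext_last, ← ext_restrict S hyt]
            change S (Fin.last n) - ext (f S) (y t0) = g t0
            rw [h1]
            change S (Fin.last n) = v at hv
            rw [hv, hvv]
            ring
          · have hyt : y t0 = n := by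
              rcases htt with h | h
              · exact absurd h hxt
              · exact h
            have hxt' : x t0 < n := by
              have := hxn t0 ht0
              omega
            have hvv : v = ext S0 (x t0) - g t0 := by simp [v, hxt]
            rw [hyt, ext_last, ← ext_restrict S hxt']
            change ext (f S) (x t0) - S (Fin.last n) = g t0
            rw [h1]
            change S (Fin.last n) = v at hv
            rw [hv, hvv]
            ring
        have h3 := Finset.card_le_card_of_injOn _ hmaps hinj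
        have h4 : (univ.erase v : Finset (ZMod q)).card = q - 1 := by
          rw [Finset.card_erase_of_mem (Finset.mem_univ _), Finset.card_univ, ZMod.card]
        omega
      have h5 := Finset.card_le_mul_card_image (s := A) (f := f) (q - 1) hfib
      have h6 : A.card ≤ (q - 1) * A0.card :=
        h5.trans (Nat.mul_le_mul_left _ (Finset.card_le_card himg))
      rw [hcard, pow_succ, pow_succ]
      calc A.card * (q ^ T'.card * q) ≤ ((q - 1) * A0.card) * (q ^ T'.card * q) :=
            Nat.mul_le_mul_right _ h6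
        _ = (A0.card * q ^ T'.card) * (q * (q - 1)) := by ring
        _ ≤ (q ^ n * (q - 1) ^ T'.card) * (q * (q - 1)) := Nat.mul_le_mul_right _ hih
        _ = q ^ (n + 1) * ((q - 1) ^ T'.card * (q - 1)) := by ring
    · push Not at htop
      have hxn' : ∀ t ∈ T, x t < n := by
        intro t ht
        have h1 := hxn t ht
        have h2 := (htop t ht).1
        omega
      have hyn' : ∀ t ∈ T, y t < n := by
        intro t ht
        have h1 := hyn t ht
        have h2 := (htop t ht).2
        omega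
      have hih := ih T x y g hx hy hxn' hyn' hne
      set A0 := univ.filter (fun S : Fin n → ZMod q =>
        ∀ t ∈ T, ext S (x t) - ext S (y t) ≠ g t) with hA0
      have himg : A.image f ⊆ A0 := by
        intro S0 hS0
        obtain ⟨S, hS, rfl⟩ := Finset.mem_image.1 hS0
        rw [hA0, Finset.mem_filter]
        refine ⟨Finset.mem_univ _, ?_⟩
        intro t ht
        have h1 := (Finset.mem_filter.1 hS).2 t ht
        rw [ext_restrict S (hxn' t ht), ext_restrict S (hyn' t ht)]
        exact h1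
      have hfib : ∀ S0 ∈ A.image f, (A.filter (fun S => f S = S0)).card ≤ q := by
        intro S0 _
        have hinj : Set.InjOn (fun S : Fin (n + 1) → ZMod q => S (Fin.last n))
            (A.filter (fun S => f S = S0) : Set (Fin (n + 1) → ZMod q)) := by
          intro S hS S' hS' hSS'
          have h1 : f S = S0 := (Finset.mem_filter.1 (Finset.mem_coe.1 hS)).2
          have h2 : f S' = S0 := (Finset.mem_filter.1 (Finset.mem_coe.1 hS')).2
          funext i
          refine Fin.lastCases ?_ ?_ i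
          · exact hSS'
          · intro j
            have h3 : f S j = f S' j := by rw [h1, h2]
            exact h3
        have h3 := Finset.card_le_card_of_injOn (t := (univ : Finset (ZMod q))) _
          (fun S _ => Finset.mem_univ _) hinj
        rw [Finset.card_univ, ZMod.card] at h3
        exact h3
      have h5 := Finset.card_le_mul_card_image (s := A) (f := f) q hfib
      have h6 : A.card ≤ q * A0.card :=
        h5.trans (Nat.mul_le_mul_left _ (Finset.card_le_card himg))
      calc A.card * q ^ T.card ≤ (q * A0.card) * q ^ T.card := Nat.mul_le_mul_right _ h6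
        _ = (A0.card * q ^ T.card) * q := by ring
        _ ≤ (q ^ n * (q - 1) ^ T.card) * q := Nat.mul_le_mul_right _ hih
        _ = q ^ (n + 1) * (q - 1) ^ T.card := by ring

/-- one violation of the word property for the modulus `n` -/
structure Viol (q n l h g : ℕ) (F : ℕ → ZMod q) (j : ZMod q) (X0 : ℕ) (Y : ℕ → ℕ)
    (G : Finset ℕ) : Prop where
  lt : ∀ c ∈ G, c < h
  card : g ≤ G.card
  nocrX : X0 / n = (X0 + h * l - 1) / n
  nocrY : ∀ c ∈ G, Y 0 / n = (Y c + l - 1) / n
  mono : ∀ c c', c < c' → c' < h → Y c ≤ Y c'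
  step : ∀ c ∈ G, ∀ c', c < c' → c' < h → Y c + l ≤ Y c'
  sum : ∑ c ∈ range (h - 1), |((Y (c + 1) : ℤ) - Y c - l)| ≤ h
  off : ∀ c ∈ G, (X0 + c * l) % n ≠ Y c % n
  free : ∀ c ∈ G, ∀ a < l, (X0 + c * l + a) % 3 ≠ 2 → (Y c + a) % 3 ≠ 2 →
    F (X0 + c * l + a) ≠ F (Y c + a) + j

/-- the word property for the modulus `n` -/
def WordProp (q n l h g : ℕ) (F : ℕ → ZMod q) : Prop :=
  ∀ (j : ZMod q) (X0 : ℕ) (Y : ℕ → ℕ) (G : Finset ℕ), ¬ Viol q n l h g F j X0 Y G

theorem mod_add_of_div_eq {n p a : ℕ} (h : p / n = (p + a) / n) :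
    (p + a) % n = p % n + a := by
  have h1 := Nat.div_add_mod p n
  have h2 := Nat.div_add_mod (p + a) n
  rw [← h] at h2
  omega

theorem div_eq_of_between {n p r s : ℕ} (h : p / n = s / n) (h1 : p ≤ r) (h2 : r ≤ s) :
    p / n = r / n := by
  have h3 := Nat.div_le_div_right (c := n) h1
  have h4 := Nat.div_le_div_right (c := n) h2
  omega

theorem exists_good_res (X Y : ℕ) : ∃ r < 3, (X + r) % 3 ≠ 2 ∧ (Y + r) % 3 ≠ 2 := by
  have hX : X % 3 = 0 ∨ X % 3 = 1 ∨ X % 3 = 2 := by omega
  have hY : Y % 3 = 0 ∨ Y % 3 = 1 ∨ Y % 3 = 2 := by omega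
  rcases hX with hX | hX | hX <;> rcases hY with hY | hY | hY
  · exact ⟨0, by omega, by omega, by omega⟩
  · exact ⟨0, by omega, by omega, by omega⟩
  · exact ⟨1, by omega, by omega, by omega⟩
  · exact ⟨0, by omega, by omega, by omega⟩
  · exact ⟨0, by omega, by omega, by omega⟩
  · exact ⟨2, by omega, by omega, by omega⟩
  · exact ⟨1, by omega, by omega, by omega⟩
  · exact ⟨2, by omega, by omega, by omega⟩
  · exact ⟨1, by omega, by omega, by omega⟩

open Classical in
/-- number of words (for the modulus `n`) with a given violation -/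
theorem viol_count (q : ℕ) [NeZero q] (n l' h g : ℕ) (hn : 0 < n) (hl : 0 < l') (B : ℕ → ZMod q)
    (j : ZMod q) (X0 : ℕ) (Y : ℕ → ℕ) (G : Finset ℕ) :
    (univ.filter (fun S : Fin n → ZMod q =>
      Viol q n (3 * l') h g (fun P => ext S (P % n) + B P) j X0 Y G)).card * q ^ (g * l')
      ≤ q ^ n * (q - 1) ^ (g * l') := by
  set A := univ.filter (fun S : Fin n → ZMod q =>
      Viol q n (3 * l') h g (fun P => ext S (P % n) + B P) j X0 Y G) with hA
  by_cases hemp : A = ∅
  · rw [hemp]; simp
  obtain ⟨S0, hS0⟩ := Finset.nonempty_iff_ne_empty.2 hemp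
  have V := (Finset.mem_filter.1 hS0).2
  have hq : 0 < q := Nat.pos_of_ne_zero (NeZero.ne q)
  set l := 3 * l' with hldef
  have hlpos : 0 < l := by omega
  -- positions
  have hXq : ∀ c < h, ∀ a < l, (X0 + c * l + a) % n = (X0 + c * l) % n + a ∧
      (X0 + c * l + a) % n = X0 % n + (c * l + a) := by
    intro c hc a ha
    have h1 : c * l + l ≤ h * l := by
      have := Nat.mul_le_mul_right l (Nat.succ_le_of_lt hc)
      rw [Nat.succ_mul] at this
      exact this
    have h2 : X0 / n = (X0 + c * l + a) / n :=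
      div_eq_of_between V.nocrX (by omega) (by omega)
    have h3 : X0 / n = (X0 + c * l) / n :=
      div_eq_of_between V.nocrX (by omega) (by omega)
    refine ⟨mod_add_of_div_eq (by omega), ?_⟩
    have h4 := mod_add_of_div_eq (n := n) (p := X0) (a := c * l + a) (by rw [h2]; congr 1; ring)
    rw [← h4]; congr 1; ring
  have hYb : ∀ c ∈ G, ∀ a < l, Y 0 / n = (Y c + a) / n := by
    intro c hcG a ha
    have hc := V.lt c hcG
    have h1 : Y 0 ≤ Y c := by
      rcases Nat.eq_zero_or_pos c with h0 | h0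
      · rw [h0]
      · exact V.mono 0 c h0 hc
    exact div_eq_of_between (V.nocrY c hcG) (by omega) (by omega)
  have hYq : ∀ c ∈ G, ∀ a < l, (Y c + a) % n = Y c % n + a := by
    intro c hc a ha
    have h1 := hYb c hc a ha
    have h2 := hYb c hc 0 hlpos
    rw [Nat.add_zero] at h2
    exact mod_add_of_div_eq (by omega)
  have hYq' : ∀ c ∈ G, ∀ a < l, (Y c + a) % n + n * (Y 0 / n) = Y c + a := by
    intro c hc a ha
    have h1 := hYb c hc a ha
    have h2 := Nat.div_add_mod (Y c + a) n
    rw [← h1] at h2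
    omega
  -- the set of times
  let xx : ℕ → ℕ := fun t => (X0 + t) % n
  let yy : ℕ → ℕ := fun t => (Y (t / l) + t % l) % n
  let gg : ℕ → ZMod q := fun t => j + B (Y (t / l) + t % l) - B (X0 + t)
  set T := (range (h * l)).filter (fun t => t / l ∈ G ∧ (X0 + t) % 3 ≠ 2 ∧
    (Y (t / l) + t % l) % 3 ≠ 2) with hT
  have hTc : ∀ t ∈ T, t / l ∈ G ∧ t / l < h ∧ t % l < l ∧ (t / l) * l + t % l = t := by
    intro t ht
    have h1 := (Finset.mem_filter.1 ht).2.1
    refine ⟨h1, V.lt _ h1, Nat.mod_lt _ hlpos, ?_⟩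
    have := Nat.div_add_mod t l
    rw [mul_comm] at this
    exact this
  have hxx : ∀ t ∈ T, xx t = X0 % n + t := by
    intro t ht
    obtain ⟨_, h2, h3, h4⟩ := hTc t ht
    have h5 := (hXq _ h2 _ h3).2
    rw [add_assoc, h4] at h5
    exact h5
  have hxm : StrictMonoOn xx (T : Set ℕ) := by
    intro t ht t' ht' hlt
    rw [hxx t (Finset.mem_coe.1 ht), hxx t' (Finset.mem_coe.1 ht')]
    omega
  have hym : StrictMonoOn yy (T : Set ℕ) := by
    intro t ht t' ht' hlt
    obtain ⟨h1, h2, h3, h4⟩ := hTc t (Finset.mem_coe.1 ht)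
    obtain ⟨h1', h2', h3', h4'⟩ := hTc t' (Finset.mem_coe.1 ht')
    have e1 := hYq' _ h1 _ h3
    have e2 := hYq' _ h1' _ h3'
    have key : Y (t / l) + t % l < Y (t' / l) + t' % l := by
      have hle : t / l ≤ t' / l := Nat.div_le_div_right hlt.le
      rcases Nat.lt_or_ge (t / l) (t' / l) with h0 | h0
      · have := V.step _ h1 _ h0 h2'
        omega
      · have h5 : t / l = t' / l := by omega
        rw [h5] at h4 ⊢
        omega
    change (Y (t / l) + t % l) % n < (Y (t' / l) + t' % l) % n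
    omega
  have hne : ∀ t ∈ T, xx t ≠ yy t := by
    intro t ht
    obtain ⟨h1, h2, h3, h4⟩ := hTc t ht
    have h5 := (hXq _ h2 _ h3).1
    have h6 := hYq _ h1 _ h3
    have h7 := V.off _ h1
    have h8 : xx t = (X0 + t / l * l) % n + t % l := by
      rw [← h5]
      change (X0 + t) % n = _
      rw [add_assoc, h4]
    have h9 : yy t = Y (t / l) % n + t % l := h6
    rw [h8, h9]
    omega
  have hkc := key_count q n T xx yy gg hxm hym (fun t _ => Nat.mod_lt _ hn)
    (fun t _ => Nat.mod_lt _ hn) hne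
  have hsub : A ⊆ univ.filter (fun S : Fin n → ZMod q =>
        ∀ t ∈ T, ext S (xx t) - ext S (yy t) ≠ gg t) := by
    intro S hS
    rw [Finset.mem_filter]
    refine ⟨Finset.mem_univ _, ?_⟩
    intro t ht
    obtain ⟨h1, h2, h3, h4⟩ := hTc t ht
    obtain ⟨_, h5, h6⟩ := (Finset.mem_filter.1 ht).2
    have h7 := (Finset.mem_filter.1 hS).2.free _ h1 _ h3
    rw [add_assoc, h4] at h7
    have h8 := h7 h5 h6
    intro h9
    apply h8
    change ext S ((X0 + t) % n) + B (X0 + t) =
      ext S ((Y (t / l) + t % l) % n) + B (Y (t / l) + t % l) + j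
    have h10 : ext S ((X0 + t) % n) = ext S ((Y (t / l) + t % l) % n) +
        (j + B (Y (t / l) + t % l) - B (X0 + t)) := by
      have : ext S (xx t) = ext S (yy t) + gg t := by rw [← h9]; ring
      exact this
    rw [h10]
    ring
  -- the number of times
  have hcardT : g * l' ≤ T.card := by
    have hex : ∀ c b : ℕ, ∃ r < 3, (X0 + c * l + 3 * b + r) % 3 ≠ 2 ∧
        (Y c + 3 * b + r) % 3 ≠ 2 := fun c b => exists_good_res _ _
    choose r hr3 hrX hrY using hex
    have hinj := Finset.card_le_card_of_injOn (s := G ×ˢ range l') (t := T)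
      (fun p : ℕ × ℕ => p.1 * l + (3 * p.2 + r p.1 p.2)) ?_ ?_
    · rw [Finset.card_product, Finset.card_range] at hinj
      exact (Nat.mul_le_mul_right _ V.card).trans hinj
    · intro p hp
      obtain ⟨hp1, hp2⟩ := Finset.mem_product.1 hp
      rw [Finset.mem_range] at hp2
      have hc := V.lt _ hp1
      have hrr := hr3 p.1 p.2
      have hlt : 3 * p.2 + r p.1 p.2 < l := by omega
      have hd : (p.1 * l + (3 * p.2 + r p.1 p.2)) / l = p.1 := by
        rw [mul_comm, Nat.mul_add_div hlpos, Nat.div_eq_of_lt hlt, add_zero]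
      have hm : (p.1 * l + (3 * p.2 + r p.1 p.2)) % l = 3 * p.2 + r p.1 p.2 := by
        rw [mul_comm, Nat.mul_add_mod, Nat.mod_eq_of_lt hlt]
      rw [Finset.mem_coe, hT, Finset.mem_filter, Finset.mem_range]
      have hb : p.1 * l + l ≤ h * l := by
        have := Nat.mul_le_mul_right l (Nat.succ_le_of_lt hc)
        rw [Nat.succ_mul] at this
        exact this
      refine ⟨by dsimp only; omega, ?_⟩
      dsimp only
      rw [hd, hm]
      refine ⟨hp1, ?_, ?_⟩
      · have := hrX p.1 p.2
        rwa [show X0 + (p.1 * l + (3 * p.2 + r p.1 p.2)) =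
          X0 + p.1 * l + 3 * p.2 + r p.1 p.2 by ring]
      · have := hrY p.1 p.2
        rwa [show Y p.1 + (3 * p.2 + r p.1 p.2) = Y p.1 + 3 * p.2 + r p.1 p.2 by ring]
    · intro p hp p' hp' heq
      obtain ⟨hp1, hp2⟩ := Finset.mem_product.1 (Finset.mem_coe.1 hp)
      obtain ⟨hp1', hp2'⟩ := Finset.mem_product.1 (Finset.mem_coe.1 hp')
      rw [Finset.mem_range] at hp2 hp2'
      have hrr := hr3 p.1 p.2
      have hrr' := hr3 p'.1 p'.2
      have hlt : 3 * p.2 + r p.1 p.2 < l := by omega
      have hlt' : 3 * p'.2 + r p'.1 p'.2 < l := by omega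
      dsimp only at heq
      have hd : (p.1 * l + (3 * p.2 + r p.1 p.2)) / l = p.1 := by
        rw [mul_comm, Nat.mul_add_div hlpos, Nat.div_eq_of_lt hlt, add_zero]
      have hd' : (p'.1 * l + (3 * p'.2 + r p'.1 p'.2)) / l = p'.1 := by
        rw [mul_comm, Nat.mul_add_div hlpos, Nat.div_eq_of_lt hlt', add_zero]
      have h1 : p.1 = p'.1 := by rw [← hd, ← hd', heq]
      rw [h1] at heq hrr
      have h2 : 3 * p.2 + r p'.1 p.2 = 3 * p'.2 + r p'.1 p'.2 := by omega
      have h3 : p.2 = p'.2 := by omega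
      exact Prod.ext h1 h3
  obtain ⟨e, he⟩ := Nat.exists_eq_add_of_le hcardT
  have h1 : A.card * q ^ T.card ≤ q ^ n * (q - 1) ^ T.card :=
    (Nat.mul_le_mul_right _ (Finset.card_le_card hsub)).trans hkc
  rw [he, pow_add, pow_add] at h1
  have h2 : (q - 1) ^ e ≤ q ^ e := Nat.pow_le_pow_left (by omega) e
  have h3 : (A.card * q ^ (g * l')) * q ^ e ≤ (q ^ n * (q - 1) ^ (g * l')) * q ^ e := by
    calc (A.card * q ^ (g * l')) * q ^ e = A.card * (q ^ (g * l') * q ^ e) := by ring
      _ ≤ q ^ n * ((q - 1) ^ (g * l') * (q - 1) ^ e) := h1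
      _ = (q ^ n * (q - 1) ^ (g * l')) * (q - 1) ^ e := by ring
      _ ≤ (q ^ n * (q - 1) ^ (g * l')) * q ^ e := Nat.mul_le_mul_left _ h2
  exact Nat.le_of_mul_le_mul_right h3 (pow_pos hq e)

/-! ### Counting the step sequences -/

theorem sum_half_pow (h : ℕ) :
    ∑ d ∈ Icc (-(h : ℤ)) h, (1 / 2 : ℚ) ^ d.natAbs = 3 - 2 * (1 / 2) ^ h := by
  induction h with
  | zero => norm_num
  | succ h ih =>
    have h1 : Icc (-((h + 1 : ℕ) : ℤ)) ((h + 1 : ℕ) : ℤ) =
        insert ((h : ℤ) + 1) (insert (-((h : ℤ) + 1)) (Icc (-(h : ℤ)) h)) := by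
      ext d
      simp only [Finset.mem_Icc, Finset.mem_insert]
      push_cast
      omega
    rw [h1, Finset.sum_insert, Finset.sum_insert, ih]
    · have e1 : ((h : ℤ) + 1).natAbs = h + 1 := by omega
      have e2 : (-((h : ℤ) + 1)).natAbs = h + 1 := by omega
      rw [e1, e2, pow_succ]
      ring
    · simp
    · simp only [Finset.mem_insert, Finset.mem_Icc]
      omega

/-- step sequences of total variation at most `h` -/
noncomputable def steps (h : ℕ) : Finset (Fin h → ℤ) :=
  (Fintype.piFinset (fun _ : Fin h => Icc (-(h : ℤ)) h)).filter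
    (fun d => ∑ i, (d i).natAbs ≤ h)

theorem card_steps (h : ℕ) : (steps h).card ≤ 6 ^ h := by
  have h1 : ((steps h).card : ℚ) ≤ 2 ^ h * ∑ d ∈ steps h, ∏ i, (1 / 2 : ℚ) ^ (d i).natAbs := by
    rw [Finset.mul_sum, Finset.card_eq_sum_ones]
    push_cast
    apply Finset.sum_le_sum
    intro d hd
    have h2 := (Finset.mem_filter.1 hd).2
    rw [Finset.prod_pow_eq_pow_sum]
    have h3 : (1 / 2 : ℚ) ^ h ≤ (1 / 2) ^ (∑ i, (d i).natAbs) :=
      pow_le_pow_of_le_one (by norm_num) (by norm_num) h2
    calc (1 : ℚ) = 2 ^ h * (1 / 2) ^ h := by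
            rw [← mul_pow]; norm_num
      _ ≤ _ := mul_le_mul_of_nonneg_left h3 (by positivity)
  have h2 : ∑ d ∈ steps h, ∏ i, (1 / 2 : ℚ) ^ (d i).natAbs ≤
      ∑ d ∈ Fintype.piFinset (fun _ : Fin h => Icc (-(h : ℤ)) h),
        ∏ i, (1 / 2 : ℚ) ^ (d i).natAbs := by
    apply Finset.sum_le_sum_of_subset_of_nonneg (Finset.filter_subset _ _)
    intro d _ _
    exact Finset.prod_nonneg (fun i _ => by positivity)
  have h3 : ∑ d ∈ Fintype.piFinset (fun _ : Fin h => Icc (-(h : ℤ)) h),
        ∏ i, (1 / 2 : ℚ) ^ (d i).natAbs =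
      ∏ _i : Fin h, ∑ d ∈ Icc (-(h : ℤ)) h, (1 / 2 : ℚ) ^ d.natAbs :=
    (Finset.prod_univ_sum (fun _ : Fin h => Icc (-(h : ℤ)) h)
      (fun _ d => (1 / 2 : ℚ) ^ d.natAbs)).symm
  have h4 : ∏ _i : Fin h, ∑ d ∈ Icc (-(h : ℤ)) h, (1 / 2 : ℚ) ^ d.natAbs ≤ 3 ^ h := by
    rw [Finset.prod_const, Finset.card_univ, Fintype.card_fin, sum_half_pow]
    have h5 : (0 : ℚ) ≤ (1 / 2) ^ h := by positivity
    have h6 : (1 / 2 : ℚ) ^ h ≤ 1 := pow_le_one₀ (by norm_num) (by norm_num)
    exact pow_le_pow_left₀ (by linarith) (by linarith) h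
  have h5 : ((steps h).card : ℚ) ≤ 6 ^ h := by
    calc ((steps h).card : ℚ) ≤ 2 ^ h * ∑ d ∈ steps h, ∏ i, (1 / 2 : ℚ) ^ (d i).natAbs := h1
      _ ≤ 2 ^ h * 3 ^ h := by
          apply mul_le_mul_of_nonneg_left _ (by positivity)
          exact h2.trans (h3.le.trans h4)
      _ = 6 ^ h := by rw [← mul_pow]; norm_num
  exact_mod_cast h5

/-- pairs avoiding two properties, each of which is rare in one of the coordinates -/
theorem exists_pair {α β : Type*} [Fintype α] [Fintype β] [Nonempty α] [Nonempty β]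
    (p r : α → β → Prop) [∀ b, DecidablePred (fun a => p a b)] [∀ a, DecidablePred (r a)]
    (hp : ∀ b, 2 * (univ.filter (fun a => p a b)).card < Fintype.card α)
    (hr : ∀ a, 2 * (univ.filter (fun b => r a b)).card < Fintype.card β) :
    ∃ a b, ¬ p a b ∧ ¬ r a b := by
  by_contra hcon
  push Not at hcon
  have h1 : ∀ a b, 1 ≤ (if p a b then 1 else 0) + (if r a b then 1 else 0) := by
    intro a b
    by_cases h : p a b
    · simp [h]
    · simp [h, hcon a b h]
  have h2 : Fintype.card α * Fintype.card β ≤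
      ∑ a : α, ∑ b : β, ((if p a b then 1 else 0) + (if r a b then 1 else 0)) := by
    calc Fintype.card α * Fintype.card β = ∑ _a : α, ∑ _b : β, 1 := by simp
      _ ≤ _ := Finset.sum_le_sum (fun a _ => Finset.sum_le_sum (fun b _ => h1 a b))
  have h3 : ∑ a : α, ∑ b : β, ((if p a b then 1 else 0) + (if r a b then 1 else 0)) =
      (∑ b : β, (univ.filter (fun a => p a b)).card) +
        ∑ a : α, (univ.filter (fun b => r a b)).card := by
    simp only [Finset.sum_add_distrib, Finset.card_filter]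
    rw [Finset.sum_comm]
  have h4 : 2 * (∑ b : β, (univ.filter (fun a => p a b)).card) <
      Fintype.card β * Fintype.card α := by
    rw [Finset.mul_sum]
    calc _ < ∑ _b : β, Fintype.card α :=
          Finset.sum_lt_sum_of_nonempty Finset.univ_nonempty (fun b _ => hp b)
      _ = _ := by simp
  have h5 : 2 * (∑ a : α, (univ.filter (fun b => r a b)).card) <
      Fintype.card α * Fintype.card β := by
    rw [Finset.mul_sum]
    calc _ < ∑ _a : α, Fintype.card β :=
          Finset.sum_lt_sum_of_nonempty Finset.univ_nonempty (fun a _ => hr a)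
      _ = _ := by simp
  have h6 := Nat.mul_comm (Fintype.card β) (Fintype.card α)
  omega

/-- positions of the second job at the starts of the chunks -/
noncomputable def walk (l : ℕ) {h : ℕ} (y0 : ℕ) (d : Fin h → ℤ) (c : ℕ) : ℕ :=
  ((y0 : ℤ) + c * l + ∑ i ∈ range c, ext d i).toNat

theorem walk_eq {n l h g : ℕ} {q : ℕ} {F : ℕ → ZMod q} {j : ZMod q} {X0 : ℕ} {Y : ℕ → ℕ}
    {G : Finset ℕ} (L : ℕ) (V : Viol q n l h g F j X0 Y G) {c : ℕ} (hc : c < h) :
    Y c = walk l (Y 0 % L)
      (fun i : Fin h => if i.1 + 1 < h then (Y (i.1 + 1) : ℤ) - Y i.1 - l else 0) c +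
        L * (Y 0 / L) := by
  have h1 : ∀ b ≤ c, ∑ i ∈ range b, ext
      (fun i : Fin h => if i.1 + 1 < h then (Y (i.1 + 1) : ℤ) - Y i.1 - l else 0) i =
      (Y b : ℤ) - Y 0 - b * l := by
    intro b
    induction b with
    | zero => intro _; simp
    | succ b ih =>
      intro hb
      rw [Finset.sum_range_succ, ih (by omega)]
      have h2 : b < h := by omega
      have h3 : b + 1 < h := by omega
      simp only [ext, h2, h3, dif_pos, if_true]
      push_cast
      ring
  have h2 : Y 0 ≤ Y c := by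
    rcases Nat.eq_zero_or_pos c with h0 | h0
    · rw [h0]
    · exact V.mono 0 c h0 hc
  have h3 := Nat.mod_add_div (Y 0) L
  rw [walk, h1 c le_rfl]
  have h4 : ((Y 0 % L : ℕ) : ℤ) + c * l + ((Y c : ℤ) - Y 0 - c * l) =
      ((Y c - L * (Y 0 / L) : ℕ) : ℤ) := by
    have h5 : L * (Y 0 / L) ≤ Y c := by omega
    rw [Nat.cast_sub h5]
    have h6 : ((Y 0 % L : ℕ) : ℤ) + ((L * (Y 0 / L) : ℕ) : ℤ) = (Y 0 : ℤ) := by exact_mod_cast h3
    linarith
  rw [h4, Int.toNat_natCast]
  omega

theorem viol_reduce {n l h g : ℕ} {q : ℕ} {F : ℕ → ZMod q} {j : ZMod q} {X0 : ℕ} {Y : ℕ → ℕ}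
    {G : Finset ℕ} {L : ℕ} (hn : 0 < n) (hl : 0 < l) (hh : 0 < h) (hnL : n ∣ L) (h3L : 3 ∣ L)
    (hper : ∀ P k, F (P + L * k) = F P) (V : Viol q n l h g F j X0 Y G) :
    Viol q n l h g F j (X0 % L) (walk l (Y 0 % L)
      (fun i : Fin h => if i.1 + 1 < h then (Y (i.1 + 1) : ℤ) - Y i.1 - l else 0)) G := by
  obtain ⟨m, rfl⟩ := hnL
  obtain ⟨m3, hm3⟩ := h3L
  set L := n * m with hL
  set y : ℕ → ℕ := walk l (Y 0 % L)
      (fun i : Fin h => if i.1 + 1 < h then (Y (i.1 + 1) : ℤ) - Y i.1 - l else 0) with hy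
  have hw : ∀ c < h, Y c = y c + L * (Y 0 / L) := fun c hc => walk_eq L V hc
  set x := X0 % L with hx
  set k := Y 0 / L with hk
  set k' := X0 / L with hk'
  have hX : X0 = x + L * k' := (Nat.mod_add_div X0 L).symm
  have hdiv : ∀ a b : ℕ, (a + L * b) / n = a / n + m * b := by
    intro a b
    rw [hL, mul_assoc, Nat.add_mul_div_left _ _ hn]
  have hmod : ∀ a b : ℕ, (a + L * b) % n = a % n := by
    intro a b
    rw [hL, mul_assoc, Nat.add_mul_mod_self_left]
  have hmod3 : ∀ a b : ℕ, (a + L * b) % 3 = a % 3 := by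
    intro a b
    rw [hm3, mul_assoc, Nat.add_mul_mod_self_left]
  have hhl : 0 < h * l := Nat.mul_pos hh hl
  refine ⟨V.lt, V.card, ?_, ?_, ?_, ?_, ?_, ?_, ?_⟩
  · have h1 := V.nocrX
    rw [hX, show x + L * k' + h * l - 1 = (x + h * l - 1) + L * k' by omega, hdiv, hdiv] at h1
    omega
  · intro c hc
    have h1 := V.nocrY c hc
    have h2 := hw c (V.lt c hc)
    have h3 := hw 0 hh
    rw [h2, h3, show y c + L * k + l - 1 = (y c + l - 1) + L * k by omega, hdiv, hdiv] at h1
    omega
  · intro c c' hcc hc'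
    have h1 := V.mono c c' hcc hc'
    rw [hw c (by omega), hw c' hc'] at h1
    omega
  · intro c hc c' hcc hc'
    have h1 := V.step c hc c' hcc hc'
    rw [hw c (by omega), hw c' hc'] at h1
    omega
  · have h1 := V.sum
    calc _ = ∑ c ∈ range (h - 1), |((Y (c + 1) : ℤ) - Y c - l)| := by
          apply Finset.sum_congr rfl
          intro c hc
          have hc' := Finset.mem_range.1 hc
          rw [hw c (by omega), hw (c + 1) (by omega)]
          push_cast
          congr 1
          ring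
      _ ≤ _ := h1
  · intro c hc
    have h1 := V.off c hc
    rw [hw c (V.lt c hc), hX, show x + L * k' + c * l = (x + c * l) + L * k' by ring,
      hmod, hmod] at h1
    exact h1
  · intro c hc a ha h1 h2
    have h3 := V.free c hc a ha
    rw [hw c (V.lt c hc), hX, show x + L * k' + c * l + a = (x + c * l + a) + L * k' by ring,
      show y c + L * k + a = (y c + a) + L * k by ring, hmod3, hmod3, hper, hper] at h3
    exact h3 h1 h2

open Classical in
theorem bad_count (q : ℕ) [NeZero q] (n l' h g L : ℕ) (hn : 0 < n) (hl : 0 < l') (hh : 0 < h)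
    (hL : 0 < L) (hnL : n ∣ L) (h3L : 3 ∣ L) (B : ℕ → ZMod q)
    (hper : ∀ P k, B (P + L * k) = B P) :
    (univ.filter (fun S : Fin n → ZMod q =>
      ¬ WordProp q n (3 * l') h g (fun P => ext S (P % n) + B P))).card * q ^ (g * l')
      ≤ (q * L ^ 2 * 12 ^ h) * (q ^ n * (q - 1) ^ (g * l')) := by
  set C : Finset (ZMod q × Fin L × Fin L × (Fin h → ℤ) × Finset ℕ) :=
    univ ×ˢ univ ×ˢ univ ×ˢ steps h ×ˢ (range h).powerset with hC
  have hCc : C.card ≤ q * L ^ 2 * 12 ^ h := by
    rw [hC, Finset.card_product, Finset.card_product, Finset.card_product, Finset.card_product,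
      Finset.card_univ, ZMod.card, Finset.card_univ, Fintype.card_fin, Finset.card_powerset,
      Finset.card_range]
    calc q * (L * (L * ((steps h).card * 2 ^ h))) ≤ q * (L * (L * (6 ^ h * 2 ^ h))) := by
          gcongr
          exact card_steps h
      _ = q * L ^ 2 * 12 ^ h := by
          rw [← mul_pow]; ring
  set W : (ZMod q × Fin L × Fin L × (Fin h → ℤ) × Finset ℕ) → Finset (Fin n → ZMod q) :=
    fun k => univ.filter (fun S : Fin n → ZMod q =>
      Viol q n (3 * l') h g (fun P => ext S (P % n) + B P) k.1 k.2.1.1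
        (walk (3 * l') k.2.2.1.1 k.2.2.2.1) k.2.2.2.2) with hW
  have hsub : univ.filter (fun S : Fin n → ZMod q =>
      ¬ WordProp q n (3 * l') h g (fun P => ext S (P % n) + B P)) ⊆ C.biUnion W := by
    intro S hS
    have h1 := (Finset.mem_filter.1 hS).2
    unfold WordProp at h1
    push Not at h1
    obtain ⟨j, X0, Y, G, V⟩ := h1
    have hperF : ∀ P k, (fun P => ext S (P % n) + B P) (P + L * k) =
        (fun P => ext S (P % n) + B P) P := by
      intro P k
      obtain ⟨m, hm⟩ := hnL
      change ext S ((P + L * k) % n) + B (P + L * k) = ext S (P % n) + B P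
      rw [hper, hm, mul_assoc, Nat.add_mul_mod_self_left]
    have V' := viol_reduce hn (by omega) hh hnL h3L hperF V
    set d : Fin h → ℤ :=
      fun i : Fin h => if i.1 + 1 < h then (Y (i.1 + 1) : ℤ) - Y i.1 - (3 * l' : ℕ) else 0 with hd
    rw [Finset.mem_biUnion]
    refine ⟨(j, ⟨X0 % L, Nat.mod_lt _ hL⟩, ⟨Y 0 % L, Nat.mod_lt _ hL⟩, d, G), ?_, ?_⟩
    · rw [hC]
      simp only [Finset.mem_product, Finset.mem_univ, true_and, Finset.mem_powerset]
      have hsum : ∑ i, (d i).natAbs ≤ h := by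
        have h2 := V.sum
        have h3 : ((∑ i, (d i).natAbs : ℕ) : ℤ) =
            ∑ c ∈ range (h - 1), |((Y (c + 1) : ℤ) - Y c - (3 * l' : ℕ))| := by
          push_cast
          rw [Fin.sum_univ_eq_sum_range (fun i => |(if i + 1 < h then
            (Y (i + 1) : ℤ) - Y i - (3 * l' : ℕ) else 0)|) h]
          obtain ⟨h', rfl⟩ : ∃ h', h = h' + 1 := ⟨h - 1, by omega⟩
          rw [Finset.sum_range_succ]
          simp only [Nat.add_sub_cancel, lt_self_iff_false, if_false, abs_zero, add_zero]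
          apply Finset.sum_congr rfl
          intro c hc
          have hc' := Finset.mem_range.1 hc
          have h4 : c + 1 < h' + 1 := by omega
          simp only [h4, if_true]
          push_cast
          rfl
        have h4 : ((∑ i, (d i).natAbs : ℕ) : ℤ) ≤ h := by rw [h3]; exact h2
        exact_mod_cast h4
      refine ⟨?_, ?_⟩
      · rw [steps, Finset.mem_filter, Fintype.mem_piFinset]
        refine ⟨?_, hsum⟩
        intro i
        have h5 : (d i).natAbs ≤ h :=
          (Finset.single_le_sum (f := fun i => (d i).natAbs) (fun i _ => Nat.zero_le _)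
            (Finset.mem_univ i)).trans hsum
        rw [Finset.mem_Icc]
        omega
      · intro c hc
        exact Finset.mem_range.2 (V.lt c hc)
    · rw [hW]
      exact Finset.mem_filter.2 ⟨Finset.mem_univ _, V'⟩
  have h1 : (univ.filter (fun S : Fin n → ZMod q =>
      ¬ WordProp q n (3 * l') h g (fun P => ext S (P % n) + B P))).card ≤
      ∑ k ∈ C, (W k).card := (Finset.card_le_card hsub).trans Finset.card_biUnion_le
  calc _ ≤ (∑ k ∈ C, (W k).card) * q ^ (g * l') := Nat.mul_le_mul_right _ h1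
    _ = ∑ k ∈ C, (W k).card * q ^ (g * l') := Finset.sum_mul _ _ _
    _ ≤ ∑ k ∈ C, q ^ n * (q - 1) ^ (g * l') := by
        apply Finset.sum_le_sum
        intro k _
        exact viol_count q n l' h g hn hl B _ _ _ _
    _ = C.card * (q ^ n * (q - 1) ^ (g * l')) := by
        rw [Finset.sum_const, smul_eq_mul]
    _ ≤ _ := Nat.mul_le_mul_right _ hCc

/-- the word read by the alignment units -/
def word (q L1 L2 s : ℕ) (P : ℕ) : ZMod q :=
  ((s / q ^ (P % L1) % q : ℕ) : ZMod q) + ((s / q ^ (L1 + P % L2) % q : ℕ) : ZMod q)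

theorem word_eq (q L1 L2 : ℕ) [NeZero q] (S1 : Fin L1 → ZMod q) (S2 : Fin L2 → ZMod q)
    (hL1 : 0 < L1) (hL2 : 0 < L2) :
    ∃ s < q ^ (L1 + L2), ∀ P, word q L1 L2 s P = ext S1 (P % L1) + ext S2 (P % L2) := by
  have hq : 0 < q := Nat.pos_of_ne_zero (NeZero.ne q)
  let f : Fin (L1 + L2) → Fin q := fun i =>
    if i.1 < L1 then ⟨(ext S1 i.1).val, ZMod.val_lt _⟩ else ⟨(ext S2 (i.1 - L1)).val, ZMod.val_lt _⟩
  let s : Fin (q ^ (L1 + L2)) := finFunctionFinEquiv f
  have hs : ∀ i : Fin (L1 + L2), s.1 / q ^ i.1 % q = (f i).1 := by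
    intro i
    have h1 : finFunctionFinEquiv.symm s i = f i := by
      simp [s]
    rw [← h1]
    simp [finFunctionFinEquiv]
  refine ⟨s.1, s.2, ?_⟩
  intro P
  have h1 : P % L1 < L1 := Nat.mod_lt _ hL1
  have h2 : P % L2 < L2 := Nat.mod_lt _ hL2
  have h3 := hs ⟨P % L1, by omega⟩
  have h4 := hs ⟨L1 + P % L2, by omega⟩
  rw [word]
  dsimp only at h3 h4
  rw [h3, h4]
  have e1 : (f ⟨P % L1, by omega⟩).1 = (ext S1 (P % L1)).val := by
    simp only [f]
    rw [if_pos h1]
  have e2 : (f ⟨L1 + P % L2, by omega⟩).1 = (ext S2 (P % L2)).val := by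
    simp only [f]
    rw [if_neg (by omega)]
    simp
  rw [e1, e2, ZMod.natCast_zmod_val, ZMod.natCast_zmod_val]

/-- There is a pair of words with the word property for both moduli. -/
theorem exists_word_pair (q L1 L2 L l' h g : ℕ) [NeZero q] (hL1 : 0 < L1) (hL2 : 0 < L2)
    (hL : 0 < L) (h1 : L1 ∣ L) (h2 : L2 ∣ L) (h3 : 3 ∣ L) (hl : 0 < l') (hh : 0 < h)
    (hnum : 2 * (q * L ^ 2 * 12 ^ h) * (q - 1) ^ (g * l') < q ^ (g * l')) :
    ∃ (S1 : Fin L1 → ZMod q) (S2 : Fin L2 → ZMod q),
      WordProp q L1 (3 * l') h g (fun P => ext S1 (P % L1) + ext S2 (P % L2)) ∧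
      WordProp q L2 (3 * l') h g (fun P => ext S1 (P % L1) + ext S2 (P % L2)) := by
  classical
  have hq : 0 < q := Nat.pos_of_ne_zero (NeZero.ne q)
  have key : ∀ n : ℕ, ∀ c : ℕ, c * q ^ (g * l') ≤
      (q * L ^ 2 * 12 ^ h) * (q ^ n * (q - 1) ^ (g * l')) → 2 * c < q ^ n := by
    intro n c hc
    have h4 : (2 * c) * q ^ (g * l') < q ^ n * q ^ (g * l') := by
      calc (2 * c) * q ^ (g * l') = 2 * (c * q ^ (g * l')) := by ring
        _ ≤ 2 * ((q * L ^ 2 * 12 ^ h) * (q ^ n * (q - 1) ^ (g * l'))) :=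
            Nat.mul_le_mul_left _ hc
        _ = q ^ n * (2 * (q * L ^ 2 * 12 ^ h) * (q - 1) ^ (g * l')) := by ring
        _ < q ^ n * q ^ (g * l') := Nat.mul_lt_mul_of_pos_left hnum (pow_pos hq n)
    exact lt_of_mul_lt_mul_right h4 (Nat.zero_le _)
  have hper : ∀ n, n ∣ L → ∀ S : Fin n → ZMod q, ∀ P k, ext S ((P + L * k) % n) = ext S (P % n) := by
    intro n hn S P k
    obtain ⟨m, hm⟩ := hn
    rw [hm, mul_assoc, Nat.add_mul_mod_self_left]
  obtain ⟨S1, S2, hS1, hS2⟩ := exists_pair
    (α := Fin L1 → ZMod q) (β := Fin L2 → ZMod q)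
    (fun S1 S2 => ¬ WordProp q L1 (3 * l') h g (fun P => ext S1 (P % L1) + ext S2 (P % L2)))
    (fun S1 S2 => ¬ WordProp q L2 (3 * l') h g (fun P => ext S1 (P % L1) + ext S2 (P % L2)))
    (by
      intro S2
      have h4 := bad_count q L1 l' h g L hL1 hl hh hL h1 h3 (fun P => ext S2 (P % L2))
        (fun P k => hper L2 h2 S2 P k)
      have h5 := key L1 _ h4
      rw [Fintype.card_fun, ZMod.card, Fintype.card_fin]
      convert h5)
    (by
      intro S1
      have h4 := bad_count q L2 l' h g L hL2 hl hh hL h2 h3 (fun P => ext S1 (P % L1))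
        (fun P k => hper L1 h1 S1 P k)
      have h5 := key L2 _ h4
      rw [Fintype.card_fun, ZMod.card, Fintype.card_fin]
      have h6 : ∀ S : Fin L2 → ZMod q, (fun P => ext S (P % L2) + ext S1 (P % L1)) =
          (fun P => ext S1 (P % L1) + ext S (P % L2)) := by
        intro S; funext P; ring
      simp only [h6] at h5
      convert h5)
  push Not at hS1 hS2
  exact ⟨S1, S2, hS1, hS2⟩

/-- There is a word with the word property for both moduli. -/
theorem exists_word (q L1 L2 L l' h g : ℕ) [NeZero q] (hL1 : 0 < L1) (hL2 : 0 < L2) (hL : 0 < L)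
    (h1 : L1 ∣ L) (h2 : L2 ∣ L) (h3 : 3 ∣ L) (hl : 0 < l') (hh : 0 < h)
    (hnum : 2 * (q * L ^ 2 * 12 ^ h) * (q - 1) ^ (g * l') < q ^ (g * l')) :
    ∃ s < q ^ (L1 + L2), WordProp q L1 (3 * l') h g (word q L1 L2 s) ∧
      WordProp q L2 (3 * l') h g (word q L1 L2 s) := by
  obtain ⟨S1, S2, hS⟩ := exists_word_pair q L1 L2 L l' h g hL1 hL2 hL h1 h2 h3 hl hh hnum
  obtain ⟨s, hs, hw⟩ := word_eq q L1 L2 S1 S2 hL1 hL2
  refine ⟨s, hs, ?_⟩
  have hw' : word q L1 L2 s = fun P => ext S1 (P % L1) + ext S2 (P % L2) := funext hw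
  rw [hw']
  exact hS

/-- words as numbers -/
theorem digits_of_word (q n : ℕ) [NeZero q] (S : Fin n → ZMod q) :
    ∃ c < q ^ n, ∀ i < n, ((c / q ^ i % q : ℕ) : ZMod q) = ext S i := by
  have hq : 0 < q := Nat.pos_of_ne_zero (NeZero.ne q)
  let f : Fin n → Fin q := fun i => ⟨(S i).val, ZMod.val_lt _⟩
  let s : Fin (q ^ n) := finFunctionFinEquiv f
  have hs : ∀ i : Fin n, s.1 / q ^ i.1 % q = (f i).1 := by
    intro i
    have h1 : finFunctionFinEquiv.symm s i = f i := by
      simp [s]
    rw [← h1]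
    simp [finFunctionFinEquiv]
  refine ⟨s.1, s.2, ?_⟩
  intro i hi
  have h3 := hs ⟨i, hi⟩
  dsimp only at h3
  rw [h3]
  simp only [f]
  rw [ZMod.natCast_zmod_val, ext, dif_pos hi]

end Pool.Agent.H.JS
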