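import Mathlib

/-! Words without misaligned coincidences, absolute rate (union bound, one word of length `L`). -/

namespace Pool.Agent.H.JS2

open Finset

/-- extension of a finite word by zero -/
def ext {α : Type*} [Zero α] {n : ℕ} (S : Fin n → α) (m : ℕ) : α :=
  if h : m < n then S ⟨m, h⟩ else 0

/-! ### Disjoint pairs -/

theorem exists_disjoint {ι α : Type*} [DecidableEq ι] [DecidableEq α] (x y : ι → α) :
    ∀ (N : ℕ) (T : Finset ι), T.card = N → Set.InjOn x (T : Set ι) → Set.InjOn y (T : Set ι) →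
      (∀ t ∈ T, x t ≠ y t) →
      ∃ T' ⊆ T, T.card ≤ 3 * T'.card ∧ ∀ t ∈ T', ∀ t' ∈ T', x t ≠ y t' := by
  intro N
  induction N using Nat.strong_induction_on with
  | _ N ih =>
    intro T hN hx hy hne
    rcases T.eq_empty_or_nonempty with h0 | ⟨t, ht⟩
    · exact ⟨∅, Finset.empty_subset _, by rw [h0]; simp, by simp⟩
    · set T1 := T.filter (fun t' => t' ≠ t ∧ y t' ≠ x t ∧ x t' ≠ y t) with hT1
      have hsub : T1 ⊆ T := Finset.filter_subset _ _
      have hc : T.card ≤ T1.card + 3 := by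
        have h1 : T ⊆ T1 ∪ ({t} ∪ (T.filter (fun t' => y t' = x t) ∪
            T.filter (fun t' => x t' = y t))) := by
          intro t' ht'
          by_cases h2 : t' = t
          · exact Finset.mem_union_right _ (Finset.mem_union_left _ (Finset.mem_singleton.2 h2))
          by_cases h3 : y t' = x t
          · exact Finset.mem_union_right _ (Finset.mem_union_right _
              (Finset.mem_union_left _ (Finset.mem_filter.2 ⟨ht', h3⟩)))
          by_cases h4 : x t' = y t
          · exact Finset.mem_union_right _ (Finset.mem_union_right _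
              (Finset.mem_union_right _ (Finset.mem_filter.2 ⟨ht', h4⟩)))
          exact Finset.mem_union_left _ (Finset.mem_filter.2 ⟨ht', h2, h3, h4⟩)
        have h2 : (T.filter (fun t' => y t' = x t)).card ≤ 1 := by
          rw [Finset.card_le_one]
          intro a ha b hb
          obtain ⟨ha1, ha2⟩ := Finset.mem_filter.1 ha
          obtain ⟨hb1, hb2⟩ := Finset.mem_filter.1 hb
          exact hy (Finset.mem_coe.2 ha1) (Finset.mem_coe.2 hb1) (ha2.trans hb2.symm)
        have h3 : (T.filter (fun t' => x t' = y t)).card ≤ 1 := by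
          rw [Finset.card_le_one]
          intro a ha b hb
          obtain ⟨ha1, ha2⟩ := Finset.mem_filter.1 ha
          obtain ⟨hb1, hb2⟩ := Finset.mem_filter.1 hb
          exact hx (Finset.mem_coe.2 ha1) (Finset.mem_coe.2 hb1) (ha2.trans hb2.symm)
        have h4 := Finset.card_le_card h1
        have h5 := Finset.card_union_le T1 ({t} ∪ (T.filter (fun t' => y t' = x t) ∪
            T.filter (fun t' => x t' = y t)))
        have h6 := Finset.card_union_le ({t} : Finset ι) (T.filter (fun t' => y t' = x t) ∪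
            T.filter (fun t' => x t' = y t))
        have h7 := Finset.card_union_le (T.filter (fun t' => y t' = x t))
          (T.filter (fun t' => x t' = y t))
        rw [Finset.card_singleton] at h6
        omega
      have hlt : T1.card < N := by
        rw [← hN]
        apply Finset.card_lt_card
        refine ⟨hsub, fun hc => ?_⟩
        have := hc ht
        rw [hT1, Finset.mem_filter] at this
        exact this.2.1 rfl
      obtain ⟨T', hT'1, hT'2, hT'3⟩ := ih T1.card hlt T1 rfl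
        (hx.mono (Finset.coe_subset.2 hsub)) (hy.mono (Finset.coe_subset.2 hsub))
        (fun t' ht' => hne t' (hsub ht'))
      have hnot : t ∉ T' := by
        intro hc
        have := hT'1 hc
        rw [hT1, Finset.mem_filter] at this
        exact this.2.1 rfl
      refine ⟨insert t T', ?_, ?_, ?_⟩
      · intro a ha
        rcases Finset.mem_insert.1 ha with h1 | h1
        · rw [h1]; exact ht
        · exact hsub (hT'1 h1)
      · rw [Finset.card_insert_of_notMem hnot]
        omega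
      · intro a ha b hb
        rcases Finset.mem_insert.1 ha with h1 | h1 <;> rcases Finset.mem_insert.1 hb with h2 | h2
        · rw [h1, h2]; exact hne t ht
        · have h3 := (Finset.mem_filter.1 (hT'1 h2)).2.2.1
          rw [h1]; exact fun h => h3 h.symm
        · have h3 := (Finset.mem_filter.1 (hT'1 h1)).2.2.2
          rw [h2]; exact h3
        · exact hT'3 a h1 b h2

/-- number of words that avoid one letter pair at pairwise disjoint pairs of positions -/
theorem disj_count {ι : Type*} [DecidableEq ι] (A L : ℕ) [NeZero A] (x y : ι → Fin L)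
    (s z : Fin A) (T : Finset ι) :
    Set.InjOn x (T : Set ι) → Set.InjOn y (T : Set ι) → (∀ t ∈ T, ∀ t' ∈ T, x t ≠ y t') →
    (univ.filter (fun S : Fin L → Fin A => ∀ t ∈ T, ¬ (S (x t) = s ∧ S (y t) = z))).card *
      (A ^ 2) ^ T.card ≤ A ^ L * (A ^ 2 - 1) ^ T.card := by
  have hA : 0 < A := Nat.pos_of_ne_zero (NeZero.ne A)
  have hA2 : 0 < A ^ 2 := pow_pos hA 2
  induction T using Finset.induction_on with
  | empty => intro _ _ _; simp
  | insert t T ht ih =>
    intro hx hy hxy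
    have hsub : (T : Set ι) ⊆ ((insert t T : Finset ι) : Set ι) :=
      Finset.coe_subset.2 (Finset.subset_insert _ _)
    have hih := ih (hx.mono hsub) (hy.mono hsub)
      (fun a ha b hb => hxy a (Finset.mem_insert_of_mem ha) b (Finset.mem_insert_of_mem hb))
    set B := univ.filter (fun S : Fin L → Fin A => ∀ t ∈ T, ¬ (S (x t) = s ∧ S (y t) = z)) with hB
    set B' := univ.filter (fun S : Fin L → Fin A =>
      ∀ t' ∈ insert t T, ¬ (S (x t') = s ∧ S (y t') = z)) with hB'
    set E := B.filter (fun S => S (x t) = s ∧ S (y t) = z) with hE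
    have hBB : B'.card + E.card = B.card := by
      have h1 : B' = B.filter (fun S => ¬ (S (x t) = s ∧ S (y t) = z)) := by
        ext S
        rw [hB', hB, Finset.mem_filter, Finset.mem_filter, Finset.mem_filter]
        constructor
        · rintro ⟨_, h⟩
          exact ⟨⟨Finset.mem_univ _, fun a ha => h a (Finset.mem_insert_of_mem ha)⟩,
            h t (Finset.mem_insert_self _ _)⟩
        · rintro ⟨⟨_, h⟩, h'⟩
          refine ⟨Finset.mem_univ _, fun a ha => ?_⟩
          rcases Finset.mem_insert.1 ha with h2 | h2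
          · rw [h2]; exact h'
          · exact h a h2
      rw [h1, hE, add_comm]
      exact Finset.card_filter_add_card_filter_not _
    have htx : ∀ a ∈ T, x a ≠ x t ∧ x a ≠ y t ∧ y a ≠ x t ∧ y a ≠ y t := by
      intro a ha
      have ha' := Finset.mem_insert_of_mem (b := t) ha
      have ht' := Finset.mem_insert_self t T
      have hat : a ≠ t := fun h => ht (h ▸ ha)
      refine ⟨?_, hxy a ha' t ht', fun h => hxy t ht' a ha' h.symm, ?_⟩
      · intro h; exact hat (hx (Finset.mem_coe.2 ha') (Finset.mem_coe.2 ht') h)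
      · intro h; exact hat (hy (Finset.mem_coe.2 ha') (Finset.mem_coe.2 ht') h)
    have hxt : x t ≠ y t := hxy t (Finset.mem_insert_self _ _) t (Finset.mem_insert_self _ _)
    have hBE : B.card ≤ A ^ 2 * E.card := by
      let f : (Fin L → Fin A) → (Fin L → Fin A) := fun S =>
        Function.update (Function.update S (x t) s) (y t) z
      have hf : ∀ S c, c ≠ x t → c ≠ y t → f S c = S c := by
        intro S c h1 h2
        simp only [f]
        rw [Function.update_of_ne h2, Function.update_of_ne h1]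
      have hfx : ∀ S, f S (x t) = s := by
        intro S
        simp only [f]
        rw [Function.update_of_ne hxt, Function.update_self]
      have hfy : ∀ S, f S (y t) = z := by
        intro S
        simp only [f]
        rw [Function.update_self]
      have himg : B.image f ⊆ E := by
        intro S' hS'
        obtain ⟨S, hS, rfl⟩ := Finset.mem_image.1 hS'
        have hS2 := (Finset.mem_filter.1 hS).2
        rw [hE, Finset.mem_filter, hB, Finset.mem_filter]
        refine ⟨⟨Finset.mem_univ _, ?_⟩, hfx S, hfy S⟩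
        intro a ha
        obtain ⟨h1, h2, h3, h4⟩ := htx a ha
        rw [hf S _ h1 h2, hf S _ h3 h4]
        exact hS2 a ha
      have hfib : ∀ S' ∈ B.image f, (B.filter (fun S => f S = S')).card ≤ A ^ 2 := by
        intro S' _
        have h1 : (B.filter (fun S => f S = S')).card ≤ (univ : Finset (Fin A × Fin A)).card := by
          apply Finset.card_le_card_of_injOn (fun S => (S (x t), S (y t)))
          · intro S _; exact Finset.mem_coe.2 (Finset.mem_univ _)
          · intro S hS S1 hS1 h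
            have e1 := (Finset.mem_filter.1 (Finset.mem_coe.1 hS)).2
            have e2 := (Finset.mem_filter.1 (Finset.mem_coe.1 hS1)).2
            simp only [Prod.mk.injEq] at h
            funext c
            by_cases h1 : c = x t
            · rw [h1]; exact h.1
            by_cases h2 : c = y t
            · rw [h2]; exact h.2
            rw [← hf S c h1 h2, ← hf S1 c h1 h2, e1, e2]
        rw [Finset.card_univ, Fintype.card_prod, Fintype.card_fin] at h1
        rw [pow_two]; exact h1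
      exact (Finset.card_le_mul_card_image (s := B) (f := f) (A ^ 2) hfib).trans
        (Nat.mul_le_mul_left _ (Finset.card_le_card himg))
    have hstep : A ^ 2 * B'.card ≤ (A ^ 2 - 1) * B.card := by
      obtain ⟨a, ha⟩ : ∃ a, A ^ 2 = a + 1 := ⟨A ^ 2 - 1, by omega⟩
      rw [ha] at hBE ⊢
      rw [Nat.add_sub_cancel]
      have h1 : (a + 1) * B'.card + (a + 1) * E.card = (a + 1) * B.card := by
        rw [← mul_add, hBB]
      have h2 : (a + 1) * B.card = a * B.card + B.card := by ring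
      omega
    rw [Finset.card_insert_of_notMem ht, pow_succ, pow_succ]
    calc B'.card * ((A ^ 2) ^ T.card * A ^ 2) = (A ^ 2 * B'.card) * (A ^ 2) ^ T.card := by ring
      _ ≤ ((A ^ 2 - 1) * B.card) * (A ^ 2) ^ T.card := Nat.mul_le_mul_right _ hstep
      _ = (B.card * (A ^ 2) ^ T.card) * (A ^ 2 - 1) := by ring
      _ ≤ (A ^ L * (A ^ 2 - 1) ^ T.card) * (A ^ 2 - 1) := Nat.mul_le_mul_right _ hih
      _ = A ^ L * ((A ^ 2 - 1) ^ T.card * (A ^ 2 - 1)) := by ring

/-! ### The word property -/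

/-- one violation of the word property -/
structure Viol (L l h g : ℕ) (F : ℕ → ℕ) (s : ℕ) (X0 : ℕ) (Y : ℕ → ℕ)
    (G : Finset ℕ) : Prop where
  lt : ∀ c ∈ G, c < h
  card : g ≤ G.card
  mono : ∀ c c', c < c' → c' < h → Y c ≤ Y c'
  step : ∀ c ∈ G, ∀ c', c < c' → c' < h → Y c + l ≤ Y c'
  fin : ∀ c ∈ G, Y c + l ≤ Y 0 + L
  sum : ∑ c ∈ range (h - 1), |((Y (c + 1) : ℤ) - Y c - l)| ≤ h
  off : ∀ c ∈ G, (X0 + c * l) % L ≠ Y c % L
  free : ∀ c ∈ G, ∀ a < l, (X0 + c * l + a) % 3 ≠ 2 → (Y c + a) % 3 ≠ 2 →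
    ¬ (F (X0 + c * l + a) = s ∧ F (Y c + a) = 0)

/-- the word property -/
def WordProp (A L l h g : ℕ) (F : ℕ → ℕ) : Prop :=
  ∀ (s : ℕ), s < A → ∀ (X0 : ℕ) (Y : ℕ → ℕ) (G : Finset ℕ), ¬ Viol L l h g F s X0 Y G

theorem exists_good_res (X Y : ℕ) : ∃ r < 3, (X + r) % 3 ≠ 2 ∧ (Y + r) % 3 ≠ 2 := by
  have hX : X % 3 = 0 ∨ X % 3 = 1 ∨ X % 3 = 2 := by omega
  have hY : Y % 3 = 0 ∨ Y % 3 = 1 ∨ Y % 3 = 2 := by omega
  rcases hX with hX | hX | hX <;> rcases hY with hY | hY | hY
  · exact ⟨0, by omega, by omega, by omega⟩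
  · exact ⟨0, by omega, by omega, by omega⟩
  · exact ⟨1, by omega, by omega, by omega⟩
  · exact ⟨0, by omega, by omega, by omega⟩
  · exact ⟨0, by omega, by omega, by omega⟩
  · exact ⟨2, by omega, by omega, by omega⟩
  · exact ⟨1, by omega, by omega, by omega⟩
  · exact ⟨2, by omega, by omega, by omega⟩
  · exact ⟨1, by omega, by omega, by omega⟩

theorem mod_ne_of_lt {L a b : ℕ} (h1 : a < b) (h2 : b < a + L) : a % L ≠ b % L := by
  intro h
  have h3 : L ∣ b - a := (Nat.modEq_iff_dvd' h1.le).1 h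
  exact absurd (Nat.le_of_dvd (by omega) h3) (by omega)

theorem add_mod_ne {L a b c : ℕ} (h : a % L ≠ b % L) : (a + c) % L ≠ (b + c) % L := by
  intro h1
  apply h
  exact Nat.ModEq.add_right_cancel' c h1

/-- the letters of a word, read periodically -/
def rd {A L : ℕ} (S : Fin L → Fin A) (P : ℕ) : ℕ :=
  if h : P % L < L then (S ⟨P % L, h⟩).1 else 0

theorem rd_eq {A L : ℕ} (S : Fin L → Fin A) {P : ℕ} (h : P % L < L) :
    rd S P = (S ⟨P % L, h⟩).1 := by
  rw [rd, dif_pos h]

theorem reduce_exp {a b c d : ℕ} (hd : 0 < d) (k n : ℕ) (hkn : k ≤ n) (hcd : c ≤ d)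
    (h : a * d ^ n ≤ b * c ^ n) : a * d ^ k ≤ b * c ^ k := by
  obtain ⟨e, rfl⟩ := Nat.exists_eq_add_of_le hkn
  rw [pow_add, pow_add] at h
  have h2 : c ^ e ≤ d ^ e := Nat.pow_le_pow_left hcd e
  have h3 : (a * d ^ k) * d ^ e ≤ (b * c ^ k) * d ^ e := by
    calc (a * d ^ k) * d ^ e = a * (d ^ k * d ^ e) := by ring
      _ ≤ b * (c ^ k * c ^ e) := h
      _ = (b * c ^ k) * c ^ e := by ring
      _ ≤ (b * c ^ k) * d ^ e := Nat.mul_le_mul_left _ h2
  exact Nat.le_of_mul_le_mul_right h3 (pow_pos hd e)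

open Classical in
/-- number of words with a given violation -/
theorem viol_count (A : ℕ) [NeZero A] (L l' h g : ℕ) (hL : 0 < L) (hl : 0 < l')
    (hhl : h * (9 * l') ≤ L) (s : ℕ) (hs : s < A) (X0 : ℕ) (Y : ℕ → ℕ) (G : Finset ℕ) :
    (univ.filter (fun S : Fin L → Fin A =>
      Viol L (9 * l') h g (rd S) s X0 Y G)).card * (A ^ 2) ^ (g * l')
      ≤ A ^ L * (A ^ 2 - 1) ^ (g * l') := by
  set B := univ.filter (fun S : Fin L → Fin A =>
      Viol L (9 * l') h g (rd S) s X0 Y G) with hB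
  have hA : 0 < A := Nat.pos_of_ne_zero (NeZero.ne A)
  have hA2 : 0 < A ^ 2 := pow_pos hA 2
  by_cases hemp : B = ∅
  · rw [hemp]; simp
  obtain ⟨S0, hS0⟩ := Finset.nonempty_iff_ne_empty.2 hemp
  have V := (Finset.mem_filter.1 hS0).2
  set l := 9 * l' with hldef
  have hlpos : 0 < l := by omega
  let xx : ℕ → Fin L := fun t => ⟨(X0 + t) % L, Nat.mod_lt _ hL⟩
  let yy : ℕ → Fin L := fun t => ⟨(Y (t / l) + t % l) % L, Nat.mod_lt _ hL⟩
  set T := (range (h * l)).filter (fun t => t / l ∈ G ∧ (X0 + t) % 3 ≠ 2 ∧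
    (Y (t / l) + t % l) % 3 ≠ 2) with hT
  have hTc : ∀ t ∈ T, t < h * l ∧ t / l ∈ G ∧ t / l < h ∧ t % l < l ∧
      (t / l) * l + t % l = t := by
    intro t ht
    have h0 := (Finset.mem_filter.1 ht).1
    have h1 := (Finset.mem_filter.1 ht).2.1
    refine ⟨Finset.mem_range.1 h0, h1, V.lt _ h1, Nat.mod_lt _ hlpos, ?_⟩
    have := Nat.div_add_mod t l
    rw [mul_comm] at this
    exact this
  have hxlt : ∀ t ∈ T, ∀ t' ∈ T, t < t' → xx t ≠ xx t' := by
    intro t ht t' ht' hlt h1
    obtain ⟨h2, -⟩ := hTc t' ht'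
    have h3 : (X0 + t) % L = (X0 + t') % L := congrArg Fin.val h1
    exact mod_ne_of_lt (L := L) (a := X0 + t) (b := X0 + t') (by omega) (by omega) h3
  have hylt : ∀ t ∈ T, ∀ t' ∈ T, t < t' → yy t ≠ yy t' := by
    intro t ht t' ht' hlt h1
    obtain ⟨a0, a1, a2, a3, a4⟩ := hTc t ht
    obtain ⟨b0, b1, b2, b3, b4⟩ := hTc t' ht'
    have h3 : (Y (t / l) + t % l) % L = (Y (t' / l) + t' % l) % L := congrArg Fin.val h1
    have key : Y (t / l) + t % l < Y (t' / l) + t' % l := by
      have hle : t / l ≤ t' / l := Nat.div_le_div_right hlt.le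
      rcases Nat.lt_or_ge (t / l) (t' / l) with h0 | h0
      · have := V.step _ a1 _ h0 b2
        omega
      · have h5 : t / l = t' / l := by omega
        rw [h5] at a4 ⊢
        omega
    have h6 := V.fin _ b1
    have h7 : Y 0 ≤ Y (t / l) := by
      rcases Nat.eq_zero_or_pos (t / l) with h0 | h0
      · rw [h0]
      · exact V.mono 0 _ h0 a2
    exact mod_ne_of_lt key (by omega) h3
  have hxinj : Set.InjOn xx (T : Set ℕ) := by
    intro t ht t' ht' h1
    by_contra h2
    rcases Nat.lt_or_gt_of_ne h2 with h3 | h3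
    · exact hxlt t (Finset.mem_coe.1 ht) t' (Finset.mem_coe.1 ht') h3 h1
    · exact hxlt t' (Finset.mem_coe.1 ht') t (Finset.mem_coe.1 ht) h3 h1.symm
  have hyinj : Set.InjOn yy (T : Set ℕ) := by
    intro t ht t' ht' h1
    by_contra h2
    rcases Nat.lt_or_gt_of_ne h2 with h3 | h3
    · exact hylt t (Finset.mem_coe.1 ht) t' (Finset.mem_coe.1 ht') h3 h1
    · exact hylt t' (Finset.mem_coe.1 ht') t (Finset.mem_coe.1 ht) h3 h1.symm
  have hne : ∀ t ∈ T, xx t ≠ yy t := by
    intro t ht h1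
    obtain ⟨a0, a1, a2, a3, a4⟩ := hTc t ht
    have h3 : (X0 + t) % L = (Y (t / l) + t % l) % L := congrArg Fin.val h1
    have h4 := add_mod_ne (c := t % l) (V.off _ a1)
    rw [add_assoc, a4] at h4
    exact h4 h3
  -- many times
  have hcardT : g * (3 * l') ≤ T.card := by
    have hres : ∀ c i : ℕ, ∃ r < 3, (X0 + c * l + 3 * i + r) % 3 ≠ 2 ∧ (Y c + 3 * i + r) % 3 ≠ 2 :=
      fun c i => exists_good_res _ _
    choose r hr3 hrX hrY using hres
    have hinj := Finset.card_le_card_of_injOn (s := G ×ˢ range (3 * l')) (t := T)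
      (fun p : ℕ × ℕ => p.1 * l + (3 * p.2 + r p.1 p.2)) ?_ ?_
    · rw [Finset.card_product, Finset.card_range] at hinj
      exact (Nat.mul_le_mul_right _ V.card).trans hinj
    · intro p hp
      obtain ⟨hp1, hp2⟩ := Finset.mem_product.1 hp
      rw [Finset.mem_range] at hp2
      have hc := V.lt _ hp1
      have hrr := hr3 p.1 p.2
      have hlt : 3 * p.2 + r p.1 p.2 < l := by omega
      have hd : (p.1 * l + (3 * p.2 + r p.1 p.2)) / l = p.1 := by
        rw [mul_comm, Nat.mul_add_div hlpos, Nat.div_eq_of_lt hlt, add_zero]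
      have hm : (p.1 * l + (3 * p.2 + r p.1 p.2)) % l = 3 * p.2 + r p.1 p.2 := by
        rw [mul_comm, Nat.mul_add_mod, Nat.mod_eq_of_lt hlt]
      rw [Finset.mem_coe, hT, Finset.mem_filter, Finset.mem_range]
      have hb : p.1 * l + l ≤ h * l := by
        have := Nat.mul_le_mul_right l (Nat.succ_le_of_lt hc)
        rw [Nat.succ_mul] at this
        exact this
      refine ⟨by dsimp only; omega, ?_⟩
      dsimp only
      rw [hd, hm]
      refine ⟨hp1, ?_, ?_⟩
      · have := hrX p.1 p.2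
        rwa [show X0 + (p.1 * l + (3 * p.2 + r p.1 p.2)) =
          X0 + p.1 * l + 3 * p.2 + r p.1 p.2 by ring]
      · have := hrY p.1 p.2
        rwa [show Y p.1 + (3 * p.2 + r p.1 p.2) = Y p.1 + 3 * p.2 + r p.1 p.2 by ring]
    · intro p hp p' hp' heq
      obtain ⟨hp1, hp2⟩ := Finset.mem_product.1 (Finset.mem_coe.1 hp)
      obtain ⟨hp1', hp2'⟩ := Finset.mem_product.1 (Finset.mem_coe.1 hp')
      rw [Finset.mem_range] at hp2 hp2'
      have hrr := hr3 p.1 p.2
      have hrr' := hr3 p'.1 p'.2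
      have hlt : 3 * p.2 + r p.1 p.2 < l := by omega
      have hlt' : 3 * p'.2 + r p'.1 p'.2 < l := by omega
      dsimp only at heq
      have hd : (p.1 * l + (3 * p.2 + r p.1 p.2)) / l = p.1 := by
        rw [mul_comm, Nat.mul_add_div hlpos, Nat.div_eq_of_lt hlt, add_zero]
      have hd' : (p'.1 * l + (3 * p'.2 + r p'.1 p'.2)) / l = p'.1 := by
        rw [mul_comm, Nat.mul_add_div hlpos, Nat.div_eq_of_lt hlt', add_zero]
      have h1 : p.1 = p'.1 := by rw [← hd, ← hd', heq]
      rw [h1] at heq hrr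
      have h2 : 3 * p.2 + r p'.1 p.2 = 3 * p'.2 + r p'.1 p'.2 := by omega
      have h3 : p.2 = p'.2 := by omega
      exact Prod.ext h1 h3
  obtain ⟨T', hT'1, hT'2, hT'3⟩ := exists_disjoint xx yy T.card T rfl hxinj hyinj hne
  have hT'c : g * l' ≤ T'.card := by
    have h1 : g * (3 * l') = 3 * (g * l') := by ring
    omega
  have hsubT : (T' : Set ℕ) ⊆ (T : Set ℕ) := Finset.coe_subset.2 hT'1
  have hdc := disj_count A L xx yy ⟨s, hs⟩ ⟨0, hA⟩ T' (hxinj.mono hsubT) (hyinj.mono hsubT) hT'3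
  have hsub : B ⊆ univ.filter (fun S : Fin L → Fin A =>
      ∀ t ∈ T', ¬ (S (xx t) = ⟨s, hs⟩ ∧ S (yy t) = ⟨0, hA⟩)) := by
    intro S hS
    rw [Finset.mem_filter]
    refine ⟨Finset.mem_univ _, ?_⟩
    intro t ht hc
    have htT := hT'1 ht
    obtain ⟨a0, a1, a2, a3, a4⟩ := hTc t htT
    obtain ⟨_, h5, h6⟩ := (Finset.mem_filter.1 htT).2
    have h7 := (Finset.mem_filter.1 hS).2.free _ a1 _ a3
    rw [add_assoc, a4] at h7
    apply h7 h5 h6
    rw [rd_eq S (Nat.mod_lt _ hL), rd_eq S (Nat.mod_lt _ hL)]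
    exact ⟨congrArg Fin.val hc.1, congrArg Fin.val hc.2⟩
  have h1 : B.card * (A ^ 2) ^ T'.card ≤ A ^ L * (A ^ 2 - 1) ^ T'.card :=
    (Nat.mul_le_mul_right _ (Finset.card_le_card hsub)).trans hdc
  exact reduce_exp hA2 _ _ hT'c (Nat.sub_le _ _) h1

/-! ### Counting the step sequences -/

theorem sum_half_pow (h : ℕ) :
    ∑ d ∈ Icc (-(h : ℤ)) h, (1 / 2 : ℚ) ^ d.natAbs = 3 - 2 * (1 / 2) ^ h := by
  induction h with
  | zero => norm_num
  | succ h ih =>
    have h1 : Icc (-((h + 1 : ℕ) : ℤ)) ((h + 1 : ℕ) : ℤ) =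
        insert ((h : ℤ) + 1) (insert (-((h : ℤ) + 1)) (Icc (-(h : ℤ)) h)) := by
      ext d
      simp only [Finset.mem_Icc, Finset.mem_insert]
      push_cast
      omega
    rw [h1, Finset.sum_insert, Finset.sum_insert, ih]
    · have e1 : ((h : ℤ) + 1).natAbs = h + 1 := by omega
      have e2 : (-((h : ℤ) + 1)).natAbs = h + 1 := by omega
      rw [e1, e2, pow_succ]
      ring
    · simp
    · simp only [Finset.mem_insert, Finset.mem_Icc]
      omega

/-- step sequences of total variation at most `h` -/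
noncomputable def steps (h : ℕ) : Finset (Fin h → ℤ) :=
  (Fintype.piFinset (fun _ : Fin h => Icc (-(h : ℤ)) h)).filter
    (fun d => ∑ i, (d i).natAbs ≤ h)

theorem card_steps (h : ℕ) : (steps h).card ≤ 6 ^ h := by
  have h1 : ((steps h).card : ℚ) ≤ 2 ^ h * ∑ d ∈ steps h, ∏ i, (1 / 2 : ℚ) ^ (d i).natAbs := by
    rw [Finset.mul_sum, Finset.card_eq_sum_ones]
    push_cast
    apply Finset.sum_le_sum
    intro d hd
    have h2 := (Finset.mem_filter.1 hd).2
    rw [Finset.prod_pow_eq_pow_sum]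
    have h3 : (1 / 2 : ℚ) ^ h ≤ (1 / 2) ^ (∑ i, (d i).natAbs) :=
      pow_le_pow_of_le_one (by norm_num) (by norm_num) h2
    calc (1 : ℚ) = 2 ^ h * (1 / 2) ^ h := by
            rw [← mul_pow]; norm_num
      _ ≤ _ := mul_le_mul_of_nonneg_left h3 (by positivity)
  have h2 : ∑ d ∈ steps h, ∏ i, (1 / 2 : ℚ) ^ (d i).natAbs ≤
      ∑ d ∈ Fintype.piFinset (fun _ : Fin h => Icc (-(h : ℤ)) h),
        ∏ i, (1 / 2 : ℚ) ^ (d i).natAbs := by
    apply Finset.sum_le_sum_of_subset_of_nonneg (Finset.filter_subset _ _)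
    intro d _ _
    exact Finset.prod_nonneg (fun i _ => by positivity)
  have h3 : ∑ d ∈ Fintype.piFinset (fun _ : Fin h => Icc (-(h : ℤ)) h),
        ∏ i, (1 / 2 : ℚ) ^ (d i).natAbs =
      ∏ _i : Fin h, ∑ d ∈ Icc (-(h : ℤ)) h, (1 / 2 : ℚ) ^ d.natAbs :=
    (Finset.prod_univ_sum (fun _ : Fin h => Icc (-(h : ℤ)) h)
      (fun _ d => (1 / 2 : ℚ) ^ d.natAbs)).symm
  have h4 : ∏ _i : Fin h, ∑ d ∈ Icc (-(h : ℤ)) h, (1 / 2 : ℚ) ^ d.natAbs ≤ 3 ^ h := by
    rw [Finset.prod_const, Finset.card_univ, Fintype.card_fin, sum_half_pow]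
    have h5 : (0 : ℚ) ≤ (1 / 2) ^ h := by positivity
    have h6 : (1 / 2 : ℚ) ^ h ≤ 1 := pow_le_one₀ (by norm_num) (by norm_num)
    exact pow_le_pow_left₀ (by linarith) (by linarith) h
  have h5 : ((steps h).card : ℚ) ≤ 6 ^ h := by
    calc ((steps h).card : ℚ) ≤ 2 ^ h * ∑ d ∈ steps h, ∏ i, (1 / 2 : ℚ) ^ (d i).natAbs := h1
      _ ≤ 2 ^ h * 3 ^ h := by
          apply mul_le_mul_of_nonneg_left _ (by positivity)
          exact h2.trans (h3.le.trans h4)
      _ = 6 ^ h := by rw [← mul_pow]; norm_num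
  exact_mod_cast h5

/-- positions of the second job at the starts of the chunks -/
noncomputable def walk (l : ℕ) {h : ℕ} (y0 : ℕ) (d : Fin h → ℤ) (c : ℕ) : ℕ :=
  ((y0 : ℤ) + c * l + ∑ i ∈ range c, ext d i).toNat

theorem walk_eq {L l h g : ℕ} {F : ℕ → ℕ} {s X0 : ℕ} {Y : ℕ → ℕ}
    {G : Finset ℕ} (V : Viol L l h g F s X0 Y G) {c : ℕ} (hc : c < h) :
    Y c = walk l (Y 0 % L)
      (fun i : Fin h => if i.1 + 1 < h then (Y (i.1 + 1) : ℤ) - Y i.1 - l else 0) c +
        L * (Y 0 / L) := by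
  have h1 : ∀ b ≤ c, ∑ i ∈ range b, ext
      (fun i : Fin h => if i.1 + 1 < h then (Y (i.1 + 1) : ℤ) - Y i.1 - l else 0) i =
      (Y b : ℤ) - Y 0 - b * l := by
    intro b
    induction b with
    | zero => intro _; simp
    | succ b ih =>
      intro hb
      rw [Finset.sum_range_succ, ih (by omega)]
      have h2 : b < h := by omega
      have h3 : b + 1 < h := by omega
      simp only [ext, h2, h3, dif_pos, if_true]
      push_cast
      ring
  have h2 : Y 0 ≤ Y c := by
    rcases Nat.eq_zero_or_pos c with h0 | h0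
    · rw [h0]
    · exact V.mono 0 c h0 hc
  have h3 := Nat.mod_add_div (Y 0) L
  rw [walk, h1 c le_rfl]
  have h4 : ((Y 0 % L : ℕ) : ℤ) + c * l + ((Y c : ℤ) - Y 0 - c * l) =
      ((Y c - L * (Y 0 / L) : ℕ) : ℤ) := by
    have h5 : L * (Y 0 / L) ≤ Y c := by omega
    rw [Nat.cast_sub h5]
    have h6 : ((Y 0 % L : ℕ) : ℤ) + ((L * (Y 0 / L) : ℕ) : ℤ) = (Y 0 : ℤ) := by exact_mod_cast h3
    linarith
  rw [h4, Int.toNat_natCast]
  omega

theorem viol_reduce {L l h g : ℕ} {F : ℕ → ℕ} {s X0 : ℕ} {Y : ℕ → ℕ}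
    {G : Finset ℕ} (hh : 0 < h) (h3L : 3 ∣ L)
    (hper : ∀ P k, F (P + L * k) = F P) (V : Viol L l h g F s X0 Y G) :
    Viol L l h g F s (X0 % L) (walk l (Y 0 % L)
      (fun i : Fin h => if i.1 + 1 < h then (Y (i.1 + 1) : ℤ) - Y i.1 - l else 0)) G := by
  obtain ⟨m3, hm3⟩ := h3L
  set y : ℕ → ℕ := walk l (Y 0 % L)
      (fun i : Fin h => if i.1 + 1 < h then (Y (i.1 + 1) : ℤ) - Y i.1 - l else 0) with hy
  have hw : ∀ c < h, Y c = y c + L * (Y 0 / L) := fun c hc => walk_eq V hc
  set x := X0 % L with hx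
  set k := Y 0 / L with hk
  set k' := X0 / L with hk'
  have hX : X0 = x + L * k' := (Nat.mod_add_div X0 L).symm
  have hmod : ∀ a b : ℕ, (a + L * b) % L = a % L := by
    intro a b
    rw [Nat.add_mul_mod_self_left]
  have hmod3 : ∀ a b : ℕ, (a + L * b) % 3 = a % 3 := by
    intro a b
    rw [hm3, mul_assoc, Nat.add_mul_mod_self_left]
  refine ⟨V.lt, V.card, ?_, ?_, ?_, ?_, ?_, ?_⟩
  · intro c c' hcc hc'
    have h1 := V.mono c c' hcc hc'
    rw [hw c (by omega), hw c' hc'] at h1
    omega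
  · intro c hc c' hcc hc'
    have h1 := V.step c hc c' hcc hc'
    rw [hw c (by omega), hw c' hc'] at h1
    omega
  · intro c hc
    have h1 := V.fin c hc
    rw [hw c (V.lt c hc), hw 0 hh] at h1
    omega
  · have h1 := V.sum
    calc _ = ∑ c ∈ range (h - 1), |((Y (c + 1) : ℤ) - Y c - l)| := by
          apply Finset.sum_congr rfl
          intro c hc
          have hc' := Finset.mem_range.1 hc
          rw [hw c (by omega), hw (c + 1) (by omega)]
          push_cast
          congr 1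
          ring
      _ ≤ _ := h1
  · intro c hc
    have h1 := V.off c hc
    rw [hw c (V.lt c hc), hX, show x + L * k' + c * l = (x + c * l) + L * k' by ring,
      hmod, hmod] at h1
    exact h1
  · intro c hc a ha h1 h2
    have h3 := V.free c hc a ha
    rw [hw c (V.lt c hc), hX, show x + L * k' + c * l + a = (x + c * l + a) + L * k' by ring,
      show y c + L * k + a = (y c + a) + L * k by ring, hmod3, hmod3, hper, hper] at h3
    exact h3 h1 h2

open Classical in
theorem bad_count (A : ℕ) [NeZero A] (L l' h g : ℕ) (hl : 0 < l') (hh : 0 < h)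
    (hL : 0 < L) (h3L : 3 ∣ L) (hhl : h * (9 * l') ≤ L) :
    (univ.filter (fun S : Fin L → Fin A =>
      ¬ WordProp A L (9 * l') h g (rd S))).card * (A ^ 2) ^ (g * l')
      ≤ (A * L ^ 2 * 12 ^ h) * (A ^ L * (A ^ 2 - 1) ^ (g * l')) := by
  set C : Finset (Fin A × Fin L × Fin L × (Fin h → ℤ) × Finset ℕ) :=
    univ ×ˢ univ ×ˢ univ ×ˢ steps h ×ˢ (range h).powerset with hC
  have hCc : C.card ≤ A * L ^ 2 * 12 ^ h := by
    rw [hC, Finset.card_product, Finset.card_product, Finset.card_product, Finset.card_product,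
      Finset.card_univ, Fintype.card_fin, Finset.card_univ, Fintype.card_fin, Finset.card_powerset,
      Finset.card_range]
    calc A * (L * (L * ((steps h).card * 2 ^ h))) ≤ A * (L * (L * (6 ^ h * 2 ^ h))) := by
          gcongr
          exact card_steps h
      _ = A * L ^ 2 * 12 ^ h := by
          rw [← mul_pow]; ring
  set W : (Fin A × Fin L × Fin L × (Fin h → ℤ) × Finset ℕ) → Finset (Fin L → Fin A) :=
    fun k => univ.filter (fun S : Fin L → Fin A =>
      Viol L (9 * l') h g (rd S) k.1.1 k.2.1.1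
        (walk (9 * l') k.2.2.1.1 k.2.2.2.1) k.2.2.2.2) with hW
  have hsub : univ.filter (fun S : Fin L → Fin A =>
      ¬ WordProp A L (9 * l') h g (rd S)) ⊆ C.biUnion W := by
    intro S hS
    have h1 := (Finset.mem_filter.1 hS).2
    unfold WordProp at h1
    push Not at h1
    obtain ⟨s, hs, X0, Y, G, V⟩ := h1
    have hperF : ∀ P k, rd S (P + L * k) = rd S P := by
      intro P k
      rw [rd_eq S (Nat.mod_lt _ hL), rd_eq S (Nat.mod_lt _ hL)]
      congr 2
      apply Fin.ext
      exact Nat.add_mul_mod_self_left P L k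
    have V' := viol_reduce hh h3L hperF V
    set d : Fin h → ℤ :=
      fun i : Fin h => if i.1 + 1 < h then (Y (i.1 + 1) : ℤ) - Y i.1 - (9 * l' : ℕ) else 0 with hd
    rw [Finset.mem_biUnion]
    refine ⟨(⟨s, hs⟩, ⟨X0 % L, Nat.mod_lt _ hL⟩, ⟨Y 0 % L, Nat.mod_lt _ hL⟩, d, G), ?_, ?_⟩
    · rw [hC]
      simp only [Finset.mem_product, Finset.mem_univ, true_and, Finset.mem_powerset]
      have hsum : ∑ i, (d i).natAbs ≤ h := by
        have h2 := V.sum
        have h3 : ((∑ i, (d i).natAbs : ℕ) : ℤ) =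
            ∑ c ∈ range (h - 1), |((Y (c + 1) : ℤ) - Y c - (9 * l' : ℕ))| := by
          push_cast
          rw [Fin.sum_univ_eq_sum_range (fun i => |(if i + 1 < h then
            (Y (i + 1) : ℤ) - Y i - (9 * l' : ℕ) else 0)|) h]
          obtain ⟨h', rfl⟩ : ∃ h', h = h' + 1 := ⟨h - 1, by omega⟩
          rw [Finset.sum_range_succ]
          simp only [Nat.add_sub_cancel, lt_self_iff_false, if_false, abs_zero, add_zero]
          apply Finset.sum_congr rfl
          intro c hc
          have hc' := Finset.mem_range.1 hc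
          have h4 : c + 1 < h' + 1 := by omega
          simp only [h4, if_true]
          push_cast
          rfl
        have h4 : ((∑ i, (d i).natAbs : ℕ) : ℤ) ≤ h := by rw [h3]; exact h2
        exact_mod_cast h4
      refine ⟨?_, ?_⟩
      · rw [steps, Finset.mem_filter, Fintype.mem_piFinset]
        refine ⟨?_, hsum⟩
        intro i
        have h5 : (d i).natAbs ≤ h :=
          (Finset.single_le_sum (f := fun i => (d i).natAbs) (fun i _ => Nat.zero_le _)
            (Finset.mem_univ i)).trans hsum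
        rw [Finset.mem_Icc]
        omega
      · intro c hc
        exact Finset.mem_range.2 (V.lt c hc)
    · rw [hW]
      exact Finset.mem_filter.2 ⟨Finset.mem_univ _, V'⟩
  have h1 : (univ.filter (fun S : Fin L → Fin A =>
      ¬ WordProp A L (9 * l') h g (rd S))).card ≤
      ∑ k ∈ C, (W k).card := (Finset.card_le_card hsub).trans Finset.card_biUnion_le
  calc _ ≤ (∑ k ∈ C, (W k).card) * (A ^ 2) ^ (g * l') := Nat.mul_le_mul_right _ h1
    _ = ∑ k ∈ C, (W k).card * (A ^ 2) ^ (g * l') := Finset.sum_mul _ _ _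
    _ ≤ ∑ k ∈ C, A ^ L * (A ^ 2 - 1) ^ (g * l') := by
        apply Finset.sum_le_sum
        intro k _
        exact viol_count A L l' h g hL hl hhl _ k.1.2 _ _ _
    _ = C.card * (A ^ L * (A ^ 2 - 1) ^ (g * l')) := by
        rw [Finset.sum_const, smul_eq_mul]
    _ ≤ _ := Nat.mul_le_mul_right _ hCc

/-- words as numbers -/
theorem digits_of_word (A L : ℕ) (hL : 0 < L) (S : Fin L → Fin A) :
    ∃ w < A ^ L, ∀ P, w / A ^ (P % L) % A = rd S P := by
  let s : Fin (A ^ L) := finFunctionFinEquiv S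
  have hs : ∀ i : Fin L, s.1 / A ^ i.1 % A = (S i).1 := by
    intro i
    have h1 : finFunctionFinEquiv.symm s i = S i := by
      simp [s]
    rw [← h1]
    simp [finFunctionFinEquiv]
  refine ⟨s.1, s.2, ?_⟩
  intro P
  rw [rd_eq S (Nat.mod_lt _ hL)]
  exact hs ⟨P % L, Nat.mod_lt _ hL⟩

/-- There is a word with the word property. -/
theorem exists_word (L u g : ℕ) (hu : 0 < u) (hg : 0 < g)
    (hL : 0 < L) (h3L : 3 ∣ L) (hhl : (u * g) * (9 * (605 * u)) ≤ L)
    (hnum : 11 * L ^ 2 ≤ 2 ^ (u * g)) :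
    ∃ w < 11 ^ L, WordProp 11 L (9 * (605 * u)) (u * g) g (fun P => w / 11 ^ (P % L) % 11) := by
  classical
  have hh : 0 < u * g := Nat.mul_pos hu hg
  have h1 := bad_count 11 L (605 * u) (u * g) g (by omega) hh hL h3L hhl
  by_cases hex : ∃ S : Fin L → Fin 11, WordProp 11 L (9 * (605 * u)) (u * g) g (rd S)
  · obtain ⟨S, hS⟩ := hex
    obtain ⟨w, hw, hwS⟩ := digits_of_word 11 L hL S
    refine ⟨w, hw, ?_⟩
    rw [show (fun P => w / 11 ^ (P % L) % 11) = rd S from funext hwS]
    exact hS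
  exfalso
  push Not at hex
  have h2 : univ.filter (fun S : Fin L → Fin 11 =>
      ¬ WordProp 11 L (9 * (605 * u)) (u * g) g (rd S)) = univ :=
    Finset.filter_true_of_mem (fun S _ => hex S)
  rw [h2, Finset.card_univ, Fintype.card_fun, Fintype.card_fin, Fintype.card_fin] at h1
  set h := u * g with hhdef
  have he : g * (605 * u) = 605 * h := by rw [hhdef]; ring
  rw [he] at h1
  have h3 : (0 : ℕ) < 11 ^ L := by positivity
  have h4 : (11 ^ 2) ^ (605 * h) ≤ (11 * L ^ 2 * 12 ^ h) * (11 ^ 2 - 1) ^ (605 * h) := by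
    have : 11 ^ L * (11 ^ 2) ^ (605 * h) ≤
        11 ^ L * ((11 * L ^ 2 * 12 ^ h) * (11 ^ 2 - 1) ^ (605 * h)) := by
      calc _ ≤ _ := h1
        _ = _ := by ring
    exact Nat.le_of_mul_le_mul_left this h3
  have h5 : (32 : ℕ) * (11 ^ 2 - 1) ^ (121 * 5) ≤ (11 ^ 2) ^ (121 * 5) := by
    have e1 : (2 : ℕ) * (11 ^ 2 - 1) ^ 121 ≤ (11 ^ 2) ^ 121 := by norm_num
    have e2 := Nat.pow_le_pow_left e1 5
    have e3 : (2 * (11 ^ 2 - 1) ^ 121) ^ 5 = (32 : ℕ) * (11 ^ 2 - 1) ^ (121 * 5) := by
      rw [mul_pow, pow_mul (11 ^ 2 - 1) 121 5]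
      rfl
    have e4 : (((11 ^ 2) ^ 121) ^ 5 : ℕ) = (11 ^ 2) ^ (121 * 5) := by
      rw [pow_mul (11 ^ 2) 121 5]
    rw [← e3, ← e4]
    exact e2
  have h6 : (32 : ℕ) ^ h * (11 ^ 2 - 1) ^ (605 * h) ≤ (11 ^ 2) ^ (605 * h) := by
    rw [show 605 = 121 * 5 from rfl, pow_mul _ (121 * 5) h, pow_mul _ (121 * 5) h, ← mul_pow]
    exact Nat.pow_le_pow_left h5 h
  have h7 : 0 < (11 ^ 2 - 1) ^ (605 * h) := by positivity
  have h8 : (32 : ℕ) ^ h * (11 ^ 2 - 1) ^ (605 * h) ≤
      (2 ^ h * 12 ^ h) * (11 ^ 2 - 1) ^ (605 * h) := by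
    refine h6.trans (h4.trans ?_)
    exact Nat.mul_le_mul_right _ (Nat.mul_le_mul_right _ hnum)
  have h9 : (32 : ℕ) ^ h ≤ 24 ^ h := by
    have := Nat.le_of_mul_le_mul_right h8 h7
    rwa [← mul_pow] at this
  have h10 : (24 : ℕ) ^ h < 32 ^ h := Nat.pow_lt_pow_left (by norm_num) (by omega)
  omega

end Pool.Agent.H.JS2
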